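import Pool.Agent.Lib_helper43.NC.Path3
import Pool.Agent.Lib_helper23.Exact.Glue
import Pool.Agent.Lib_helper68.Exact.PoEm

/-!
# The end of the path for a cut of the two chains, joint data
-/

set_option autoImplicit false
set_option linter.unusedSectionVars false
set_option linter.unusedSimpArgs false
set_option linter.unnecessarySeqFocus false
set_option linter.unreachableTactic false
set_option linter.unusedTactic false

namespace Pool.Agent.Exact

open Finset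

variable {V : Type*} [Fintype V] [DecidableEq V]
variable {B : V → V → ℤ} {Rl : Finset V} {ℓ nQ nP : ℕ} {uq up : ℕ → V} {q p : ℕ → ℝ}
variable {k : ℤ} {θ : ℝ}

/-- end of the path without a last vertex; `c1`, `c2` bound `D` and `D + L` -/
structure DN (B : V → V → ℤ) (uq up : ℕ → V) (a b : ℕ) (g q0 c1 c2 Y w σ Γ D0 L0 Dw Lw : ℝ) :
    Prop where
  w0 : 0 ≤ w
  s0 : 0 ≤ σ
  l0 : 0 ≤ L0
  lw : 0 ≤ Lw
  d0 : D0 ≤ c1
  dl0 : D0 + L0 ≤ c2 - σ
  dw : Dw ≤ c1
  dlw : Dw + Lw ≤ q0 - g - Γ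
  v0 : EV B (vs uq up (hb1 a b)) D0 L0
  vw : EV B (vs uq up (hb1 a b)) Dw Lw
  t2 : EV B (vs uq up (hb a b)) (-g) (max Y w)

/-- end of the path with a last vertex `y` -/
structure DL (B : V → V → ℤ) (nQ nP : ℕ) (uq up : ℕ → V) (a b : ℕ)
    (g q0 pb c1 c2 Y w σ Γ D0 L0 Dw Lw sy ay cy : ℝ) (y : V) : Prop where
  yR : y ∈ vs uq up (rr nQ nP a b)
  im : ((im B y : ℤ) : ℝ) = - sy
  mm : ((MM B (uq 0) y : ℤ) : ℝ) = ay
  a1 : 1 ≤ ay
  a2 : ay ≤ 2
  ac : ay ≤ 1 + cy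
  c0 : 0 ≤ cy
  say : ay + 1 ≤ sy
  syp : sy ≤ pb
  w0 : 0 ≤ w
  s0 : 0 ≤ σ
  l0 : 1 ≤ L0
  lw : 1 ≤ Lw
  d0 : D0 ≤ c1
  dl0 : D0 + L0 ≤ c2 - σ
  dw : Dw ≤ c1
  dlw : Dw + Lw ≤ q0 - g - Γ
  v0y : EV B (insert y (vs uq up (hb1 a b))) D0 L0
  v0 : EV B (vs uq up (hb1 a b)) (D0 + ay) |L0 - sy|
  vwy : EV B (insert y (vs uq up (hb1 a b))) Dw Lw
  vw : EV B (vs uq up (hb1 a b)) (Dw + ay) |Lw - sy|
  t2 : EV B (vs uq up (hb a b)) (-g) (max |Y - sy| w)

section
variable (h : Ctx B Rl ℓ nQ nP uq up q p k θ)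
include h

variable {Rs S : Finset V} {g : ℤ} {Kc : V → Finset V} {pick : Finset V → V}

/-- adding the dummies -/
lemma Ctx.evDm {a b : ℕ} (ha : a ≤ nQ) (hb' : b ≤ nP) {D L : ℝ}
    (hE : EV B (vs uq up (hb1 a b ∪ dm ℓ nQ nP)) D L) : EV B (vs uq up (hb1 a b)) D L := by
  have hQ := h.fr.nQle
  have hP := h.fr.nPle
  intro M K t hK hst
  exact hE M K t hK (h.fr.withDm hK hst (by
    unfold hb1 rr
    intro x hx
    revert hx
    rcases x with x | x <;>
    simp only [Finset.mem_union, inl_mem_iq, inr_mem_iq, inl_mem_ip, inr_mem_ip,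
      or_false, false_or] <;> omega))

/-- adding the dummies, with an extra vertex -/
lemma Ctx.evDmy {a b : ℕ} (ha : a ≤ nQ) (hb' : b ≤ nP) {D L : ℝ} {y : V}
    (hy : y ∈ vs uq up (rr nQ nP a b))
    (hE : EV B (insert y (vs uq up (hb1 a b ∪ dm ℓ nQ nP))) D L) :
    EV B (insert y (vs uq up (hb1 a b))) D L := by
  have hQ := h.fr.nQle
  have hP := h.fr.nPle
  intro M K t hK hst
  refine hE M K t hK ?_
  have f1 : rr nQ nP a b ⊆ full ℓ := by
    unfold rr
    intro x hx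
    revert hx
    rcases x with x | x <;>
    simp only [Finset.mem_union, inl_mem_full, inr_mem_full, inl_mem_iq, inr_mem_iq, inl_mem_ip,
      inr_mem_ip, or_false, false_or] <;> omega
  have f2 : dm ℓ nQ nP ⊆ full ℓ := by
    unfold dm
    intro x hx
    revert hx
    rcases x with x | x <;>
    simp only [Finset.mem_union, inl_mem_full, inr_mem_full, inl_mem_iq, inr_mem_iq, inl_mem_ip,
      inr_mem_ip, or_false, false_or] <;> omega
  have f3 : hb1 a b ⊆ full ℓ := by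
    unfold hb1
    intro x hx
    revert hx
    rcases x with x | x <;>
    simp only [Finset.mem_union, inl_mem_full, inr_mem_full, inl_mem_iq, inr_mem_iq, inl_mem_ip,
      inr_mem_ip, or_false, false_or] <;> omega
  have d1 : Disjoint (rr nQ nP a b) (dm ℓ nQ nP) := by
    unfold rr dm
    rw [Finset.disjoint_left]
    intro x hx hx'
    revert hx hx'
    rcases x with x | x <;>
    simp only [Finset.mem_union, inl_mem_iq, inr_mem_iq, inl_mem_ip, inr_mem_ip, or_false,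
      false_or] <;> omega
  have d2 : Disjoint (hb1 a b) (dm ℓ nQ nP) := by
    unfold hb1 dm
    rw [Finset.disjoint_left]
    intro x hx hx'
    revert hx hx'
    rcases x with x | x <;>
    simp only [Finset.mem_union, inl_mem_iq, inr_mem_iq, inl_mem_ip, inr_mem_ip, or_false,
      false_or] <;> omega
  have hdm : Disjoint (insert y (vs uq up (hb1 a b))) ((dm ℓ nQ nP).image (vx uq up)) := by
    rw [Finset.disjoint_insert_left]
    exact ⟨Finset.disjoint_left.1 (h.fr.disj f1 f2 d1) hy, h.fr.disj f3 f2 d2⟩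
  have h10 := St.union hst (h.fr.stDm hK) hdm
  have e1 : insert y (vs uq up (hb1 a b)) ∪ (dm ℓ nQ nP).image (vx uq up) =
      insert y (vs uq up (hb1 a b ∪ dm ℓ nQ nP)) := by
    unfold vs
    rw [Finset.image_union, Finset.insert_union]
  rw [e1] at h10
  exact h10.mono (by norm_num) le_rfl (by norm_num)

/-- all hubs -/
lemma Ctx.evT2 {a b : ℕ} (ha : a ≤ nQ) (hb' : b ≤ nP) {D L : ℝ}
    (hE : EV B (univ \ vs uq up (rr nQ nP a b)) D L) : EV B (vs uq up (hb a b)) D L := by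
  have hQ := h.fr.nQle
  have hP := h.fr.nPle
  intro M K t hK hst
  have h3 := h.fr.withDm hK hst (by
    unfold hb rr
    intro x hx
    revert hx
    rcases x with x | x <;>
    simp only [Finset.mem_union, inl_mem_iq, inr_mem_iq, inl_mem_ip, inr_mem_ip,
      or_false, false_or] <;> omega)
  have h4 : Finset.univ \ vs uq up (rr nQ nP a b) = (hb a b ∪ dm ℓ nQ nP).image (vx uq up) := by
    unfold vs
    have h5 : full ℓ = rr nQ nP a b ∪ (hb a b ∪ dm ℓ nQ nP) := by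
      unfold rr hb dm
      ext x
      rcases x with x | x <;>
      simp only [Finset.mem_union, inl_mem_full, inr_mem_full, inl_mem_iq, inr_mem_iq,
        inl_mem_ip, inr_mem_ip, or_false, false_or] <;> omega
    rw [← h.fr.univ, h5, Finset.image_union, Finset.union_sdiff_cancel_left]
    refine h.fr.disj ?_ ?_ ?_
    · unfold rr
      intro x hx
      revert hx
      rcases x with x | x <;>
      simp only [Finset.mem_union, inl_mem_full, inr_mem_full, inl_mem_iq, inr_mem_iq, inl_mem_ip,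
        inr_mem_ip, or_false, false_or] <;> omega
    · unfold hb dm
      intro x hx
      revert hx
      rcases x with x | x <;>
      simp only [Finset.mem_union, inl_mem_full, inr_mem_full, inl_mem_iq, inr_mem_iq, inl_mem_ip,
        inr_mem_ip, or_false, false_or] <;> omega
    · unfold rr hb dm
      rw [Finset.disjoint_left]
      intro x hx hx'
      revert hx hx'
      rcases x with x | x <;>
      simp only [Finset.mem_union, inl_mem_iq, inr_mem_iq, inl_mem_ip, inr_mem_ip, or_false,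
        false_or] <;> omega
  rw [h4] at hE
  exact hE M K t hK h3

/-- the crossing at a last vertex -/
lemma Ctx.crsOf {a b : ℕ} {D L : ℝ} {s : ℝ} (hE : EV B (vs uq up (hb1 a b)) D |L - s|)
    (hL : 1 ≤ L) (hs : L ≤ s) (hp : s ≤ p b) : CrSI B uq up p a b D := by
  intro M K t hK hpK hst
  refine (hE M K t hK hst).mono ?_
  rw [abs_of_nonpos (by linarith)]
  have h13 : max (max (-(L - s)) K) ((-(L - s) + t) / 2) ≤ max K ((t + p b - 1) / 2) :=
    max_le (max_le (le_trans (by linarith) (hpK.trans (le_max_left _ _))) (le_max_left _ _))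
      (le_trans (by linarith) (le_max_right _ _))
  linarith

/-- **The end of the path, joint data.** -/
theorem Ctx.end3 (hnv : ¬ Val B θ) (hq0 : 0 < q 0) {a b : ℕ}
    (hC : Closed B nQ nP uq up q p θ a b)
    (hdec : Dec B pick (vs uq up (rr nQ nP a b)) Rs S g Kc) :
    ∃ (Yz : ℤ) (Y nb w σ Γ D0 L0 Dw Lw : ℝ), ((Yz : ℝ) = Y ∧ T2I B uq up a b S g Yz ∧
      T2A B uq up a b S g Yz) ∧ 0 ≤ Y ∧ 0 ≤ nb ∧ (Rs.card : ℝ) ≤ g + nb ∧
      (∀ y0 : ℤ, (∀ v ∈ Rs, |im B v| ≤ y0) → Y ≤ Rs.card * y0) ∧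
      ((Gam B (uq 0) S : ℤ) : ℝ) ≤ Γ ∧
      ((Rs.Nonempty ∧ 1 ≤ g ∧ 1 ≤ nb ∧
        (DN B uq up a b g (q 0) (cRr B nQ nP uq up a b - nb)
          (cRr B nQ nP uq up a b - nb + q 0 - Y) Y w σ Γ D0 L0 Dw Lw ∧
          (w ≤ 2 ∨ (w ≤ σ ∧ (w ≤ q a ∨ w ≤ p b))) ∧
          σ = Γ + ((ch (MM B (uq 0)) S : ℤ) : ℝ) ∨
        ∃ sy ay cy y, DL B nQ nP uq up a b g (q 0) (p b) (cRr B nQ nP uq up a b - cy - nb)
          (cRr B nQ nP uq up a b - cy - nb + q 0 - Y) Y w σ Γ D0 L0 Dw Lw sy ay cy y ∧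
          (w ≤ 2 ∨ (w ≤ σ ∧ (w ≤ q a ∨ w ≤ p b))) ∧ sy ≤ L0 ∧ sy ≤ Lw ∧
          σ = Γ + ((ch (MM B (uq 0)) S : ℤ) : ℝ) - cy)) ∨
      (Rs = ∅ ∧ g = 0 ∧ Y = 0 ∧ σ = Γ ∧
        (DN B uq up a b 0 (q 0) (min 1 (cRr B nQ nP uq up a b)) (q 0) 0 w σ Γ D0 L0 Dw Lw ∧
          (w ≤ 2 ∨ (w ≤ σ + 1 ∧ (w ≤ q a ∨ w ≤ p b))) ∨
        ∃ sy ay cy y, DL B nQ nP uq up a b 0 (q 0) (p b) 0 (q 0) 0 w σ Γ D0 L0 Dw Lw sy ay cy y ∧
          (w ≤ 2 ∨ (w ≤ σ ∧ (w ≤ q a ∨ w ≤ p b)))))) := by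
  classical
  have hQ := h.fr.nQle
  have hP := h.fr.nPle
  have hB0 := h.fr.sys.B0
  have hB1 := h.fr.sys.B1
  have hBd := h.fr.sys.Bd
  have ha1 := hC.a1
  have haQ := hC.aQ
  have hbP := hC.bP
  have hRS := hdec.un
  have hdS := hdec.dj
  have hbl := hdec.bl
  have hind := hdec.ind
  have hSR : S ⊆ vs uq up (rr nQ nP a b) := by rw [← hRS]; exact Finset.subset_union_right
  set R := vs uq up (rr nQ nP a b) with hR
  set hv : V := uq 0 with hhv
  set Cv : Finset V := vs uq up (hb1 a b ∪ dm ℓ nQ nP) with hCv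
  have hfull : insert (Sum.inl 0) (rr nQ nP a b ∪ (hb1 a b ∪ dm ℓ nQ nP)) = full ℓ := by
    unfold rr hb1 dm
    ext x
    rcases x with x | x <;>
    simp only [Finset.mem_union, Finset.mem_insert, inl_mem_full, inr_mem_full, inl_mem_iq,
      inr_mem_iq, inl_mem_ip, inr_mem_ip, Sum.inl.injEq, reduceCtorEq, or_false, false_or] <;>
      omega
  have hRf : rr nQ nP a b ⊆ full ℓ := by
    unfold rr
    intro x hx
    revert hx
    rcases x with x | x <;>
    simp only [Finset.mem_union, inl_mem_full, inr_mem_full, inl_mem_iq, inr_mem_iq, inl_mem_ip,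
      inr_mem_ip, or_false, false_or] <;> omega
  have hCf : hb1 a b ∪ dm ℓ nQ nP ⊆ full ℓ := by
    unfold hb1 dm
    intro x hx
    revert hx
    rcases x with x | x <;>
    simp only [Finset.mem_union, inl_mem_full, inr_mem_full, inl_mem_iq, inr_mem_iq, inl_mem_ip,
      inr_mem_ip, or_false, false_or] <;> omega
  have h0R : (Sum.inl 0 : ℕ ⊕ ℕ) ∉ rr nQ nP a b := by
    unfold rr
    simp only [Finset.mem_union, inl_mem_iq, inl_mem_ip, or_false, not_and]
    omega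
  have h0C : (Sum.inl 0 : ℕ ⊕ ℕ) ∉ hb1 a b ∪ dm ℓ nQ nP := by
    unfold hb1 dm
    simp only [Finset.mem_union, inl_mem_iq, inl_mem_ip, or_false, not_or, not_and]
    omega
  have h0f : (Sum.inl 0 : ℕ ⊕ ℕ) ∈ full ℓ := by simp; omega
  have hnot : ∀ I ⊆ full ℓ, (Sum.inl 0 : ℕ ⊕ ℕ) ∉ I → hv ∉ vs uq up I := by
    intro I hI h0 hmem
    unfold vs at hmem
    rw [Finset.mem_image] at hmem
    obtain ⟨x, hx, hx'⟩ := hmem
    have := h.fr.inj (hI hx) h0f hx'
    rw [this] at hx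
    exact h0 hx
  have hhR : hv ∉ Rs ∪ S := by rw [hRS]; exact hnot _ hRf h0R
  have hhC : hv ∉ Cv := hnot _ hCf h0C
  have hdRC : Disjoint (Rs ∪ S) Cv := by
    rw [hRS]
    refine h.fr.disj hRf hCf ?_
    unfold rr hb1 dm
    rw [Finset.disjoint_left]
    intro x hx hx'
    revert hx hx'
    rcases x with x | x <;>
    simp only [Finset.mem_union, inl_mem_iq, inr_mem_iq, inl_mem_ip, inr_mem_ip, or_false,
      false_or] <;> omega
  have huniv : insert hv ((Rs ∪ S) ∪ Cv) = Finset.univ := by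
    rw [hRS, hR, hCv]
    unfold vs
    rw [← Finset.image_union, ← h.fr.univ, ← hfull, Finset.image_insert]
    rfl
  have himq : ((im B hv : ℤ) : ℝ) = q 0 := h.fr.sys.wtQ 0 (by omega)
  have hq : 0 < im B hv := by
    have : (0 : ℝ) < ((im B hv : ℤ) : ℝ) := by rw [himq]; exact hq0
    exact_mod_cast this
  have hchU : ch (MM B hv) (Rs ∪ S) = ch (MM B hv) Rs + ch (MM B hv) S := ch_union hdS
  have hchS0 : 0 ≤ ch (MM B hv) S := ch_nonneg _
  have hchR0 : 0 ≤ ch (MM B hv) Rs := ch_nonneg _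
  have hz : cRr B nQ nP uq up a b = ((ch (MM B hv) Rs + ch (MM B hv) S : ℤ) : ℝ) := by
    unfold cRr
    rw [← hchU, hRS]
  obtain ⟨Y, nb, hY0, hYe, hnb0, hnb1, hcard, hYb, hT2x, hmain⟩ := path3 hB0 hB1 hBd hv hq hbl hdS hind
    hhR hhC hdRC huniv (b := max 0 (ch (MM B hv) (Rs ∪ S) - 1)) (le_max_left _ _)
    (fun _ => le_max_right _ _)
  have hg0 := hdec.g0
  have hge : Rs = ∅ → g = 0 := fun e => hbl.gz e
  have hgn : Rs.Nonempty → 1 ≤ g := by
    intro h1
    have h2 := hdec.cg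
    have h3 : 1 ≤ Rs.card := Finset.card_pos.2 h1
    have h4 : (1 : ℤ) ≤ Rs.card := by exact_mod_cast h3
    linarith
  have bQ : ∀ v ∈ S, 0 ≤ im B v → ((im B v : ℤ) : ℝ) ≤ q a := by
    intro v hv' hv0
    have h1 := h.fr.posR (hSR hv') hv0 (by omega)
    have hv1 : (0 : ℝ) ≤ ((im B v : ℤ) : ℝ) := by exact_mod_cast hv0
    rwa [abs_of_nonneg hv1] at h1
  have bP : ∀ v ∈ S, im B v < 0 → -((im B v : ℤ) : ℝ) ≤ p b := by
    intro v hv' hv0
    have h1 := h.fr.negR (hSR hv') hv0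
    have hv1 : ((im B v : ℤ) : ℝ) < 0 := by exact_mod_cast hv0
    rwa [abs_of_neg hv1] at h1
  -- no crossing
  rcases hmain with hcr | ⟨w, Γ, D0, L0, Dw, Lw, hcase⟩
  · exfalso
    refine hnv (hC.cr ((max 0 (ch (MM B hv) (Rs ∪ S) - 1) : ℤ) : ℝ) ?_
      (fun M K t hK hqa hpb hst => ?_))
    · have : ((max 0 (ch (MM B hv) (Rs ∪ S) - 1) : ℤ) : ℝ) =
          max 0 (cRr B nQ nP uq up a b - 1) := by
        rw [hz, ← hchU]
        push_cast
        rfl
      rw [this]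
    · have hqn : 0 ≤ q a := h.fr.sys.chQ.nn a (by omega)
      have hpn : 0 ≤ p b := h.fr.sys.chP.nn b (by omega)
      have bQ' : ∀ v ∈ Rs ∪ S, 0 ≤ im B v → ((im B v : ℤ) : ℝ) ≤ q a := by
        intro v hv' hv0
        rw [hRS] at hv'
        have h1 := h.fr.posR hv' hv0 (by omega)
        have hv1 : (0 : ℝ) ≤ ((im B v : ℤ) : ℝ) := by exact_mod_cast hv0
        rwa [abs_of_nonneg hv1] at h1
      have bP' : ∀ v ∈ Rs ∪ S, im B v < 0 → -((im B v : ℤ) : ℝ) ≤ p b := by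
        intro v hv' hv0
        rw [hRS] at hv'
        have h1 := h.fr.negR hv' hv0
        have hv1 : ((im B v : ℤ) : ℝ) < 0 := by exact_mod_cast hv0
        rwa [abs_of_neg hv1] at h1
      have h4 := h.fr.withDm hK hst (by
        unfold hb1 rr
        intro x hx
        revert hx
        rcases x with x | x <;>
        simp only [Finset.mem_union, inl_mem_iq, inr_mem_iq, inl_mem_ip, inr_mem_ip,
          or_false, false_or] <;> omega)
      exact hcr M K t (q a) (p b) hK h4 bQ' hqa hqn bP' hpb hpn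
  have wcap : ∀ w : ℤ, ((∃ v ∈ S, 0 ≤ im B v ∧ w ≤ im B v) ∨ ∃ v ∈ S, im B v < 0 ∧
      w ≤ - im B v) → ((w : ℤ) : ℝ) ≤ q a ∨ ((w : ℤ) : ℝ) ≤ p b := by
    rintro w (⟨v, hv', h1, h2⟩ | ⟨v, hv', h1, h2⟩)
    · left
      have h3 := bQ v hv' h1
      have h4 : (w : ℝ) ≤ ((im B v : ℤ) : ℝ) := by exact_mod_cast h2
      linarith
    · right
      have h3 := bP v hv' h1
      have h4 : (w : ℝ) ≤ ((- im B v : ℤ) : ℝ) := by exact_mod_cast h2
      push_cast at h4
      linarith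
  have hY0r : (0 : ℝ) ≤ Y := by exact_mod_cast hY0
  have hnb0r : (0 : ℝ) ≤ nb := by exact_mod_cast hnb0
  have hcardr : (Rs.card : ℝ) ≤ (g : ℝ) + nb := by exact_mod_cast hcard
  have hYbr : ∀ y0 : ℤ, (∀ v ∈ Rs, |im B v| ≤ y0) → (Y : ℝ) ≤ Rs.card * y0 := by
    intro y0 h1
    exact_mod_cast hYb y0 h1
  have cSr : (0 : ℝ) ≤ ((ch (MM B hv) S : ℤ) : ℝ) := by exact_mod_cast hchS0
  have cRsr : (0 : ℝ) ≤ ((ch (MM B hv) Rs : ℤ) : ℝ) := by exact_mod_cast hchR0
  have hzr : cRr B nQ nP uq up a b = ((ch (MM B hv) Rs : ℤ) : ℝ) + ((ch (MM B hv) S : ℤ) : ℝ) := by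
    rw [hz]; push_cast; ring
  have hRe : Rs = ∅ → ((ch (MM B hv) Rs : ℤ) : ℝ) = 0 := by
    intro e
    rw [e]; simp [ch]
  have hgr : (0 : ℝ) ≤ g := by exact_mod_cast hg0
  have hTT : univ \ (Rs ∪ S) = univ \ vs uq up (rr nQ nP a b) := by rw [hRS]
  have gam0 : (0 : ℝ) ≤ ((Gam B hv S : ℤ) : ℝ) := by
    have : 0 ≤ Gam B hv S := by
      unfold Gam
      exact Finset.sum_nonneg fun v _ => abs_nonneg _
    exact_mod_cast this
  rcases hcase with hN | ⟨y, hL⟩ | ⟨y1, y2, hPp⟩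
  · -- no last vertex
    have w0 : (0 : ℝ) ≤ w := by exact_mod_cast hN.w0
    have gam : ((Gam B hv S : ℤ) : ℝ) ≤ Γ := by exact_mod_cast hN.gam
    have l0 : (1 : ℝ) ≤ L0 := by exact_mod_cast hN.l0
    have lw : (1 : ℝ) ≤ Lw := by exact_mod_cast hN.lw
    have d0 : (D0 : ℝ) ≤ ((ch (MM B hv) Rs : ℤ) : ℝ) - nb := by exact_mod_cast hN.d0
    have dw : (Dw : ℝ) ≤ ((ch (MM B hv) Rs : ℤ) : ℝ) - nb := by exact_mod_cast hN.dw
    have dl0 : (D0 : ℝ) + L0 ≤ ((ch (MM B hv) Rs : ℤ) : ℝ) - nb + q 0 - Y - Γ := by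
      rw [← himq]; exact_mod_cast hN.dl0
    have dlw : (Dw : ℝ) + Lw ≤ q 0 - g - Γ := by
      rw [← himq]; exact_mod_cast hN.dlw
    have v0 := h.evDm haQ hbP hN.v0
    have vw := h.evDm haQ hbP hN.vw
    have t2 := hN.t2
    rw [hTT] at t2
    have t2 := h.evT2 haQ hbP t2
    have emax : ((max Y w : ℤ) : ℝ) = max (Y : ℝ) w := by push_cast; rfl
    rw [emax] at t2
    rcases Rs.eq_empty_or_nonempty with hRe' | hRn
    · have g0 := hge hRe'
      have Y0 := hYe hRe'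
      have r0 := hRe hRe'
      subst g0
      subst Y0
      push_cast at t2 dlw dl0 hcardr
      refine ⟨0, 0, nb, w, Γ, Γ, D0, L0, Dw, Lw, ⟨by norm_num, h.fr.t2iA haQ hbP hRS hdS hind hT2x⟩,
        le_rfl, hnb0r, by push_cast; exact hcardr, ?_, gam,
        Or.inr ⟨hRe', rfl, rfl, rfl, Or.inl ⟨⟨w0, by linarith, by linarith, by linarith, ?_,
          by linarith, ?_, by linarith, v0, vw, t2⟩, ?_⟩⟩⟩
      · intro y0 h1
        have := hYbr y0 h1
        simpa using this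
      · exact le_min (by linarith) (by rw [hzr]; linarith)
      · exact le_min (by linarith) (by rw [hzr]; linarith)
      · rcases hN.ws with h1 | ⟨h1, h2⟩
        · left; exact_mod_cast h1
        · right
          have h3 : (w : ℝ) ≤ Γ := by exact_mod_cast h1
          exact ⟨by linarith, wcap w h2⟩
    · have g1 := hgn hRn
      have nb1 : (1 : ℝ) ≤ nb := by exact_mod_cast hnb1 hRn
      refine ⟨Y, Y, nb, w, Γ + ((ch (MM B hv) S : ℤ) : ℝ), Γ, D0, L0, Dw, Lw,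
        ⟨rfl, h.fr.t2iA haQ hbP hRS hdS hind hT2x⟩, hY0r, hnb0r, hcardr,
        hYbr, gam, Or.inl ⟨hRn, g1, nb1, Or.inl ⟨⟨w0, by linarith, by linarith, by linarith, ?_,
          ?_, ?_, by linarith, v0, vw, t2⟩, ?_, rfl⟩⟩⟩
      · rw [hzr]; linarith
      · rw [hzr]; linarith
      · rw [hzr]; linarith
      · rcases hN.ws with h1 | ⟨h1, h2⟩
        · left; exact_mod_cast h1
        · right
          have h3 : (w : ℝ) ≤ Γ := by exact_mod_cast h1
          exact ⟨by linarith, wcap w h2⟩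
  · -- a last vertex
    have w0 : (0 : ℝ) ≤ w := by exact_mod_cast hL.w0
    have gam : ((Gam B hv S : ℤ) : ℝ) ≤ Γ := by exact_mod_cast hL.gam
    have l0 : (1 : ℝ) ≤ L0 := by exact_mod_cast hL.l0
    have lw : (1 : ℝ) ≤ Lw := by exact_mod_cast hL.lw
    have d0 : (D0 : ℝ) ≤ ((ch (MM B hv) Rs : ℤ) : ℝ) - nb := by exact_mod_cast hL.d0
    have dw : (Dw : ℝ) ≤ ((ch (MM B hv) Rs : ℤ) : ℝ) - nb := by exact_mod_cast hL.dw
    have dl0 : (D0 : ℝ) + L0 ≤ ((ch (MM B hv) Rs : ℤ) : ℝ) - nb + q 0 - Y - Γ := by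
      rw [← himq]; exact_mod_cast hL.dl0
    have dlw : (Dw : ℝ) + Lw ≤ q 0 - g - Γ := by
      rw [← himq]; exact_mod_cast hL.dlw
    have hyR := hSR hL.yS
    have v0y := h.evDmy haQ hbP hyR hL.v0y
    have vwy := h.evDmy haQ hbP hyR hL.vwy
    have v0 := h.evDm haQ hbP hL.v0
    have vw := h.evDm haQ hbP hL.vw
    have t2 := hL.t2
    rw [hTT] at t2
    have t2 := h.evT2 haQ hbP t2
    obtain ⟨sy, hsy⟩ : ∃ sy : ℝ, sy = -((im B y : ℤ) : ℝ) := ⟨_, rfl⟩
    obtain ⟨ay, hay⟩ : ∃ ay : ℝ, ay = ((MM B hv y : ℤ) : ℝ) := ⟨_, rfl⟩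
    obtain ⟨cy, hcy⟩ : ∃ cy : ℤ, cy = (if MM B hv y = 1 then 0 else 1) := ⟨_, rfl⟩
    have himy : ((im B y : ℤ) : ℝ) = - sy := by rw [hsy]; ring
    have hcb := ch_bounds (fun v => MM_range hB0 hB1 hv v) y
    have hcy0 : (0 : ℝ) ≤ cy := by
      have : 0 ≤ cy := by rw [hcy]; split_ifs <;> norm_num
      exact_mod_cast this
    have hcyS : (cy : ℝ) ≤ ((ch (MM B hv) S : ℤ) : ℝ) := by
      have : cy ≤ ch (MM B hv) S := by
        rw [hcy]
        unfold ch
        exact Finset.single_le_sum (f := fun v => if MM B hv v = 1 then (0 : ℤ) else 1)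
          (fun i _ => by split_ifs <;> norm_num) hL.yS
      exact_mod_cast this
    have a1 : 1 ≤ ay := by rw [hay]; exact_mod_cast hL.ya
    have a2 : ay ≤ 2 := by rw [hay]; exact h.MM2 _ _
    have ac : ay ≤ 1 + cy := by
      have h1 : MM B hv y ≤ 1 + cy := by rw [hcy]; linarith [hcb.2]
      rw [hay]
      exact_mod_cast h1
    have hyn : im B y + MM B hv y + 1 ≤ 0 := by have := hL.yn; omega
    have say : ay + 1 ≤ sy := by
      have h1 : ((im B y : ℤ) : ℝ) + ((MM B hv y : ℤ) : ℝ) + 1 ≤ 0 := by exact_mod_cast hyn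
      rw [hay, hsy]
      linarith
    have syp : sy ≤ p b := by
      rw [hsy]
      exact bP y hL.yS (by have := hL.ya; linarith)
    have e1 : (L0 : ℝ) + im B y = L0 - sy := by rw [himy]; ring
    have e2 : (Lw : ℝ) + im B y = Lw - sy := by rw [himy]; ring
    rw [← hay, e1] at v0
    rw [← hay, e2] at vw
    have emax : ((max |Y + im B y| w : ℤ) : ℝ) = max |(Y : ℝ) - sy| w := by
      push_cast
      rw [himy]
      rfl
    rw [emax] at t2
    rcases Rs.eq_empty_or_nonempty with hRe' | hRn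
    · have g0 := hge hRe'
      have Y0 := hYe hRe'
      have r0 := hRe hRe'
      subst g0
      subst Y0
      push_cast at t2 dlw dl0 hcardr
      refine ⟨0, 0, nb, w, Γ, Γ, D0, L0, Dw, Lw, ⟨by norm_num, h.fr.t2iA haQ hbP hRS hdS hind hT2x⟩,
        le_rfl, hnb0r, by push_cast; exact hcardr, ?_, gam,
        Or.inr ⟨hRe', rfl, rfl, rfl, Or.inr ⟨sy, ay, cy, y, ⟨hyR, himy, hay.symm, a1, a2, ac, hcy0,
          say, syp, w0, by linarith, l0, lw, by linarith, by linarith, by linarith, by linarith,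
          v0y, v0, vwy, vw, t2⟩, ?_⟩⟩⟩
      · intro y0 h1
        have := hYbr y0 h1
        simpa using this
      · rcases hL.ws with h1 | ⟨h1, h2⟩
        · left; exact_mod_cast h1
        · right
          have h3 : (w : ℝ) ≤ Γ := by exact_mod_cast h1
          exact ⟨by linarith, wcap w h2⟩
    · have g1 := hgn hRn
      have nb1 : (1 : ℝ) ≤ nb := by exact_mod_cast hnb1 hRn
      have k0 : sy ≤ L0 := by
        by_contra hc
        push Not at hc
        refine hnv (hC.crs _ ?_ (h.crsOf v0 l0 hc.le syp))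
        rw [hzr]
        linarith
      have kw : sy ≤ Lw := by
        by_contra hc
        push Not at hc
        refine hnv (hC.crs _ ?_ (h.crsOf vw lw hc.le syp))
        rw [hzr]
        linarith
      refine ⟨Y, Y, nb, w, Γ + ((ch (MM B hv) S : ℤ) : ℝ) - cy, Γ, D0, L0, Dw, Lw,
        ⟨rfl, h.fr.t2iA haQ hbP hRS hdS hind hT2x⟩, hY0r, hnb0r,
        hcardr, hYbr, gam, Or.inl ⟨hRn, g1, nb1, Or.inr ⟨sy, ay, cy, y, ⟨hyR, himy, hay.symm, a1,
          a2, ac, hcy0, say, syp, w0, by linarith, l0, lw, ?_, ?_, ?_, by linarith,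
          v0y, v0, vwy, vw, t2⟩, ?_, k0, kw, rfl⟩⟩⟩
      · rw [hzr]; linarith
      · rw [hzr]; linarith
      · rw [hzr]; linarith
      · rcases hL.ws with h1 | ⟨h1, h2⟩
        · left; exact_mod_cast h1
        · right
          have h3 : (w : ℝ) ≤ Γ := by exact_mod_cast h1
          exact ⟨by linarith, wcap w h2⟩
  · -- the last two vertices
    have w0 : (0 : ℝ) ≤ w := by exact_mod_cast hPp.w0
    have gam : ((Gam B hv S : ℤ) : ℝ) ≤ Γ := by exact_mod_cast hPp.gam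
    have l0 : (1 : ℝ) ≤ L0 := by exact_mod_cast hPp.l0
    have lw : (1 : ℝ) ≤ Lw := by exact_mod_cast hPp.lw
    have d0 : (D0 : ℝ) + 2 ≤ ((ch (MM B hv) Rs : ℤ) : ℝ) - nb + 1 := by exact_mod_cast hPp.d0
    have dw : (Dw : ℝ) + 2 ≤ ((ch (MM B hv) Rs : ℤ) : ℝ) - nb + 1 := by exact_mod_cast hPp.dw
    have dl0 : (D0 : ℝ) + L0 + 2 + ((im B y2 : ℤ) : ℝ) ≤
        ((ch (MM B hv) Rs : ℤ) : ℝ) - nb + q 0 - Y - Γ := by
      rw [← himq]; exact_mod_cast hPp.dl0
    have dlw : (Dw : ℝ) + Lw + 2 + ((im B y2 : ℤ) : ℝ) ≤ q 0 - g - Γ := by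
      rw [← himq]; exact_mod_cast hPp.dlw
    have v0 := h.evDm haQ hbP hPp.v0
    have vw := h.evDm haQ hbP hPp.vw
    have t2 := hPp.t2
    rw [hTT] at t2
    have t2 := h.evT2 haQ hbP t2
    have emax : ((max Y w : ℤ) : ℝ) = max (Y : ℝ) w := by push_cast; rfl
    rw [emax] at t2
    obtain ⟨sy, hsy⟩ : ∃ sy : ℝ, sy = -((im B y2 : ℤ) : ℝ) := ⟨_, rfl⟩
    have himy : ((im B y2 : ℤ) : ℝ) = - sy := by rw [hsy]; ring
    have hc1 : (1 : ℝ) ≤ ((ch (MM B hv) S : ℤ) : ℝ) := by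
      have h1 : (if MM B hv y2 = 1 then (0 : ℤ) else 1) ≤ ch (MM B hv) S := by
        unfold ch
        exact Finset.single_le_sum (f := fun v => if MM B hv v = 1 then (0 : ℤ) else 1)
          (fun i _ => by split_ifs <;> norm_num) hPp.y2S
      rw [hPp.a2] at h1
      norm_num at h1
      exact_mod_cast h1
    have syp : sy ≤ p b := by
      rw [hsy]
      exact bP y2 hPp.y2S (by have := hPp.s1; have := hPp.s12; linarith)
    have e1 : (L0 : ℝ) + im B y2 = L0 - sy := by rw [himy]; ring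
    have e2 : (Lw : ℝ) + im B y2 = Lw - sy := by rw [himy]; ring
    rw [e1] at v0
    rw [e2] at vw
    rw [himy] at dl0 dlw
    have k0 : sy ≤ L0 := by
      by_contra hc
      push Not at hc
      refine hnv (hC.crs _ ?_ (h.crsOf v0 l0 hc.le syp))
      rw [hzr]
      linarith
    have kw : sy ≤ Lw := by
      by_contra hc
      push Not at hc
      refine hnv (hC.crs _ ?_ (h.crsOf vw lw hc.le syp))
      rw [hzr]
      linarith
    rw [abs_of_nonneg (show 0 ≤ (L0 : ℝ) - sy by linarith)] at v0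
    rw [abs_of_nonneg (show 0 ≤ (Lw : ℝ) - sy by linarith)] at vw
    have hws : (w : ℝ) ≤ 2 ∨ ((w : ℝ) ≤ Γ + 1 ∧ ((w : ℝ) ≤ q a ∨ (w : ℝ) ≤ p b)) := by
      rcases hPp.ws with h1 | ⟨h1, h2⟩ | ⟨h1, h2⟩
      · left; exact_mod_cast h1
      · right
        have h3 : (w : ℝ) ≤ Γ := by exact_mod_cast h1
        exact ⟨by linarith, wcap w h2⟩
      · right
        have h3 : (w : ℝ) ≤ (Γ : ℝ) + 1 := by exact_mod_cast h1
        have h4 : (w : ℝ) + 2 ≤ ((- im B y2 : ℤ) : ℝ) := by exact_mod_cast h2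
        push_cast at h4
        rw [← hsy] at h4
        exact ⟨h3, Or.inr (by linarith)⟩
    rcases Rs.eq_empty_or_nonempty with hRe' | hRn
    · have g0 := hge hRe'
      have Y0 := hYe hRe'
      have r0 := hRe hRe'
      subst g0
      subst Y0
      push_cast at t2 dlw dl0 hcardr
      refine ⟨0, 0, nb, w, Γ, Γ, D0 + 2, L0 - sy, Dw + 2, Lw - sy,
        ⟨by norm_num, h.fr.t2iA haQ hbP hRS hdS hind hT2x⟩, le_rfl, hnb0r,
        by push_cast; exact hcardr, ?_, gam,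
        Or.inr ⟨hRe', rfl, rfl, rfl, Or.inl ⟨⟨w0, by linarith, by linarith, by linarith, ?_,
          by linarith, ?_, by linarith, v0, vw, t2⟩, hws⟩⟩⟩
      · intro y0 h1
        have := hYbr y0 h1
        simpa using this
      · exact le_min (by linarith) (by rw [hzr]; linarith)
      · exact le_min (by linarith) (by rw [hzr]; linarith)
    · have g1 := hgn hRn
      have nb1 : (1 : ℝ) ≤ nb := by exact_mod_cast hnb1 hRn
      refine ⟨Y, Y, nb, w, Γ + ((ch (MM B hv) S : ℤ) : ℝ), Γ, D0 + 2, L0 - sy, Dw + 2, Lw - sy,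
        ⟨rfl, h.fr.t2iA haQ hbP hRS hdS hind hT2x⟩, hY0r,
        hnb0r, hcardr, hYbr, gam, Or.inl ⟨hRn, g1, nb1, Or.inl ⟨⟨w0, by linarith, by linarith,
          by linarith, ?_, ?_, ?_, by linarith, v0, vw, t2⟩, ?_, rfl⟩⟩⟩
      · rw [hzr]; linarith
      · rw [hzr]; linarith
      · rw [hzr]; linarith
      · rcases hws with h1 | ⟨h1, h2⟩
        · left; exact h1
        · right
          exact ⟨by linarith, h2⟩

end

end Pool.Agent.Exact
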