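import Pool.Agent.Lib_helper43.NC.MxG
import Pool.Agent.Lib_helper23.Exact.Leafs
import Pool.Agent.Lib_helper68.Exact.MiMain

/-!
# All leaves with hubs of both types, and the exact value of the constant
-/

set_option autoImplicit false

namespace Pool.Agent.Exact

open Finset

/-- the leaves with hubs of both types are good -/
theorem mixedOK : MixedOK := by
  intro V _ _ B Rl ℓ nQ nP uq up q p k θ h hn hpq hnv hM
  have : Nonempty V := ⟨uq 0⟩
  obtain ⟨pick, hpick⟩ := exists_pick B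
  rcases hM with ⟨i, j, hi, hj, hpq1, hQ, hE, hD, hC⟩ |
    ⟨i, j, hi, hj, hpq1, hQ, hD, hA, h1, h2, h3, hC⟩ |
    ⟨i, l, hi, hl, hlam, hz, hp0, hQ, hP, hA, hE, h1, h2, h3, hC⟩
  · rcases h.deg with hout | hin
    · exact h.mo2a hn hnv hout hi hj hpq1 hE hD hC
    · obtain ⟨Rs, S, g, Kc, hdec⟩ := h.exDec (a := 2 * (i + 1)) (b := 2 * j + 1) pick
        (fun K hK => (hpick K hK).1)
      obtain ⟨Y, nb, hM⟩ := h.m2a hn hnv hi hj hpq1 hE hD hC hdec
      rcases hM.rs with ⟨-, -, hnb, -, hT, -⟩ | ⟨-, -, hY⟩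
      · exact h.mi2a hn hnv hpq hin hi hj hE hD hC.aQ hC.bP hdec hM.t2a
          (show (0 : ℝ) ≤ nb by linarith) hM.gp hM.gam (Or.inl hT)
      · exact h.mi2a hn hnv hpq hin hi hj hE hD hC.aQ hC.bP hdec hM.t2a le_rfl hM.gp hM.gam
          (Or.inr hY.le)
  · rcases h.deg with hout | hin
    · exact h.mo2c hn hnv hout hi hj hpq1 hD hA h1 h2 h3 hC
    · obtain ⟨Rs, S, g, Kc, hdec⟩ := h.exDec (a := 2 * (i + 1)) (b := 2 * j + 1) pick
        (fun K hK => (hpick K hK).1)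
      obtain ⟨Y, nb, hM⟩ := h.m2c hn hnv hi hj hpq1 hD hA h1 h2 h3 hC hdec
      rcases hM.rs with ⟨-, -, hnb, -, hT, -⟩ | ⟨-, -, hY⟩
      · exact h.mi2c hn hnv hpq hin hi hj hD h1 h3 hC.aQ hC.bP hdec hM.t2a
          (show (0 : ℝ) ≤ nb by linarith) hM.gp hM.gam (Or.inl hT)
      · exact h.mi2c hn hnv hpq hin hi hj hD h1 h3 hC.aQ hC.bP hdec hM.t2a le_rfl hM.gp hM.gam
          (Or.inr hY.le)
  · rcases h.deg with hout | hin
    · exact h.mo3c hn hnv hout hi hl hpq hlam hz hp0 hA hE h1 h2 h3 hC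
    · obtain ⟨Rs, S, g, Kc, hdec⟩ := h.exDec (a := 2 * (i + 1)) (b := 2 * l + 1) pick
        (fun K hK => (hpick K hK).1)
      obtain ⟨Y, nb, hM⟩ := h.m3c hn hnv hi hl hpq hlam hz hp0 hA hE h1 h2 h3 hC hdec
      rcases hM.rs with ⟨-, -, hnb, -, hT, -⟩ | ⟨-, -, hY⟩
      · exact h.mi3c hn hnv hpq hin hi hl hE h3 hC.aQ hC.bP hdec hM.t2a
          (show (0 : ℝ) ≤ nb by linarith) hM.gp hM.gam (Or.inl hT)
      · exact h.mi3c hn hnv hpq hin hi hl hE h3 hC.aQ hC.bP hdec hM.t2a le_rfl hM.gp hM.gam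
          (Or.inr hY.le)

/-- **The exact value of the constant.** -/
theorem c_exact_all (k : ℕ) (hk : 1 ≤ k) :
    Judicious.c k = ((k : ℝ) - 1) / (2 * (2 * k - 1)) := c_exact_of_mixed mixedOK k hk

end Pool.Agent.Exact
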