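import Mathlib

/-!
# Real parameters of a leaf with hubs of both types, an even number of the first
-/

set_option autoImplicit false

namespace Pool.Agent.Exact

/-- the failing modes of a structure with one signed item -/
def FT (th E X M x c d : ℝ) : Prop :=
  th < E + M + X ∨ th < E + M + x ∨ th < E + M - x ∨ th < E + M + c ∨ th < E + M + d ∨
    2 * th < 2 * (E + M) + X + x + c + d ∨ 2 * th < 2 * (E + M) + X - x + c + d

/-- the failing modes of a structure with one signed item and an extra single vertex -/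
def FR (th E X M x c d s : ℝ) : Prop :=
  th < E + M + X ∨ th < E + M + x ∨ th < E + M - x ∨ th < E + M + c ∨ th < E + M + d ∨
    th < E + M + s ∨ 2 * th < 2 * (E + M) + X + x + c + d + s ∨
    2 * th < 2 * (E + M) + X - x + c + d + s

/-- levels of the hubs above `θ` -/
structure MB0 (th lam y z MB u1 u2 ux ua al v2 vb be : ℝ) : Prop where
  l2 : 2 ≤ lam
  z0 : 0 ≤ z
  zz : z + lam + y ≤ th
  zM : z + MB + lam + y ≤ th + 1
  M0 : 0 ≤ MB
  M2 : MB ≤ 2
  ZM : MB + 2 + y ≤ th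
  uy : u1 ≤ y
  al0 : 0 ≤ al
  u12 : u2 ≤ u1
  ux2 : ux ≤ u2
  uax : ua ≤ ux
  al1 : u1 - u2 ≤ al
  eU : al + ux ≤ u1
  v2y : v2 ≤ y
  be1 : y - v2 ≤ be
  vb2 : vb ≤ v2
  eZ : be + vb ≤ y

/-- multiplicities at the lowest hub of the second type -/
structure MJ (th lam y z MB MA : ℝ) : Prop where
  A0 : 0 ≤ MA
  A2 : MA ≤ 2
  zA : z + MA + lam + y ≤ th + 1
  zMA : z + MB + MA + lam + y ≤ th + 2

/-- leaf 2a -/
structure L2a (y MB u1 ua vb : ℝ) : Prop where
  xua : 0 < ua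
  xvb : -MB < vb
  xpq : u1 + 1 ≤ y

/-- leaf 2c -/
structure L2c (th y MB u1 ua al vb be : ℝ) : Prop where
  xua : 0 < ua
  xvb : -2 < vb
  xpq : u1 + 1 ≤ y
  xA : th + al + be < 2 * y + 2 * MB

/-- leaf 3c -/
structure L3c (th lam y MB u1 ua al vb be : ℝ) : Prop where
  xua : -MB - 2 < ua
  xvb : -MB < vb
  xl3 : 3 < lam
  xu1 : 0 < u1
  xyM : y + MB + 2 ≤ th
  xuz : th - y - MB < u1
  xbe : be ≤ y + MB
  xeU : u1 - ua - al + th < u1 + y + MB

/-- the last vertex -/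
structure LY (sy ay cy : ℝ) : Prop where
  a1 : 1 ≤ ay
  a2 : ay ≤ 2
  ac : ay ≤ 1 + cy
  c0 : 0 ≤ cy
  say : ay + 1 ≤ sy

end Pool.Agent.Exact
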