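import Pool.Agent.Lib_helper43.NC.MxDef

/-!
# No components: crossings and low hubs
-/

set_option autoImplicit false
set_option linter.unusedVariables false

namespace Pool.Agent.Exact

theorem xl2a {th lam y z D L MB m11 u1 u2 ux ua al v2 vb be sy : ℝ}
    (hb : MB0 th lam y z MB u1 u2 ux ua al v2 vb be) (h112 : m11 ≤ 2) (hl : L2a y MB u1 ua vb)
    (hyp1 : sy < ua) (hD : D ≤ 0) (hL1 : 1 ≤ L) (hLs : L ≤ sy)
    (a11 : FT th D L m11 (ua - vb - sy) (y - vb - be) al) : False := by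
  rcases a11 with a1 | a1 | a1 | a1 | a1 | a1 | a1
  · linarith only [hb.M0, hb.ZM, hb.uy, hb.u12, hb.ux2, hb.uax, h112, hyp1, hD, hLs, a1]
  · linarith only [hb.ZM, hb.uy, hb.u12, hb.ux2, hb.uax, h112, hl.xvb, hD, hL1, hLs, a1]
  · linarith only [hb.M0, hb.ZM, hb.v2y, hb.vb2, h112, hyp1, hD, a1]
  · linarith only [hb.ZM, hb.v2y, hb.be1, h112, hl.xvb, hD, a1]
  · linarith only [hb.M0, hb.ZM, hb.uy, hb.uax, hb.eU, h112, hyp1, hD, hL1, hLs, a1]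
  · linarith only [hb.ZM, hb.uy, hb.uax, hb.eU, hb.v2y, hb.be1, h112, hl.xvb, hD, hLs, a1]
  · linarith only [hb.M0, hb.ZM, hb.uy, hb.uax, hb.eU, hb.v2y, hb.be1, h112, hyp1, hD, hLs, a1]

theorem xl2c_i0 {th lam y z D L MB m11 u1 u2 ux ua al v2 vb be sy ay cy : ℝ}
    (hb : MB0 th lam y z MB u1 u2 ux ua al v2 vb be) (hi1 : vb = v2) (hi2 : y = vb + be)
    (h112 : m11 ≤ 2) (hl : L2c th y MB u1 ua al vb be) (hy : LY sy ay cy) (hyp1 : sy < ua)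
    (hD : D ≤ 0) (hL1 : 1 ≤ L) (t11 : FT th (D + ay) (sy - L) m11 (vb - ua) (y - vb - be) al)
    : False := by
  rcases t11 with a1 | a1 | a1 | a1 | a1 | a1 | a1
  · linarith only [hb.M0, hb.ZM, hb.u12, hb.ux2, hb.uax, h112, hl.xpq, hy.a2, hyp1, hD, hL1, a1]
  · linarith only [hb.l2, hb.z0, hb.zz, hb.v2y, hi1, h112, hy.say, hyp1, hD, a1]
  · linarith only [hb.ZM, hb.u12, hb.ux2, hb.uax, hb.al1, hi2, h112, hl.xpq, hl.xA, hy.a2, hD, a1]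
  · linarith only [hb.ZM, hb.u12, hb.al1, hb.v2y, hi1, hi2, h112, hl.xA, hy.a2, hD, a1]
  · linarith only [hb.ZM, hb.v2y, hi1, hi2, h112, hl.xA, hy.a2, hD, a1]
  · linarith only [hb.l2, hb.z0, hb.zz, hb.uax, hb.eU, hb.v2y, hi1, hi2, h112, hl.xpq, hy.a2, hy.say, hyp1, hD, hL1, a1]
  · linarith only [hb.M0, hb.ZM, hb.u12, hb.ux2, hb.uax, hi2, h112, hl.xpq, hl.xA, hy.a2, hyp1, hD, hL1, a1]

theorem xl2c_i1 {th lam y z D L MB m12 u1 u2 ux ua al v2 vb be sy ay cy : ℝ}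
    (hb : MB0 th lam y z MB u1 u2 ux ua al v2 vb be) (h122 : m12 ≤ 2)
    (hl : L2c th y MB u1 ua al vb be) (hl3 : 3 ≤ lam) (hy : LY sy ay cy) (hyp1 : sy < ua)
    (hD : D ≤ 0) (hL1 : 1 ≤ L)
    (t12 : FT th (D + ay) (sy - L) m12 (v2 - u1) (v2 + be - y) (u1 - ua - al)) : False := by
  rcases t12 with a1 | a1 | a1 | a1 | a1 | a1 | a1
  · linarith only [hb.M0, hb.ZM, hb.u12, hb.ux2, hb.uax, h122, hl.xpq, hy.a2, hyp1, hD, hL1, a1]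
  · linarith only [hb.M0, hb.ZM, hb.u12, hb.ux2, hb.uax, hb.v2y, h122, hy.say, hyp1, hD, a1]
  · linarith only [hb.ZM, hb.al0, hb.be1, h122, hl.xpq, hl.xA, hy.a2, hD, a1]
  · linarith only [hb.ZM, hb.al0, hb.v2y, h122, hl.xA, hy.a2, hD, a1]
  · linarith only [hb.M0, hb.ZM, hb.uy, hb.al0, h122, hy.say, hyp1, hD, a1]
  · linarith only [hb.z0, hb.zz, hb.zM, hb.al0, hb.v2y, h122, hl.xA, hl3, hy.a2, hyp1, hD, hL1, a1]
  · linarith only [hb.M0, hb.ZM, hb.al0, h122, hl.xpq, hl.xA, hy.a2, hyp1, hD, hL1, a1]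

theorem xl3c_g {th lam y z D L MB m12 u1 u2 ux ua al v2 vb be sy ay cy : ℝ}
    (hb : MB0 th lam y z MB u1 u2 ux ua al v2 vb be) (h122 : m12 ≤ 2)
    (hl : L3c th lam y MB u1 ua al vb be) (hy : LY sy ay cy) (hyp1 : sy < MB + vb + 2)
    (hyp2 : MB + sy + 2 ≤ th) (hlam : 4 ≤ lam) (hD : D ≤ 0) (hL1 : 1 ≤ L) (hLs : L ≤ sy)
    (t12 : FT th (D + ay) (sy - L) m12 (v2 - u1) (v2 + be - y) (u1 - ua - al))
    (r12 : FR th D L m12 (v2 - u1) (v2 + be - y) (u1 - ua - al) sy) : False := by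
  rcases t12 with a1 | a1 | a1 | a1 | a1 | a1 | a1
  · rcases r12 with a2 | a2 | a2 | a2 | a2 | a2 | a2 | a2
    · linarith only [hb.M0, h122, hyp2, hD, hLs, a2]
    · linarith only [hb.M0, hb.v2y, h122, hl.xyM, hl.xuz, hD, a2]
    · linarith only [hb.ZM, hb.uy, hb.vb2, h122, hl.xvb, hD, a2]
    · linarith only [hb.v2y, h122, hl.xyM, hl.xbe, hD, a2]
    · linarith only [hb.M0, hb.ZM, hb.uy, h122, hl.xeU, hD, a2]
    · linarith only [hb.M0, h122, hyp2, hD, a2]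
    · linarith only [hb.z0, hb.zz, hb.zM, hb.v2y, hb.eZ, h122, hl.xeU, hy.a2, hyp1, hyp2, hlam, hD, a1, a2]
    · linarith only [hb.z0, hb.zz, hb.ZM, hb.uy, hb.eZ, h122, hl.xeU, hy.a2, hyp1, hyp2, hlam, hD, a1, a2]
  · linarith only [hb.M0, hb.v2y, h122, hl.xyM, hl.xuz, hy.a2, hD, a1]
  · linarith only [hb.z0, hb.zM, hb.uy, hb.vb2, h122, hy.say, hyp1, hlam, hD, a1]
  · linarith only [hb.z0, hb.zM, hb.v2y, hb.eZ, h122, hy.say, hyp1, hlam, hD, a1]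
  · linarith only [hb.M0, hb.ZM, hb.uy, h122, hl.xeU, hy.a2, hD, a1]
  · linarith only [hb.z0, hb.zz, hb.zM, hb.v2y, hb.eZ, h122, hl.xeU, hy.a2, hyp1, hlam, hD, hL1, a1]
  · linarith only [hb.z0, hb.zz, hb.zM, hb.uy, hb.eZ, h122, hl.xeU, hy.a2, hyp1, hlam, hD, hL1, a1]

theorem xl3c_o {th lam y z D L MB m11 m12 u1 u2 ux ua al v2 vb be sy ay cy : ℝ}
    (hb : MB0 th lam y z MB u1 u2 ux ua al v2 vb be) (h112 : m11 ≤ 2) (h122 : m12 ≤ 2)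
    (hl : L3c th lam y MB u1 ua al vb be) (hy : LY sy ay cy) (hyp1 : sy < MB + vb + 2)
    (hyp2 : MB + sy + 2 ≤ th) (o1 : 4 * lam + y + 4 * u1 ≤ 2 * th)
    (o2 : 5 * lam + y + 5 * u1 + vb ≤ 2 * th) (o3 : lam + u1 + 3 ≤ th) (hD : D ≤ 0) (hL1 : 1 ≤ L)
    (hLs : L ≤ sy) (t11 : FT th (D + ay) (sy - L) m11 (vb - ua) (y - vb - be) al)
    (t12 : FT th (D + ay) (sy - L) m12 (v2 - u1) (v2 + be - y) (u1 - ua - al)) : False := by
  rcases t11 with a1 | a1 | a1 | a1 | a1 | a1 | a1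
  · linarith only [h112, hl.xl3, hl.xyM, hl.xuz, hy.a2, hyp1, hyp2, o2, hD, hL1, a1]
  · linarith only [hb.M2, h112, hl.xua, hl.xl3, hl.xyM, hl.xuz, hy.a2, o2, hD, a1]
  · linarith only [hb.l2, hb.M2, hb.u12, hb.ux2, hb.uax, h112, hy.say, hyp1, o3, hD, a1]
  · rcases t12 with a2 | a2 | a2 | a2 | a2 | a2 | a2
    · linarith only [h122, hl.xl3, hl.xyM, hl.xuz, hy.a2, hyp1, hyp2, o2, hD, hL1, a2]
    · linarith only [hb.M0, hb.v2y, h122, hl.xyM, hl.xuz, hy.a2, hD, a2]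
    · linarith only [hb.be1, h112, h122, hl.xl3, hy.say, hyp1, hyp2, o3, hD, a1, a2]
    · linarith only [hb.v2y, h112, h122, hl.xl3, hl.xu1, hl.xyM, hy.say, hyp1, hyp2, o2, hD, a1, a2]
    · linarith only [h122, hl.xl3, hl.xu1, hl.xyM, hl.xeU, hy.say, hyp1, hyp2, o2, hD, a2]
    · linarith only [hb.v2y, h112, h122, hl.xl3, hl.xu1, hl.xyM, hl.xeU, hy.a2, hyp1, o2, o3, hD, hL1, hLs, a1, a2]
    · linarith only [h122, hl.xl3, hl.xyM, hl.xbe, hl.xeU, hy.a2, hyp2, o1, hD, hL1, hLs, a2]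
  · linarith only [hb.M2, hb.uax, hb.eU, h112, hl.xua, hl.xl3, hl.xeU, hy.say, hyp1, hyp2, o2, hD, a1]
  · linarith only [hb.M2, hb.ZM, hb.uax, hb.eU, hb.v2y, hb.be1, h112, hl.xua, hl.xl3, hl.xeU, hy.a2, hyp1, o2, hD, hL1, a1]
  · linarith only [hb.M2, hb.ZM, hb.uax, hb.eU, hb.v2y, hb.be1, h112, hl.xl3, hl.xeU, hy.say, hyp1, o2, hD, hL1, a1]

theorem xl3c_i {th lam y z MB u1 u2 ux ua al v2 vb be : ℝ}
    (hb : MB0 th lam y z MB u1 u2 ux ua al v2 vb be) (hl : L3c th lam y MB u1 ua al vb be)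
    (in3 : lam + y + 3 ≤ th) (in1 : 4 * lam + 4 * y + u1 ≤ 2 * th) : False := by
  linarith only [hb.M2, hb.uy, hl.xl3, hl.xuz, in3, in1]

theorem e1N_wQ_g {th lam y z g X MB u1 u2 ux ua al v2 vb be : ℝ}
    (hb : MB0 th lam y z MB u1 u2 ux ua al v2 vb be) (hl : L3c th lam y MB u1 ua al vb be)
    (hg0 : 0 = g) (hug : ua ≤ 0) (hXc0 : X < MB + vb)
    (tO : FT th (-g) X 2 (th + ux + ua - u1) (u1 - ux - al) be) : False := by
  rcases tO with a1 | a1 | a1 | a1 | a1 | a1 | a1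
  · linarith only [hb.v2y, hb.vb2, hl.xyM, hg0, hXc0, a1]
  · linarith only [hb.eU, hl.xyM, hl.xeU, hg0, hug, a1]
  · linarith only [hb.uy, hb.uax, hl.xua, hl.xyM, hl.xuz, hg0, a1]
  · linarith only [hb.M0, hb.ZM, hb.uy, hb.uax, hl.xeU, hg0, a1]
  · linarith only [hl.xyM, hl.xbe, hg0, a1]
  · linarith only [hb.eZ, hl.xyM, hl.xeU, hg0, hug, hXc0, a1]
  · linarith only [hb.ZM, hb.uy, hb.uax, hb.eZ, hl.xua, hl.xeU, hg0, hXc0, a1]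

theorem e1N_wQ_o {th lam y z g X MB MA m11 u1 u2 ux ua al v2 vb be : ℝ}
    (hb : MB0 th lam y z MB u1 u2 ux ua al v2 vb be) (hj : MJ th lam y z MB MA) (h110 : 0 ≤ m11)
    (hl : L3c th lam y MB u1 ua al vb be) (hg0 : 0 = g) (hug : ua ≤ 0) (hXc0 : X < MB + vb)
    (o2 : 5 * lam + y + 5 * u1 + vb ≤ 2 * th) (o3 : lam + u1 + 3 ≤ th)
    (tE : FT th (-g) X (MA - m11) (th + ua + vb - y) al (y - vb - be)) : False := by
  rcases tE with a1 | a1 | a1 | a1 | a1 | a1 | a1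
  · linarith only [hj.A2, hb.v2y, hb.vb2, h110, hl.xyM, hg0, hXc0, a1]
  · linarith only [hb.l2, hb.M2, hj.A2, h110, hl.xyM, hl.xuz, hg0, hug, o2, a1]
  · linarith only [hb.ZM, hb.uy, hj.A2, h110, hl.xua, hl.xvb, hl.xu1, hg0, a1]
  · linarith only [hb.M2, hb.uax, hb.eU, hj.A2, h110, hl.xua, hl.xl3, hg0, o3, a1]
  · linarith only [hj.A2, hb.v2y, hb.be1, h110, hl.xvb, hl.xyM, hg0, a1]
  · linarith only [hb.l2, hb.z0, hb.M2, hb.uax, hb.eU, hj.zMA, hb.v2y, hb.be1, hb.eZ, h110, hl.xeU, hg0, hXc0, o2, a1]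
  · linarith only [hb.M2, hb.uax, hb.eU, hj.A2, hb.v2y, hb.be1, h110, hl.xua, hl.xvb, hl.xl3, hl.xyM, hl.xeU, hg0, hXc0, o2, a1]

theorem e1N_wQ_i {th lam y z MB u1 u2 ux ua al v2 vb be : ℝ}
    (hb : MB0 th lam y z MB u1 u2 ux ua al v2 vb be) (hl : L3c th lam y MB u1 ua al vb be)
    (in3 : lam + y + 3 ≤ th) (in1 : 4 * lam + 4 * y + u1 ≤ 2 * th) : False := by
  linarith only [hb.l2, hb.M2, hb.uy, hl.xuz, in3, in1]

theorem e1N_wP_g {th lam y z g X MB u1 u2 ux ua al v2 vb be : ℝ}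
    (hb : MB0 th lam y z MB u1 u2 ux ua al v2 vb be) (hl : L3c th lam y MB u1 ua al vb be)
    (hg0 : 0 = g) (hug : ua ≤ 0) (hXc0 : X < MB + vb + 2) (hXc1 : X + MB + 2 ≤ th)
    (hlam : 4 ≤ lam) (tO : FT th (-g) X 2 (th + ux + ua - u1) (u1 - ux - al) be) : False := by
  rcases tO with a1 | a1 | a1 | a1 | a1 | a1 | a1
  · linarith only [hb.M0, hg0, hXc1, a1]
  · linarith only [hb.eU, hl.xyM, hl.xeU, hg0, hug, a1]
  · linarith only [hb.uy, hb.uax, hl.xua, hl.xyM, hl.xuz, hg0, a1]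
  · linarith only [hb.M0, hb.ZM, hb.uy, hb.uax, hl.xeU, hg0, a1]
  · linarith only [hl.xyM, hl.xbe, hg0, a1]
  · linarith only [hb.z0, hb.zM, hb.eZ, hl.xeU, hg0, hug, hXc0, hlam, a1]
  · linarith only [hb.z0, hb.zM, hb.uy, hb.uax, hb.eZ, hl.xua, hl.xeU, hg0, hXc0, hlam, a1]

theorem e1N_wP_o {th lam y z g X MB MA m11 u1 u2 ux ua al v2 vb be : ℝ}
    (hb : MB0 th lam y z MB u1 u2 ux ua al v2 vb be) (hj : MJ th lam y z MB MA) (h110 : 0 ≤ m11)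
    (hl : L3c th lam y MB u1 ua al vb be) (hg0 : 0 = g) (hug : ua ≤ 0) (hX0 : 0 ≤ X)
    (hXc0 : X < MB + vb + 2) (hXc1 : X + MB + 2 ≤ th) (o2 : 5 * lam + y + 5 * u1 + vb ≤ 2 * th)
    (o3 : lam + u1 + 3 ≤ th) (tE : FT th (-g) X (MA - m11) (th + ua + vb - y) al (y - vb - be))
    : False := by
  rcases tE with a1 | a1 | a1 | a1 | a1 | a1 | a1
  · linarith only [hj.A2, h110, hl.xl3, hl.xyM, hl.xuz, hg0, hXc0, hXc1, o2, a1]
  · linarith only [hb.l2, hb.M2, hj.A2, h110, hl.xyM, hl.xuz, hg0, hug, o2, a1]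
  · linarith only [hj.A2, h110, hl.xua, hl.xvb, hl.xyM, hg0, hX0, hXc1, a1]
  · linarith only [hb.M2, hb.uax, hb.eU, hj.A2, h110, hl.xua, hl.xl3, hg0, o3, a1]
  · linarith only [hj.A2, hb.v2y, hb.be1, h110, hl.xvb, hl.xyM, hg0, a1]
  · linarith only [hb.uax, hb.eU, hj.A2, hb.v2y, hb.be1, h110, hl.xl3, hl.xu1, hl.xeU, hg0, hXc0, hXc1, o2, a1]
  · linarith only [hb.M2, hb.uax, hb.eU, hj.A2, hb.v2y, hb.be1, h110, hl.xua, hl.xvb, hl.xl3, hl.xyM, hl.xeU, hg0, hXc0, o2, a1]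

theorem e1N_wP_i {th lam y z MB u1 u2 ux ua al v2 vb be : ℝ}
    (hb : MB0 th lam y z MB u1 u2 ux ua al v2 vb be) (hl : L3c th lam y MB u1 ua al vb be)
    (in3 : lam + y + 3 ≤ th) (in1 : 4 * lam + 4 * y + u1 ≤ 2 * th) : False := by
  linarith only [hb.l2, hb.M2, hb.uy, hl.xuz, in3, in1]

theorem e1N_2_g {th lam y z g X MB u1 u2 ux ua al v2 vb be : ℝ}
    (hb : MB0 th lam y z MB u1 u2 ux ua al v2 vb be) (hl : L3c th lam y MB u1 ua al vb be)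
    (hg0 : 0 = g) (hug : ua ≤ 0) (hX : X ≤ 2) (hlam : 4 ≤ lam)
    (tO : FT th (-g) X 2 (th + ux + ua - u1) (u1 - ux - al) be) : False := by
  rcases tO with a1 | a1 | a1 | a1 | a1 | a1 | a1
  · linarith only [hb.M0, hb.uy, hl.xyM, hl.xuz, hg0, hX, a1]
  · linarith only [hb.eU, hl.xyM, hl.xeU, hg0, hug, a1]
  · linarith only [hb.uy, hb.uax, hl.xua, hl.xyM, hl.xuz, hg0, a1]
  · linarith only [hb.M0, hb.ZM, hb.uy, hb.uax, hl.xeU, hg0, a1]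
  · linarith only [hl.xyM, hl.xbe, hg0, a1]
  · linarith only [hb.z0, hb.zM, hl.xbe, hl.xeU, hg0, hug, hX, hlam, a1]
  · linarith only [hb.z0, hb.zM, hb.uy, hb.uax, hl.xua, hl.xbe, hl.xeU, hg0, hX, hlam, a1]

theorem e1N_2_o {th lam y z g X MB MA m11 u1 u2 ux ua al v2 vb be : ℝ}
    (hb : MB0 th lam y z MB u1 u2 ux ua al v2 vb be) (hj : MJ th lam y z MB MA) (h110 : 0 ≤ m11)
    (hl : L3c th lam y MB u1 ua al vb be) (hg0 : 0 = g) (hug : ua ≤ 0) (hX : X ≤ 2)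
    (o2 : 5 * lam + y + 5 * u1 + vb ≤ 2 * th) (o3 : lam + u1 + 3 ≤ th)
    (tE : FT th (-g) X (MA - m11) (th + ua + vb - y) al (y - vb - be)) : False := by
  rcases tE with a1 | a1 | a1 | a1 | a1 | a1 | a1
  · linarith only [hj.A2, h110, hl.xl3, hl.xu1, hg0, hX, o3, a1]
  · linarith only [hb.l2, hb.M2, hj.A2, h110, hl.xyM, hl.xuz, hg0, hug, o2, a1]
  · linarith only [hb.ZM, hb.uy, hj.A2, h110, hl.xua, hl.xvb, hl.xu1, hg0, a1]
  · linarith only [hb.M2, hb.uax, hb.eU, hj.A2, h110, hl.xua, hl.xl3, hg0, o3, a1]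
  · linarith only [hj.A2, hb.v2y, hb.be1, h110, hl.xvb, hl.xyM, hg0, a1]
  · linarith only [hb.uax, hb.eU, hj.A2, hb.v2y, hb.be1, h110, hl.xl3, hg0, hX, o3, a1]
  · linarith only [hb.M2, hb.uax, hb.eU, hj.A2, hb.v2y, hb.be1, h110, hl.xua, hl.xvb, hl.xl3, hl.xyM, hl.xeU, hg0, hX, o2, a1]

theorem e1N_2_i {th lam y z MB u1 u2 ux ua al v2 vb be : ℝ}
    (hb : MB0 th lam y z MB u1 u2 ux ua al v2 vb be) (hl : L3c th lam y MB u1 ua al vb be)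
    (in3 : lam + y + 3 ≤ th) (in1 : 4 * lam + 4 * y + u1 ≤ 2 * th) : False := by
  linarith only [hb.l2, hb.M2, hb.uy, hl.xuz, in3, in1]

theorem e1L_S_g {th lam y z g Y X MB u1 u2 ux ua al v2 vb be sy : ℝ}
    (hb : MB0 th lam y z MB u1 u2 ux ua al v2 vb be) (hl : L3c th lam y MB u1 ua al vb be)
    (hg0 : 0 = g) (hY0 : 0 = Y) (hug : ua ≤ 0) (hyp1 : sy < MB + vb + 2) (hyp2 : MB + sy + 2 ≤ th)
    (hX : sy = Y + X) (hlam : 4 ≤ lam) (tO : FT th (-g) X 2 (th + ux + ua - u1) (u1 - ux - al) be)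
    : False := by
  rcases tO with a1 | a1 | a1 | a1 | a1 | a1 | a1
  · linarith only [hb.M0, hg0, hY0, hyp2, hX, a1]
  · linarith only [hb.eU, hl.xyM, hl.xeU, hg0, hug, a1]
  · linarith only [hb.uy, hb.uax, hl.xua, hl.xyM, hl.xuz, hg0, a1]
  · linarith only [hb.M0, hb.ZM, hb.uy, hb.uax, hl.xeU, hg0, a1]
  · linarith only [hl.xyM, hl.xbe, hg0, a1]
  · linarith only [hb.z0, hb.zM, hb.eZ, hl.xeU, hg0, hY0, hug, hyp1, hX, hlam, a1]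
  · linarith only [hb.z0, hb.zM, hb.uy, hb.uax, hb.eZ, hl.xua, hl.xeU, hg0, hY0, hyp1, hX, hlam, a1]

theorem e1L_S_o {th lam y z g Y X MB MA m11 u1 u2 ux ua al v2 vb be sy ay cy : ℝ}
    (hb : MB0 th lam y z MB u1 u2 ux ua al v2 vb be) (hj : MJ th lam y z MB MA) (h110 : 0 ≤ m11)
    (hl : L3c th lam y MB u1 ua al vb be) (hg0 : 0 = g) (hY0 : 0 = Y) (hug : ua ≤ 0)
    (hy : LY sy ay cy) (hyp1 : sy < MB + vb + 2) (hyp2 : MB + sy + 2 ≤ th) (hX : sy = Y + X)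
    (o2 : 5 * lam + y + 5 * u1 + vb ≤ 2 * th) (o3 : lam + u1 + 3 ≤ th)
    (tE : FT th (-g) X (MA - m11) (th + ua + vb - y) al (y - vb - be)) : False := by
  rcases tE with a1 | a1 | a1 | a1 | a1 | a1 | a1
  · linarith only [hj.A2, h110, hl.xl3, hl.xyM, hl.xuz, hg0, hY0, hyp1, hyp2, hX, o2, a1]
  · linarith only [hb.M2, hj.A2, h110, hl.xl3, hl.xyM, hl.xuz, hg0, hug, o2, a1]
  · linarith only [hj.A2, h110, hl.xua, hl.xyM, hg0, hy.a1, hy.say, hyp1, hyp2, a1]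
  · linarith only [hb.M2, hb.uax, hb.eU, hj.A2, h110, hl.xua, hl.xl3, hg0, o3, a1]
  · linarith only [hj.A2, hb.v2y, hb.be1, h110, hl.xvb, hl.xyM, hg0, a1]
  · linarith only [hb.uax, hb.eU, hj.A2, hb.v2y, hb.be1, h110, hl.xl3, hl.xyM, hl.xeU, hg0, hY0, hyp1, hyp2, hX, o2, a1]
  · linarith only [hb.M2, hb.uax, hb.eU, hj.A2, hb.v2y, hb.be1, h110, hl.xua, hl.xvb, hl.xl3, hl.xyM, hl.xeU, hg0, hY0, hyp1, hX, o2, a1]

theorem e1L_S_i {th lam y z MB u1 u2 ux ua al v2 vb be : ℝ}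
    (hb : MB0 th lam y z MB u1 u2 ux ua al v2 vb be) (hl : L3c th lam y MB u1 ua al vb be)
    (in3 : lam + y + 3 ≤ th) (in1 : 4 * lam + 4 * y + u1 ≤ 2 * th) : False := by
  linarith only [hb.M2, hb.uy, hl.xl3, hl.xuz, in3, in1]

theorem e1L_wQ_g {th lam y z g X MB u1 u2 ux ua al v2 vb be : ℝ}
    (hb : MB0 th lam y z MB u1 u2 ux ua al v2 vb be) (hl : L3c th lam y MB u1 ua al vb be)
    (hg0 : 0 = g) (hug : ua ≤ 0) (hXc0 : X < MB + vb)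
    (tO : FT th (-g) X 2 (th + ux + ua - u1) (u1 - ux - al) be) : False := by
  rcases tO with a1 | a1 | a1 | a1 | a1 | a1 | a1
  · linarith only [hb.v2y, hb.vb2, hl.xyM, hg0, hXc0, a1]
  · linarith only [hb.eU, hl.xyM, hl.xeU, hg0, hug, a1]
  · linarith only [hb.uy, hb.uax, hl.xua, hl.xyM, hl.xuz, hg0, a1]
  · linarith only [hb.M0, hb.ZM, hb.uy, hb.uax, hl.xeU, hg0, a1]
  · linarith only [hl.xyM, hl.xbe, hg0, a1]
  · linarith only [hb.eZ, hl.xyM, hl.xeU, hg0, hug, hXc0, a1]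
  · linarith only [hb.uy, hb.uax, hb.eZ, hl.xua, hl.xyM, hl.xeU, hg0, hXc0, a1]

theorem e1L_wQ_o {th lam y z g Y X MB MA m11 u1 u2 ux ua al v2 vb be sy ay cy : ℝ}
    (hb : MB0 th lam y z MB u1 u2 ux ua al v2 vb be) (hj : MJ th lam y z MB MA) (h110 : 0 ≤ m11)
    (hl : L3c th lam y MB u1 ua al vb be) (hg0 : 0 = g) (hY0 : 0 = Y) (hug : ua ≤ 0)
    (hy : LY sy ay cy) (hyp1 : sy < MB + vb + 2) (hyp2 : MB + sy + 2 ≤ th) (hXb : sy ≤ Y + X)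
    (hXc0 : X < MB + vb) (o2 : 5 * lam + y + 5 * u1 + vb ≤ 2 * th) (o3 : lam + u1 + 3 ≤ th)
    (tE : FT th (-g) X (MA - m11) (th + ua + vb - y) al (y - vb - be)) : False := by
  rcases tE with a1 | a1 | a1 | a1 | a1 | a1 | a1
  · linarith only [hj.A2, hb.v2y, hb.vb2, h110, hl.xyM, hg0, hXc0, a1]
  · linarith only [hb.M2, hj.A2, h110, hl.xl3, hl.xyM, hl.xuz, hg0, hug, o2, a1]
  · linarith only [hj.A2, h110, hl.xua, hl.xyM, hg0, hy.a1, hy.say, hyp1, hyp2, a1]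
  · linarith only [hb.M2, hb.uax, hb.eU, hj.A2, h110, hl.xua, hl.xl3, hg0, o3, a1]
  · linarith only [hj.A2, hb.v2y, hb.be1, h110, hl.xvb, hl.xyM, hg0, a1]
  · linarith only [hb.M2, hb.uax, hb.eU, hj.A2, hb.v2y, hb.be1, h110, hl.xl3, hl.xu1, hl.xeU, hg0, hXc0, o2, a1]
  · linarith only [hb.l2, hb.z0, hb.M2, hb.uax, hb.eU, hj.A2, hj.zMA, hb.v2y, hb.be1, h110, hl.xua, hg0, hY0, hy.a1, hy.say, hyp2, hXb, hXc0, o2, a1]

theorem e1L_wQ_i {th lam y z MB u1 u2 ux ua al v2 vb be : ℝ}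
    (hb : MB0 th lam y z MB u1 u2 ux ua al v2 vb be) (hl : L3c th lam y MB u1 ua al vb be)
    (in3 : lam + y + 3 ≤ th) (in1 : 4 * lam + 4 * y + u1 ≤ 2 * th) : False := by
  linarith only [hb.M2, hb.uy, hl.xl3, hl.xuz, in3, in1]

theorem e1L_wP_g {th lam y z g X MB u1 u2 ux ua al v2 vb be : ℝ}
    (hb : MB0 th lam y z MB u1 u2 ux ua al v2 vb be) (hl : L3c th lam y MB u1 ua al vb be)
    (hg0 : 0 = g) (hug : ua ≤ 0) (hXc0 : X < MB + vb + 2) (hXc1 : X + MB + 2 ≤ th)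
    (hlam : 4 ≤ lam) (tO : FT th (-g) X 2 (th + ux + ua - u1) (u1 - ux - al) be) : False := by
  rcases tO with a1 | a1 | a1 | a1 | a1 | a1 | a1
  · linarith only [hb.M0, hg0, hXc1, a1]
  · linarith only [hb.eU, hl.xyM, hl.xeU, hg0, hug, a1]
  · linarith only [hb.uy, hb.uax, hl.xua, hl.xyM, hl.xuz, hg0, a1]
  · linarith only [hb.M0, hb.ZM, hb.uy, hb.uax, hl.xeU, hg0, a1]
  · linarith only [hl.xyM, hl.xbe, hg0, a1]
  · linarith only [hb.z0, hb.zM, hb.eZ, hl.xeU, hg0, hug, hXc0, hlam, a1]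
  · linarith only [hb.z0, hb.zM, hb.uy, hb.uax, hb.eZ, hl.xua, hl.xeU, hg0, hXc0, hlam, a1]

theorem e1L_wP_o {th lam y z g Y X MB MA m11 u1 u2 ux ua al v2 vb be sy : ℝ}
    (hb : MB0 th lam y z MB u1 u2 ux ua al v2 vb be) (hj : MJ th lam y z MB MA) (h110 : 0 ≤ m11)
    (hl : L3c th lam y MB u1 ua al vb be) (hg0 : 0 = g) (hug : ua ≤ 0) (hXa : Y ≤ X + sy)
    (hXb : sy ≤ Y + X) (hXc0 : X < MB + vb + 2) (hXc1 : X + MB + 2 ≤ th)
    (o2 : 5 * lam + y + 5 * u1 + vb ≤ 2 * th) (o3 : lam + u1 + 3 ≤ th)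
    (tE : FT th (-g) X (MA - m11) (th + ua + vb - y) al (y - vb - be)) : False := by
  rcases tE with a1 | a1 | a1 | a1 | a1 | a1 | a1
  · linarith only [hj.A2, h110, hl.xl3, hl.xyM, hl.xuz, hg0, hXc0, hXc1, o2, a1]
  · linarith only [hb.M2, hj.A2, h110, hl.xl3, hl.xyM, hl.xuz, hg0, hug, o2, a1]
  · linarith only [hj.A2, h110, hl.xua, hl.xvb, hl.xyM, hg0, hXa, hXb, hXc1, a1]
  · linarith only [hb.M2, hb.uax, hb.eU, hj.A2, h110, hl.xua, hl.xl3, hg0, o3, a1]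
  · linarith only [hj.A2, hb.v2y, hb.be1, h110, hl.xvb, hl.xyM, hg0, a1]
  · linarith only [hb.uax, hb.eU, hj.A2, hb.v2y, hb.be1, h110, hl.xl3, hl.xyM, hl.xeU, hg0, hXc0, hXc1, o2, a1]
  · linarith only [hb.M2, hb.uax, hb.eU, hj.A2, hb.v2y, hb.be1, h110, hl.xua, hl.xvb, hl.xl3, hl.xyM, hl.xeU, hg0, hXc0, o2, a1]

theorem e1L_wP_i {th lam y z MB u1 u2 ux ua al v2 vb be : ℝ}
    (hb : MB0 th lam y z MB u1 u2 ux ua al v2 vb be) (hl : L3c th lam y MB u1 ua al vb be)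
    (in3 : lam + y + 3 ≤ th) (in1 : 4 * lam + 4 * y + u1 ≤ 2 * th) : False := by
  linarith only [hb.M2, hb.uy, hl.xl3, hl.xuz, in3, in1]

theorem e1L_2_g {th lam y z g X MB u1 u2 ux ua al v2 vb be sy ay cy : ℝ}
    (hb : MB0 th lam y z MB u1 u2 ux ua al v2 vb be) (hl : L3c th lam y MB u1 ua al vb be)
    (hg0 : 0 = g) (hug : ua ≤ 0) (hy : LY sy ay cy) (hyp2 : MB + sy + 2 ≤ th) (hX : X ≤ 2)
    (hlam : 4 ≤ lam) (tO : FT th (-g) X 2 (th + ux + ua - u1) (u1 - ux - al) be) : False := by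
  rcases tO with a1 | a1 | a1 | a1 | a1 | a1 | a1
  · linarith only [hb.M0, hg0, hy.a1, hy.say, hyp2, hX, a1]
  · linarith only [hb.eU, hl.xyM, hl.xeU, hg0, hug, a1]
  · linarith only [hb.uy, hb.uax, hl.xua, hl.xyM, hl.xuz, hg0, a1]
  · linarith only [hb.M0, hb.ZM, hb.uy, hb.uax, hl.xeU, hg0, a1]
  · linarith only [hl.xyM, hl.xbe, hg0, a1]
  · linarith only [hb.z0, hb.zM, hl.xbe, hl.xeU, hg0, hug, hX, hlam, a1]
  · linarith only [hb.z0, hb.zM, hb.uy, hb.uax, hl.xua, hl.xbe, hl.xeU, hg0, hX, hlam, a1]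

theorem e1L_2_o {th lam y z g X MB MA m11 u1 u2 ux ua al v2 vb be sy ay cy : ℝ}
    (hb : MB0 th lam y z MB u1 u2 ux ua al v2 vb be) (hj : MJ th lam y z MB MA) (h110 : 0 ≤ m11)
    (hl : L3c th lam y MB u1 ua al vb be) (hg0 : 0 = g) (hug : ua ≤ 0) (hy : LY sy ay cy)
    (hyp1 : sy < MB + vb + 2) (hyp2 : MB + sy + 2 ≤ th) (hX : X ≤ 2)
    (o2 : 5 * lam + y + 5 * u1 + vb ≤ 2 * th) (o3 : lam + u1 + 3 ≤ th)
    (tE : FT th (-g) X (MA - m11) (th + ua + vb - y) al (y - vb - be)) : False := by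
  rcases tE with a1 | a1 | a1 | a1 | a1 | a1 | a1
  · linarith only [hj.A2, h110, hl.xl3, hl.xyM, hl.xuz, hg0, hX, o3, a1]
  · linarith only [hb.M2, hj.A2, h110, hl.xl3, hl.xyM, hl.xuz, hg0, hug, o2, a1]
  · linarith only [hj.A2, h110, hl.xua, hl.xyM, hg0, hy.a1, hy.say, hyp1, hyp2, a1]
  · linarith only [hb.M2, hb.uax, hb.eU, hj.A2, h110, hl.xua, hl.xl3, hg0, o3, a1]
  · linarith only [hj.A2, hb.v2y, hb.be1, h110, hl.xvb, hl.xyM, hg0, a1]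
  · linarith only [hb.uax, hb.eU, hj.A2, hb.v2y, hb.be1, h110, hl.xl3, hg0, hX, o3, a1]
  · linarith only [hb.M2, hb.uax, hb.eU, hj.A2, hb.v2y, hb.be1, h110, hl.xua, hl.xvb, hl.xl3, hl.xyM, hl.xeU, hg0, hX, o2, a1]

theorem e1L_2_i {th lam y z MB u1 u2 ux ua al v2 vb be : ℝ}
    (hb : MB0 th lam y z MB u1 u2 ux ua al v2 vb be) (hl : L3c th lam y MB u1 ua al vb be)
    (in1 : 4 * lam + 4 * y + u1 ≤ 2 * th) : False := by
  linarith only [hb.M2, hb.uy, hl.xl3, hl.xyM, hl.xuz, in1]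

end Pool.Agent.Exact
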