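import Pool.Agent.Lib_helper43.NC.MxM

/-!
# Facts about the parameters of a leaf with hubs of both types
-/

set_option autoImplicit false
set_option linter.unusedSectionVars false
set_option linter.unusedSimpArgs false
set_option linter.unnecessarySeqFocus false
set_option linter.unreachableTactic false
set_option linter.unusedTactic false

namespace Pool.Agent.Exact

open Finset

variable {V : Type*} [Fintype V] [DecidableEq V]
variable {B : V → V → ℤ} {Rl : Finset V} {ℓ nQ nP : ℕ} {uq up : ℕ → V} {q p : ℕ → ℝ}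
variable {k : ℤ} {θ : ℝ}

/-- the levels exist -/
lemma exists_lev (q p : ℕ → ℝ) (i j : ℕ) (θ : ℝ) :
    ∃ y u1 u2 ux ua al v2 vb be : ℝ, Lev q p i j θ y u1 u2 ux ua al v2 vb be :=
  ⟨q 0 - θ, p 0 - θ, p (min 1 (2 * j)) - θ, p (2 * j - 1) - θ, p (2 * j) - θ, AA p j, q 1 - θ,
    q (2 * i + 1) - θ, AA q (i + 1), ⟨by ring, by ring, by ring, by ring, by ring, rfl, by ring,
      by ring, rfl⟩⟩

section
variable (h : Ctx B Rl ℓ nQ nP uq up q p k θ)
include h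

variable {i j : ℕ} {y u1 u2 ux ua al v2 vb be : ℝ}

/-- charges of two hubs of the second type -/
lemma Ctx.cRT {a b j0 : ℕ} (ha1 : 1 ≤ a) (haQ : a ≤ nQ) (hbP : b ≤ nP) (hb : j0 < b) :
    cRr B nQ nP uq up a b + (MM B (uq 0) (up j0) - 1) ≤ Rl.card - 1 - q 0 := by
  have h1 := h.fr.chR ha1 haQ hbP (T := {up j0}) (by
    intro v hv
    rw [Finset.mem_singleton] at hv
    subst hv
    unfold vs
    refine Finset.mem_image.2 ⟨Sum.inr j0, ?_, rfl⟩
    simp only [hb1, Finset.mem_union, inr_mem_iq, inr_mem_ip]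
    omega)
  rw [Finset.sum_singleton] at h1
  have h2 := h.fr.sys.B1 (uq 0) (up j0)
  have h3 : MM B (uq 0) (up j0) - 1 ≤ 1 - (B (uq 0) (up j0) - B (up j0) (uq 0)) := by
    unfold MM; linarith
  have h4 : ((MM B (uq 0) (up j0) - 1 : ℤ) : ℝ) ≤
      ((1 - (B (uq 0) (up j0) - B (up j0) (uq 0)) : ℤ) : ℝ) := by exact_mod_cast h3
  unfold cRr
  push_cast at h1 h4 ⊢
  linarith

lemma Ctx.cRT2 {a b j0 : ℕ} (ha1 : 1 ≤ a) (haQ : a ≤ nQ) (hbP : b ≤ nP) (hb : j0 < b)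
    (hj0 : 1 ≤ j0) :
    cRr B nQ nP uq up a b + (MM B (uq 0) (up 0) - 1) + (MM B (uq 0) (up j0) - 1) ≤
      Rl.card - 1 - q 0 := by
  have hP := h.fr.nPle
  have hne : up 0 ≠ up j0 := by
    intro e
    have := h.fr.sys.chP.inj 0 (by omega) j0 (by omega) e
    omega
  have h1 := h.fr.chR ha1 haQ hbP (T := {up 0, up j0}) (by
    intro v hv
    rw [Finset.mem_insert, Finset.mem_singleton] at hv
    unfold vs
    rcases hv with hv | hv
    · subst hv
      refine Finset.mem_image.2 ⟨Sum.inr 0, ?_, rfl⟩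
      simp only [hb1, Finset.mem_union, inr_mem_iq, inr_mem_ip]
      omega
    · subst hv
      refine Finset.mem_image.2 ⟨Sum.inr j0, ?_, rfl⟩
      simp only [hb1, Finset.mem_union, inr_mem_iq, inr_mem_ip]
      omega)
  rw [Finset.sum_pair hne] at h1
  have h2 := h.fr.sys.B1 (uq 0) (up j0)
  have h2' := h.fr.sys.B1 (uq 0) (up 0)
  have h3 : MM B (uq 0) (up 0) - 1 + (MM B (uq 0) (up j0) - 1) ≤
      1 - (B (uq 0) (up 0) - B (up 0) (uq 0)) + (1 - (B (uq 0) (up j0) - B (up j0) (uq 0))) := by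
    unfold MM; linarith
  have h4 : ((MM B (uq 0) (up 0) - 1 + (MM B (uq 0) (up j0) - 1) : ℤ) : ℝ) ≤
      ((1 - (B (uq 0) (up 0) - B (up 0) (uq 0)) +
        (1 - (B (uq 0) (up j0) - B (up j0) (uq 0))) : ℤ) : ℝ) := by exact_mod_cast h3
  unfold cRr
  push_cast at h1 h4 ⊢
  linarith

/-- the levels -/
theorem Ctx.mxB (hn : 2 * k - 1 ≤ (Rl.card : ℤ)) (hi : i + 1 < ℓ) (hj : j < ℓ)
    (haQ : 2 * (i + 1) ≤ nQ) (hbP : 2 * j + 1 ≤ nP) (hpq : p 0 ≤ q 0)
    (hz : q 0 + MM B (uq 0) (up 0) + 2 ≤ 2 * θ)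
    (hv : Lev q p i j θ y u1 u2 ux ua al v2 vb be) :
    MB0 θ (2 * θ - Rl.card + 1) y (cRr B nQ nP uq up (2 * (i + 1)) (2 * j + 1))
      (MM B (uq 0) (up 0)) u1 u2 ux ua al v2 vb be := by
  have hl := h.fr.l2
  have c1 := h.cR (a := 2 * (i + 1)) (b := 2 * j + 1) (by omega) haQ hbP
  have c2 := h.cRT (a := 2 * (i + 1)) (b := 2 * j + 1) (j0 := 0) (by omega) haQ hbP (by omega)
  have hy := hv.y
  have hu1 := hv.u1
  have hu2 := hv.u2
  have hux := hv.ux
  have hua := hv.ua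
  have hal := hv.al
  have hv2 := hv.v2
  have hvb := hv.vb
  have hbe := hv.be
  obtain ⟨p1, p2, p3, p4⟩ := h.fr.pgap hj
  refine ⟨h.lam2 hn, h.cR0, by linarith, by linarith, h.MM0 _ _, h.MM2 _ _, by linarith,
    by linarith, by rw [← hal]; exact p1, ?_, ?_, ?_, ?_, ?_, ?_, ?_, ?_, ?_⟩
  · have := h.fr.pa (i := 0) (j := min 1 (2 * j)) (by omega) (by omega)
    linarith
  · have := h.fr.pa (i := min 1 (2 * j)) (j := 2 * j - 1) (by omega) (by omega)
    linarith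
  · have := h.fr.pa (i := 2 * j - 1) (j := 2 * j) (by omega) (by omega)
    linarith
  · rcases Nat.eq_zero_or_pos j with h0 | h0
    · subst h0
      rw [show min 1 (2 * 0) = 0 by rfl] at hu2
      linarith
    · rw [show min 1 (2 * j) = 1 by omega] at hu2
      have h5 := p3 0 h0
      rw [Nat.mul_zero, Nat.zero_add] at h5
      linarith
  · rcases Nat.eq_zero_or_pos j with h0 | h0
    · subst h0
      rw [AA_zero] at hal
      rw [show 2 * 0 - 1 = 0 by rfl] at hux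
      linarith
    · obtain ⟨j', rfl⟩ : ∃ j', j = j' + 1 := ⟨j - 1, by omega⟩
      have e1 := AA_succ p j'
      obtain ⟨r1, r2, r3, r4⟩ := h.fr.pgap (j := j') (by omega)
      rw [show 2 * (j' + 1) - 1 = 2 * j' + 1 by omega] at hux
      linarith
  · have := h.fr.qa (i := 0) (j := 1) (by omega) (by omega)
    linarith
  · have h5 := h.fr.qgA (Nat.zero_le 0) (show 0 < i + 1 by omega) (by omega)
    rw [AA_zero, Nat.mul_zero, Nat.zero_add, zero_add] at h5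
    linarith
  · have := h.fr.qa (i := 1) (j := 2 * i + 1) (by omega) (by omega)
    linarith
  · have e1 := AA_succ q i
    obtain ⟨r1, r2, r3, r4⟩ := h.fr.qgap (i := i) (by omega)
    linarith

/-- multiplicities -/
theorem Ctx.mxJ (hj1 : 1 ≤ j) (haQ : 2 * (i + 1) ≤ nQ) (hbP : 2 * j + 1 ≤ nP)
    (hv : Lev q p i j θ y u1 u2 ux ua al v2 vb be) :
    MJ θ (2 * θ - Rl.card + 1) y (cRr B nQ nP uq up (2 * (i + 1)) (2 * j + 1))
      (MM B (uq 0) (up 0)) (MM B (uq 0) (up (2 * j))) := by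
  have c2 := h.cRT (a := 2 * (i + 1)) (b := 2 * j + 1) (j0 := 2 * j) (by omega) haQ hbP (by omega)
  have c3 := h.cRT2 (a := 2 * (i + 1)) (b := 2 * j + 1) (j0 := 2 * j) (by omega) haQ hbP (by omega)
    (by omega)
  have hy := hv.y
  exact ⟨h.MM0 _ _, h.MM2 _ _, by linarith, by linarith⟩

/-- the leaf 2a -/
theorem Ctx.mx2a (hi : i + 1 < ℓ) (hj : j < ℓ) (hpq : p 0 ≤ q 0 - 1)
    (hE : θ - MM B (uq 0) (up 0) < q (2 * i + 1) - q (2 * i + 2))
    (hD : θ < p (2 * j) - p (2 * j + 1))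
    (hv : Lev q p i j θ y u1 u2 ux ua al v2 vb be) :
    L2a y (MM B (uq 0) (up 0)) u1 ua vb ∧ q (2 * (i + 1)) < vb + MM B (uq 0) (up 0) ∧
      p (2 * j + 1) < ua := by
  have h1 := h.fr.qn (i := 2 * i + 2) (by omega)
  have h2 := h.fr.pn (i := 2 * j + 1) (by omega)
  have hy := hv.y
  have hu1 := hv.u1
  have hua := hv.ua
  have hvb := hv.vb
  refine ⟨⟨by linarith, by linarith, by linarith⟩, ?_, by linarith⟩
  rw [show 2 * (i + 1) = 2 * i + 2 by ring]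
  linarith

/-- the leaf 2c -/
theorem Ctx.mx2c (hi : i + 1 < ℓ) (hj : j < ℓ) (hpq : p 0 ≤ q 0 - 1)
    (hD : θ < p (2 * j) - p (2 * j + 1))
    (hA : AA q ℓ + AA p ℓ < 2 * (q 0 - θ) + 2 * MM B (uq 0) (up 0))
    (h1 : θ - 2 < q (2 * i + 1)) (h2 : q (2 * (i + 1)) ≤ θ - 2)
    (h3 : q (2 * (i + 1)) < p (2 * j) - p (2 * j + 1) - θ + 2)
    (hv : Lev q p i j θ y u1 u2 ux ua al v2 vb be) :
    L2c θ y (MM B (uq 0) (up 0)) u1 ua al vb be ∧ q (2 * (i + 1)) < ua + 2 ∧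
      q (2 * (i + 1)) ≤ θ - 2 ∧ p (2 * j + 1) < ua := by
  have h4 := h.fr.qn (i := 2 * (i + 1)) (by omega)
  have h5 := h.fr.pn (i := 2 * j + 1) (by omega)
  have hy := hv.y
  have hu1 := hv.u1
  have hua := hv.ua
  have hvb := hv.vb
  have hal := hv.al
  have hbe := hv.be
  have a1 := h.fr.qAm (i := i + 1) (j := ℓ) (by omega) le_rfl
  have a2 := h.fr.pAm (i := j + 1) (j := ℓ) (by omega) le_rfl
  have a3 := AA_succ p j
  exact ⟨⟨by linarith, by linarith, by linarith, by linarith⟩, by linarith, h2, by linarith⟩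

/-- the leaf 3c -/
theorem Ctx.mx3c (hi : i + 1 < ℓ) (hj : j < ℓ) (hlam : 3 < 2 * θ - (Rl.card : ℝ) + 1)
    (hz : q 0 + MM B (uq 0) (up 0) + 2 ≤ 2 * θ) (hp0 : θ < p 0)
    (hA : 2 * θ < AA q ℓ + AA p ℓ)
    (hE : θ - MM B (uq 0) (up 0) < q (2 * i + 1) - q (2 * i + 2))
    (h1 : θ - (MM B (uq 0) (up 0) + 2) < p (2 * j))
    (h2 : p (2 * j + 1) ≤ θ - (MM B (uq 0) (up 0) + 2))
    (h3 : p (2 * j + 1) < q (2 * i + 1) - q (2 * i + 2) - θ + (MM B (uq 0) (up 0) + 2))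
    (hv : Lev q p i j θ y u1 u2 ux ua al v2 vb be) :
    L3c θ (2 * θ - Rl.card + 1) y (MM B (uq 0) (up 0)) u1 ua al vb be ∧
      q (2 * (i + 1)) < vb + MM B (uq 0) (up 0) ∧
      p (2 * j + 1) < vb + MM B (uq 0) (up 0) + 2 ∧
      p (2 * j + 1) ≤ θ - MM B (uq 0) (up 0) - 2 := by
  have h4 := h.fr.qn (i := 2 * i + 2) (by omega)
  have h5 := h.fr.pn (i := 2 * j + 1) (by omega)
  have hy := hv.y
  have hu1 := hv.u1
  have hua := hv.ua
  have hvb := hv.vb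
  have hal := hv.al
  have hbe := hv.be
  have a1 := h.fr.qAm (i := i + 1) (j := ℓ) (by omega) le_rfl
  have a2 := h.fr.qT (i := i + 1) (by omega)
  have a3 := AA_succ q i
  obtain ⟨r1, r2, r3, r4⟩ := h.fr.qgap (i := i) (by omega)
  obtain ⟨s1, s2, s3, s4⟩ := h.fr.pgap (j := j) hj
  have a4 := h.fr.pT (i := j) hj
  rw [show 2 * (i + 1) = 2 * i + 2 by ring] at a2 ⊢
  exact ⟨⟨by linarith, by linarith, hlam, by linarith, by linarith, by linarith, by linarith,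
    by linarith⟩, by linarith, by linarith, by linarith⟩

/-- minimum outdegree at least `k` -/
theorem Ctx.mxO1 (hout : ∀ v ∈ Rl, k ≤ ∑ u, B v u) (hi : i + 1 < ℓ)
    (haQ : 2 * (i + 1) ≤ nQ) (hp0 : 0 < p 0) (hq0 : 0 < q 0)
    (hv : Lev q p i j θ y u1 u2 ux ua al v2 vb be) {Λ : ℝ}
    (hL : 2 * θ - (Rl.card : ℝ) + 1 ≤ Λ) :
    2 * θ + y ≤ Λ * (θ - (2 * θ - Rl.card + 1) - u1) ∧
    3 * θ + y + vb ≤ (Λ + 1) * (θ - (2 * θ - Rl.card + 1) - u1) ∧
    3 ≤ θ - (2 * θ - (Rl.card : ℝ) + 1) - u1 ∧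
    (1 ≤ i → 5 * θ + y + v2 + (q (2 * i) - θ) + vb ≤
      (Λ + 3) * (θ - (2 * θ - Rl.card + 1) - u1)) := by
  have hl := h.fr.l2
  have hQ := h.fr.nQle
  have k3 := h.k3r
  have hy := hv.y
  have hu1 := hv.u1
  have hv2 := hv.v2
  have hvb := hv.vb
  have hpk := h.pleK hout (i := 0) (by omega) hp0
  have O1 := h.O1 hout (i := 0) (by omega) hq0
  -- `κ`
  obtain ⟨κ, hκ⟩ : ∃ κ : ℝ, κ = θ - (2 * θ - Rl.card + 1) - u1 := ⟨_, rfl⟩
  rw [← hκ]
  have hkκ : (k : ℝ) ≤ κ := by linarith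
  obtain ⟨lam, hlam⟩ : ∃ lam : ℝ, lam = 2 * θ - (Rl.card : ℝ) + 1 := ⟨_, rfl⟩
  rw [← hlam] at hL
  have hn : (Rl.card : ℝ) = 2 * θ - lam + 1 := by linarith
  have hθ0 := h.θ0
  have hq0' := h.qle (i := 0) (by omega) hq0
  -- the inequality for a set of hubs
  have key : ∀ (s : Finset ℕ), (∀ x ∈ s, x < nQ) →
      (k : ℝ) * (Rl.card - s.card) + ∑ x ∈ s, q x ≤ (2 * k - 1) * θ := by
    intro s hs
    have h1 := mm_ge_out h.fr.sys.B0 h.fr.sys.dummy hout (S := s.image uq) (by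
      intro v hv'
      rw [Finset.mem_image] at hv'
      obtain ⟨x, hx, rfl⟩ := hv'
      rw [h.fr.sys.realQ x (by have := hs x hx; omega)]
      exact hs x hx)
    have hinj : Set.InjOn uq s := by
      intro x hx x' hx' e
      exact h.fr.sys.chQ.inj x (by have := hs x hx; omega) x' (by have := hs x' hx'; omega) e
    rw [Finset.card_image_of_injOn hinj, Finset.sum_image hinj] at h1
    have h2 : ((∑ x ∈ s, im B (uq x) : ℤ) : ℝ) = ∑ x ∈ s, q x := by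
      push_cast
      exact Finset.sum_congr rfl fun x hx => h.fr.sys.wtQ x (by have := hs x hx; omega)
    rw [h.hm, ← h2]
    exact_mod_cast h1
  have lam0 : 0 ≤ Λ ∧ 2 * θ + y ≤ k * lam := by
    have e1 : 2 * θ + y ≤ k * lam := by
      rw [hn] at O1
      rw [hy] at O1
      linarith
    refine ⟨?_, e1⟩
    by_contra hc
    push Not at hc
    have : (k : ℝ) * lam ≤ 0 := mul_nonpos_of_nonneg_of_nonpos (by linarith) (by linarith)
    linarith
  obtain ⟨Λ0, L1⟩ := lam0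
  have m1 : (k : ℝ) * lam ≤ Λ * κ := by
    calc (k : ℝ) * lam ≤ k * Λ := mul_le_mul_of_nonneg_left hL (by linarith)
      _ = Λ * k := mul_comm _ _
      _ ≤ Λ * κ := mul_le_mul_of_nonneg_left hkκ Λ0
  refine ⟨by linarith, ?_, by linarith, ?_⟩
  · have h1 := key {0, 2 * i + 1} (by
      intro x hx
      rw [Finset.mem_insert, Finset.mem_singleton] at hx
      omega)
    rw [Finset.card_pair (by omega), Finset.sum_pair (by omega), hy, hvb, hn] at h1
    push_cast at h1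
    linarith
  · intro hi1
    have h1 := key {0, 1, 2 * i, 2 * i + 1} (by
      intro x hx
      simp only [Finset.mem_insert, Finset.mem_singleton] at hx
      omega)
    have n1 : (0 : ℕ) ∉ ({1, 2 * i, 2 * i + 1} : Finset ℕ) := by
      simp only [Finset.mem_insert, Finset.mem_singleton]; omega
    have n2 : (1 : ℕ) ∉ ({2 * i, 2 * i + 1} : Finset ℕ) := by
      simp only [Finset.mem_insert, Finset.mem_singleton]; omega
    rw [Finset.card_insert_of_notMem n1, Finset.card_insert_of_notMem n2,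
      Finset.card_pair (by omega), Finset.sum_insert n1, Finset.sum_insert n2,
      Finset.sum_pair (by omega), hy, hvb, hv2, hn] at h1
    push_cast at h1
    linarith

/-- minimum indegree at least `k` -/
theorem Ctx.mxI1 (hin : ∀ v ∈ Rl, k ≤ ∑ u, B u v) (hp0 : 0 < p 0) (hq0 : 0 < q 0)
    (hv : Lev q p i j θ y u1 u2 ux ua al v2 vb be) {Λ : ℝ}
    (hL : 2 * θ - (Rl.card : ℝ) + 1 ≤ Λ) :
    3 ≤ θ - (2 * θ - (Rl.card : ℝ) + 1) - y ∧
      2 * θ + u1 ≤ Λ * (θ - (2 * θ - Rl.card + 1) - y) := by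
  have hl := h.fr.l2
  have k3 := h.k3r
  have hy := hv.y
  have hu1 := hv.u1
  have hqk := h.qleK hin (i := 0) (by omega) hq0
  have O1 := h.O1' hin (i := 0) (by omega) hp0
  obtain ⟨κ, hκ⟩ : ∃ κ : ℝ, κ = θ - (2 * θ - Rl.card + 1) - y := ⟨_, rfl⟩
  rw [← hκ]
  have hkκ : (k : ℝ) ≤ κ := by linarith
  obtain ⟨lam, hlam⟩ : ∃ lam : ℝ, lam = 2 * θ - (Rl.card : ℝ) + 1 := ⟨_, rfl⟩
  rw [← hlam] at hL
  have hn : (Rl.card : ℝ) = 2 * θ - lam + 1 := by linarith
  have hθ0 := h.θ0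
  have e1 : 2 * θ + u1 ≤ k * lam := by
    rw [hn, hu1] at O1
    linarith
  have Λ0 : 0 ≤ Λ := by
    by_contra hc
    push Not at hc
    have : (k : ℝ) * lam ≤ 0 := mul_nonpos_of_nonneg_of_nonpos (by linarith) (by linarith)
    linarith
  refine ⟨by linarith, e1.trans ?_⟩
  calc (k : ℝ) * lam ≤ k * Λ := mul_le_mul_of_nonneg_left hL (by linarith)
    _ = Λ * k := mul_comm _ _
    _ ≤ Λ * κ := mul_le_mul_of_nonneg_left hkκ Λ0

end

end Pool.Agent.Exact
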