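import Pool.Agent.Lib_helper43.NC.MxL

/-!
# The leaves 2a, 2c, 3c; minimum outdegree at least `k`
-/

set_option autoImplicit false
set_option linter.unusedSectionVars false
set_option linter.unusedVariables false

namespace Pool.Agent.Exact

open Finset

variable {V : Type*} [Fintype V] [DecidableEq V]
variable {B : V → V → ℤ} {Rl : Finset V} {ℓ nQ nP : ℕ} {uq up : ℕ → V} {q p : ℕ → ℝ}
variable {k : ℤ} {θ : ℝ}

section
variable (h : Ctx B Rl ℓ nQ nP uq up q p k θ)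
include h

variable {i j : ℕ} {Rs S : Finset V} {g : ℤ} {Kc : V → Finset V} {pick : Finset V → V}

/-- leaf 2a -/
theorem Ctx.m2a (hn : 2 * k - 1 ≤ (Rl.card : ℤ)) (hnv : ¬ Val B θ) (hi : i + 1 < ℓ) (hj : j < ℓ)
    (hpq : p 0 ≤ q 0 - 1)
    (hE : θ - MM B (uq 0) (up 0) < q (2 * i + 1) - q (2 * i + 2))
    (hD : θ < p (2 * j) - p (2 * j + 1))
    (hC : Closed B nQ nP uq up q p θ (2 * (i + 1)) (2 * j + 1))
    (hdec : Dec B pick (vs uq up (rr nQ nP (2 * (i + 1)) (2 * j + 1))) Rs S g Kc) :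
    ∃ (Y : ℤ) (nb : ℝ), MxOut B nQ nP uq up q p θ i j Rs S g Y nb := by
  have hθ0 := h.θ0
  have p1 := h.fr.pn (i := 2 * j + 1) (by omega)
  have p2 := h.fr.pa (i := 0) (j := 2 * j) (by omega) (by omega)
  have hp0 : 0 < p 0 := by linarith
  have hq0 : 0 < q 0 := by linarith
  have hqn := h.qle (i := 0) (by omega) hq0
  have hlam := h.lam2 hn
  obtain ⟨hz, -, -⟩ := h.Z1 hn hq0 (by linarith) hp0
  obtain ⟨y, u1, u2, ux, ua, al, v2, vb, be, hv⟩ := exists_lev q p i j θ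
  exact h.mxMain hn hnv hi hj (by linarith) hp0 hz hC hv (Or.inl (h.mx2a hi hj hpq hE hD hv)) hdec

/-- leaf 2c -/
theorem Ctx.m2c (hn : 2 * k - 1 ≤ (Rl.card : ℤ)) (hnv : ¬ Val B θ) (hi : i + 1 < ℓ) (hj : j < ℓ)
    (hpq : p 0 ≤ q 0 - 1)
    (hD : θ < p (2 * j) - p (2 * j + 1))
    (hA : AA q ℓ + AA p ℓ < 2 * (q 0 - θ) + 2 * MM B (uq 0) (up 0))
    (h1 : θ - 2 < q (2 * i + 1)) (h2 : q (2 * (i + 1)) ≤ θ - 2)
    (h3 : q (2 * (i + 1)) < p (2 * j) - p (2 * j + 1) - θ + 2)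
    (hC : Closed B nQ nP uq up q p θ (2 * (i + 1)) (2 * j + 1))
    (hdec : Dec B pick (vs uq up (rr nQ nP (2 * (i + 1)) (2 * j + 1))) Rs S g Kc) :
    ∃ (Y : ℤ) (nb : ℝ), MxOut B nQ nP uq up q p θ i j Rs S g Y nb := by
  have hθ0 := h.θ0
  have p1 := h.fr.pn (i := 2 * j + 1) (by omega)
  have p2 := h.fr.pa (i := 0) (j := 2 * j) (by omega) (by omega)
  have hp0 : 0 < p 0 := by linarith
  have hq0 : 0 < q 0 := by linarith
  have hqn := h.qle (i := 0) (by omega) hq0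
  have hlam := h.lam2 hn
  obtain ⟨hz, -, -⟩ := h.Z1 hn hq0 (by linarith) hp0
  obtain ⟨y, u1, u2, ux, ua, al, v2, vb, be, hv⟩ := exists_lev q p i j θ
  obtain ⟨hl, hc1, hc2, hc3⟩ := h.mx2c hi hj hpq hD hA h1 h2 h3 hv
  exact h.mxMain hn hnv hi hj (by linarith) hp0 hz hC hv
    (Or.inr (Or.inl ⟨hl, fun hi1 => h.mxlam3 hn hi hj hC.aQ hC.bP (by linarith) hp0 hz hv hl hi1,
      hc1, hc2, hc3⟩)) hdec

/-- leaf 3c -/
theorem Ctx.m3c (hn : 2 * k - 1 ≤ (Rl.card : ℤ)) (hnv : ¬ Val B θ) (hi : i + 1 < ℓ) (hj : j < ℓ)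
    (hpq : p 0 ≤ q 0) (hlam : 3 < 2 * θ - (Rl.card : ℝ) + 1)
    (hz : q 0 + MM B (uq 0) (up 0) + 2 ≤ 2 * θ) (hp0 : θ < p 0)
    (hA : 2 * θ < AA q ℓ + AA p ℓ)
    (hE : θ - MM B (uq 0) (up 0) < q (2 * i + 1) - q (2 * i + 2))
    (h1 : θ - (MM B (uq 0) (up 0) + 2) < p (2 * j))
    (h2 : p (2 * j + 1) ≤ θ - (MM B (uq 0) (up 0) + 2))
    (h3 : p (2 * j + 1) < q (2 * i + 1) - q (2 * i + 2) - θ + (MM B (uq 0) (up 0) + 2))
    (hC : Closed B nQ nP uq up q p θ (2 * (i + 1)) (2 * j + 1))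
    (hdec : Dec B pick (vs uq up (rr nQ nP (2 * (i + 1)) (2 * j + 1))) Rs S g Kc) :
    ∃ (Y : ℤ) (nb : ℝ), MxOut B nQ nP uq up q p θ i j Rs S g Y nb := by
  have hθ0 := h.θ0
  obtain ⟨y, u1, u2, ux, ua, al, v2, vb, be, hv⟩ := exists_lev q p i j θ
  exact h.mxMain hn hnv hi hj hpq (by linarith) hz hC hv
    (Or.inr (Or.inr (h.mx3c hi hj hlam hz hp0 hA hE h1 h2 h3 hv))) hdec

/-- the leaves 2a, 2c, 3c for minimum outdegree at least `k` -/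
theorem Ctx.moMx (hn : 2 * k - 1 ≤ (Rl.card : ℤ)) (hout : ∀ v ∈ Rl, k ≤ ∑ u, B v u)
    (hi : i + 1 < ℓ) (hj : j < ℓ) (haQ : 2 * (i + 1) ≤ nQ) (hbP : 2 * j + 1 ≤ nP)
    (hdec : Dec B pick (vs uq up (rr nQ nP (2 * (i + 1)) (2 * j + 1))) Rs S g Kc)
    (hpick : ∀ K : Finset V, K.Nonempty → pick K ∈ K ∧ ∀ u ∈ K, indg B K (pick K) ≤ indg B K u)
    (hq0 : θ ≤ q 0) (hqi : θ - 2 ≤ q (2 * i + 1)) {Y : ℤ} {nb : ℝ}
    (hM : MxOut B nQ nP uq up q p θ i j Rs S g Y nb) : False := by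
  have hθ0 := h.θ0
  have h1 := hM.gp
  have hg0 : (0 : ℝ) ≤ (g : ℝ) := by exact_mod_cast hdec.g0
  have hcg : (Rs.card : ℝ) ≤ 2 * (g : ℝ) := by exact_mod_cast hdec.cg
  have h2 := h.moLow hn hout hi hj haQ hbP hdec hpick hq0 hqi (by linarith) hM.gam
  linarith

/-- a decomposition of the rest -/
lemma Ctx.exDec {a b : ℕ} (pick : Finset V → V) (hpick : ∀ K : Finset V, K.Nonempty → pick K ∈ K) :
    ∃ (Rs S : Finset V) (g : ℤ) (Kc : V → Finset V),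
      Dec B pick (vs uq up (rr nQ nP a b)) Rs S g Kc := by
  obtain ⟨Rs, S, g, Kc, hRS, hdS, hbl, hcg, hind, hbad, hKd⟩ :=
    exists_dec h.fr.sys.B0 h.fr.sys.B1 h.fr.sys.Bd pick hpick _
      (vs uq up (rr nQ nP a b)) rfl
  exact ⟨Rs, S, g, Kc, ⟨hRS, hdS, hcg, by omega, hind, hbad, hKd, hbl⟩⟩

/-- **Leaf 2a**, minimum outdegree at least `k`. -/
theorem Ctx.mo2a (hn : 2 * k - 1 ≤ (Rl.card : ℤ)) (hnv : ¬ Val B θ)
    (hout : ∀ v ∈ Rl, k ≤ ∑ u, B v u) (hi : i + 1 < ℓ) (hj : j < ℓ)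
    (hpq : p 0 ≤ q 0 - 1)
    (hE : θ - MM B (uq 0) (up 0) < q (2 * i + 1) - q (2 * i + 2))
    (hD : θ < p (2 * j) - p (2 * j + 1))
    (hC : Closed B nQ nP uq up q p θ (2 * (i + 1)) (2 * j + 1)) : False := by
  have : Nonempty V := ⟨uq 0⟩
  obtain ⟨pick, hpick⟩ := exists_pick B
  obtain ⟨Rs, S, g, Kc, hdec⟩ := h.exDec (a := 2 * (i + 1)) (b := 2 * j + 1) pick
    (fun K hK => (hpick K hK).1)
  obtain ⟨Y, nb, hM⟩ := h.m2a hn hnv hi hj hpq hE hD hC hdec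
  have e1 := h.fr.qn (i := 2 * i + 2) (by omega)
  have e2 := h.MM2 (uq 0) (up 0)
  exact h.moMx hn hout hi hj hC.aQ hC.bP hdec hpick (h.top hnv (by linarith)).le (by linarith) hM

/-- **Leaf 2c**, minimum outdegree at least `k`. -/
theorem Ctx.mo2c (hn : 2 * k - 1 ≤ (Rl.card : ℤ)) (hnv : ¬ Val B θ)
    (hout : ∀ v ∈ Rl, k ≤ ∑ u, B v u) (hi : i + 1 < ℓ) (hj : j < ℓ)
    (hpq : p 0 ≤ q 0 - 1)
    (hD : θ < p (2 * j) - p (2 * j + 1))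
    (hA : AA q ℓ + AA p ℓ < 2 * (q 0 - θ) + 2 * MM B (uq 0) (up 0))
    (h1 : θ - 2 < q (2 * i + 1)) (h2 : q (2 * (i + 1)) ≤ θ - 2)
    (h3 : q (2 * (i + 1)) < p (2 * j) - p (2 * j + 1) - θ + 2)
    (hC : Closed B nQ nP uq up q p θ (2 * (i + 1)) (2 * j + 1)) : False := by
  have : Nonempty V := ⟨uq 0⟩
  obtain ⟨pick, hpick⟩ := exists_pick B
  obtain ⟨Rs, S, g, Kc, hdec⟩ := h.exDec (a := 2 * (i + 1)) (b := 2 * j + 1) pick
    (fun K hK => (hpick K hK).1)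
  obtain ⟨Y, nb, hM⟩ := h.m2c hn hnv hi hj hpq hD hA h1 h2 h3 hC hdec
  exact h.moMx hn hout hi hj hC.aQ hC.bP hdec hpick (h.top hnv (by linarith)).le (by linarith) hM

/-- **Leaf 3c**, minimum outdegree at least `k`. -/
theorem Ctx.mo3c (hn : 2 * k - 1 ≤ (Rl.card : ℤ)) (hnv : ¬ Val B θ)
    (hout : ∀ v ∈ Rl, k ≤ ∑ u, B v u) (hi : i + 1 < ℓ) (hj : j < ℓ)
    (hpq : p 0 ≤ q 0) (hlam : 3 < 2 * θ - (Rl.card : ℝ) + 1)
    (hz : q 0 + MM B (uq 0) (up 0) + 2 ≤ 2 * θ) (hp0 : θ < p 0)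
    (hA : 2 * θ < AA q ℓ + AA p ℓ)
    (hE : θ - MM B (uq 0) (up 0) < q (2 * i + 1) - q (2 * i + 2))
    (h1 : θ - (MM B (uq 0) (up 0) + 2) < p (2 * j))
    (h2 : p (2 * j + 1) ≤ θ - (MM B (uq 0) (up 0) + 2))
    (h3 : p (2 * j + 1) < q (2 * i + 1) - q (2 * i + 2) - θ + (MM B (uq 0) (up 0) + 2))
    (hC : Closed B nQ nP uq up q p θ (2 * (i + 1)) (2 * j + 1)) : False := by
  have : Nonempty V := ⟨uq 0⟩
  obtain ⟨pick, hpick⟩ := exists_pick B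
  obtain ⟨Rs, S, g, Kc, hdec⟩ := h.exDec (a := 2 * (i + 1)) (b := 2 * j + 1) pick
    (fun K hK => (hpick K hK).1)
  obtain ⟨Y, nb, hM⟩ := h.m3c hn hnv hi hj hpq hlam hz hp0 hA hE h1 h2 h3 hC hdec
  have e1 := h.fr.qn (i := 2 * i + 2) (by omega)
  have e2 := h.MM2 (uq 0) (up 0)
  exact h.moMx hn hout hi hj hC.aQ hC.bP hdec hpick (h.top hnv hpq).le (by linarith) hM

end

end Pool.Agent.Exact
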