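import Pool.Agent.Lib_helper43.NC.MxW
import Pool.Agent.Lib_helper43.NC.MxF
import Pool.Agent.Lib_helper68.Exact.MoCnt

/-!
# The leaves with hubs of both types, an even number of the first
-/

set_option autoImplicit false
set_option linter.unusedSectionVars false
set_option linter.unusedVariables false
set_option linter.unusedSimpArgs false
set_option linter.unnecessarySeqFocus false
set_option linter.unreachableTactic false
set_option linter.unusedTactic false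

namespace Pool.Agent.Exact

open Finset

variable {V : Type*} [Fintype V] [DecidableEq V]
variable {B : V → V → ℤ} {Rl : Finset V} {ℓ nQ nP : ℕ} {uq up : ℕ → V} {q p : ℕ → ℝ}
variable {k : ℤ} {θ : ℝ}

section
variable (h : Ctx B Rl ℓ nQ nP uq up q p k θ)
include h

variable {i j : ℕ} {y u1 u2 ux ua al v2 vb be : ℝ}

/-- facts from the degrees -/
lemma Ctx.mxHL (hi : i + 1 < ℓ) (haQ : 2 * (i + 1) ≤ nQ) (hp0 : 0 < p 0) (hq0 : 0 < q 0)
    (hv : Lev q p i j θ y u1 u2 ux ua al v2 vb be) (Λ : ℝ) :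
    HL i θ (2 * θ - Rl.card + 1) y u1 v2 (q (2 * i) - θ) vb Λ := by
  rcases le_total Λ (2 * θ - Rl.card + 1) with h1 | h1
  · exact Or.inl h1
  · rcases h.deg with hout | hin
    · obtain ⟨o1, o2, o3, o4⟩ := h.mxO1 hout hi haQ hp0 hq0 hv h1
      exact Or.inr (Or.inl ⟨h1, o1, o2, o3, o4⟩)
    · obtain ⟨i1, i2⟩ := h.mxI1 hin hp0 hq0 hv h1
      exact Or.inr (Or.inr ⟨h1, i1, i2⟩)

/-- the leaf part of the data -/
def MXleaf (th lam y MB Qc Pc u1 ua al vb be : ℝ) (i : ℕ) : Prop :=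
  (L2a y MB u1 ua vb ∧ Qc < vb + MB ∧ Pc < ua) ∨
    (L2c th y MB u1 ua al vb be ∧ (1 ≤ i → 3 ≤ lam) ∧ Qc < ua + 2 ∧ Qc ≤ th - 2 ∧ Pc < ua) ∨
    (L3c th lam y MB u1 ua al vb be ∧ Qc < vb + MB ∧ Pc < vb + MB + 2 ∧ Pc ≤ th - MB - 2)

/-- all the data -/
theorem Ctx.mxD (hn : 2 * k - 1 ≤ (Rl.card : ℤ)) (hi : i + 1 < ℓ) (hj : j < ℓ)
    (haQ : 2 * (i + 1) ≤ nQ) (hbP : 2 * j + 1 ≤ nP) (hpq : p 0 ≤ q 0) (hp0 : 0 < p 0)
    (hz : q 0 + MM B (uq 0) (up 0) + 2 ≤ 2 * θ)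
    (hv : Lev q p i j θ y u1 u2 ux ua al v2 vb be)
    (hl : MXleaf θ (2 * θ - Rl.card + 1) y (MM B (uq 0) (up 0)) (q (2 * (i + 1)))
      (p (2 * j + 1)) u1 ua al vb be i) :
    MXD i j θ (2 * θ - Rl.card + 1) y (cRr B nQ nP uq up (2 * (i + 1)) (2 * j + 1))
      (MM B (uq 0) (up 0)) (MM B (uq 0) (up (2 * j))) (q (2 * (i + 1))) (p (2 * j + 1))
      (MM B (uq (2 * i + 1)) (up (2 * j))) (MM B (uq 1) (up 0)) u1 u2 ux ua al v2
      (q (2 * i) - θ) vb be where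
  hb := h.mxB hn hi hj haQ hbP hpq hz hv
  hj0 := by
    intro j0
    subst j0
    refine ⟨?_, ?_, ?_⟩
    · have h1 := hv.u1
      have h2 := hv.ua
      rw [Nat.mul_zero] at h2
      linarith
    · have h1 := hv.al
      rw [AA_zero] at h1
      exact h1.symm
    · rw [Nat.mul_zero]
  hj := fun h1 => h.mxJ h1 haQ hbP hv
  h1 := by
    intro h1
    have a1 := h.fr.qa (i := 1) (j := 2 * i) (by omega) (by omega)
    have a2 := h.fr.qa (i := 2 * i) (j := 2 * i + 1) (by omega) (by omega)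
    have a3 := AA_succ q i
    have a4 := h.fr.qgA (Nat.zero_le 0) (show 0 < i by omega) (by omega)
    rw [AA_zero, Nat.mul_zero, Nat.zero_add, zero_add] at a4
    have b1 := hv.y
    have b2 := hv.v2
    have b3 := hv.vb
    have b4 := hv.be
    refine ⟨by linarith, by linarith, by linarith⟩
  i0 := by
    intro h1
    subst h1
    have a3 := AA_succ q 0
    rw [AA_zero, Nat.mul_zero, Nat.zero_add] at a3
    have b1 := hv.y
    have b2 := hv.v2
    have b3 := hv.vb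
    have b4 := hv.be
    rw [Nat.mul_zero, Nat.zero_add] at b3
    rw [Nat.zero_add] at b4
    exact ⟨by linarith, by linarith⟩
  m110 := h.MM0 _ _
  m112 := h.MM2 _ _
  m120 := h.MM0 _ _
  m122 := h.MM2 _ _
  m11i := by
    have h1 := h.MM0 (uq (2 * i + 1)) (up (2 * j))
    have h2 : (0 : ℤ) ≤ MM B (uq (2 * i + 1)) (up (2 * j)) := by exact_mod_cast h1
    rcases eq_or_lt_of_le h2 with h3 | h3
    · left
      rw [← h3]
      norm_num
    · right
      exact_mod_cast (show (1 : ℤ) ≤ MM B (uq (2 * i + 1)) (up (2 * j)) by omega)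
  mm := by
    intro h1 h2
    subst h1
    subst h2
    rfl
  leaf := hl
  H3 := h.mxHL hi haQ hp0 (by linarith) hv 3
  H4 := h.mxHL hi haQ hp0 (by linarith) hv 4

/-- at leaf 2c -/
lemma Ctx.mxlam3 (hn : 2 * k - 1 ≤ (Rl.card : ℤ)) (hi : i + 1 < ℓ) (hj : j < ℓ)
    (haQ : 2 * (i + 1) ≤ nQ) (hbP : 2 * j + 1 ≤ nP) (hpq : p 0 ≤ q 0) (hp0 : 0 < p 0)
    (hz : q 0 + MM B (uq 0) (up 0) + 2 ≤ 2 * θ)
    (hv : Lev q p i j θ y u1 u2 ux ua al v2 vb be)
    (hl : L2c θ y (MM B (uq 0) (up 0)) u1 ua al vb be) (hi1 : 1 ≤ i) :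
    3 ≤ 2 * θ - (Rl.card : ℝ) + 1 := by
  have hb := h.mxB hn hi hj haQ hbP hpq hz hv
  by_contra hc
  push Not at hc
  rcases h.deg with hout | hin
  · obtain ⟨o1, o2, o3, o4⟩ := h.mxO1 hout hi haQ hp0 (by linarith) hv hc.le
    have o5 := o4 hi1
    have a1 := h.fr.qa (i := 1) (j := 2 * i) (by omega) (by omega)
    have a2 := h.fr.qa (i := 2 * i) (j := 2 * i + 1) (by omega) (by omega)
    have a3 := AA_succ q i
    have a4 := h.fr.qgA (Nat.zero_le 0) (show 0 < i by omega) (by omega)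
    rw [AA_zero, Nat.mul_zero, Nat.zero_add, zero_add] at a4
    have b1 := hv.y
    have b2 := hv.v2
    have b3 := hv.vb
    have b4 := hv.be
    exact lam3_2c_o (vb1 := q (2 * i) - θ) hb hl (by linarith) (by linarith) (by linarith)
  · obtain ⟨i1, i2⟩ := h.mxI1 hin hp0 (by linarith) hv hc.le
    exact lam3_2c_i hb hl (by linarith) (by linarith)

variable {Rs S : Finset V} {g : ℤ} {Kc : V → Finset V} {pick : Finset V → V}

/-- what the structures give -/
structure MxOut (B : V → V → ℤ) (nQ nP : ℕ) (uq up : ℕ → V) (q p : ℕ → ℝ) (θ : ℝ) (i j : ℕ)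
    (Rs S : Finset V) (g Y : ℤ) (nb : ℝ) : Prop where
  t2i : T2I B uq up (2 * (i + 1)) (2 * j + 1) S g Y
  t2a : T2A B uq up (2 * (i + 1)) (2 * j + 1) S g Y
  y0 : 0 ≤ Y
  gp : θ + g < p (2 * j)
  gam : ((Gam B (uq 0) S : ℤ) : ℝ) < q 0 - θ - g + 2
  rs : (Rs.Nonempty ∧ 1 ≤ g ∧ 1 ≤ nb ∧ (Rs.card : ℝ) ≤ g + nb ∧
      (Y : ℝ) + (Gam B (uq 0) S : ℤ) + (ch (MM B (uq 0)) S : ℤ) + nb <
        cRr B nQ nP uq up (2 * (i + 1)) (2 * j + 1) + q 0 - θ + 2 ∧
      (∀ y0 : ℤ, (∀ v ∈ Rs, |im B v| ≤ y0) → (Y : ℝ) ≤ Rs.card * y0)) ∨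
    (Rs = ∅ ∧ g = 0 ∧ Y = 0)

/-- **The structures in a leaf with hubs of both types.** -/
theorem Ctx.mxMain (hn : 2 * k - 1 ≤ (Rl.card : ℤ)) (hnv : ¬ Val B θ) (hi : i + 1 < ℓ)
    (hj : j < ℓ) (hpq : p 0 ≤ q 0) (hp0 : 0 < p 0)
    (hz : q 0 + MM B (uq 0) (up 0) + 2 ≤ 2 * θ)
    (hC : Closed B nQ nP uq up q p θ (2 * (i + 1)) (2 * j + 1))
    (hv : Lev q p i j θ y u1 u2 ux ua al v2 vb be)
    (hl : MXleaf θ (2 * θ - Rl.card + 1) y (MM B (uq 0) (up 0)) (q (2 * (i + 1)))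
      (p (2 * j + 1)) u1 ua al vb be i)
    (hdec : Dec B pick (vs uq up (rr nQ nP (2 * (i + 1)) (2 * j + 1))) Rs S g Kc) :
    ∃ (Y : ℤ) (nb : ℝ), MxOut B nQ nP uq up q p θ i j Rs S g Y nb := by
  have haQ := hC.aQ
  have hbP := hC.bP
  have hq0 : 0 < q 0 := by linarith
  have hi' : i < ℓ := by omega
  have d := h.mxD hn hi hj haQ hbP hpq hp0 hz hv hl
  obtain ⟨Yz, Y, nb, w, σ, Γ, D0, L0, Dw, Lw, ⟨hYz, hT2I, hT2A⟩, hY0, hnb0, hcard, hYb, hGam,
    hcase⟩ := h.end3 hnv hq0 hC hdec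
  have hθ0 := h.θ0
  have hg0 : (0 : ℝ) ≤ (g : ℝ) := by exact_mod_cast hdec.g0
  have hqy := hv.y
  have hpua := hv.ua
  have hθua : 0 ≤ θ + ua := by
    have := h.fr.pn (i := 2 * j) (by omega)
    linarith
  -- the modes
  have m11 := fun {D L : ℝ} (hE : EV B (vs uq up (hb1 (2 * (i + 1)) (2 * j + 1))) D L) =>
    h.mx11 hnv hi' hj hv hE
  have m12 := fun {D L : ℝ} (hE : EV B (vs uq up (hb1 (2 * (i + 1)) (2 * j + 1))) D L) =>
    h.mx12 hnv hi' hj hv hE
  have m12r := fun {D L sy : ℝ} {w : V}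
    (hw : w ∈ vs uq up (rr nQ nP (2 * (i + 1)) (2 * j + 1)))
    (him : ((im B w : ℤ) : ℝ) = - sy) (hs0 : 0 ≤ sy)
    (hE : EV B (insert w (vs uq up (hb1 (2 * (i + 1)) (2 * j + 1)))) D L) =>
    h.mx12r hnv hi' hj haQ hbP hv hw him hs0 hE
  have m11a := fun {D L sy : ℝ} {w : V}
    (hw : w ∈ vs uq up (rr nQ nP (2 * (i + 1)) (2 * j + 1)))
    (him : ((im B w : ℤ) : ℝ) = - sy)
    (hE : EV B (insert w (vs uq up (hb1 (2 * (i + 1)) (2 * j + 1)))) D L) =>
    h.mx11a hnv hi' hj haQ hbP hv hw him hE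
  have mA := fun {D X : ℝ} (hE : EV B (vs uq up (hb (2 * (i + 1)) (2 * j + 1))) D X) =>
    h.mxA hnv hi' hj hv hθua hE
  have mE := fun {D X : ℝ} (hE : EV B (vs uq up (hb (2 * (i + 1)) (2 * j + 1))) D X) =>
    h.mxE hnv hi' hj hv hE
  have mO := fun {D X : ℝ} (hj1 : 1 ≤ j)
    (hE : EV B (vs uq up (hb (2 * (i + 1)) (2 * j + 1))) D X) =>
    h.mxO hnv hi' hj hj1 hv hE
  -- the run with `D + L ≤ θ - 2`, last vertex, no rest
  have xlEL : ∀ {D L sy ay cy : ℝ} {v : V},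
      v ∈ vs uq up (rr nQ nP (2 * (i + 1)) (2 * j + 1)) → ((im B v : ℤ) : ℝ) = - sy →
      LY sy ay cy → sy ≤ p (2 * j + 1) → D ≤ 0 → 1 ≤ L → L ≤ sy →
      EV B (insert v (vs uq up (hb1 (2 * (i + 1)) (2 * j + 1)))) D L →
      EV B (vs uq up (hb1 (2 * (i + 1)) (2 * j + 1))) (D + ay) |L - sy| → False := by
    intro D L sy ay cy v hv' him hy hs hD hL1 hLs e1 e2
    have hsy0 : 0 ≤ sy := by linarith
    rw [abs_of_nonpos (by linarith), neg_sub] at e2
    exact d.xl hD hL1 hLs hy hs (m11 e2) (m12 e2) (m11a hv' him e1) (m12r hv' him hsy0 e1)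
  -- first statement
  have hgua : (g : ℝ) < ua := by
    by_contra hug
    push Not at hug
    rcases hcase with ⟨hRne, hg1, hn1, ⟨hN, hw, hσ⟩ | ⟨sy, ay, cy, v, hN, hw, hsL, hsLw, hσ⟩⟩ |
      ⟨hRe, hge, hYe, hσ, ⟨hN, hw⟩ | ⟨sy, ay, cy, v, hN, hw⟩⟩
    · have hg1' : (1 : ℝ) ≤ g := by exact_mod_cast hg1
      have e1 := hN.d0
      have e2 := hN.dl0
      refine d.r1N (g := g) (nb := nb) (Y := Y) (sg := σ) (D := D0) (L := L0) (X := max Y w)
        hug hg1' hn1 hY0 hN.s0 (hY0.trans (le_max_left _ _)) hN.l0 (by linarith) (by linarith)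
        (le_max_left _ _) ?_ (m11 hN.v0) (m12 hN.v0) (mA hN.t2) (mE hN.t2)
        (fun hj1 => mO hj1 hN.t2)
      rcases le_total w Y with h1 | h1
      · exact Or.inl (max_eq_left h1)
      · rw [max_eq_right h1]
        exact Or.inr hw
    · have hg1' : (1 : ℝ) ≤ g := by exact_mod_cast hg1
      have e1 := hN.d0
      have e2 := hN.dl0
      have e3 := hN.v0
      rw [abs_of_nonneg (by linarith)] at e3
      refine d.r1L (g := g) (nb := nb) (Y := Y) (sg := σ) (D := D0) (L := L0)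
        (X := max |Y - sy| w) hug hg1' hn1 hY0 hN.s0 ((abs_nonneg _).trans (le_max_left _ _))
        (by linarith) (by linarith) ⟨hN.a1, hN.a2, hN.ac, hN.c0, hN.say⟩ hN.syp hsL
        ((le_abs_self _).trans (le_max_left _ _))
        (((neg_sub Y sy).symm.le.trans (neg_le_abs _)).trans (le_max_left _ _)) ?_
        (m11 e3) (m12 e3) (mA hN.t2) (mE hN.t2) (fun hj1 => mO hj1 hN.t2)
      rcases le_total w |Y - sy| with h1 | h1
      · rw [max_eq_left h1]
        rcases abs_cases (Y - sy) with ⟨h2, _⟩ | ⟨h2, _⟩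
        · exact Or.inl h2
        · right; left; rw [h2]; ring
      · rw [max_eq_right h1]
        exact Or.inr (Or.inr hw)
    · rw [hge, Int.cast_zero] at hug
      have e1 := hN.d0
      have e2 := hN.dl0
      have e4 := hN.t2
      rw [max_eq_right hN.w0] at e4
      exact d.e1N (sg := σ) (D := D0) (L := L0) (X := w) hug hN.s0 hN.w0 hN.l0
        (e1.trans (min_le_left _ _)) (e1.trans (min_le_right _ _)) (by linarith) hw
        (m11 hN.v0) (m12 hN.v0) (mA e4) (mE e4) (fun hj1 => mO hj1 e4)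
    · rw [hge, Int.cast_zero] at hug
      have e1 := hN.d0
      have e2 := hN.dl0
      have hY : LY sy ay cy := ⟨hN.a1, hN.a2, hN.ac, hN.c0, hN.say⟩
      rcases le_total L0 sy with h1 | h1
      · exact xlEL hN.yR hN.im hY hN.syp e1 hN.l0 h1 hN.v0y hN.v0
      · have e3 := hN.v0
        rw [abs_of_nonneg (by linarith)] at e3
        have hsy0 : 0 ≤ sy := by linarith [hN.a1, hN.say]
        have e4 := hN.t2
        rw [zero_sub, abs_neg, abs_of_nonneg hsy0] at e4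
        refine d.e1L (sg := σ) (D := D0) (L := L0) (X := max sy w) hug hN.s0
          (hsy0.trans (le_max_left _ _)) e1 (by linarith) hY hN.syp h1 (le_max_left _ _) ?_
          (m11 e3) (m12 e3) (mA e4) (mE e4) (fun hj1 => mO hj1 e4)
        rcases le_total w sy with h2 | h2
        · exact Or.inl (max_eq_left h2)
        · rw [max_eq_right h2]
          exact Or.inr hw
  have hua : 0 ≤ ua := by linarith
  refine ⟨Yz, nb, hT2I, hT2A, by exact_mod_cast (show (0 : ℝ) ≤ (Yz : ℝ) by rw [hYz]; exact hY0),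
    by linarith, ?_, ?_⟩
  · -- second statement
    by_contra hc
    push Not at hc
    rcases hcase with ⟨hRne, hg1, hn1, ⟨hN, hw, hσ⟩ | ⟨sy, ay, cy, v, hN, hw, hsL, hsLw, hσ⟩⟩ |
      ⟨hRe, hge, hYe, hσ, ⟨hN, hw⟩ | ⟨sy, ay, cy, v, hN, hw⟩⟩
    · have e1 := hN.dw
      have e2 := hN.dlw
      exact d.rlRN (nb := nb) (D := Dw) (L := Lw) hua (by linarith) hN.lw hn1 (by linarith)
        (m11 hN.vw) (m12 hN.vw)
    · have e1 := hN.dw
      have e2 := hN.dlw
      have e3 := hN.vw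
      rw [abs_of_nonneg (by linarith)] at e3
      exact d.rlRL (nb := nb) (D := Dw) (L := Lw) hua (by linarith) hn1 (by linarith)
        ⟨hN.a1, hN.a2, hN.ac, hN.c0, hN.say⟩ hN.syp hsLw (m11 e3) (m12 e3)
        (m11a hN.yR hN.im hN.vwy)
    · rw [hge, Int.cast_zero] at hc
      have e1 := hN.dw
      have e2 := hN.dlw
      exact d.rlEN (D := Dw) (L := Lw) hua (by linarith) hN.lw (e1.trans (min_le_left _ _))
        (e1.trans (min_le_right _ _)) (m11 hN.vw) (m12 hN.vw)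
    · rw [hge, Int.cast_zero] at hc
      have e1 := hN.dw
      have e2 := hN.dlw
      have hY : LY sy ay cy := ⟨hN.a1, hN.a2, hN.ac, hN.c0, hN.say⟩
      rcases le_total Lw sy with h1 | h1
      · exact xlEL hN.yR hN.im hY hN.syp e1 hN.lw h1 hN.vwy hN.vw
      · have e3 := hN.vw
        rw [abs_of_nonneg (by linarith)] at e3
        exact d.rlEL (D := Dw) (L := Lw) hua (by linarith) e1 hY hN.syp h1 (m11 e3) (m12 e3)
          (m11a hN.yR hN.im hN.vwy)
  · rcases hcase with ⟨hRne, hg1, hn1, hcase⟩ | ⟨hRe, hge, hYe, hσ, -⟩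
    · refine Or.inl ⟨hRne, by exact_mod_cast hg1, hn1, hcard, ?_, fun y0 hy0 => ?_⟩
      · rw [hYz]
        by_contra hc
        push Not at hc
        rcases hcase with ⟨hN, hw, hσ⟩ | ⟨sy, ay, cy, v, hN, hw, hsL, hsLw, hσ⟩
        · have e1 := hN.d0
          have e2 := hN.dl0
          exact d.rlRN (nb := nb) (D := D0) (L := L0) hua (by linarith) hN.l0 hn1 (by linarith)
            (m11 hN.v0) (m12 hN.v0)
        · have e1 := hN.d0
          have e2 := hN.dl0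
          have e3 := hN.v0
          rw [abs_of_nonneg (by linarith)] at e3
          exact d.rlRL (nb := nb) (D := D0) (L := L0) hua (by linarith) hn1 (by linarith)
            ⟨hN.a1, hN.a2, hN.ac, hN.c0, hN.say⟩ hN.syp hsL (m11 e3) (m12 e3)
            (m11a hN.yR hN.im hN.v0y)
      · rw [hYz]
        exact hYb y0 hy0
    · refine Or.inr ⟨hRe, hge, ?_⟩
      have : (Yz : ℝ) = 0 := by rw [hYz, hYe]
      exact_mod_cast this

end

end Pool.Agent.Exact
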