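import Pool.Agent.Lib_helper43.NC.MxDef
import Pool.Agent.Lib_helper43.NC.Cut3
import Pool.Agent.Lib_helper68.Exact.MoCr

/-!
# The failing modes of the structures in a leaf with hubs of both types
-/

set_option autoImplicit false
set_option linter.unusedSectionVars false
set_option linter.unusedSimpArgs false
set_option linter.unnecessarySeqFocus false
set_option linter.unreachableTactic false
set_option linter.unusedTactic false

namespace Pool.Agent.Exact

open Finset

variable {V : Type*} [Fintype V] [DecidableEq V]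
variable {B : V → V → ℤ} {Rl : Finset V} {ℓ nQ nP : ℕ} {uq up : ℕ → V} {q p : ℕ → ℝ}
variable {k : ℤ} {θ : ℝ}

lemma EV.ft {C : Finset V} {th E X M x c d : ℝ} (hnv : ¬ Val B th) (hE : EV B C E X)
    (hst : ∀ K : ℝ, |x| ≤ K → c ≤ K → d ≤ K → St B (im B) C M K (|x| + c + d)) :
    FT th E X M x c d := by
  by_contra hF
  unfold FT at hF
  push Not at hF
  obtain ⟨h1, h2, h3, h4, h5, h6, h7⟩ := hF
  refine hnv ((hE M (max |x| (max c d)) _ ((abs_nonneg x).trans (le_max_left _ _))
    (hst _ (le_max_left _ _) ((le_max_left _ _).trans (le_max_right _ _))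
      ((le_max_right _ _).trans (le_max_right _ _)))).mono ?_)
  have hx : E + M + |x| ≤ th := by
    rcases abs_cases x with ⟨h8, _⟩ | ⟨h8, _⟩ <;> rw [h8] <;> linarith
  have hx2 : 2 * (E + M) + X + |x| + c + d ≤ 2 * th := by
    rcases abs_cases x with ⟨h8, _⟩ | ⟨h8, _⟩ <;> rw [h8] <;> linarith
  have h9 : max (max X (max |x| (max c d))) ((X + (|x| + c + d)) / 2) ≤ th - (E + M) :=
    max_le (max_le (by linarith) (max_le (by linarith) (max_le (by linarith) (by linarith))))
      (by linarith)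
  linarith

lemma EV.fr {C : Finset V} {th E X M x c d s : ℝ} (hnv : ¬ Val B th) (hE : EV B C E X)
    (hst : ∀ K : ℝ, |x| ≤ K → c ≤ K → d ≤ K → s ≤ K → St B (im B) C M K (|x| + c + d + s)) :
    FR th E X M x c d s := by
  by_contra hF
  unfold FR at hF
  push Not at hF
  obtain ⟨h1, h2, h3, h4, h5, h5', h6, h7⟩ := hF
  refine hnv ((hE M (max |x| (max c (max d s))) _ ((abs_nonneg x).trans (le_max_left _ _))
    (hst _ (le_max_left _ _) ((le_max_left _ _).trans (le_max_right _ _))
      ((le_max_left _ _).trans ((le_max_right _ _).trans (le_max_right _ _)))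
      ((le_max_right _ _).trans ((le_max_right _ _).trans (le_max_right _ _))))).mono ?_)
  have hx : E + M + |x| ≤ th := by
    rcases abs_cases x with ⟨h8, _⟩ | ⟨h8, _⟩ <;> rw [h8] <;> linarith
  have hx2 : 2 * (E + M) + X + |x| + c + d + s ≤ 2 * th := by
    rcases abs_cases x with ⟨h8, _⟩ | ⟨h8, _⟩ <;> rw [h8] <;> linarith
  have h9 : max (max X (max |x| (max c (max d s)))) ((X + (|x| + c + d + s)) / 2) ≤
      th - (E + M) :=
    max_le (max_le (by linarith) (max_le (by linarith) (max_le (by linarith)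
      (max_le (by linarith) (by linarith))))) (by linarith)
  linarith

/-- the index of a vertex of the rest -/
lemma mem_vs_idx {I : Finset (ℕ ⊕ ℕ)} {v : V} (hv : v ∈ vs uq up I) :
    ∃ x ∈ I, vx uq up x = v := by
  unfold vs at hv
  exact Finset.mem_image.1 hv

/-- the levels of the hubs -/
structure Lev (q p : ℕ → ℝ) (i j : ℕ) (th y u1 u2 ux ua al v2 vb be : ℝ) : Prop where
  y : q 0 = th + y
  u1 : p 0 = th + u1
  u2 : p (min 1 (2 * j)) = th + u2
  ux : p (2 * j - 1) = th + ux
  ua : p (2 * j) = th + ua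
  al : AA p j = al
  v2 : q 1 = th + v2
  vb : q (2 * i + 1) = th + vb
  be : AA q (i + 1) = be

section
variable (h : Ctx B Rl ℓ nQ nP uq up q p k θ)
include h

variable {i j : ℕ} {y u1 u2 ux ua al v2 vb be : ℝ}

/-- the modes of the arrangement with the lowest hubs aligned -/
lemma Ctx.mx11 (hnv : ¬ Val B θ) (hi : i < ℓ) (hj : j < ℓ)
    (hv : Lev q p i j θ y u1 u2 ux ua al v2 vb be) {D L : ℝ}
    (hE : EV B (vs uq up (hb1 (2 * (i + 1)) (2 * j + 1))) D L) :
    FT θ D L (MM B (uq (2 * i + 1)) (up (2 * j))) (vb - ua) (y - vb - be) al := by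
  obtain ⟨q1, q2, q3, q4⟩ := h.fr.qgap hi
  obtain ⟨p1, p2, p3, p4⟩ := h.fr.pgap hj
  have e1 := AA_succ q i
  have e2 : q (2 * i + 1) - p (2 * j) = vb - ua := by rw [hv.vb, hv.ua]; ring
  have e3 : q 0 - q (2 * i) - AA q i = y - vb - be := by
    rw [← hv.be, e1, hv.y, hv.vb]; ring
  refine hE.ft hnv fun K k1 k2 k3 => ?_
  have h1 := h.fr.aMixLow (K := K) i j hi hj (by rw [e2]; exact k1)
    (fun l hl => (q4 l hl).trans (by rw [e3]; exact k2))
    (fun l hl => (p3 l hl).trans (by rw [hv.al]; exact k3))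
  rw [e2, e3, hv.al] at h1
  exact h1

/-- the modes of the arrangement with the highest hubs aligned -/
lemma Ctx.mx12 (hnv : ¬ Val B θ) (hi : i < ℓ) (hj : j < ℓ)
    (hv : Lev q p i j θ y u1 u2 ux ua al v2 vb be) {D L : ℝ}
    (hE : EV B (vs uq up (hb1 (2 * (i + 1)) (2 * j + 1))) D L) :
    FT θ D L (MM B (uq 1) (up 0)) (v2 - u1) (v2 + be - y) (u1 - ua - al) := by
  obtain ⟨p1, p2, p3, p4⟩ := h.fr.pgap hj
  have e1 : AA q 1 = q 0 - q 1 := by rw [show (1 : ℕ) = 0 + 1 by rfl, AA_succ, AA_zero]; simp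
  have e2 : q 1 - p 0 = v2 - u1 := by rw [hv.v2, hv.u1]; ring
  have e3 : AA q (i + 1) - AA q 1 = v2 + be - y := by
    rw [hv.be, e1, hv.y, hv.v2]; ring
  have e4 : p 0 - p (2 * j) - AA p j = u1 - ua - al := by
    rw [hv.u1, hv.ua, hv.al]; ring
  refine hE.ft hnv fun K k1 k2 k3 => ?_
  have h1 := h.fr.aMix (K := K) i j (by omega) hj (by rw [e2]; exact k1)
    (fun l hl hl' => by
      have h5 := h.fr.qgA hl (show l < i + 1 by omega) (by omega)
      linarith)
    (fun l hl => (p4 l hl).trans (by rw [e4]; exact k3))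
  rw [e2, e3, e4] at h1
  exact h1

/-- the modes of the arrangement with the highest hubs aligned and the last vertex single -/
lemma Ctx.mx12r (hnv : ¬ Val B θ) (hi : i < ℓ) (hj : j < ℓ) (haQ : 2 * (i + 1) ≤ nQ)
    (hbP : 2 * j + 1 ≤ nP) (hv : Lev q p i j θ y u1 u2 ux ua al v2 vb be) {D L sy : ℝ} {w : V}
    (hw : w ∈ vs uq up (rr nQ nP (2 * (i + 1)) (2 * j + 1)))
    (him : ((im B w : ℤ) : ℝ) = - sy) (hs0 : 0 ≤ sy)
    (hE : EV B (insert w (vs uq up (hb1 (2 * (i + 1)) (2 * j + 1)))) D L) :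
    FR θ D L (MM B (uq 1) (up 0)) (v2 - u1) (v2 + be - y) (u1 - ua - al) sy := by
  have hQ := h.fr.nQle
  have hP := h.fr.nPle
  obtain ⟨p1, p2, p3, p4⟩ := h.fr.pgap hj
  have e1 : AA q 1 = q 0 - q 1 := by rw [show (1 : ℕ) = 0 + 1 by rfl, AA_succ, AA_zero]; simp
  have e2 : q 1 - p 0 = v2 - u1 := by rw [hv.v2, hv.u1]; ring
  have e3 : AA q (i + 1) - AA q 1 = v2 + be - y := by
    rw [hv.be, e1, hv.y, hv.v2]; ring
  have e4 : p 0 - p (2 * j) - AA p j = u1 - ua - al := by
    rw [hv.u1, hv.ua, hv.al]; ring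
  refine hE.fr hnv fun K k1 k2 k3 k4 => ?_
  have h1 := h.fr.aMix (K := K) i j (by omega) hj (by rw [e2]; exact k1)
    (fun l hl hl' => by
      have h5 := h.fr.qgA hl (show l < i + 1 by omega) (by omega)
      linarith)
    (fun l hl => (p4 l hl).trans (by rw [e4]; exact k3))
  rw [e2, e3, e4] at h1
  have h2 : St B (im B) {w} 0 K sy := by
    refine (St.one (s := im B) h.fr.sys.Bd w (K := sy) ?_).mono le_rfl k4 le_rfl
    rw [him, abs_neg, abs_of_nonneg hs0]
  have hd : Disjoint (vs uq up (hb1 (2 * (i + 1)) (2 * j + 1))) {w} := by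
    rw [Finset.disjoint_singleton_right]
    intro hc
    refine Finset.disjoint_left.1 (h.fr.disj (I := rr nQ nP (2 * (i + 1)) (2 * j + 1))
      (J := hb1 (2 * (i + 1)) (2 * j + 1)) ?_ ?_ ?_) hw hc
    · unfold rr
      intro x hx
      revert hx
      rcases x with x | x <;>
      simp only [Finset.mem_union, inl_mem_full, inr_mem_full, inl_mem_iq, inr_mem_iq, inl_mem_ip,
        inr_mem_ip, or_false, false_or] <;> omega
    · unfold hb1
      intro x hx
      revert hx
      rcases x with x | x <;>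
      simp only [Finset.mem_union, inl_mem_full, inr_mem_full, inl_mem_iq, inr_mem_iq, inl_mem_ip,
        inr_mem_ip, or_false, false_or] <;> omega
    · unfold rr hb1
      rw [Finset.disjoint_left]
      intro x hx hx'
      revert hx hx'
      rcases x with x | x <;>
      simp only [Finset.mem_union, inl_mem_iq, inr_mem_iq, inl_mem_ip, inr_mem_ip, or_false,
        false_or] <;> omega
  have h3 := St.union h1 h2 hd
  have e5 : insert w (vs uq up (hb1 (2 * (i + 1)) (2 * j + 1))) =
      (hb1 (2 * (i + 1)) (2 * j + 1)).image (vx uq up) ∪ {w} := by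
    rw [Finset.union_comm]
    rfl
  rw [e5]
  exact h3.mono (by linarith) le_rfl le_rfl

/-- the modes of the arrangement with the lowest hubs aligned, the last vertex attached -/
lemma Ctx.mx11a (hnv : ¬ Val B θ) (hi : i < ℓ) (hj : j < ℓ) (haQ : 2 * (i + 1) ≤ nQ)
    (hbP : 2 * j + 1 ≤ nP) (hv : Lev q p i j θ y u1 u2 ux ua al v2 vb be) {D L sy : ℝ} {w : V}
    (hw : w ∈ vs uq up (rr nQ nP (2 * (i + 1)) (2 * j + 1)))
    (him : ((im B w : ℤ) : ℝ) = - sy)
    (hE : EV B (insert w (vs uq up (hb1 (2 * (i + 1)) (2 * j + 1)))) D L) :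
    FT θ D L (MM B (uq (2 * i + 1)) (up (2 * j))) (ua - vb - sy) (y - vb - be) al := by
  have hQ := h.fr.nQle
  have hP := h.fr.nPle
  obtain ⟨q1, q2, q3, q4⟩ := h.fr.qgap hi
  obtain ⟨p1, p2, p3, p4⟩ := h.fr.pgap hj
  obtain ⟨xw, hxw, hxw'⟩ := mem_vs_idx hw
  have e1 := AA_succ q i
  have e3 : q 0 - q (2 * i) - AA q i = y - vb - be := by
    rw [← hv.be, e1, hv.y, hv.vb]; ring
  have hxf : xw ∈ full ℓ := by
    revert hxw
    unfold rr
    rcases xw with x | x <;>
    simp only [Finset.mem_union, inl_mem_full, inr_mem_full, inl_mem_iq, inr_mem_iq, inl_mem_ip,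
      inr_mem_ip, or_false, false_or] <;> omega
  refine hE.ft hnv fun K k1 k2 k3 => ?_
  have a1 := h.fr.Qo (K := K) 0 i (Nat.zero_le _) hi
    fun l _ h2 => (q4 l h2).trans (by rw [e3]; exact k2)
  have a2 := h.fr.Pe (K := K) 0 j (Nat.zero_le _) hj.le
    fun l _ h2 => (p3 l h2).trans (by rw [hv.al]; exact k3)
  have n1 : (Sum.inl (2 * i + 1) : ℕ ⊕ ℕ) ≠ xw := by
    rintro rfl
    revert hxw
    unfold rr
    simp only [Finset.mem_union, inl_mem_iq, inl_mem_ip, or_false, false_or]
    omega
  have n2 : (Sum.inr (2 * j) : ℕ ⊕ ℕ) ≠ xw := by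
    rintro rfl
    revert hxw
    unfold rr
    simp only [Finset.mem_union, inr_mem_iq, inr_mem_ip, or_false, false_or]
    omega
  have w1 := h.fr.sys.wtQ (2 * i + 1) (by omega)
  have w2 := h.fr.sys.wtP (2 * j) (by omega)
  have a3 := h.fr.tri (x := Sum.inl (2 * i + 1)) (y := Sum.inr (2 * j)) (z := xw)
    (by rw [inl_mem_full]; omega) (by rw [inr_mem_full]; omega) hxf (by simp) n1 n2 1 1 (-1)
    (Or.inl rfl) (Or.inl rfl) (Or.inr rfl)
    (M := MM B (uq (2 * i + 1)) (up (2 * j))) (K := |ua - vb - sy|) (by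
      rw [hxw']
      simp only [vx, Sum.elim_inl, Sum.elim_inr]
      have m1 := h.MM0z (uq (2 * i + 1)) w
      have m2 := h.MM0z (up (2 * j)) w
      exact_mod_cast (by linarith : MM B (uq (2 * i + 1)) (up (2 * j)) * (1 * 1) +
        MM B (uq (2 * i + 1)) w * (1 * -1) + MM B (up (2 * j)) w * (1 * -1) ≤
          MM B (uq (2 * i + 1)) (up (2 * j)))) (by
      rw [hxw']
      simp only [vx, Sum.elim_inl, Sum.elim_inr]
      push_cast
      rw [w1, w2, him, hv.vb, hv.ua]
      rw [show (θ + vb) * 1 + -(θ + ua) * 1 + -sy * -1 = -(ua - vb - sy) by ring, abs_neg])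
  have a3' : StI B uq up {Sum.inl (2 * i + 1), Sum.inr (2 * j), xw}
      (MM B (uq (2 * i + 1)) (up (2 * j))) K |ua - vb - sy| := StI.mono a3 le_rfl k1 le_rfl
  have hxQ : ∀ x, Sum.inl x = xw → 2 * (i + 1) ≤ x ∧ x < nQ := by
    rintro x rfl
    revert hxw
    unfold rr
    simp only [Finset.mem_union, inl_mem_iq, inl_mem_ip, or_false, false_or]
    exact id
  have hxP : ∀ x, Sum.inr x = xw → 2 * j + 1 ≤ x ∧ x < nP := by
    rintro x rfl
    revert hxw
    unfold rr
    simp only [Finset.mem_union, inr_mem_iq, inr_mem_ip, or_false, false_or]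
    exact id
  have b1 := h.fr.join (U := {Sum.inl (2 * i + 1), Sum.inr (2 * j), xw} ∪
    iq (2 * 0 + 1) (2 * i + 1)) a3' a1 rfl (by
      intro x hx
      rcases Finset.mem_union.1 hx with hx | hx
      · simp only [Finset.mem_insert, Finset.mem_singleton] at hx
        rcases hx with rfl | rfl | rfl
        · rw [inl_mem_full]; omega
        · rw [inr_mem_full]; omega
        · exact hxf
      · revert hx
        rcases x with x | x <;>
        simp only [inl_mem_full, inr_mem_full, inl_mem_iq, inr_mem_iq, false_imp_iff] <;> omega) (by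
      rw [Finset.disjoint_left]
      intro x hx hx'
      simp only [Finset.mem_insert, Finset.mem_singleton] at hx
      rcases hx with rfl | rfl | hx
      · revert hx'
        simp only [inl_mem_iq]
        omega
      · revert hx'
        simp only [inr_mem_iq]
        exact id
      · rcases x with x | x
        · have := hxQ x hx
          revert hx'
          simp only [inl_mem_iq]
          omega
        · revert hx'
          simp only [inr_mem_iq]
          exact id)
  have b2 := h.fr.join (U := ({Sum.inl (2 * i + 1), Sum.inr (2 * j), xw} ∪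
    iq (2 * 0 + 1) (2 * i + 1)) ∪ ip (2 * 0) (2 * j)) b1 a2 rfl (by
      intro x hx
      rcases Finset.mem_union.1 hx with hx | hx
      · rcases Finset.mem_union.1 hx with hx | hx
        · simp only [Finset.mem_insert, Finset.mem_singleton] at hx
          rcases hx with rfl | rfl | rfl
          · rw [inl_mem_full]; omega
          · rw [inr_mem_full]; omega
          · exact hxf
        · revert hx
          rcases x with x | x <;>
          simp only [inl_mem_full, inr_mem_full, inl_mem_iq, inr_mem_iq, false_imp_iff] <;> omega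
      · revert hx
        rcases x with x | x <;>
        simp only [inl_mem_full, inr_mem_full, inl_mem_ip, inr_mem_ip, false_imp_iff] <;> omega) (by
      rw [Finset.disjoint_left]
      intro x hx hx'
      rcases x with x | x
      · revert hx'
        simp only [inl_mem_ip]
        exact id
      · rcases Finset.mem_union.1 hx with hx | hx
        · simp only [Finset.mem_insert, Finset.mem_singleton, reduceCtorEq, false_or,
            Sum.inr.injEq] at hx
          revert hx'
          simp only [inr_mem_ip]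
          rcases hx with hx | hx
          · omega
          · have := hxP x hx
            omega
        · revert hx
          simp only [inr_mem_iq]
          exact id)
  rw [AA_zero, AA_zero] at b2
  unfold StI at b2
  have e5 : insert w (vs uq up (hb1 (2 * (i + 1)) (2 * j + 1))) =
      (({Sum.inl (2 * i + 1), Sum.inr (2 * j), xw} ∪ iq (2 * 0 + 1) (2 * i + 1)) ∪
        ip (2 * 0) (2 * j)).image (vx uq up) := by
    unfold vs
    rw [← hxw', ← Finset.image_insert]
    congr 1
    unfold hb1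
    ext x
    rcases x with x | x
    · simp only [Finset.mem_union, Finset.mem_insert, Finset.mem_singleton, inl_mem_iq, inl_mem_ip,
        Sum.inl.injEq, reduceCtorEq, or_false, false_or]
      constructor
      · rintro (h5 | h5)
        · exact Or.inl (Or.inr h5)
        · by_cases h6 : x = 2 * i + 1
          · exact Or.inl (Or.inl h6)
          · right; omega
      · rintro ((h5 | h5) | h5)
        · right; omega
        · exact Or.inl h5
        · right; omega
    · simp only [Finset.mem_union, Finset.mem_insert, Finset.mem_singleton, inr_mem_iq, inr_mem_ip,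
        Sum.inr.injEq, reduceCtorEq, or_false, false_or]
      constructor
      · rintro (h5 | h5)
        · exact Or.inl (Or.inr h5)
        · by_cases h6 : x = 2 * j
          · exact Or.inl (Or.inl h6)
          · right; omega
      · rintro ((h5 | h5) | h5)
        · right; omega
        · exact Or.inl h5
        · right; omega
  rw [e5]
  refine b2.mono (by linarith) le_rfl ?_
  rw [Nat.mul_zero]
  have := hv.al
  linarith

/-- the modes of the arrangement with the lowest hub of the second type single -/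
lemma Ctx.mxA (hnv : ¬ Val B θ) (hi : i < ℓ) (hj : j < ℓ)
    (hv : Lev q p i j θ y u1 u2 ux ua al v2 vb be) (h0 : 0 ≤ θ + ua) {D X : ℝ}
    (hE : EV B (vs uq up (hb (2 * (i + 1)) (2 * j + 1))) D X) :
    FT θ D X 0 (θ + ua) al be := by
  refine hE.ft hnv fun K k1 k2 k3 => ?_
  rw [abs_of_nonneg h0] at k1 ⊢
  have hA := h.fr.swap.tA (K := K) j (i + 1) hj (by omega) (by rw [hv.ua]; exact k1)
    (fun l hl => by
      have h5 := h.fr.pgA (Nat.zero_le l) hl hj.le
      rw [AA_zero, zero_add, hv.al] at h5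
      exact h5.trans k2)
    (fun l hl => by
      have h5 := h.fr.qgA (Nat.zero_le l) hl (by omega)
      rw [AA_zero, zero_add, hv.be] at h5
      exact h5.trans k3)
  rw [← swap_hb] at hA
  have hA' : StI B uq up (hb (2 * (i + 1)) (2 * j + 1)) 0 K (AA p j + p (2 * j) + AA q (i + 1)) :=
    hA.swap
  rw [hv.al, hv.ua, hv.be] at hA'
  exact StI.mono hA' le_rfl le_rfl (by linarith)

/-- the modes of the arrangement with `q 0`, the lowest hubs in a triple -/
lemma Ctx.mxE (hnv : ¬ Val B θ) (hi : i < ℓ) (hj : j < ℓ)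
    (hv : Lev q p i j θ y u1 u2 ux ua al v2 vb be) {D X : ℝ}
    (hE : EV B (vs uq up (hb (2 * (i + 1)) (2 * j + 1))) D X) :
    FT θ D X (MM B (uq 0) (up (2 * j)) - MM B (uq (2 * i + 1)) (up (2 * j))) (θ + ua + vb - y)
      al (y - vb - be) := by
  obtain ⟨q1, q2, q3, q4⟩ := h.fr.qgap hi
  have e1 := AA_succ q i
  have e3 : q 0 - q (2 * i) - AA q i = y - vb - be := by
    rw [← hv.be, e1, hv.y, hv.vb]; ring
  have e2 : q 0 - q (2 * i + 1) - p (2 * j) = -(θ + ua + vb - y) := by
    rw [hv.y, hv.vb, hv.ua]; ring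
  refine hE.ft hnv fun K k1 k2 k3 => ?_
  have hM : ((MM (Tr B) (uq 0) (up (2 * j)) - MM (Tr B) (uq 0) (uq (2 * i + 1)) -
      MM (Tr B) (uq (2 * i + 1)) (up (2 * j)) : ℤ) : ℝ) ≤
      MM B (uq 0) (up (2 * j)) - MM B (uq (2 * i + 1)) (up (2 * j)) := by
    rw [MM_Tr, MM_Tr, MM_Tr]
    have h3 := h.MM0 (uq 0) (uq (2 * i + 1))
    push_cast
    linarith
  have hT := h.fr.swap.tTE (K := K)
    (M := MM B (uq 0) (up (2 * j)) - MM B (uq (2 * i + 1)) (up (2 * j))) j i hj hi
    (by rw [e2, abs_neg]; exact k1) hM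
    (fun l hl => by
      have h5 := h.fr.pgA (Nat.zero_le l) hl hj.le
      rw [AA_zero, zero_add, hv.al] at h5
      exact h5.trans k2)
    (fun l hl => (q4 l hl).trans (by rw [e3]; exact k3))
  rw [← swap_hb] at hT
  have hT' := hT.swap
  rw [e2, abs_neg, e3, hv.al] at hT'
  exact hT'

/-- the modes of the arrangement with a triple of the second type -/
lemma Ctx.mxO (hnv : ¬ Val B θ) (hi : i < ℓ) (hj : j < ℓ) (hj1 : 1 ≤ j)
    (hv : Lev q p i j θ y u1 u2 ux ua al v2 vb be) {D X : ℝ}
    (hE : EV B (vs uq up (hb (2 * (i + 1)) (2 * j + 1))) D X) :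
    FT θ D X 2 (θ + ux + ua - u1) (u1 - ux - al) be := by
  obtain ⟨j', rfl⟩ : ∃ j', j = j' + 1 := ⟨j - 1, by omega⟩
  obtain ⟨p1, p2, p3, p4⟩ := h.fr.pgap (j := j') (by omega)
  have e1 := AA_succ p j'
  have hux := hv.ux
  have hua := hv.ua
  rw [show 2 * (j' + 1) - 1 = 2 * j' + 1 by omega] at hux
  rw [show 2 * (j' + 1) = 2 * j' + 2 by ring] at hua
  have e3 : p 0 - p (2 * j') - AA p j' = u1 - ux - al := by
    rw [← hv.al, e1, hv.u1, hux]; ring
  have e2 : p 0 - p (2 * j' + 1) - p (2 * j' + 2) = -(θ + ux + ua - u1) := by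
    rw [hv.u1, hux, hua]; ring
  refine hE.ft hnv fun K k1 k2 k3 => ?_
  have hM : ((MM (Tr B) (up (2 * j' + 1)) (up (2 * j' + 2)) - MM (Tr B) (up 0) (up (2 * j' + 1)) -
      MM (Tr B) (up 0) (up (2 * j' + 2)) : ℤ) : ℝ) ≤ 2 := by
    rw [MM_Tr, MM_Tr, MM_Tr]
    have h3 := h.MM0 (up 0) (up (2 * j' + 1))
    have h4 := h.MM0 (up 0) (up (2 * j' + 2))
    have h5 := h.MM2 (up (2 * j' + 1)) (up (2 * j' + 2))
    push_cast
    linarith
  have hT := h.fr.swap.tTO (K := K) (M := 2) j' (i + 1) (by omega) (by omega)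
    (by rw [e2, abs_neg]; exact k1) hM
    (fun l hl => (p4 l hl).trans (by rw [e3]; exact k2))
    (fun l hl => by
      have h5 := h.fr.qgA (Nat.zero_le l) hl (by omega)
      rw [AA_zero, zero_add, hv.be] at h5
      exact h5.trans k3)
  rw [← swap_hb] at hT
  have hT' := hT.swap
  rw [e2, abs_neg, e3, hv.be] at hT'
  exact hT'

end

end Pool.Agent.Exact
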