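import Pool.Agent.Lib_helper43.NC.MxDef

/-!
# Low hubs, leaf 2c
-/

set_option autoImplicit false
set_option linter.unusedVariables false

namespace Pool.Agent.Exact

theorem r12c_j0i0_N_Y {th lam y z g nb Y sg D L X MB MA m11 u1 u2 ux ua al v2 vb be : ℝ}
    (hb : MB0 th lam y z MB u1 u2 ux ua al v2 vb be) (hj1 : u1 = ua) (hj2 : 0 = al)
    (hj3 : MB = MA) (hi1 : vb = v2) (hi2 : y = vb + be) (h110 : 0 ≤ m11) (h112 : m11 ≤ 2)
    (hl : L2c th y MB u1 ua al vb be) (hs0 : 0 ≤ sg) (hg1 : 1 ≤ g) (hn1 : 1 ≤ nb) (hug : ua ≤ g)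
    (hL0 : 0 ≤ L) (hD : nb + D ≤ z) (hDL : nb + Y + sg + D + L ≤ th + y + z) (hX0 : 0 ≤ X)
    (hX : Y = X) (t11 : FT th D L m11 (vb - ua) (y - vb - be) al)
    (tA : FT th (-g) X 0 (th + ua) al be)
    (tE : FT th (-g) X (MA - m11) (th + ua + vb - y) al (y - vb - be)) : False := by
  rcases t11 with a1 | a1 | a1 | a1 | a1 | a1 | a1
  · rcases tA with a2 | a2 | a2 | a2 | a2 | a2 | a2
    · linarith only [hb.l2, hb.zz, h112, hs0, hg1, hn1, hDL, hX, a1, a2]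
    · linarith only [hug, a2]
    · linarith only [hb.l2, hb.z0, hb.zM, hb.M0, hj1, hl.xua, hl.xpq, hug, a2]
    · linarith only [hb.ZM, hb.v2y, hb.be1, hl.xA, hg1, a2]
    · linarith only [hb.ZM, hb.al0, hl.xA, hg1, a2]
    · rcases tE with a3 | a3 | a3 | a3 | a3 | a3 | a3
      · linarith only [hb.l2, hb.zM, hj3, hs0, hg1, hn1, hDL, hX, a1, a3]
      · linarith only [hb.l2, hb.zM, hj2, hj3, hi2, hs0, hg1, hn1, hug, hDL, hX, a1, a2, a3]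
      · linarith only [hb.ZM, hj1, hj2, hj3, hi2, h110, hl.xua, hl.xpq, hl.xA, hg1, a3]
      · linarith only [hb.ZM, hj1, hj2, hj3, h110, hl.xua, hl.xpq, hug, a3]
      · linarith only [hb.ZM, hj1, hj3, hi2, h110, hl.xua, hl.xpq, hug, a3]
      · linarith only [hb.l2, hb.zM, hj2, hj3, hs0, hg1, hn1, hug, hDL, hX, a1, a2, a3]
      · linarith only [hb.l2, hb.z0, hb.zz, hb.zM, hj2, hj3, hl.xvb, hs0, hg1, hn1, hDL, hX, a1, a2, a3]
    · linarith only [hb.l2, hb.z0, hb.zz, hb.zM, h112, hl.xua, hl.xA, hs0, hn1, hug, hDL, hX0, hX, a1, a2]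
  · linarith only [hb.l2, hb.zM, hb.M0, hb.v2y, hi1, h112, hl.xua, hn1, hD, a1]
  · linarith only [hb.l2, hb.zz, hj1, h112, hl.xvb, hl.xpq, hn1, hD, a1]
  · linarith only [hb.l2, hb.zM, hb.M0, hj1, hi2, h112, hl.xua, hl.xpq, hn1, hD, a1]
  · linarith only [hb.l2, hb.z0, hb.zM, hb.v2y, hi1, hi2, h112, hl.xA, hn1, hD, a1]
  · rcases tA with a2 | a2 | a2 | a2 | a2 | a2 | a2
    · linarith only [hb.l2, hb.zz, hj2, hb.v2y, hb.be1, h112, hl.xua, hs0, hg1, hn1, hD, hDL, hX, a1, a2]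
    · linarith only [hug, a2]
    · linarith only [hb.l2, hb.z0, hb.zM, hb.M0, hj1, hl.xua, hl.xpq, hug, a2]
    · linarith only [hb.ZM, hb.v2y, hb.be1, hl.xA, hg1, a2]
    · linarith only [hb.ZM, hb.al0, hl.xA, hg1, a2]
    · linarith only [hb.l2, hb.zz, hj2, h112, hs0, hg1, hn1, hD, hDL, hX, a1, a2]
    · linarith only [hb.l2, hb.z0, hb.zM, hb.M0, hb.v2y, hi1, hi2, h112, hl.xua, hl.xA, hs0, hn1, hug, hD, hDL, hX, a1, a2]
  · rcases tA with a2 | a2 | a2 | a2 | a2 | a2 | a2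
    · linarith only [hb.l2, hb.z0, hb.zz, hb.zM, hi2, h112, hl.xA, hs0, hn1, hug, hL0, hD, hDL, hX0, hX, a1, a2]
    · linarith only [hug, a2]
    · linarith only [hb.l2, hb.z0, hb.zM, hb.M0, hj1, hl.xua, hl.xpq, hug, a2]
    · linarith only [hb.ZM, hb.v2y, hb.be1, hl.xA, hg1, a2]
    · linarith only [hb.ZM, hb.al0, hl.xA, hg1, a2]
    · linarith only [hb.l2, hb.z0, hb.zM, hi2, h112, hl.xA, hs0, hn1, hug, hD, hDL, hX, a1, a2]
    · linarith only [hb.l2, hb.z0, hb.zz, hb.zM, hi2, h112, hl.xA, hs0, hn1, hug, hL0, hD, hDL, hX0, hX, a1, a2]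

theorem r12c_j0i0_N_wQ {th lam y z g X MB u1 u2 ux ua al v2 vb be : ℝ}
    (hb : MB0 th lam y z MB u1 u2 ux ua al v2 vb be) (hj2 : 0 = al)
    (hl : L2c th y MB u1 ua al vb be) (hg1 : 1 ≤ g) (hug : ua ≤ g) (hX0 : 0 ≤ X)
    (hXc0 : X < ua + 2) (hXc1 : X + 2 ≤ th) (tA : FT th (-g) X 0 (th + ua) al be) : False := by
  rcases tA with a1 | a1 | a1 | a1 | a1 | a1 | a1
  · linarith only [hg1, hXc1, a1]
  · linarith only [hug, a1]
  · linarith only [hug, hX0, hXc0, hXc1, a1]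
  · linarith only [hj2, hug, hX0, hXc0, hXc1, a1]
  · linarith only [hb.ZM, hb.al0, hl.xA, hg1, a1]
  · linarith only [hb.ZM, hl.xA, hug, hXc0, a1]
  · linarith only [hb.ZM, hl.xA, hug, hX0, hXc0, hXc1, a1]

theorem r12c_j0i0_N_wP {th lam y z g X MB u1 u2 ux ua al v2 vb be : ℝ}
    (hb : MB0 th lam y z MB u1 u2 ux ua al v2 vb be) (hj1 : u1 = ua) (hj2 : 0 = al)
    (hl : L2c th y MB u1 ua al vb be) (hg1 : 1 ≤ g) (hug : ua ≤ g) (hX0 : 0 ≤ X) (hXc0 : X < ua)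
    (tA : FT th (-g) X 0 (th + ua) al be) : False := by
  rcases tA with a1 | a1 | a1 | a1 | a1 | a1 | a1
  · linarith only [hb.M0, hb.ZM, hb.uy, hj1, hg1, hXc0, a1]
  · linarith only [hug, a1]
  · linarith only [hb.M0, hb.ZM, hb.uy, hj1, hg1, hX0, hXc0, a1]
  · linarith only [hb.M0, hb.ZM, hb.uy, hj1, hj2, hug, hX0, hXc0, a1]
  · linarith only [hb.ZM, hb.al0, hl.xA, hg1, a1]
  · linarith only [hb.ZM, hl.xA, hug, hXc0, a1]
  · linarith only [hb.l2, hb.z0, hb.zM, hb.M0, hj1, hl.xua, hl.xpq, hl.xA, hug, hXc0, a1]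

theorem r12c_j0i0_N_2 {th lam y z g X MB u1 u2 ux ua al v2 vb be : ℝ}
    (hb : MB0 th lam y z MB u1 u2 ux ua al v2 vb be) (hl : L2c th y MB u1 ua al vb be)
    (hg1 : 1 ≤ g) (hug : ua ≤ g) (hX : X ≤ 2) (tA : FT th (-g) X 0 (th + ua) al be) : False := by
  rcases tA with a1 | a1 | a1 | a1 | a1 | a1 | a1
  · linarith only [hb.ZM, hb.al0, hb.v2y, hb.be1, hl.xA, hg1, hX, a1]
  · linarith only [hug, a1]
  · linarith only [hb.ZM, hb.al0, hb.v2y, hb.be1, hl.xua, hl.xA, hg1, a1]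
  · linarith only [hb.ZM, hb.v2y, hb.be1, hl.xA, hg1, a1]
  · linarith only [hb.ZM, hb.al0, hl.xA, hg1, a1]
  · linarith only [hb.ZM, hl.xA, hg1, hug, hX, a1]
  · linarith only [hb.ZM, hb.al0, hb.v2y, hb.be1, hl.xua, hl.xA, hg1, hX, a1]

theorem r12c_j0i0_L_Y {th lam y z g nb Y sg D L X MB MA m11 u1 u2 ux ua al v2 vb be sy ay cy : ℝ}
    (hb : MB0 th lam y z MB u1 u2 ux ua al v2 vb be) (hj1 : u1 = ua) (hj2 : 0 = al)
    (hj3 : MB = MA) (hi2 : y = vb + be) (h110 : 0 ≤ m11) (h112 : m11 ≤ 2)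
    (hl : L2c th y MB u1 ua al vb be) (hs0 : 0 ≤ sg) (hY0 : 0 ≤ Y) (hg1 : 1 ≤ g) (hn1 : 1 ≤ nb)
    (hug : ua ≤ g) (hy : LY sy ay cy) (hyp1 : sy < ua) (hsL : sy ≤ L) (hD : nb + D + cy ≤ z)
    (hDL : nb + Y + sg + D + L + cy ≤ th + y + z) (hX : Y = X + sy)
    (t11 : FT th (D + ay) (L - sy) m11 (vb - ua) (y - vb - be) al)
    (tA : FT th (-g) X 0 (th + ua) al be)
    (tE : FT th (-g) X (MA - m11) (th + ua + vb - y) al (y - vb - be)) : False := by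
  rcases t11 with a1 | a1 | a1 | a1 | a1 | a1 | a1
  · rcases tA with a2 | a2 | a2 | a2 | a2 | a2 | a2
    · linarith only [hb.l2, hb.zz, h112, hs0, hn1, hug, hy.a1, hy.c0, hy.say, hyp1, hDL, hX, a1, a2]
    · linarith only [hug, a2]
    · linarith only [hb.M0, hb.ZM, hb.uy, hj1, hug, hy.a1, hy.say, hyp1, a2]
    · linarith only [hb.M0, hb.ZM, hb.uy, hj1, hj2, hl.xua, hug, a2]
    · linarith only [hb.ZM, hb.al0, hl.xA, hg1, a2]
    · rcases tE with a3 | a3 | a3 | a3 | a3 | a3 | a3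
      · linarith only [hb.l2, hb.zM, hj3, hs0, hn1, hug, hy.a1, hy.c0, hy.say, hyp1, hDL, hX, a1, a3]
      · linarith only [hb.l2, hb.zM, hj2, hj3, hi2, hs0, hn1, hug, hy.a1, hy.c0, hy.say, hyp1, hDL, hX, a1, a2, a3]
      · linarith only [hb.ZM, hb.al0, hj3, hb.v2y, hb.vb2, hi2, h110, hl.xua, hl.xvb, hl.xA, hug, a3]
      · linarith only [hb.ZM, hj2, hj3, hb.v2y, hb.vb2, h110, hl.xvb, hg1, a3]
      · linarith only [hb.ZM, hj3, hb.v2y, hb.vb2, hi2, h110, hl.xvb, hg1, a3]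
      · linarith only [hb.l2, hb.zM, hj2, hj3, hs0, hn1, hug, hy.a1, hy.c0, hy.say, hyp1, hDL, hX, a1, a2, a3]
      · linarith only [hb.l2, hb.z0, hb.zM, hb.M0, hj2, hj3, hl.xvb, hs0, hn1, hug, hy.a1, hy.c0, hy.say, hyp1, hDL, hX, a1, a2, a3]
    · linarith only [hb.l2, hb.z0, hb.zM, hb.M0, h112, hl.xA, hs0, hY0, hn1, hug, hy.a1, hy.c0, hy.say, hyp1, hDL, hX, a1, a2]
  · linarith only [hb.l2, hb.zz, hb.v2y, hb.vb2, h112, hn1, hy.c0, hy.say, hyp1, hD, a1]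
  · linarith only [hb.l2, hb.z0, hb.zM, hj1, hj2, hi2, h112, hl.xpq, hl.xA, hn1, hy.ac, hD, a1]
  · linarith only [hb.l2, hb.zz, hj1, hi2, h112, hl.xpq, hn1, hy.c0, hy.say, hyp1, hD, a1]
  · linarith only [hb.l2, hb.z0, hb.zM, hb.v2y, hb.be1, h112, hl.xA, hn1, hy.ac, hD, a1]
  · rcases tA with a2 | a2 | a2 | a2 | a2 | a2 | a2
    · linarith only [hb.l2, hb.zz, hj2, hb.v2y, hb.be1, h112, hs0, hn1, hug, hy.a1, hy.c0, hy.say, hyp1, hD, hDL, hX, a1, a2]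
    · linarith only [hug, a2]
    · linarith only [hb.M0, hb.ZM, hb.uy, hj1, hug, hy.a1, hy.say, hyp1, a2]
    · linarith only [hb.M0, hb.ZM, hb.uy, hj1, hj2, hl.xua, hug, a2]
    · linarith only [hb.ZM, hb.al0, hl.xA, hg1, a2]
    · linarith only [hb.l2, hb.zz, hj2, h112, hs0, hg1, hn1, hy.c0, hy.say, hD, hDL, hX, a1, a2]
    · linarith only [hb.l2, hb.z0, hb.zz, hj2, h112, hs0, hY0, hn1, hug, hy.a1, hy.c0, hy.say, hyp1, hsL, hDL, hX, a1, a2]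
  · rcases tA with a2 | a2 | a2 | a2 | a2 | a2 | a2
    · linarith only [hb.l2, hb.z0, hb.zM, hb.M0, hi2, h112, hl.xA, hs0, hn1, hug, hy.a1, hy.c0, hy.say, hyp1, hsL, hDL, hX, a1, a2]
    · linarith only [hug, a2]
    · linarith only [hb.M0, hb.ZM, hb.uy, hj1, hug, hy.a1, hy.say, hyp1, a2]
    · linarith only [hb.M0, hb.ZM, hb.uy, hj1, hj2, hl.xua, hug, a2]
    · linarith only [hb.ZM, hb.al0, hl.xA, hg1, a2]
    · linarith only [hb.l2, hb.z0, hb.zM, hi2, h112, hl.xA, hs0, hn1, hug, hy.c0, hy.say, hD, hDL, hX, a1, a2]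
    · linarith only [hb.l2, hb.z0, hb.zM, hb.M0, hi2, h112, hl.xA, hs0, hY0, hn1, hug, hy.c0, hy.say, hyp1, hsL, hD, hDL, hX, a1, a2]

theorem r12c_j0i0_L_S {th lam y z g Y X MB u1 u2 ux ua al v2 vb be sy ay cy : ℝ}
    (hb : MB0 th lam y z MB u1 u2 ux ua al v2 vb be) (hj1 : u1 = ua)
    (hl : L2c th y MB u1 ua al vb be) (hY0 : 0 ≤ Y) (hg1 : 1 ≤ g) (hug : ua ≤ g)
    (hy : LY sy ay cy) (hyp1 : sy < ua) (hX : sy = Y + X) (tA : FT th (-g) X 0 (th + ua) al be)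
    : False := by
  rcases tA with a1 | a1 | a1 | a1 | a1 | a1 | a1
  · linarith only [hb.M0, hb.ZM, hb.uy, hj1, hY0, hg1, hyp1, hX, a1]
  · linarith only [hug, a1]
  · linarith only [hb.M0, hb.ZM, hj1, hl.xua, hl.xpq, hug, a1]
  · linarith only [hb.ZM, hb.v2y, hb.be1, hl.xA, hg1, a1]
  · linarith only [hb.ZM, hb.al0, hl.xA, hg1, a1]
  · linarith only [hb.ZM, hl.xA, hY0, hug, hyp1, hX, a1]
  · linarith only [hb.M0, hb.ZM, hb.uy, hj1, hl.xA, hY0, hug, hy.a1, hy.say, hyp1, hX, a1]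

theorem r12c_j0i0_L_wQ {th lam y z g Y X MB u1 u2 ux ua al v2 vb be sy : ℝ}
    (hb : MB0 th lam y z MB u1 u2 ux ua al v2 vb be) (hj2 : 0 = al)
    (hl : L2c th y MB u1 ua al vb be) (hg1 : 1 ≤ g) (hug : ua ≤ g) (hXa : Y ≤ X + sy)
    (hXb : sy ≤ Y + X) (hXc0 : X < ua + 2) (hXc1 : X + 2 ≤ th)
    (tA : FT th (-g) X 0 (th + ua) al be) : False := by
  rcases tA with a1 | a1 | a1 | a1 | a1 | a1 | a1
  · linarith only [hg1, hXc1, a1]
  · linarith only [hug, a1]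
  · linarith only [hug, hXa, hXb, hXc0, hXc1, a1]
  · linarith only [hj2, hug, hXa, hXb, hXc0, hXc1, a1]
  · linarith only [hb.ZM, hb.al0, hl.xA, hg1, a1]
  · linarith only [hb.ZM, hl.xA, hug, hXc0, a1]
  · linarith only [hb.ZM, hl.xA, hug, hXa, hXb, hXc0, hXc1, a1]

theorem r12c_j0i0_L_wP {th lam y z g X MB u1 u2 ux ua al v2 vb be : ℝ}
    (hb : MB0 th lam y z MB u1 u2 ux ua al v2 vb be) (hj1 : u1 = ua)
    (hl : L2c th y MB u1 ua al vb be) (hg1 : 1 ≤ g) (hug : ua ≤ g) (hXc0 : X < ua)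
    (tA : FT th (-g) X 0 (th + ua) al be) : False := by
  rcases tA with a1 | a1 | a1 | a1 | a1 | a1 | a1
  · linarith only [hb.M0, hb.ZM, hb.uy, hj1, hg1, hXc0, a1]
  · linarith only [hug, a1]
  · linarith only [hb.M0, hb.ZM, hj1, hl.xua, hl.xpq, hug, a1]
  · linarith only [hb.ZM, hb.v2y, hb.be1, hl.xA, hg1, a1]
  · linarith only [hb.ZM, hb.al0, hl.xA, hg1, a1]
  · linarith only [hb.ZM, hl.xA, hug, hXc0, a1]
  · linarith only [hb.M0, hb.ZM, hj1, hl.xua, hl.xpq, hl.xA, hug, hXc0, a1]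

theorem r12c_j0i0_L_2 {th lam y z g X MB u1 u2 ux ua al v2 vb be : ℝ}
    (hb : MB0 th lam y z MB u1 u2 ux ua al v2 vb be) (hj1 : u1 = ua)
    (hl : L2c th y MB u1 ua al vb be) (hg1 : 1 ≤ g) (hug : ua ≤ g) (hX : X ≤ 2)
    (tA : FT th (-g) X 0 (th + ua) al be) : False := by
  rcases tA with a1 | a1 | a1 | a1 | a1 | a1 | a1
  · linarith only [hb.M0, hb.ZM, hj1, hl.xua, hl.xpq, hug, hX, a1]
  · linarith only [hug, a1]
  · linarith only [hb.M0, hb.ZM, hj1, hl.xua, hl.xpq, hug, a1]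
  · linarith only [hb.ZM, hb.v2y, hb.be1, hl.xA, hg1, a1]
  · linarith only [hb.ZM, hb.al0, hl.xA, hg1, a1]
  · linarith only [hb.ZM, hl.xA, hg1, hug, hX, a1]
  · linarith only [hb.M0, hb.ZM, hj1, hl.xua, hl.xpq, hl.xA, hug, hX, a1]

theorem r12c_j0i1_N_Y {th lam y z g nb Y sg D L X MB MA m11 u1 u2 ux ua al v2 vb be : ℝ}
    (hb : MB0 th lam y z MB u1 u2 ux ua al v2 vb be) (hj1 : u1 = ua) (hj2 : 0 = al)
    (hj3 : MB = MA) (h110 : 0 ≤ m11) (h112 : m11 ≤ 2) (hl : L2c th y MB u1 ua al vb be)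
    (hs0 : 0 ≤ sg) (hg1 : 1 ≤ g) (hn1 : 1 ≤ nb) (hug : ua ≤ g) (hl3 : 3 ≤ lam) (hD : nb + D ≤ z)
    (hDL : nb + Y + sg + D + L ≤ th + y + z) (hX0 : 0 ≤ X) (hX : Y = X)
    (t11 : FT th D L m11 (vb - ua) (y - vb - be) al) (tA : FT th (-g) X 0 (th + ua) al be)
    (tE : FT th (-g) X (MA - m11) (th + ua + vb - y) al (y - vb - be)) : False := by
  rcases t11 with a1 | a1 | a1 | a1 | a1 | a1 | a1
  · rcases tA with a2 | a2 | a2 | a2 | a2 | a2 | a2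
    · linarith only [hb.zM, hb.M0, h112, hs0, hg1, hn1, hl3, hDL, hX, a1, a2]
    · linarith only [hug, a2]
    · linarith only [hb.zM, hb.M0, h112, hl.xua, hs0, hn1, hug, hl3, hDL, hX0, hX, a1, a2]
    · linarith only [hb.ZM, hb.v2y, hb.be1, hl.xA, hg1, a2]
    · linarith only [hb.ZM, hb.al0, hl.xA, hg1, a2]
    · rcases tE with a3 | a3 | a3 | a3 | a3 | a3 | a3
      · linarith only [hb.zM, hj3, hs0, hg1, hn1, hl3, hDL, hX, a1, a3]
      · linarith only [hb.zM, hj2, hj3, hb.eZ, hs0, hg1, hn1, hug, hl3, hDL, hX, a1, a2, a3]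
      · linarith only [hb.ZM, hj2, hj3, hb.v2y, hb.be1, h110, hl.xua, hl.xvb, hl.xA, hg1, a3]
      · linarith only [hb.M2, hb.ZM, hj3, hb.v2y, hb.be1, h110, hl.xA, hg1, a3]
      · linarith only [hb.ZM, hj3, hb.v2y, hb.be1, h110, hl.xvb, hg1, a3]
      · linarith only [hb.zM, hj2, hj3, hs0, hg1, hn1, hug, hl3, hDL, hX, a1, a2, a3]
      · linarith only [hb.l2, hb.z0, hb.zz, hb.zM, hj2, hj3, hl.xvb, hs0, hg1, hn1, hDL, hX, a1, a2, a3]
    · linarith only [hb.l2, hb.z0, hb.zM, hb.M0, h112, hl.xua, hl.xA, hs0, hg1, hn1, hDL, hX0, hX, a1, a2]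
  · linarith only [hb.zM, hb.M0, hb.v2y, hb.vb2, h112, hl.xua, hn1, hl3, hD, a1]
  · linarith only [hb.zM, hb.M0, hj1, h112, hl.xvb, hl.xpq, hn1, hl3, hD, a1]
  · linarith only [hb.zz, hb.v2y, hb.be1, h112, hl.xvb, hn1, hl3, hD, a1]
  · linarith only [hb.l2, hb.z0, hb.zM, hb.v2y, hb.be1, h112, hl.xA, hn1, hD, a1]
  · rcases tA with a2 | a2 | a2 | a2 | a2 | a2 | a2
    · linarith only [hb.zz, hj2, hb.v2y, hb.be1, h112, hl.xua, hs0, hn1, hug, hl3, hD, hDL, hX, a1, a2]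
    · linarith only [hug, a2]
    · linarith only [hb.ZM, hb.al0, hb.v2y, hb.be1, hl.xua, hl.xA, hg1, a2]
    · linarith only [hb.ZM, hb.v2y, hb.be1, hl.xA, hg1, a2]
    · linarith only [hb.ZM, hb.al0, hl.xA, hg1, a2]
    · linarith only [hb.zz, hj2, h112, hs0, hg1, hn1, hl3, hD, hDL, hX, a1, a2]
    · linarith only [hb.l2, hb.z0, hb.zM, hb.M0, hb.v2y, hb.be1, h112, hl.xua, hl.xA, hs0, hn1, hug, hD, hDL, hX, a1, a2]
  · rcases tA with a2 | a2 | a2 | a2 | a2 | a2 | a2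
    · linarith only [hb.zz, hj2, hb.v2y, hb.be1, h112, hl.xvb, hs0, hn1, hug, hl3, hD, hDL, hX, a1, a2]
    · linarith only [hug, a2]
    · linarith only [hb.ZM, hb.al0, hb.v2y, hb.be1, hl.xua, hl.xA, hg1, a2]
    · linarith only [hb.ZM, hb.v2y, hb.be1, hl.xA, hg1, a2]
    · linarith only [hb.ZM, hb.al0, hl.xA, hg1, a2]
    · linarith only [hb.zz, hj2, h112, hl.xvb, hs0, hn1, hug, hl3, hD, hDL, hX, a1, a2]
    · linarith only [hb.l2, hb.z0, hb.zM, hb.M0, hb.v2y, hb.be1, h112, hl.xvb, hl.xA, hs0, hg1, hn1, hD, hDL, hX, a1, a2]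

theorem r12c_j0i1_N_wQ {th lam y z g Y X MB u1 u2 ux ua al v2 vb be : ℝ}
    (hb : MB0 th lam y z MB u1 u2 ux ua al v2 vb be) (hj2 : 0 = al)
    (hl : L2c th y MB u1 ua al vb be) (hY0 : 0 ≤ Y) (hg1 : 1 ≤ g) (hug : ua ≤ g) (hX0 : 0 ≤ X)
    (hXY : Y ≤ X) (hXc0 : X < ua + 2) (hXc1 : X + 2 ≤ th) (tA : FT th (-g) X 0 (th + ua) al be)
    : False := by
  rcases tA with a1 | a1 | a1 | a1 | a1 | a1 | a1
  · linarith only [hug, hX0, hXc0, hXc1, a1]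
  · linarith only [hug, a1]
  · linarith only [hug, hX0, hXc0, hXc1, a1]
  · linarith only [hj2, hug, hX0, hXc0, hXc1, a1]
  · linarith only [hb.ZM, hb.al0, hl.xA, hg1, a1]
  · linarith only [hb.ZM, hl.xA, hug, hXc0, a1]
  · linarith only [hb.ZM, hl.xA, hY0, hg1, hXY, hXc0, hXc1, a1]

theorem r12c_j0i1_N_wP {th lam y z g X MB u1 u2 ux ua al v2 vb be : ℝ}
    (hb : MB0 th lam y z MB u1 u2 ux ua al v2 vb be) (hj1 : u1 = ua) (hj2 : 0 = al)
    (hl : L2c th y MB u1 ua al vb be) (hg1 : 1 ≤ g) (hug : ua ≤ g) (hX0 : 0 ≤ X) (hXc0 : X < ua)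
    (tA : FT th (-g) X 0 (th + ua) al be) : False := by
  rcases tA with a1 | a1 | a1 | a1 | a1 | a1 | a1
  · linarith only [hb.M0, hb.ZM, hb.uy, hj1, hug, hX0, hXc0, a1]
  · linarith only [hug, a1]
  · linarith only [hb.M0, hb.ZM, hb.uy, hj1, hug, hX0, hXc0, a1]
  · linarith only [hb.M0, hb.ZM, hb.uy, hj1, hj2, hug, hX0, hXc0, a1]
  · linarith only [hb.ZM, hb.al0, hl.xA, hg1, a1]
  · linarith only [hb.ZM, hl.xA, hug, hXc0, a1]
  · linarith only [hb.ZM, hb.al0, hb.v2y, hb.be1, hl.xA, hg1, hXc0, a1]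

theorem r12c_j0i1_N_2 {th lam y z g X MB u1 u2 ux ua al v2 vb be : ℝ}
    (hb : MB0 th lam y z MB u1 u2 ux ua al v2 vb be) (hl : L2c th y MB u1 ua al vb be)
    (hg1 : 1 ≤ g) (hug : ua ≤ g) (hX : X ≤ 2) (tA : FT th (-g) X 0 (th + ua) al be) : False := by
  rcases tA with a1 | a1 | a1 | a1 | a1 | a1 | a1
  · linarith only [hb.ZM, hb.al0, hb.v2y, hb.be1, hl.xA, hg1, hX, a1]
  · linarith only [hug, a1]
  · linarith only [hb.ZM, hb.al0, hb.v2y, hb.be1, hl.xua, hl.xA, hg1, a1]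
  · linarith only [hb.ZM, hb.v2y, hb.be1, hl.xA, hg1, a1]
  · linarith only [hb.ZM, hb.al0, hl.xA, hg1, a1]
  · linarith only [hb.ZM, hl.xA, hg1, hug, hX, a1]
  · linarith only [hb.ZM, hb.al0, hb.v2y, hb.be1, hl.xua, hl.xA, hg1, hX, a1]

theorem r12c_j0i1_L_Y {th lam y z g nb Y sg D L X MB MA m11 m12 u1 u2 ux ua al v2 vb be sy ay cy : ℝ}
    (hb : MB0 th lam y z MB u1 u2 ux ua al v2 vb be) (hj1 : u1 = ua) (hj2 : 0 = al)
    (hj3 : MB = MA) (h110 : 0 ≤ m11) (h112 : m11 ≤ 2) (h122 : m12 ≤ 2)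
    (hl : L2c th y MB u1 ua al vb be) (hs0 : 0 ≤ sg) (hY0 : 0 ≤ Y) (hg1 : 1 ≤ g) (hn1 : 1 ≤ nb)
    (hug : ua ≤ g) (hl3 : 3 ≤ lam) (hy : LY sy ay cy) (hyp1 : sy < ua) (hsL : sy ≤ L)
    (hD : nb + D + cy ≤ z) (hDL : nb + Y + sg + D + L + cy ≤ th + y + z) (hX : Y = X + sy)
    (t11 : FT th (D + ay) (L - sy) m11 (vb - ua) (y - vb - be) al)
    (t12 : FT th (D + ay) (L - sy) m12 (v2 - u1) (v2 + be - y) (u1 - ua - al))
    (tA : FT th (-g) X 0 (th + ua) al be)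
    (tE : FT th (-g) X (MA - m11) (th + ua + vb - y) al (y - vb - be)) : False := by
  rcases t12 with a1 | a1 | a1 | a1 | a1 | a1 | a1
  · rcases tA with a2 | a2 | a2 | a2 | a2 | a2 | a2
    · linarith only [hb.zM, hb.M0, h122, hs0, hn1, hug, hl3, hy.a1, hy.c0, hy.say, hyp1, hDL, hX, a1, a2]
    · linarith only [hug, a2]
    · linarith only [hb.M0, hb.ZM, hb.uy, hj1, hug, hy.a1, hy.say, hyp1, a2]
    · linarith only [hb.ZM, hb.v2y, hb.be1, hl.xA, hg1, a2]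
    · linarith only [hb.ZM, hb.al0, hl.xA, hg1, a2]
    · rcases tE with a3 | a3 | a3 | a3 | a3 | a3 | a3
      · linarith only [hb.zM, hj3, h110, h122, hs0, hn1, hug, hl3, hy.a1, hy.c0, hy.say, hyp1, hDL, hX, a1, a3]
      · linarith only [hb.zM, hj2, hj3, hb.eZ, h110, h122, hs0, hn1, hug, hl3, hy.a1, hy.c0, hy.say, hyp1, hDL, hX, a1, a2, a3]
      · linarith only [hb.ZM, hb.al0, hj3, hb.v2y, hb.be1, h110, hl.xua, hl.xvb, hl.xA, hg1, a3]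
      · linarith only [hb.ZM, hb.uy, hj1, hj2, hj3, h110, hl.xua, hug, a3]
      · linarith only [hb.ZM, hj3, hb.v2y, hb.be1, h110, hl.xvb, hg1, a3]
      · linarith only [hb.zM, hj2, hj3, h110, h122, hs0, hn1, hug, hl3, hy.a1, hy.c0, hy.say, hyp1, hDL, hX, a1, a2, a3]
      · linarith only [hb.z0, hb.zM, hb.M0, hj2, hj3, h110, h122, hl.xvb, hs0, hn1, hug, hl3, hy.a1, hy.c0, hy.say, hyp1, hDL, hX, a1, a2, a3]
    · linarith only [hb.z0, hb.zM, hb.M0, h122, hl.xA, hs0, hY0, hn1, hug, hl3, hy.a1, hy.c0, hy.say, hyp1, hDL, hX, a1, a2]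
  · linarith only [hb.zM, hb.M0, hj1, hb.v2y, h122, hn1, hl3, hy.c0, hy.say, hyp1, hD, a1]
  · linarith only [hb.zz, hb.vb2, h122, hl.xvb, hl.xpq, hn1, hl3, hy.ac, hD, a1]
  · linarith only [hb.zM, hb.ZM, hb.al0, hb.v2y, h122, hl.xA, hn1, hl3, hy.ac, hD, a1]
  · linarith only [hb.zM, hb.M0, hb.uy, hb.al0, h122, hn1, hl3, hy.c0, hy.say, hyp1, hD, a1]
  · rcases tA with a2 | a2 | a2 | a2 | a2 | a2 | a2
    · rcases t11 with a3 | a3 | a3 | a3 | a3 | a3 | a3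
      · linarith only [hb.zM, hb.M0, h112, hs0, hn1, hug, hl3, hy.a1, hy.c0, hy.say, hyp1, hDL, hX, a2, a3]
      · linarith only [hb.zM, hb.M0, hb.v2y, hb.vb2, h112, hn1, hl3, hy.c0, hy.say, hyp1, hD, a3]
      · linarith only [hb.zM, hb.M0, h112, hl.xvb, hs0, hn1, hug, hl3, hy.a1, hy.c0, hy.say, hsL, hDL, hX, a2, a3]
      · linarith only [hb.zM, hb.M0, hj2, hb.v2y, h112, h122, hl.xvb, hs0, hg1, hn1, hl3, hy.c0, hy.say, hyp1, hD, hDL, hX, a1, a2, a3]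
      · linarith only [hb.zM, hb.M0, hj2, hb.v2y, hb.be1, h112, hl.xA, hs0, hY0, hn1, hl3, hy.ac, hy.c0, hy.say, hsL, hD, hDL, a3]
      · linarith only [hb.zM, hb.M0, hb.v2y, h112, h122, hl.xua, hs0, hn1, hug, hl3, hy.c0, hy.say, hD, hDL, hX, a1, a2, a3]
      · linarith only [hb.zM, hb.M0, hb.v2y, h112, h122, hl.xvb, hs0, hg1, hn1, hl3, hy.c0, hy.say, hD, hDL, hX, a1, a2, a3]
    · linarith only [hug, a2]
    · linarith only [hb.M0, hb.ZM, hb.uy, hj1, hug, hy.a1, hy.say, hyp1, a2]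
    · linarith only [hb.ZM, hb.v2y, hb.be1, hl.xA, hg1, a2]
    · linarith only [hb.ZM, hb.al0, hl.xA, hg1, a2]
    · rcases t11 with a3 | a3 | a3 | a3 | a3 | a3 | a3
      · rcases tE with a4 | a4 | a4 | a4 | a4 | a4 | a4
        · linarith only [hb.zM, hj3, hs0, hn1, hug, hl3, hy.a1, hy.c0, hy.say, hyp1, hDL, hX, a3, a4]
        · linarith only [hb.zM, hj2, hj3, hb.eZ, hs0, hn1, hug, hl3, hy.a1, hy.c0, hy.say, hyp1, hDL, hX, a2, a3, a4]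
        · linarith only [hb.ZM, hb.al0, hj3, hb.v2y, hb.be1, h110, hl.xua, hl.xvb, hl.xA, hg1, a4]
        · linarith only [hb.ZM, hb.uy, hj1, hj2, hj3, h110, hl.xua, hug, a4]
        · linarith only [hb.ZM, hj3, hb.v2y, hb.be1, h110, hl.xvb, hg1, a4]
        · linarith only [hb.zM, hj2, hj3, hs0, hn1, hug, hl3, hy.a1, hy.c0, hy.say, hyp1, hDL, hX, a2, a3, a4]
        · linarith only [hb.z0, hb.zM, hb.M0, hj2, hj3, hl.xvb, hs0, hn1, hug, hl3, hy.a1, hy.c0, hy.say, hyp1, hDL, hX, a2, a3, a4]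
      · linarith only [hb.zM, hb.M0, hb.v2y, hb.vb2, h112, hn1, hl3, hy.c0, hy.say, hyp1, hD, a3]
      · linarith only [hb.zz, hb.v2y, hb.eZ, h112, h122, hl.xvb, hs0, hn1, hug, hl3, hy.ac, hy.c0, hy.say, hD, hDL, hX, a1, a2, a3]
      · linarith only [hb.zM, hb.M0, hb.v2y, h112, h122, hl.xvb, hs0, hn1, hug, hl3, hy.c0, hy.say, hyp1, hD, hDL, hX, a1, a2, a3]
      · linarith only [hb.zM, hb.M0, hj2, hb.v2y, hb.be1, h112, hl.xA, hs0, hY0, hn1, hl3, hy.ac, hy.c0, hy.say, hsL, hD, hDL, a3]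
      · linarith only [hb.zM, hb.M0, hj2, h112, hs0, hg1, hn1, hl3, hy.c0, hy.say, hD, hDL, hX, a2, a3]
      · linarith only [hb.zM, hb.M0, hj2, h112, hl.xvb, hs0, hn1, hug, hl3, hy.c0, hy.say, hD, hDL, hX, a2, a3]
    · linarith only [hb.z0, hb.zz, hb.v2y, hb.eZ, h122, hl.xua, hl.xvb, hs0, hn1, hug, hl3, hy.c0, hy.say, hD, hDL, hX, a1, a2]
  · rcases tA with a2 | a2 | a2 | a2 | a2 | a2 | a2
    · linarith only [hb.zM, hb.M0, hj1, hj2, hb.eZ, h122, hl.xvb, hl.xpq, hs0, hg1, hn1, hl3, hy.c0, hy.say, hD, hDL, hX, a1, a2]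
    · linarith only [hug, a2]
    · linarith only [hb.M0, hb.ZM, hb.uy, hj1, hug, hy.a1, hy.say, hyp1, a2]
    · linarith only [hb.ZM, hb.v2y, hb.be1, hl.xA, hg1, a2]
    · linarith only [hb.ZM, hb.al0, hl.xA, hg1, a2]
    · linarith only [hb.zM, hb.M0, hj1, hb.eZ, h122, hl.xvb, hs0, hn1, hug, hl3, hy.c0, hy.say, hD, hDL, hX, a1, a2]
    · linarith only [hb.z0, hb.zz, hb.eZ, h122, hl.xua, hl.xvb, hl.xpq, hs0, hn1, hug, hl3, hy.c0, hy.say, hD, hDL, hX, a1, a2]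

theorem r12c_j0i1_L_S {th lam y z g Y X MB u1 u2 ux ua al v2 vb be sy ay cy : ℝ}
    (hb : MB0 th lam y z MB u1 u2 ux ua al v2 vb be) (hj1 : u1 = ua)
    (hl : L2c th y MB u1 ua al vb be) (hY0 : 0 ≤ Y) (hg1 : 1 ≤ g) (hug : ua ≤ g)
    (hy : LY sy ay cy) (hyp1 : sy < ua) (hXa : Y ≤ X + sy) (hX : sy = Y + X)
    (tA : FT th (-g) X 0 (th + ua) al be) : False := by
  rcases tA with a1 | a1 | a1 | a1 | a1 | a1 | a1
  · linarith only [hb.M0, hb.ZM, hb.uy, hj1, hY0, hg1, hyp1, hX, a1]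
  · linarith only [hug, a1]
  · linarith only [hb.M0, hb.ZM, hb.uy, hj1, hug, hy.a1, hy.say, hyp1, a1]
  · linarith only [hb.ZM, hb.v2y, hb.be1, hl.xA, hg1, a1]
  · linarith only [hb.ZM, hb.al0, hl.xA, hg1, a1]
  · linarith only [hb.ZM, hl.xA, hY0, hug, hyp1, hX, a1]
  · linarith only [hb.M0, hb.ZM, hj1, hl.xpq, hl.xA, hY0, hg1, hyp1, hXa, hX, a1]

theorem r12c_j0i1_L_wQ {th lam y z g Y X MB u1 u2 ux ua al v2 vb be sy : ℝ}
    (hb : MB0 th lam y z MB u1 u2 ux ua al v2 vb be) (hj2 : 0 = al)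
    (hl : L2c th y MB u1 ua al vb be) (hg1 : 1 ≤ g) (hug : ua ≤ g) (hXa : Y ≤ X + sy)
    (hXb : sy ≤ Y + X) (hXc0 : X < ua + 2) (hXc1 : X + 2 ≤ th)
    (tA : FT th (-g) X 0 (th + ua) al be) : False := by
  rcases tA with a1 | a1 | a1 | a1 | a1 | a1 | a1
  · linarith only [hug, hXa, hXb, hXc0, hXc1, a1]
  · linarith only [hug, a1]
  · linarith only [hug, hXa, hXb, hXc0, hXc1, a1]
  · linarith only [hj2, hug, hXa, hXb, hXc0, hXc1, a1]
  · linarith only [hb.ZM, hb.al0, hl.xA, hg1, a1]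
  · linarith only [hb.ZM, hl.xA, hug, hXc0, a1]
  · linarith only [hb.ZM, hl.xA, hg1, hXa, hXb, hXc0, hXc1, a1]

theorem r12c_j0i1_L_wP {th lam y z g Y X MB u1 u2 ux ua al v2 vb be sy : ℝ}
    (hb : MB0 th lam y z MB u1 u2 ux ua al v2 vb be) (hj1 : u1 = ua)
    (hl : L2c th y MB u1 ua al vb be) (hg1 : 1 ≤ g) (hug : ua ≤ g) (hXa : Y ≤ X + sy)
    (hXb : sy ≤ Y + X) (hXc0 : X < ua) (tA : FT th (-g) X 0 (th + ua) al be) : False := by
  rcases tA with a1 | a1 | a1 | a1 | a1 | a1 | a1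
  · linarith only [hb.M0, hb.ZM, hb.uy, hj1, hug, hXa, hXb, hXc0, a1]
  · linarith only [hug, a1]
  · linarith only [hb.M0, hb.ZM, hb.uy, hj1, hug, hXa, hXb, hXc0, a1]
  · linarith only [hb.ZM, hb.v2y, hb.be1, hl.xA, hg1, a1]
  · linarith only [hb.ZM, hb.al0, hl.xA, hg1, a1]
  · linarith only [hb.ZM, hl.xA, hug, hXc0, a1]
  · linarith only [hb.M0, hb.ZM, hj1, hl.xpq, hl.xA, hg1, hXa, hXb, hXc0, a1]

theorem r12c_j0i1_L_2 {th lam y z g X MB u1 u2 ux ua al v2 vb be : ℝ}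
    (hb : MB0 th lam y z MB u1 u2 ux ua al v2 vb be) (hj1 : u1 = ua)
    (hl : L2c th y MB u1 ua al vb be) (hg1 : 1 ≤ g) (hug : ua ≤ g) (hl3 : 3 ≤ lam) (hX : X ≤ 2)
    (tA : FT th (-g) X 0 (th + ua) al be) : False := by
  rcases tA with a1 | a1 | a1 | a1 | a1 | a1 | a1
  · linarith only [hb.z0, hb.zM, hb.M0, hj1, hl.xua, hl.xpq, hug, hl3, hX, a1]
  · linarith only [hug, a1]
  · linarith only [hb.z0, hb.zM, hb.M0, hj1, hl.xua, hl.xpq, hug, hl3, a1]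
  · linarith only [hb.ZM, hb.v2y, hb.be1, hl.xA, hg1, a1]
  · linarith only [hb.ZM, hb.al0, hl.xA, hg1, a1]
  · linarith only [hb.ZM, hl.xA, hg1, hug, hX, a1]
  · linarith only [hb.l2, hb.z0, hb.zM, hb.M0, hj1, hl.xua, hl.xpq, hl.xA, hug, hX, a1]

theorem r12c_j1i0_N_Y {th lam y z g nb Y sg D L X MB MA m11 m12 u1 u2 ux ua al v2 vb be : ℝ}
    (hb : MB0 th lam y z MB u1 u2 ux ua al v2 vb be) (hj : MJ th lam y z MB MA) (hi1 : vb = v2)
    (hi2 : y = vb + be) (h110 : 0 ≤ m11) (h112 : m11 ≤ 2) (h122 : m12 ≤ 2)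
    (hl : L2c th y MB u1 ua al vb be) (hs0 : 0 ≤ sg) (hY0 : 0 ≤ Y) (hg1 : 1 ≤ g) (hn1 : 1 ≤ nb)
    (hug : ua ≤ g) (hL0 : 0 ≤ L) (hD : nb + D ≤ z) (hDL : nb + Y + sg + D + L ≤ th + y + z)
    (hX : Y = X) (t11 : FT th D L m11 (vb - ua) (y - vb - be) al)
    (t12 : FT th D L m12 (v2 - u1) (v2 + be - y) (u1 - ua - al))
    (tA : FT th (-g) X 0 (th + ua) al be)
    (tE : FT th (-g) X (MA - m11) (th + ua + vb - y) al (y - vb - be))
    (tO : FT th (-g) X 2 (th + ux + ua - u1) (u1 - ux - al) be) : False := by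
  rcases t11 with a1 | a1 | a1 | a1 | a1 | a1 | a1
  · rcases tA with a2 | a2 | a2 | a2 | a2 | a2 | a2
    · linarith only [hb.l2, hb.zz, h112, hs0, hg1, hn1, hDL, hX, a1, a2]
    · linarith only [hug, a2]
    · linarith only [hb.l2, hb.zz, h112, hl.xua, hs0, hY0, hn1, hug, hDL, a1, a2]
    · linarith only [hb.ZM, hb.v2y, hb.be1, hl.xA, hg1, a2]
    · linarith only [hb.ZM, hb.al0, hl.xA, hg1, a2]
    · rcases t12 with a3 | a3 | a3 | a3 | a3 | a3 | a3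
      · rcases tE with a4 | a4 | a4 | a4 | a4 | a4 | a4
        · linarith only [hb.l2, hj.zA, hs0, hg1, hn1, hDL, hX, a1, a4]
        · rcases tO with a5 | a5 | a5 | a5 | a5 | a5 | a5
          · linarith only [hb.l2, hb.zz, h122, hs0, hg1, hn1, hDL, hX, a3, a5]
          · linarith only [hb.l2, hb.eU, hj.zA, hi2, hs0, hg1, hn1, hug, hDL, hX, a1, a2, a4, a5]
          · linarith only [hb.M0, hb.ZM, hb.u12, hb.ux2, hb.uax, hl.xua, hl.xpq, hug, a5]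
          · linarith only [hb.M0, hb.ZM, hb.al0, hb.uax, hl.xua, hl.xpq, hug, a5]
          · linarith only [hb.ZM, hb.al0, hl.xA, hg1, a5]
          · linarith only [hb.l2, hj.zA, hi2, hs0, hg1, hn1, hug, hDL, hX, a1, a2, a4, a5]
          · linarith only [hb.l2, hb.z0, hb.zz, hb.uax, hj.zA, hi2, hl.xpq, hs0, hg1, hn1, hDL, hX, a1, a2, a4, a5]
        · linarith only [hb.ZM, hb.al0, hj.A2, hb.v2y, hb.vb2, hi2, h110, hl.xua, hl.xA, hug, a4]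
        · linarith only [hb.ZM, hj.A2, hb.v2y, hb.vb2, hi2, h110, hl.xA, hg1, a4]
        · linarith only [hb.ZM, hb.al0, hj.A2, hb.v2y, hb.vb2, hi2, h110, hl.xA, hg1, a4]
        · rcases tO with a5 | a5 | a5 | a5 | a5 | a5 | a5
          · linarith only [hb.l2, hb.zz, h122, hs0, hg1, hn1, hDL, hX, a3, a5]
          · linarith only [hb.l2, hb.eU, hj.zA, hs0, hg1, hn1, hug, hDL, hX, a1, a2, a4, a5]
          · linarith only [hb.M0, hb.ZM, hb.u12, hb.ux2, hb.uax, hl.xua, hl.xpq, hug, a5]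
          · linarith only [hb.M0, hb.ZM, hb.al0, hb.uax, hl.xua, hl.xpq, hug, a5]
          · linarith only [hb.ZM, hb.al0, hl.xA, hg1, a5]
          · linarith only [hb.l2, hj.zA, hs0, hg1, hn1, hug, hDL, hX, a1, a4, a5]
          · linarith only [hb.l2, hb.z0, hb.zz, hb.uax, hj.zA, hl.xua, hl.xpq, hs0, hn1, hug, hDL, hX, a1, a4, a5]
        · linarith only [hb.l2, hb.z0, hb.zz, hj.zMA, hi2, hl.xua, hl.xA, hs0, hY0, hn1, hug, hDL, hX, a1, a4]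
      · linarith only [hb.l2, hb.zz, hb.u12, hb.ux2, hb.uax, hb.v2y, h122, hl.xua, hn1, hD, a3]
      · linarith only [hb.l2, hb.zz, hi1, h122, hl.xvb, hl.xpq, hn1, hD, a3]
      · linarith only [hb.l2, hb.zM, hb.M0, hb.eZ, hi1, h122, hl.xA, hs0, hY0, hg1, hn1, hug, hL0, hD, hDL, hX, a2, a3]
      · linarith only [hb.l2, hb.zz, hb.al0, h122, hl.xua, hl.xpq, hn1, hD, a3]
      · linarith only [hb.l2, hb.zz, hb.eZ, hi1, h122, hs0, hg1, hn1, hD, hDL, hX, a2, a3]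
      · rcases tE with a4 | a4 | a4 | a4 | a4 | a4 | a4
        · linarith only [hb.l2, hj.zA, hs0, hg1, hn1, hDL, hX, a1, a4]
        · linarith only [hb.l2, hj.zA, hi2, h110, h122, hl.xpq, hs0, hg1, hn1, hug, hD, hDL, hX, a2, a3, a4]
        · linarith only [hb.ZM, hb.al0, hj.A2, hb.v2y, hb.vb2, hi2, h110, hl.xua, hl.xA, hug, a4]
        · linarith only [hb.ZM, hj.A2, hb.v2y, hb.vb2, hi2, h110, hl.xA, hg1, a4]
        · linarith only [hb.ZM, hb.al0, hj.A2, hb.v2y, hb.vb2, hi2, h110, hl.xA, hg1, a4]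
        · linarith only [hb.l2, hj.zA, h110, h122, hl.xpq, hs0, hg1, hn1, hD, hDL, hX, a3, a4]
        · linarith only [hb.l2, hb.z0, hb.zz, hj.zMA, hi2, hl.xua, hl.xA, hs0, hY0, hn1, hug, hDL, hX, a1, a4]
    · linarith only [hb.l2, hb.z0, hb.zM, hb.M0, h112, hl.xua, hl.xA, hs0, hY0, hn1, hug, hDL, hX, a1, a2]
  · linarith only [hb.l2, hb.zz, hb.v2y, hb.be1, hi2, h112, hl.xua, hn1, hD, a1]
  · linarith only [hb.l2, hb.zz, hb.u12, hb.ux2, hb.uax, h112, hl.xvb, hl.xpq, hn1, hD, a1]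
  · linarith only [hb.l2, hb.z0, hb.zM, hb.al0, hb.v2y, hi1, hi2, h112, hl.xA, hn1, hD, a1]
  · linarith only [hb.l2, hb.z0, hb.zM, hb.v2y, hb.be1, h112, hl.xA, hn1, hD, a1]
  · rcases tA with a2 | a2 | a2 | a2 | a2 | a2 | a2
    · rcases t12 with a3 | a3 | a3 | a3 | a3 | a3 | a3
      · linarith only [hb.l2, hb.zz, h122, hs0, hg1, hn1, hDL, hX, a2, a3]
      · linarith only [hb.l2, hb.zz, hb.u12, hb.ux2, hb.uax, hb.v2y, h122, hl.xua, hn1, hD, a3]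
      · linarith only [hb.l2, hb.zz, hi1, h122, hl.xvb, hl.xpq, hn1, hD, a3]
      · linarith only [hb.l2, hb.zz, hb.eZ, hi1, h122, hs0, hg1, hn1, hL0, hDL, hX, a2, a3]
      · linarith only [hb.l2, hb.zz, hb.al0, h122, hl.xua, hl.xpq, hn1, hD, a3]
      · linarith only [hb.l2, hb.zz, hb.v2y, h112, h122, hl.xua, hs0, hn1, hug, hD, hDL, hX, a1, a2, a3]
      · linarith only [hb.l2, hb.zz, h112, h122, hl.xua, hl.xpq, hs0, hn1, hug, hD, hDL, hX, a1, a2, a3]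
    · linarith only [hug, a2]
    · linarith only [hb.M0, hb.ZM, hb.u12, hb.ux2, hb.uax, hl.xua, hl.xpq, hug, a2]
    · linarith only [hb.ZM, hb.v2y, hb.be1, hl.xA, hg1, a2]
    · linarith only [hb.ZM, hb.al0, hl.xA, hg1, a2]
    · rcases tO with a3 | a3 | a3 | a3 | a3 | a3 | a3
      · rcases t12 with a4 | a4 | a4 | a4 | a4 | a4 | a4
        · linarith only [hb.l2, hb.zz, h122, hs0, hg1, hn1, hDL, hX, a3, a4]
        · linarith only [hb.l2, hb.zz, hb.u12, hb.ux2, hb.uax, hb.v2y, h122, hl.xua, hn1, hD, a4]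
        · linarith only [hb.l2, hb.zz, hi1, h122, hl.xvb, hl.xpq, hn1, hD, a4]
        · linarith only [hb.l2, hb.zz, hb.eZ, hi1, h122, hs0, hg1, hn1, hL0, hDL, hX, a3, a4]
        · linarith only [hb.l2, hb.zz, h112, h122, hl.xua, hl.xpq, hs0, hn1, hug, hD, hDL, hX, a1, a2, a4]
        · linarith only [hb.l2, hb.zz, hb.eZ, hi1, h122, hs0, hg1, hn1, hD, hDL, hX, a2, a4]
        · linarith only [hb.l2, hb.zz, h112, h122, hl.xua, hl.xpq, hs0, hn1, hug, hD, hDL, hX, a1, a3, a4]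
      · linarith only [hb.l2, hb.zz, hb.eU, h112, hs0, hg1, hn1, hug, hD, hDL, hX, a1, a2, a3]
      · linarith only [hb.M0, hb.ZM, hb.u12, hb.ux2, hb.uax, hl.xua, hl.xpq, hug, a3]
      · linarith only [hb.M0, hb.ZM, hb.al0, hb.uax, hl.xua, hl.xpq, hug, a3]
      · linarith only [hb.ZM, hb.al0, hl.xA, hg1, a3]
      · linarith only [hb.l2, hb.zz, h112, hs0, hg1, hn1, hD, hDL, hX, a1, a3]
      · linarith only [hb.l2, hb.z0, hb.zz, hb.uax, h112, hl.xua, hl.xpq, hs0, hn1, hug, hD, hDL, hX, a1, a3]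
    · linarith only [hb.l2, hb.z0, hb.zM, hb.M0, hb.v2y, hb.be1, h112, hl.xua, hl.xA, hs0, hn1, hug, hD, hDL, hX, a1, a2]
  · rcases tA with a2 | a2 | a2 | a2 | a2 | a2 | a2
    · linarith only [hb.l2, hb.z0, hb.zM, hb.M0, hi2, h112, hl.xA, hs0, hg1, hn1, hug, hL0, hDL, hX, a1, a2]
    · linarith only [hug, a2]
    · linarith only [hb.l2, hb.z0, hb.zM, hb.M0, hi2, h112, hl.xA, hs0, hY0, hn1, hug, hL0, hD, hDL, a1, a2]
    · linarith only [hb.ZM, hb.v2y, hb.be1, hl.xA, hg1, a2]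
    · linarith only [hb.ZM, hb.al0, hl.xA, hg1, a2]
    · linarith only [hb.l2, hb.z0, hb.zM, hi2, h112, hl.xA, hs0, hn1, hug, hD, hDL, hX, a1, a2]
    · linarith only [hb.l2, hb.z0, hb.zM, hb.M0, hi2, h112, hl.xA, hs0, hY0, hn1, hug, hL0, hD, hDL, hX, a1, a2]

theorem r12c_j1i0_N_wQ {th lam y z g X MB u1 u2 ux ua al v2 vb be : ℝ}
    (hb : MB0 th lam y z MB u1 u2 ux ua al v2 vb be) (hl : L2c th y MB u1 ua al vb be)
    (hg1 : 1 ≤ g) (hug : ua ≤ g) (hX0 : 0 ≤ X) (hXc0 : X < ua + 2) (hXc1 : X + 2 ≤ th)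
    (tA : FT th (-g) X 0 (th + ua) al be) : False := by
  rcases tA with a1 | a1 | a1 | a1 | a1 | a1 | a1
  · linarith only [hg1, hXc1, a1]
  · linarith only [hug, a1]
  · linarith only [hug, hX0, hXc0, hXc1, a1]
  · linarith only [hb.M0, hb.ZM, hb.uy, hb.uax, hb.eU, hg1, hX0, hXc0, a1]
  · linarith only [hb.ZM, hb.al0, hl.xA, hg1, a1]
  · linarith only [hb.ZM, hl.xA, hug, hXc0, a1]
  · linarith only [hb.ZM, hl.xA, hug, hX0, hXc0, hXc1, a1]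

theorem r12c_j1i0_N_wP {th lam y z g X MB u1 u2 ux ua al v2 vb be : ℝ}
    (hb : MB0 th lam y z MB u1 u2 ux ua al v2 vb be) (hl : L2c th y MB u1 ua al vb be)
    (hg1 : 1 ≤ g) (hug : ua ≤ g) (hX0 : 0 ≤ X) (hXc0 : X < ua)
    (tA : FT th (-g) X 0 (th + ua) al be) : False := by
  rcases tA with a1 | a1 | a1 | a1 | a1 | a1 | a1
  · linarith only [hb.ZM, hb.al0, hb.v2y, hb.be1, hl.xA, hug, hXc0, a1]
  · linarith only [hug, a1]
  · linarith only [hb.ZM, hb.al0, hb.v2y, hb.be1, hl.xA, hug, hX0, hXc0, a1]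
  · linarith only [hb.ZM, hb.v2y, hb.be1, hl.xA, hg1, a1]
  · linarith only [hb.ZM, hb.al0, hl.xA, hg1, a1]
  · linarith only [hb.ZM, hl.xA, hug, hXc0, a1]
  · linarith only [hb.ZM, hb.al0, hb.v2y, hb.be1, hl.xA, hug, hX0, hXc0, a1]

theorem r12c_j1i0_N_2 {th lam y z g X MB u1 u2 ux ua al v2 vb be : ℝ}
    (hb : MB0 th lam y z MB u1 u2 ux ua al v2 vb be) (hl : L2c th y MB u1 ua al vb be)
    (hg1 : 1 ≤ g) (hug : ua ≤ g) (hX : X ≤ 2) (tA : FT th (-g) X 0 (th + ua) al be) : False := by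
  rcases tA with a1 | a1 | a1 | a1 | a1 | a1 | a1
  · linarith only [hb.ZM, hb.al0, hb.v2y, hb.be1, hl.xA, hg1, hX, a1]
  · linarith only [hug, a1]
  · linarith only [hb.ZM, hb.al0, hb.v2y, hb.be1, hl.xua, hl.xA, hug, a1]
  · linarith only [hb.ZM, hb.v2y, hb.be1, hl.xA, hg1, a1]
  · linarith only [hb.ZM, hb.al0, hl.xA, hg1, a1]
  · linarith only [hb.ZM, hl.xA, hg1, hug, hX, a1]
  · linarith only [hb.ZM, hb.al0, hb.v2y, hb.be1, hl.xua, hl.xA, hug, hX, a1]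

theorem r12c_j1i0_L_Y {th lam y z g nb Y sg D L X MB MA m11 m12 u1 u2 ux ua al v2 vb be sy ay cy : ℝ}
    (hb : MB0 th lam y z MB u1 u2 ux ua al v2 vb be) (hj : MJ th lam y z MB MA) (hi1 : vb = v2)
    (hi2 : y = vb + be) (h110 : 0 ≤ m11) (h112 : m11 ≤ 2) (h122 : m12 ≤ 2)
    (hl : L2c th y MB u1 ua al vb be) (hs0 : 0 ≤ sg) (hY0 : 0 ≤ Y) (hg1 : 1 ≤ g) (hn1 : 1 ≤ nb)
    (hug : ua ≤ g) (hy : LY sy ay cy) (hyp1 : sy < ua) (hsL : sy ≤ L) (hD : nb + D + cy ≤ z)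
    (hDL : nb + Y + sg + D + L + cy ≤ th + y + z) (hX0 : 0 ≤ X) (hXb : sy ≤ Y + X)
    (hX : Y = X + sy) (t11 : FT th (D + ay) (L - sy) m11 (vb - ua) (y - vb - be) al)
    (t12 : FT th (D + ay) (L - sy) m12 (v2 - u1) (v2 + be - y) (u1 - ua - al))
    (tA : FT th (-g) X 0 (th + ua) al be)
    (tE : FT th (-g) X (MA - m11) (th + ua + vb - y) al (y - vb - be))
    (tO : FT th (-g) X 2 (th + ux + ua - u1) (u1 - ux - al) be) : False := by
  rcases t11 with a1 | a1 | a1 | a1 | a1 | a1 | a1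
  · rcases tA with a2 | a2 | a2 | a2 | a2 | a2 | a2
    · linarith only [hb.l2, hb.zz, h112, hs0, hn1, hug, hy.a1, hy.c0, hy.say, hyp1, hDL, hX, a1, a2]
    · linarith only [hug, a2]
    · linarith only [hb.M0, hb.ZM, hb.uy, hb.u12, hb.ux2, hb.uax, hl.xua, hug, a2]
    · linarith only [hb.ZM, hb.v2y, hb.be1, hl.xA, hg1, a2]
    · linarith only [hb.ZM, hb.al0, hl.xA, hg1, a2]
    · rcases t12 with a3 | a3 | a3 | a3 | a3 | a3 | a3
      · rcases tE with a4 | a4 | a4 | a4 | a4 | a4 | a4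
        · linarith only [hb.l2, hj.zA, hs0, hg1, hn1, hy.a1, hy.c0, hy.say, hDL, hX, a1, a4]
        · rcases tO with a5 | a5 | a5 | a5 | a5 | a5 | a5
          · linarith only [hb.l2, hb.zz, h122, hs0, hn1, hug, hy.a1, hy.c0, hy.say, hyp1, hDL, hX, a3, a5]
          · linarith only [hb.l2, hb.eU, hj.zA, hi2, hs0, hn1, hug, hy.a1, hy.c0, hy.say, hyp1, hDL, hX, a1, a2, a4, a5]
          · linarith only [hb.M0, hb.ZM, hb.uy, hb.u12, hb.ux2, hb.uax, hl.xua, hug, a5]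
          · linarith only [hb.M0, hb.ZM, hb.uy, hb.al0, hb.uax, hl.xua, hug, a5]
          · linarith only [hb.ZM, hb.al0, hl.xA, hg1, a5]
          · linarith only [hb.l2, hj.zA, hi2, hs0, hn1, hug, hy.a1, hy.c0, hy.say, hyp1, hDL, hX, a1, a2, a4, a5]
          · linarith only [hb.l2, hb.z0, hb.zz, hb.uax, hj.zA, hi2, hl.xpq, hs0, hn1, hug, hy.a1, hy.c0, hy.say, hyp1, hDL, hX, a1, a2, a4, a5]
        · linarith only [hb.l2, hb.z0, hb.zz, hj.zA, hb.v2y, hi1, h110, hl.xua, hl.xvb, hg1, a4]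
        · linarith only [hb.ZM, hj.A2, hb.v2y, hi1, hi2, h110, hl.xA, hg1, a4]
        · linarith only [hb.l2, hb.z0, hj.zA, hb.v2y, hi1, hi2, h110, hl.xvb, hg1, a4]
        · rcases tO with a5 | a5 | a5 | a5 | a5 | a5 | a5
          · linarith only [hb.l2, hb.zz, h122, hs0, hn1, hug, hy.a1, hy.c0, hy.say, hyp1, hDL, hX, a3, a5]
          · linarith only [hb.l2, hb.eU, hj.zA, hs0, hn1, hug, hy.a1, hy.c0, hy.say, hyp1, hDL, hX, a1, a2, a4, a5]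
          · linarith only [hb.M0, hb.ZM, hb.uy, hb.u12, hb.ux2, hb.uax, hl.xua, hug, a5]
          · linarith only [hb.M0, hb.ZM, hb.uy, hb.al0, hb.uax, hl.xua, hug, a5]
          · linarith only [hb.ZM, hb.al0, hl.xA, hg1, a5]
          · linarith only [hb.l2, hj.zA, hs0, hg1, hn1, hug, hy.a1, hy.c0, hy.say, hDL, hX, a1, a4, a5]
          · linarith only [hb.l2, hb.z0, hb.zz, hb.uax, hj.zA, hl.xpq, hs0, hn1, hug, hy.a1, hy.c0, hy.say, hyp1, hDL, hX, a1, a4, a5]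
        · linarith only [hb.l2, hb.z0, hb.zz, hj.zMA, hi2, hl.xA, hs0, hn1, hug, hy.a1, hy.c0, hy.say, hyp1, hDL, hX0, hX, a1, a4]
      · linarith only [hb.l2, hb.zz, hb.uax, hb.eU, hi1, hi2, h112, h122, hs0, hn1, hug, hy.a1, hy.c0, hy.say, hyp1, hD, hDL, hX, a1, a2, a3]
      · linarith only [hb.l2, hb.z0, hb.zM, hb.u12, hb.al1, hi1, hi2, h122, hl.xpq, hl.xA, hn1, hy.ac, hD, a3]
      · linarith only [hb.l2, hb.zM, hb.M0, hi1, hi2, h122, hl.xA, hs0, hn1, hug, hy.a1, hy.c0, hy.say, hyp1, hsL, hD, hDL, hXb, hX, a2, a3]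
      · linarith only [hb.l2, hb.zz, hb.u12, hb.al1, h122, hl.xpq, hn1, hy.c0, hy.say, hyp1, hD, a3]
      · linarith only [hb.l2, hb.zz, hi1, hi2, h122, hs0, hg1, hn1, hy.c0, hy.say, hD, hDL, hX, a2, a3]
      · rcases tE with a4 | a4 | a4 | a4 | a4 | a4 | a4
        · linarith only [hb.l2, hj.zA, hs0, hg1, hn1, hy.a1, hy.c0, hy.say, hDL, hX, a1, a4]
        · linarith only [hb.l2, hj.zA, hi2, h110, h122, hl.xpq, hs0, hn1, hug, hy.a1, hy.c0, hy.say, hyp1, hD, hDL, hX, a2, a3, a4]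
        · linarith only [hb.l2, hb.z0, hb.zz, hj.zA, hb.v2y, hi1, h110, hl.xua, hl.xvb, hg1, a4]
        · linarith only [hb.ZM, hj.A2, hb.v2y, hi1, hi2, h110, hl.xA, hg1, a4]
        · linarith only [hb.l2, hb.z0, hj.zA, hb.v2y, hi1, hi2, h110, hl.xvb, hg1, a4]
        · linarith only [hb.l2, hj.zA, h110, h122, hl.xpq, hs0, hn1, hug, hy.a1, hy.c0, hy.say, hyp1, hD, hDL, hX, a3, a4]
        · linarith only [hb.l2, hb.z0, hb.zz, hj.zA, h110, h122, hl.xvb, hl.xpq, hs0, hn1, hug, hy.a1, hy.c0, hy.say, hyp1, hD, hDL, hX, a3, a4]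
    · linarith only [hb.l2, hb.z0, hb.zM, hb.M0, h112, hl.xA, hs0, hn1, hug, hy.a1, hy.c0, hy.say, hyp1, hDL, hX0, hX, a1, a2]
  · linarith only [hb.l2, hb.zz, hb.v2y, hb.vb2, h112, hn1, hy.c0, hy.say, hyp1, hD, a1]
  · linarith only [hb.l2, hb.zM, hb.ZM, hb.uy, hb.al0, hb.u12, hb.ux2, hb.uax, hi2, h112, hl.xA, hn1, hy.ac, hD, a1]
  · linarith only [hb.l2, hb.zz, hb.uy, hb.u12, hb.ux2, hb.uax, hi2, h112, hn1, hy.c0, hy.say, hyp1, hD, a1]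
  · linarith only [hb.l2, hb.z0, hb.zM, hb.v2y, hb.be1, h112, hl.xA, hn1, hy.ac, hD, a1]
  · rcases tA with a2 | a2 | a2 | a2 | a2 | a2 | a2
    · rcases t12 with a3 | a3 | a3 | a3 | a3 | a3 | a3
      · linarith only [hb.l2, hb.zz, h122, hs0, hn1, hug, hy.a1, hy.c0, hy.say, hyp1, hDL, hX, a2, a3]
      · linarith only [hb.l2, hb.zz, hb.u12, hb.ux2, hb.uax, hb.v2y, h122, hl.xua, hn1, hy.ac, hD, a3]
      · linarith only [hb.l2, hb.zM, hb.M0, hi1, hi2, h112, h122, hl.xpq, hl.xA, hs0, hY0, hn1, hy.ac, hy.c0, hy.say, hyp1, hD, hDL, a1, a3]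
      · linarith only [hb.l2, hb.zz, hi1, hi2, h122, hs0, hn1, hug, hy.a1, hy.c0, hy.say, hyp1, hsL, hDL, hX, a2, a3]
      · linarith only [hb.l2, hb.zz, hb.u12, hb.al1, h122, hl.xpq, hn1, hy.c0, hy.say, hyp1, hD, a3]
      · linarith only [hb.l2, hb.zz, hb.v2y, h112, h122, hs0, hn1, hug, hy.a1, hy.c0, hy.say, hyp1, hD, hDL, hX, a1, a2, a3]
      · linarith only [hb.l2, hb.zz, h112, h122, hl.xua, hl.xpq, hs0, hg1, hn1, hy.c0, hy.say, hD, hDL, hX, a1, a2, a3]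
    · linarith only [hug, a2]
    · linarith only [hb.M0, hb.ZM, hb.uy, hb.u12, hb.ux2, hb.uax, hl.xua, hug, a2]
    · linarith only [hb.ZM, hb.v2y, hb.be1, hl.xA, hg1, a2]
    · linarith only [hb.ZM, hb.al0, hl.xA, hg1, a2]
    · rcases tO with a3 | a3 | a3 | a3 | a3 | a3 | a3
      · rcases t12 with a4 | a4 | a4 | a4 | a4 | a4 | a4
        · linarith only [hb.l2, hb.zz, h122, hs0, hn1, hug, hy.a1, hy.c0, hy.say, hyp1, hDL, hX, a3, a4]
        · linarith only [hb.l2, hb.zz, hb.u12, hb.ux2, hb.uax, hb.v2y, h122, hl.xua, hn1, hy.ac, hD, a4]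
        · linarith only [hb.l2, hb.zM, hb.M0, hi1, hi2, h112, h122, hl.xpq, hl.xA, hs0, hY0, hn1, hy.ac, hy.c0, hy.say, hyp1, hD, hDL, a1, a4]
        · linarith only [hb.l2, hb.zz, hi1, hi2, h122, hs0, hn1, hug, hy.a1, hy.c0, hy.say, hyp1, hsL, hDL, hX, a3, a4]
        · linarith only [hb.l2, hb.zz, hb.u12, hb.al1, h122, hl.xpq, hn1, hy.c0, hy.say, hyp1, hD, a4]
        · linarith only [hb.l2, hb.zz, hi1, hi2, h122, hs0, hg1, hn1, hy.c0, hy.say, hD, hDL, hX, a2, a4]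
        · linarith only [hb.l2, hb.zz, h112, h122, hl.xua, hl.xpq, hs0, hg1, hn1, hy.c0, hy.say, hD, hDL, hX, a1, a3, a4]
      · linarith only [hb.l2, hb.zz, hb.eU, h112, hs0, hn1, hug, hy.a1, hy.c0, hy.say, hyp1, hD, hDL, hX, a1, a2, a3]
      · linarith only [hb.M0, hb.ZM, hb.uy, hb.u12, hb.ux2, hb.uax, hug, hy.a1, hy.say, hyp1, a3]
      · linarith only [hb.M0, hb.ZM, hb.uy, hb.al0, hb.uax, hug, hy.a1, hy.say, hyp1, a3]
      · linarith only [hb.ZM, hb.al0, hl.xA, hg1, a3]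
      · linarith only [hb.l2, hb.zz, h112, hs0, hg1, hn1, hy.c0, hy.say, hD, hDL, hX, a1, a3]
      · linarith only [hb.l2, hb.z0, hb.zz, hb.uax, h112, hl.xpq, hs0, hn1, hug, hy.a1, hy.c0, hy.say, hyp1, hD, hDL, hX, a1, a3]
    · linarith only [hb.l2, hb.z0, hb.zM, hb.M0, hb.v2y, hb.be1, h112, hl.xA, hs0, hn1, hug, hy.a1, hy.c0, hy.say, hyp1, hD, hDL, hX, a1, a2]
  · rcases tA with a2 | a2 | a2 | a2 | a2 | a2 | a2
    · linarith only [hb.l2, hb.z0, hb.zM, hb.M0, hi2, h112, hl.xA, hs0, hn1, hug, hy.a1, hy.c0, hy.say, hyp1, hsL, hDL, hX, a1, a2]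
    · linarith only [hug, a2]
    · linarith only [hb.M0, hb.ZM, hb.uy, hb.u12, hb.ux2, hb.uax, hl.xua, hug, a2]
    · linarith only [hb.ZM, hb.v2y, hb.be1, hl.xA, hg1, a2]
    · linarith only [hb.ZM, hb.al0, hl.xA, hg1, a2]
    · linarith only [hb.l2, hb.z0, hb.zM, hi2, h112, hl.xA, hs0, hn1, hug, hy.c0, hy.say, hD, hDL, hX, a1, a2]
    · linarith only [hb.l2, hb.z0, hb.zM, hb.M0, hi2, h112, hl.xA, hs0, hY0, hn1, hug, hy.c0, hy.say, hyp1, hsL, hD, hDL, hX, a1, a2]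

theorem r12c_j1i0_L_S {th lam y z g Y X MB u1 u2 ux ua al v2 vb be sy : ℝ}
    (hb : MB0 th lam y z MB u1 u2 ux ua al v2 vb be) (hl : L2c th y MB u1 ua al vb be)
    (hY0 : 0 ≤ Y) (hg1 : 1 ≤ g) (hug : ua ≤ g) (hyp1 : sy < ua) (hXa : Y ≤ X + sy)
    (hX : sy = Y + X) (tA : FT th (-g) X 0 (th + ua) al be) : False := by
  rcases tA with a1 | a1 | a1 | a1 | a1 | a1 | a1
  · linarith only [hb.M0, hb.ZM, hb.uy, hb.u12, hb.ux2, hb.uax, hY0, hg1, hyp1, hX, a1]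
  · linarith only [hug, a1]
  · linarith only [hb.M0, hb.ZM, hb.uy, hb.u12, hb.ux2, hb.uax, hl.xua, hug, a1]
  · linarith only [hb.ZM, hb.v2y, hb.be1, hl.xA, hg1, a1]
  · linarith only [hb.ZM, hb.al0, hl.xA, hg1, a1]
  · linarith only [hb.ZM, hl.xA, hY0, hug, hyp1, hX, a1]
  · linarith only [hb.M0, hb.ZM, hb.u12, hb.ux2, hb.uax, hl.xpq, hl.xA, hY0, hg1, hyp1, hXa, hX, a1]

theorem r12c_j1i0_L_wQ {th lam y z g Y X MB u1 u2 ux ua al v2 vb be sy : ℝ}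
    (hb : MB0 th lam y z MB u1 u2 ux ua al v2 vb be) (hl : L2c th y MB u1 ua al vb be)
    (hg1 : 1 ≤ g) (hug : ua ≤ g) (hXa : Y ≤ X + sy) (hXb : sy ≤ Y + X) (hXc0 : X < ua + 2)
    (hXc1 : X + 2 ≤ th) (tA : FT th (-g) X 0 (th + ua) al be) : False := by
  rcases tA with a1 | a1 | a1 | a1 | a1 | a1 | a1
  · linarith only [hg1, hXc1, a1]
  · linarith only [hug, a1]
  · linarith only [hug, hXa, hXb, hXc0, hXc1, a1]
  · linarith only [hb.ZM, hb.v2y, hb.be1, hl.xA, hg1, a1]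
  · linarith only [hb.ZM, hb.al0, hl.xA, hg1, a1]
  · linarith only [hb.ZM, hl.xA, hug, hXc0, a1]
  · linarith only [hb.M0, hb.ZM, hb.u12, hb.ux2, hb.uax, hl.xua, hl.xpq, hl.xA, hug, hXc1, a1]

theorem r12c_j1i0_L_wP {th lam y z g X MB u1 u2 ux ua al v2 vb be : ℝ}
    (hb : MB0 th lam y z MB u1 u2 ux ua al v2 vb be) (hl : L2c th y MB u1 ua al vb be)
    (hg1 : 1 ≤ g) (hug : ua ≤ g) (hXc0 : X < ua) (tA : FT th (-g) X 0 (th + ua) al be) : False := by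
  rcases tA with a1 | a1 | a1 | a1 | a1 | a1 | a1
  · linarith only [hb.M0, hb.ZM, hb.uy, hb.u12, hb.ux2, hb.uax, hg1, hXc0, a1]
  · linarith only [hug, a1]
  · linarith only [hb.M0, hb.ZM, hb.uy, hb.u12, hb.ux2, hb.uax, hl.xua, hug, a1]
  · linarith only [hb.ZM, hb.v2y, hb.be1, hl.xA, hg1, a1]
  · linarith only [hb.ZM, hb.al0, hl.xA, hg1, a1]
  · linarith only [hb.ZM, hl.xA, hug, hXc0, a1]
  · linarith only [hb.M0, hb.ZM, hb.u12, hb.ux2, hb.uax, hl.xua, hl.xpq, hl.xA, hug, hXc0, a1]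

theorem r12c_j1i0_L_2 {th lam y z g Y X MB u1 u2 ux ua al v2 vb be sy ay cy : ℝ}
    (hb : MB0 th lam y z MB u1 u2 ux ua al v2 vb be) (hl : L2c th y MB u1 ua al vb be)
    (hY0 : 0 ≤ Y) (hg1 : 1 ≤ g) (hug : ua ≤ g) (hy : LY sy ay cy) (hyp1 : sy < ua)
    (hXa : Y ≤ X + sy) (hX : X ≤ 2) (tA : FT th (-g) X 0 (th + ua) al be) : False := by
  rcases tA with a1 | a1 | a1 | a1 | a1 | a1 | a1
  · linarith only [hb.M0, hb.ZM, hb.uy, hb.u12, hb.ux2, hb.uax, hug, hy.a1, hy.say, hyp1, hX, a1]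
  · linarith only [hug, a1]
  · linarith only [hb.M0, hb.ZM, hb.uy, hb.u12, hb.ux2, hb.uax, hl.xua, hug, a1]
  · linarith only [hb.ZM, hb.v2y, hb.be1, hl.xA, hg1, a1]
  · linarith only [hb.ZM, hb.al0, hl.xA, hg1, a1]
  · linarith only [hb.ZM, hl.xA, hg1, hug, hX, a1]
  · linarith only [hb.M0, hb.ZM, hb.u12, hb.ux2, hb.uax, hl.xpq, hl.xA, hY0, hg1, hyp1, hXa, hX, a1]

theorem r12c_j1i1_N_Y {th lam y z g nb Y sg D L X MB MA m11 m12 u1 u2 ux ua al v2 vb be : ℝ}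
    (hb : MB0 th lam y z MB u1 u2 ux ua al v2 vb be) (hj : MJ th lam y z MB MA) (h110 : 0 ≤ m11)
    (h112 : m11 ≤ 2) (h122 : m12 ≤ 2) (hl : L2c th y MB u1 ua al vb be) (hs0 : 0 ≤ sg)
    (hY0 : 0 ≤ Y) (hg1 : 1 ≤ g) (hn1 : 1 ≤ nb) (hug : ua ≤ g) (hl3 : 3 ≤ lam) (hD : nb + D ≤ z)
    (hDL : nb + Y + sg + D + L ≤ th + y + z) (hX0 : 0 ≤ X) (hX : Y = X)
    (t11 : FT th D L m11 (vb - ua) (y - vb - be) al)
    (t12 : FT th D L m12 (v2 - u1) (v2 + be - y) (u1 - ua - al))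
    (tA : FT th (-g) X 0 (th + ua) al be)
    (tE : FT th (-g) X (MA - m11) (th + ua + vb - y) al (y - vb - be))
    (tO : FT th (-g) X 2 (th + ux + ua - u1) (u1 - ux - al) be) : False := by
  rcases t11 with a1 | a1 | a1 | a1 | a1 | a1 | a1
  · rcases tA with a2 | a2 | a2 | a2 | a2 | a2 | a2
    · linarith only [hj.A0, hj.zA, h112, hs0, hg1, hn1, hl3, hDL, hX, a1, a2]
    · linarith only [hug, a2]
    · linarith only [hj.A0, hj.zA, h112, hl.xua, hs0, hn1, hug, hl3, hDL, hX0, hX, a1, a2]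
    · linarith only [hb.ZM, hb.v2y, hb.be1, hl.xA, hg1, a2]
    · linarith only [hb.ZM, hb.al0, hl.xA, hg1, a2]
    · rcases t12 with a3 | a3 | a3 | a3 | a3 | a3 | a3
      · rcases tE with a4 | a4 | a4 | a4 | a4 | a4 | a4
        · linarith only [hj.zA, hs0, hg1, hn1, hl3, hDL, hX, a1, a4]
        · rcases tO with a5 | a5 | a5 | a5 | a5 | a5 | a5
          · linarith only [hj.A0, hj.zA, h122, hs0, hg1, hn1, hl3, hDL, hX, a3, a5]
          · linarith only [hb.eU, hj.zA, hb.eZ, hs0, hg1, hn1, hug, hl3, hDL, hX, a1, a2, a4, a5]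
          · linarith only [hb.M0, hb.ZM, hb.uy, hb.u12, hb.ux2, hb.uax, hl.xua, hug, a5]
          · linarith only [hb.M0, hb.ZM, hb.uy, hb.al0, hb.uax, hl.xua, hug, a5]
          · linarith only [hj.zA, hb.eZ, hs0, hY0, hg1, hn1, hug, hl3, hDL, a1, a4, a5]
          · linarith only [hj.zA, hb.eZ, hs0, hg1, hn1, hug, hl3, hDL, hX, a1, a2, a4, a5]
          · linarith only [hb.M0, hb.ZM, hb.uy, hb.uax, hj.zMA, hb.eZ, hs0, hg1, hn1, hl3, hDL, hX, a1, a2, a4, a5]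
        · linarith only [hb.l2, hb.z0, hb.zz, hj.zA, hb.v2y, hb.vb2, h110, hl.xua, hl.xvb, hg1, a4]
        · linarith only [hb.ZM, hj.A2, hb.v2y, hb.be1, h110, hl.xA, hg1, a4]
        · linarith only [hb.l2, hb.z0, hj.zA, hb.v2y, hb.be1, h110, hl.xvb, hg1, a4]
        · rcases tO with a5 | a5 | a5 | a5 | a5 | a5 | a5
          · linarith only [hj.A0, hj.zA, h122, hs0, hg1, hn1, hl3, hDL, hX, a3, a5]
          · linarith only [hb.eU, hj.zA, hs0, hg1, hn1, hug, hl3, hDL, hX, a1, a2, a4, a5]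
          · linarith only [hb.M0, hb.ZM, hb.uy, hb.u12, hb.ux2, hb.uax, hl.xua, hug, a5]
          · linarith only [hb.M0, hb.ZM, hb.uy, hb.al0, hb.uax, hl.xua, hug, a5]
          · linarith only [hb.ZM, hb.al0, hl.xA, hg1, a5]
          · linarith only [hj.zA, hs0, hg1, hn1, hug, hl3, hDL, hX, a1, a4, a5]
          · linarith only [hb.M0, hb.ZM, hb.uy, hb.uax, hj.zMA, hl.xua, hs0, hn1, hug, hl3, hDL, hX, a1, a4, a5]
        · rcases tO with a5 | a5 | a5 | a5 | a5 | a5 | a5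
          · linarith only [hj.A0, hj.zA, h122, hs0, hg1, hn1, hl3, hDL, hX, a3, a5]
          · linarith only [hb.z0, hb.eU, hj.A0, hj.zA, hl.xvb, hs0, hg1, hn1, hug, hl3, hDL, hX, a1, a2, a4, a5]
          · linarith only [hb.M0, hb.ZM, hb.uy, hb.u12, hb.ux2, hb.uax, hl.xua, hug, a5]
          · linarith only [hb.M0, hb.ZM, hb.uy, hb.al0, hb.uax, hl.xua, hug, a5]
          · linarith only [hb.ZM, hb.al0, hl.xA, hg1, a5]
          · linarith only [hb.z0, hb.zz, hj.zA, hl.xvb, hs0, hg1, hn1, hl3, hDL, hX, a1, a4, a5]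
          · linarith only [hb.M0, hb.ZM, hb.uax, hj.zMA, hl.xua, hl.xvb, hl.xpq, hs0, hn1, hug, hl3, hDL, hX, a1, a4, a5]
      · linarith only [hb.u12, hb.uax, hb.al1, hb.eU, hj.A0, hj.zA, hb.v2y, h122, hl.xua, hn1, hl3, hD, a3]
      · linarith only [hj.A0, hj.zA, hb.vb2, h122, hl.xvb, hl.xpq, hn1, hl3, hD, a3]
      · linarith only [hb.ZM, hb.u12, hb.al1, hj.A0, hj.zMA, hb.v2y, h122, hl.xA, hn1, hl3, hD, a3]
      · linarith only [hb.zz, hb.al0, h122, hl.xua, hl.xpq, hn1, hl3, hD, a3]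
      · rcases tE with a4 | a4 | a4 | a4 | a4 | a4 | a4
        · linarith only [hj.zA, hs0, hg1, hn1, hl3, hDL, hX, a1, a4]
        · linarith only [hj.zA, hb.v2y, hb.eZ, h110, h122, hs0, hg1, hn1, hug, hl3, hD, hDL, hX, a2, a3, a4]
        · linarith only [hb.l2, hb.z0, hb.zz, hj.zA, hb.v2y, hb.vb2, h110, hl.xua, hl.xvb, hg1, a4]
        · linarith only [hb.ZM, hj.A2, hb.v2y, hb.be1, h110, hl.xA, hg1, a4]
        · linarith only [hb.l2, hb.z0, hj.zA, hb.v2y, hb.be1, h110, hl.xvb, hg1, a4]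
        · linarith only [hj.zA, hb.v2y, h110, h122, hs0, hg1, hn1, hl3, hD, hDL, hX, a3, a4]
        · linarith only [hb.l2, hb.z0, hb.zz, hj.zA, hb.v2y, h110, h122, hl.xua, hl.xvb, hs0, hg1, hn1, hD, hDL, hX, a3, a4]
      · rcases tE with a4 | a4 | a4 | a4 | a4 | a4 | a4
        · linarith only [hj.zA, hs0, hg1, hn1, hl3, hDL, hX, a1, a4]
        · linarith only [hj.zA, hb.eZ, h110, h122, hl.xpq, hs0, hg1, hn1, hug, hl3, hD, hDL, hX, a2, a3, a4]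
        · linarith only [hb.l2, hb.z0, hb.zz, hj.zA, hb.v2y, hb.vb2, h110, hl.xua, hl.xvb, hg1, a4]
        · linarith only [hb.ZM, hj.A2, hb.v2y, hb.be1, h110, hl.xA, hg1, a4]
        · linarith only [hb.l2, hb.z0, hj.zA, hb.v2y, hb.be1, h110, hl.xvb, hg1, a4]
        · linarith only [hj.zA, h110, h122, hl.xpq, hs0, hg1, hn1, hl3, hD, hDL, hX, a3, a4]
        · linarith only [hb.l2, hb.z0, hb.zz, hj.zA, h110, h122, hl.xua, hl.xvb, hl.xpq, hs0, hg1, hn1, hD, hDL, hX, a3, a4]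
    · linarith only [hb.l2, hb.z0, hb.zz, hb.zM, h112, hl.xua, hl.xA, hs0, hg1, hn1, hDL, hX0, hX, a1, a2]
  · linarith only [hj.A0, hj.zA, hb.v2y, hb.vb2, h112, hl.xua, hn1, hl3, hD, a1]
  · linarith only [hb.u12, hb.uax, hb.al1, hb.eU, hj.A0, hj.zA, h112, hl.xvb, hl.xpq, hn1, hl3, hD, a1]
  · linarith only [hb.zz, hb.v2y, hb.be1, h112, hl.xvb, hn1, hl3, hD, a1]
  · linarith only [hb.uax, hb.eU, hj.A0, hj.zA, h112, hl.xua, hl.xpq, hn1, hl3, hD, a1]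
  · rcases tA with a2 | a2 | a2 | a2 | a2 | a2 | a2
    · rcases t12 with a3 | a3 | a3 | a3 | a3 | a3 | a3
      · linarith only [hj.A0, hj.zA, h122, hl.xua, hs0, hn1, hug, hl3, hDL, hX, a2, a3]
      · linarith only [hb.uax, hb.eU, hj.A0, hj.zA, hb.v2y, hb.be1, h112, h122, hl.xua, hs0, hn1, hug, hl3, hD, hDL, hX, a1, a2, a3]
      · linarith only [hj.A0, hj.zA, hb.vb2, h122, hl.xvb, hl.xpq, hn1, hl3, hD, a3]
      · linarith only [hj.A0, hj.zA, hj.zMA, hb.v2y, h112, h122, hl.xua, hl.xA, hs0, hn1, hl3, hD, hDL, hX0, hX, a1, a3]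
      · linarith only [hj.A0, hj.zA, hb.v2y, hb.be1, h112, h122, hl.xua, hl.xpq, hs0, hn1, hug, hl3, hD, hDL, hX, a1, a2, a3]
      · linarith only [hj.A0, hj.zA, hb.v2y, h112, h122, hl.xua, hs0, hn1, hug, hl3, hD, hDL, hX, a1, a2, a3]
      · linarith only [hj.A0, hj.zA, h112, h122, hl.xua, hl.xpq, hs0, hn1, hug, hl3, hD, hDL, hX, a1, a2, a3]
    · linarith only [hug, a2]
    · linarith only [hb.ZM, hb.al0, hb.v2y, hb.be1, hl.xua, hl.xA, hg1, a2]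
    · linarith only [hb.ZM, hb.v2y, hb.be1, hl.xA, hg1, a2]
    · linarith only [hb.ZM, hb.al0, hl.xA, hg1, a2]
    · rcases tO with a3 | a3 | a3 | a3 | a3 | a3 | a3
      · rcases t12 with a4 | a4 | a4 | a4 | a4 | a4 | a4
        · linarith only [hj.A0, hj.zA, h122, hs0, hg1, hn1, hl3, hDL, hX, a3, a4]
        · linarith only [hb.uax, hb.eU, hj.A0, hj.zA, hb.v2y, h112, h122, hl.xua, hs0, hn1, hug, hl3, hD, hDL, hX, a1, a2, a4]
        · linarith only [hj.A0, hj.zA, hb.vb2, h122, hl.xvb, hl.xpq, hn1, hl3, hD, a4]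
        · linarith only [hj.A0, hj.zA, hj.zMA, hb.v2y, h112, h122, hl.xua, hl.xA, hs0, hn1, hl3, hD, hDL, hX0, hX, a1, a4]
        · linarith only [hj.A0, hj.zA, h112, h122, hl.xua, hl.xpq, hs0, hn1, hug, hl3, hD, hDL, hX, a1, a2, a4]
        · linarith only [hj.A0, hj.zA, hb.v2y, h112, h122, hl.xua, hs0, hn1, hug, hl3, hD, hDL, hX, a1, a3, a4]
        · linarith only [hj.A0, hj.zA, h112, h122, hl.xua, hl.xpq, hs0, hn1, hug, hl3, hD, hDL, hX, a1, a3, a4]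
      · linarith only [hb.eU, hj.A0, hj.zA, h112, hs0, hg1, hn1, hug, hl3, hD, hDL, hX, a1, a2, a3]
      · linarith only [hb.l2, hb.z0, hb.uax, hj.A0, hj.zA, hb.v2y, hb.vb2, hl.xua, hl.xvb, hl.xpq, hg1, a3]
      · linarith only [hb.M0, hb.ZM, hb.uy, hb.al0, hb.uax, hl.xua, hg1, a3]
      · linarith only [hb.ZM, hb.al0, hl.xA, hg1, a3]
      · linarith only [hj.A0, hj.zA, h112, hs0, hg1, hn1, hl3, hD, hDL, hX, a1, a3]
      · linarith only [hb.l2, hb.z0, hb.zz, hb.uax, h112, hl.xua, hl.xpq, hs0, hg1, hn1, hD, hDL, hX, a1, a3]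
    · linarith only [hb.ZM, hj.A0, hj.zA, hb.v2y, hb.be1, h112, hl.xua, hl.xA, hs0, hn1, hug, hl3, hD, hDL, hX, a1, a2]
  · rcases tA with a2 | a2 | a2 | a2 | a2 | a2 | a2
    · rcases t12 with a3 | a3 | a3 | a3 | a3 | a3 | a3
      · linarith only [hj.A0, hj.zA, h122, hl.xua, hs0, hn1, hug, hl3, hDL, hX, a2, a3]
      · linarith only [hb.uax, hb.eU, hj.A0, hj.zA, hb.v2y, hb.be1, h112, h122, hl.xvb, hs0, hg1, hn1, hl3, hD, hDL, hX, a1, a2, a3]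
      · linarith only [hj.A0, hj.zA, hb.vb2, h122, hl.xvb, hl.xpq, hn1, hl3, hD, a3]
      · linarith only [hb.uax, hb.eU, hj.A0, hj.zA, hb.v2y, h112, h122, hl.xua, hl.xvb, hl.xpq, hs0, hn1, hug, hl3, hD, hDL, hX, a1, a2, a3]
      · linarith only [hj.A0, hj.zA, hb.v2y, hb.be1, h112, h122, hl.xua, hl.xvb, hl.xpq, hs0, hn1, hug, hl3, hD, hDL, hX, a1, a2, a3]
      · linarith only [hj.A0, hj.zA, hb.v2y, h112, h122, hl.xua, hl.xvb, hs0, hn1, hug, hl3, hD, hDL, hX, a1, a2, a3]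
      · linarith only [hj.A0, hj.zA, h112, h122, hl.xua, hl.xvb, hl.xpq, hs0, hn1, hug, hl3, hD, hDL, hX, a1, a2, a3]
    · linarith only [hug, a2]
    · linarith only [hb.ZM, hb.al0, hb.v2y, hb.be1, hl.xua, hl.xA, hg1, a2]
    · linarith only [hb.ZM, hb.v2y, hb.be1, hl.xA, hg1, a2]
    · linarith only [hb.ZM, hb.al0, hl.xA, hg1, a2]
    · rcases t12 with a3 | a3 | a3 | a3 | a3 | a3 | a3
      · rcases tE with a4 | a4 | a4 | a4 | a4 | a4 | a4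
        · linarith only [hj.zA, h110, h122, hs0, hg1, hn1, hl3, hDL, hX, a3, a4]
        · linarith only [hb.uax, hb.eU, hj.zA, hl.xpq, hs0, hg1, hn1, hug, hl3, hD, hDL, hX, a1, a2, a4]
        · linarith only [hb.l2, hb.z0, hb.zz, hj.zA, hb.v2y, hb.vb2, h110, hl.xua, hl.xvb, hg1, a4]
        · linarith only [hb.ZM, hj.A2, hb.v2y, hb.be1, h110, hl.xA, hg1, a4]
        · linarith only [hb.l2, hb.z0, hj.zA, hb.v2y, hb.be1, h110, hl.xvb, hg1, a4]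
        · rcases tO with a5 | a5 | a5 | a5 | a5 | a5 | a5
          · linarith only [hj.A0, hj.zA, h122, hs0, hg1, hn1, hl3, hDL, hX, a3, a5]
          · linarith only [hb.eU, hj.zA, h110, h122, hs0, hg1, hn1, hug, hl3, hDL, hX, a2, a3, a4, a5]
          · linarith only [hb.M0, hb.ZM, hb.uy, hb.u12, hb.ux2, hb.uax, hl.xua, hug, a5]
          · linarith only [hb.M0, hb.ZM, hb.uy, hb.al0, hb.uax, hl.xua, hug, a5]
          · linarith only [hb.ZM, hb.al0, hl.xA, hg1, a5]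
          · linarith only [hj.zA, h110, h122, hs0, hg1, hn1, hug, hl3, hDL, hX, a3, a4, a5]
          · linarith only [hb.zM, hb.M0, hb.ZM, hb.uax, h112, hl.xua, hl.xvb, hl.xpq, hs0, hn1, hug, hl3, hD, hDL, hX, a1, a5]
        · rcases tO with a5 | a5 | a5 | a5 | a5 | a5 | a5
          · linarith only [hj.A0, hj.zA, h122, hs0, hg1, hn1, hl3, hDL, hX, a3, a5]
          · linarith only [hb.z0, hb.eU, hj.A0, hj.zA, h122, hl.xvb, hs0, hg1, hn1, hug, hl3, hD, hDL, hX, a1, a2, a3, a4, a5]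
          · linarith only [hb.M0, hb.ZM, hb.uy, hb.u12, hb.ux2, hb.uax, hl.xua, hug, a5]
          · linarith only [hb.M0, hb.ZM, hb.uy, hb.al0, hb.uax, hl.xua, hug, a5]
          · linarith only [hb.ZM, hb.al0, hl.xA, hg1, a5]
          · linarith only [hb.z0, hb.zz, hj.zA, h122, hl.xvb, hs0, hg1, hn1, hug, hl3, hD, hDL, hX, a1, a3, a4, a5]
          · linarith only [hb.zM, hb.M0, hb.ZM, hb.uax, h112, hl.xua, hl.xvb, hl.xpq, hs0, hn1, hug, hl3, hD, hDL, hX, a1, a5]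
      · linarith only [hb.uax, hb.eU, hj.A0, hj.zA, hb.v2y, h112, h122, hl.xua, hl.xvb, hs0, hn1, hug, hl3, hD, hDL, hX, a1, a2, a3]
      · linarith only [hj.A0, hj.zA, hb.vb2, h122, hl.xvb, hl.xpq, hn1, hl3, hD, a3]
      · linarith only [hb.ZM, hb.u12, hb.al1, hj.A0, hj.zMA, hb.v2y, h122, hl.xA, hn1, hl3, hD, a3]
      · linarith only [hj.A0, hj.zA, h112, h122, hl.xua, hl.xvb, hl.xpq, hs0, hn1, hug, hl3, hD, hDL, hX, a1, a2, a3]
      · rcases tE with a4 | a4 | a4 | a4 | a4 | a4 | a4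
        · linarith only [hj.A0, hj.zA, hb.v2y, h122, hl.xua, hl.xvb, hs0, hn1, hug, hl3, hD, hDL, hX, a1, a3, a4]
        · linarith only [hj.zA, hb.v2y, hb.eZ, h110, h122, hs0, hg1, hn1, hug, hl3, hD, hDL, hX, a2, a3, a4]
        · linarith only [hb.l2, hb.z0, hb.zz, hj.zA, hb.v2y, hb.vb2, h110, hl.xua, hl.xvb, hg1, a4]
        · linarith only [hb.ZM, hj.A2, hb.v2y, hb.be1, h110, hl.xA, hg1, a4]
        · linarith only [hb.l2, hb.z0, hj.zA, hb.v2y, hb.be1, h110, hl.xvb, hg1, a4]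
        · linarith only [hj.zA, hb.v2y, h110, h122, hs0, hg1, hn1, hl3, hD, hDL, hX, a3, a4]
        · linarith only [hb.l2, hb.z0, hb.zz, hj.zA, hb.v2y, h110, h122, hl.xua, hl.xvb, hs0, hg1, hn1, hD, hDL, hX, a3, a4]
      · rcases tE with a4 | a4 | a4 | a4 | a4 | a4 | a4
        · linarith only [hj.A0, hj.zA, h122, hl.xua, hl.xvb, hl.xpq, hs0, hn1, hug, hl3, hD, hDL, hX, a1, a3, a4]
        · linarith only [hj.zA, hb.eZ, h110, h122, hl.xpq, hs0, hg1, hn1, hug, hl3, hD, hDL, hX, a2, a3, a4]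
        · linarith only [hb.l2, hb.z0, hb.zz, hj.zA, hb.v2y, hb.vb2, h110, hl.xua, hl.xvb, hg1, a4]
        · linarith only [hb.ZM, hj.A2, hb.v2y, hb.be1, h110, hl.xA, hg1, a4]
        · linarith only [hb.l2, hb.z0, hj.zA, hb.v2y, hb.be1, h110, hl.xvb, hg1, a4]
        · linarith only [hj.zA, h110, h122, hl.xpq, hs0, hg1, hn1, hl3, hD, hDL, hX, a3, a4]
        · linarith only [hb.l2, hb.z0, hb.zz, hj.zA, h110, h122, hl.xua, hl.xvb, hl.xpq, hs0, hg1, hn1, hD, hDL, hX, a3, a4]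
    · linarith only [hb.ZM, hj.A0, hj.zA, hb.v2y, hb.be1, h112, hl.xvb, hl.xA, hs0, hg1, hn1, hl3, hD, hDL, hX, a1, a2]

theorem r12c_j1i1_N_wQ {th lam y z g X MB u1 u2 ux ua al v2 vb be : ℝ}
    (hb : MB0 th lam y z MB u1 u2 ux ua al v2 vb be) (hl : L2c th y MB u1 ua al vb be)
    (hg1 : 1 ≤ g) (hug : ua ≤ g) (hX0 : 0 ≤ X) (hXc0 : X < ua + 2) (hXc1 : X + 2 ≤ th)
    (tA : FT th (-g) X 0 (th + ua) al be) : False := by
  rcases tA with a1 | a1 | a1 | a1 | a1 | a1 | a1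
  · linarith only [hug, hX0, hXc0, hXc1, a1]
  · linarith only [hug, a1]
  · linarith only [hug, hX0, hXc0, hXc1, a1]
  · linarith only [hb.ZM, hb.v2y, hb.be1, hl.xA, hg1, a1]
  · linarith only [hb.ZM, hb.al0, hl.xA, hg1, a1]
  · linarith only [hb.ZM, hl.xA, hug, hXc0, a1]
  · linarith only [hb.ZM, hl.xA, hug, hX0, hXc0, hXc1, a1]

theorem r12c_j1i1_N_wP {th lam y z g X MB u1 u2 ux ua al v2 vb be : ℝ}
    (hb : MB0 th lam y z MB u1 u2 ux ua al v2 vb be) (hl : L2c th y MB u1 ua al vb be)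
    (hg1 : 1 ≤ g) (hug : ua ≤ g) (hX0 : 0 ≤ X) (hXc0 : X < ua)
    (tA : FT th (-g) X 0 (th + ua) al be) : False := by
  rcases tA with a1 | a1 | a1 | a1 | a1 | a1 | a1
  · linarith only [hb.M0, hb.ZM, hb.uy, hb.u12, hb.ux2, hb.uax, hug, hX0, hXc0, a1]
  · linarith only [hug, a1]
  · linarith only [hb.M0, hb.ZM, hb.uy, hb.u12, hb.ux2, hb.uax, hug, hX0, hXc0, a1]
  · linarith only [hb.M0, hb.ZM, hb.uy, hb.uax, hb.eU, hug, hX0, hXc0, a1]
  · linarith only [hb.ZM, hb.al0, hl.xA, hg1, a1]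
  · linarith only [hb.ZM, hl.xA, hug, hXc0, a1]
  · linarith only [hb.ZM, hb.al0, hb.v2y, hb.be1, hl.xA, hg1, hXc0, a1]

theorem r12c_j1i1_N_2 {th lam y z g X MB u1 u2 ux ua al v2 vb be : ℝ}
    (hb : MB0 th lam y z MB u1 u2 ux ua al v2 vb be) (hl : L2c th y MB u1 ua al vb be)
    (hg1 : 1 ≤ g) (hug : ua ≤ g) (hX : X ≤ 2) (tA : FT th (-g) X 0 (th + ua) al be) : False := by
  rcases tA with a1 | a1 | a1 | a1 | a1 | a1 | a1
  · linarith only [hb.ZM, hb.al0, hb.v2y, hb.be1, hl.xA, hg1, hX, a1]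
  · linarith only [hug, a1]
  · linarith only [hb.ZM, hb.al0, hb.v2y, hb.be1, hl.xua, hl.xA, hug, a1]
  · linarith only [hb.ZM, hb.v2y, hb.be1, hl.xA, hg1, a1]
  · linarith only [hb.ZM, hb.al0, hl.xA, hg1, a1]
  · linarith only [hb.ZM, hl.xA, hg1, hug, hX, a1]
  · linarith only [hb.ZM, hb.al0, hb.v2y, hb.be1, hl.xua, hl.xA, hug, hX, a1]

theorem r12c_j1i1_L_Y {th lam y z g nb Y sg D L X MB MA m11 m12 u1 u2 ux ua al v2 vb be sy ay cy : ℝ}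
    (hb : MB0 th lam y z MB u1 u2 ux ua al v2 vb be) (hj : MJ th lam y z MB MA) (h110 : 0 ≤ m11)
    (h112 : m11 ≤ 2) (h122 : m12 ≤ 2) (hl : L2c th y MB u1 ua al vb be) (hs0 : 0 ≤ sg)
    (hY0 : 0 ≤ Y) (hg1 : 1 ≤ g) (hn1 : 1 ≤ nb) (hug : ua ≤ g) (hl3 : 3 ≤ lam) (hy : LY sy ay cy)
    (hyp1 : sy < ua) (hsL : sy ≤ L) (hD : nb + D + cy ≤ z)
    (hDL : nb + Y + sg + D + L + cy ≤ th + y + z) (hX0 : 0 ≤ X) (hX : Y = X + sy)
    (t11 : FT th (D + ay) (L - sy) m11 (vb - ua) (y - vb - be) al)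
    (t12 : FT th (D + ay) (L - sy) m12 (v2 - u1) (v2 + be - y) (u1 - ua - al))
    (tA : FT th (-g) X 0 (th + ua) al be)
    (tE : FT th (-g) X (MA - m11) (th + ua + vb - y) al (y - vb - be))
    (tO : FT th (-g) X 2 (th + ux + ua - u1) (u1 - ux - al) be) : False := by
  rcases t12 with a1 | a1 | a1 | a1 | a1 | a1 | a1
  · rcases tA with a2 | a2 | a2 | a2 | a2 | a2 | a2
    · linarith only [hj.A0, hj.zA, h122, hs0, hn1, hug, hl3, hy.a1, hy.c0, hy.say, hyp1, hDL, hX, a1, a2]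
    · linarith only [hug, a2]
    · linarith only [hj.A0, hj.zA, h122, hs0, hn1, hug, hl3, hy.a1, hy.c0, hy.say, hyp1, hDL, hX0, hX, a1, a2]
    · linarith only [hb.ZM, hb.v2y, hb.be1, hl.xA, hg1, a2]
    · linarith only [hb.ZM, hb.al0, hl.xA, hg1, a2]
    · rcases tE with a3 | a3 | a3 | a3 | a3 | a3 | a3
      · linarith only [hj.zA, h110, h122, hs0, hn1, hug, hl3, hy.a1, hy.c0, hy.say, hyp1, hDL, hX, a1, a3]
      · rcases tO with a4 | a4 | a4 | a4 | a4 | a4 | a4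
        · linarith only [hj.A0, hj.zA, h122, hs0, hn1, hug, hl3, hy.a1, hy.c0, hy.say, hyp1, hDL, hX, a1, a4]
        · linarith only [hb.eU, hj.zA, hb.eZ, h110, h122, hs0, hn1, hug, hl3, hy.a1, hy.c0, hy.say, hyp1, hDL, hX, a1, a2, a3, a4]
        · linarith only [hb.M0, hb.ZM, hb.uy, hb.u12, hb.ux2, hb.uax, hl.xua, hug, a4]
        · linarith only [hb.M0, hb.ZM, hb.uy, hb.u12, hb.uax, hb.al1, hl.xua, hug, a4]
        · linarith only [hj.zA, hb.eZ, h110, h122, hs0, hn1, hug, hl3, hy.a1, hy.c0, hy.say, hyp1, hDL, hX0, hX, a1, a3, a4]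
        · linarith only [hj.zA, hb.eZ, h110, h122, hs0, hn1, hug, hl3, hy.a1, hy.c0, hy.say, hyp1, hDL, hX, a1, a2, a3, a4]
        · linarith only [hb.M0, hb.ZM, hb.uy, hb.uax, hj.zMA, hb.eZ, h110, h122, hs0, hn1, hug, hl3, hy.a1, hy.c0, hy.say, hyp1, hDL, hX, a1, a2, a3, a4]
      · linarith only [hb.z0, hb.zz, hj.zA, hb.v2y, hb.vb2, h110, hl.xua, hl.xvb, hug, hl3, a3]
      · linarith only [hb.ZM, hj.A2, hb.v2y, hb.be1, h110, hl.xA, hg1, a3]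
      · linarith only [hb.l2, hb.z0, hj.zA, hb.v2y, hb.be1, h110, hl.xvb, hg1, a3]
      · rcases tO with a4 | a4 | a4 | a4 | a4 | a4 | a4
        · linarith only [hj.A0, hj.zA, h122, hs0, hn1, hug, hl3, hy.a1, hy.c0, hy.say, hyp1, hDL, hX, a1, a4]
        · linarith only [hb.eU, hj.zA, h110, h122, hs0, hn1, hug, hl3, hy.a1, hy.c0, hy.say, hyp1, hDL, hX, a1, a2, a3, a4]
        · linarith only [hb.M0, hb.ZM, hb.uy, hb.u12, hb.ux2, hb.uax, hl.xua, hug, a4]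
        · linarith only [hb.M0, hb.ZM, hb.uy, hb.u12, hb.uax, hb.al1, hl.xua, hug, a4]
        · linarith only [hb.ZM, hb.al0, hl.xA, hg1, a4]
        · linarith only [hj.zA, h110, h122, hs0, hn1, hug, hl3, hy.a1, hy.c0, hy.say, hyp1, hDL, hX, a1, a3, a4]
        · linarith only [hb.M0, hb.ZM, hb.uy, hb.uax, hj.zMA, h110, h122, hs0, hn1, hug, hl3, hy.a1, hy.c0, hy.say, hyp1, hDL, hX, a1, a3, a4]
      · rcases tO with a4 | a4 | a4 | a4 | a4 | a4 | a4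
        · linarith only [hj.A0, hj.zA, h122, hs0, hn1, hug, hl3, hy.a1, hy.c0, hy.say, hyp1, hDL, hX, a1, a4]
        · linarith only [hb.z0, hb.eU, hj.A0, hj.zA, h110, h122, hl.xvb, hs0, hn1, hug, hl3, hy.a1, hy.c0, hy.say, hyp1, hDL, hX, a1, a2, a3, a4]
        · linarith only [hb.M0, hb.ZM, hb.uy, hb.u12, hb.ux2, hb.uax, hl.xua, hug, a4]
        · linarith only [hb.M0, hb.ZM, hb.uy, hb.u12, hb.uax, hb.al1, hl.xua, hug, a4]
        · linarith only [hb.ZM, hb.al0, hl.xA, hg1, a4]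
        · linarith only [hb.z0, hb.zz, hj.zA, h110, h122, hl.xvb, hs0, hn1, hug, hl3, hy.a1, hy.c0, hy.say, hyp1, hDL, hX, a1, a3, a4]
        · linarith only [hb.M0, hb.ZM, hb.uax, hj.zMA, h110, h122, hl.xvb, hl.xpq, hs0, hn1, hug, hl3, hy.a1, hy.c0, hy.say, hyp1, hDL, hX, a1, a3, a4]
    · linarith only [hb.ZM, hj.A0, hj.zA, h122, hl.xA, hs0, hY0, hn1, hug, hl3, hy.a1, hy.c0, hy.say, hyp1, hDL, hX, a1, a2]
  · linarith only [hb.u12, hb.uax, hb.al1, hb.eU, hj.A0, hj.zA, hb.v2y, h122, hn1, hl3, hy.c0, hy.say, hyp1, hD, a1]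
  · linarith only [hb.ZM, hb.al0, hj.A0, hj.zMA, hb.be1, h122, hl.xpq, hl.xA, hn1, hl3, hy.ac, hD, a1]
  · linarith only [hb.ZM, hb.al0, hj.A0, hj.zMA, hb.v2y, h122, hl.xA, hn1, hl3, hy.ac, hD, a1]
  · linarith only [hb.zM, hb.M0, hb.uy, hb.al0, h122, hn1, hl3, hy.c0, hy.say, hyp1, hD, a1]
  · rcases tA with a2 | a2 | a2 | a2 | a2 | a2 | a2
    · rcases t11 with a3 | a3 | a3 | a3 | a3 | a3 | a3
      · linarith only [hj.A0, hj.zA, h112, hs0, hn1, hug, hl3, hy.a1, hy.c0, hy.say, hyp1, hDL, hX, a2, a3]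
      · linarith only [hj.A0, hj.zA, hb.v2y, hb.vb2, h112, hn1, hl3, hy.c0, hy.say, hyp1, hD, a3]
      · linarith only [hj.A0, hj.zA, h112, hl.xvb, hs0, hn1, hug, hl3, hy.a1, hy.c0, hy.say, hsL, hDL, hX, a2, a3]
      · linarith only [hb.u12, hb.al1, hj.A0, hj.zA, hb.v2y, h112, h122, hl.xvb, hs0, hg1, hn1, hl3, hy.c0, hy.say, hyp1, hD, hDL, hX, a1, a2, a3]
      · linarith only [hj.A0, hj.zA, hj.zMA, hb.v2y, h112, h122, hl.xA, hs0, hn1, hl3, hy.ac, hy.c0, hy.say, hyp1, hD, hDL, hX0, hX, a1, a3]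
      · linarith only [hj.A0, hj.zA, hb.v2y, h112, h122, hs0, hn1, hug, hl3, hy.a1, hy.c0, hy.say, hyp1, hD, hDL, hX, a1, a2, a3]
      · linarith only [hj.A0, hj.zA, hb.v2y, h112, h122, hl.xvb, hs0, hn1, hug, hl3, hy.a1, hy.c0, hy.say, hyp1, hD, hDL, hX, a1, a2, a3]
    · linarith only [hug, a2]
    · linarith only [hb.M0, hb.ZM, hb.uy, hb.u12, hb.ux2, hb.uax, hug, hy.a1, hy.say, hyp1, a2]
    · linarith only [hb.ZM, hb.v2y, hb.be1, hl.xA, hg1, a2]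
    · linarith only [hb.ZM, hb.al0, hl.xA, hg1, a2]
    · rcases tE with a3 | a3 | a3 | a3 | a3 | a3 | a3
      · rcases t11 with a4 | a4 | a4 | a4 | a4 | a4 | a4
        · linarith only [hj.zA, hs0, hn1, hug, hl3, hy.a1, hy.c0, hy.say, hyp1, hDL, hX, a3, a4]
        · linarith only [hj.A0, hj.zA, hb.v2y, hb.vb2, h112, hn1, hl3, hy.c0, hy.say, hyp1, hD, a4]
        · linarith only [hj.zA, hl.xvb, hs0, hn1, hug, hl3, hy.a1, hy.c0, hy.say, hsL, hDL, hX, a3, a4]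
        · linarith only [hj.A0, hj.zA, hb.v2y, h112, h122, hl.xvb, hs0, hn1, hug, hl3, hy.c0, hy.say, hyp1, hD, hDL, hX, a1, a2, a4]
        · linarith only [hj.A0, hj.zA, hj.zMA, hb.v2y, h112, h122, hl.xA, hs0, hn1, hl3, hy.ac, hy.c0, hy.say, hyp1, hD, hDL, hX0, hX, a1, a4]
        · linarith only [hj.A0, hj.zA, hb.v2y, h122, hs0, hn1, hug, hl3, hy.a1, hy.c0, hy.say, hyp1, hD, hDL, hX, a1, a3, a4]
        · linarith only [hj.A0, hj.zA, hb.v2y, h122, hl.xvb, hs0, hn1, hug, hl3, hy.a1, hy.c0, hy.say, hyp1, hD, hDL, hX, a1, a3, a4]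
      · linarith only [hj.zA, hb.v2y, hb.eZ, h110, h122, hs0, hn1, hug, hl3, hy.a1, hy.c0, hy.say, hyp1, hD, hDL, hX, a1, a2, a3]
      · linarith only [hb.z0, hb.zz, hj.zA, hb.v2y, hb.vb2, h110, hl.xua, hl.xvb, hug, hl3, a3]
      · linarith only [hb.ZM, hj.A2, hb.v2y, hb.be1, h110, hl.xA, hg1, a3]
      · linarith only [hb.l2, hb.z0, hj.zA, hb.v2y, hb.be1, h110, hl.xvb, hg1, a3]
      · linarith only [hj.zA, hb.v2y, h110, h122, hs0, hn1, hug, hl3, hy.a1, hy.c0, hy.say, hyp1, hD, hDL, hX, a1, a3]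
      · linarith only [hb.z0, hb.zz, hj.zA, hb.v2y, h110, h122, hl.xua, hl.xvb, hs0, hn1, hug, hl3, hy.c0, hy.say, hD, hDL, hX, a1, a3]
    · linarith only [hb.ZM, hb.al0, hj.A0, hj.zA, hb.v2y, h122, hl.xua, hl.xA, hs0, hn1, hug, hl3, hy.c0, hy.say, hD, hDL, hX, a1, a2]
  · rcases tA with a2 | a2 | a2 | a2 | a2 | a2 | a2
    · rcases t11 with a3 | a3 | a3 | a3 | a3 | a3 | a3
      · linarith only [hj.A0, hj.zA, h112, hs0, hn1, hug, hl3, hy.a1, hy.c0, hy.say, hyp1, hDL, hX, a2, a3]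
      · linarith only [hj.A0, hj.zA, hb.v2y, hb.vb2, h112, hn1, hl3, hy.c0, hy.say, hyp1, hD, a3]
      · linarith only [hj.A0, hj.zA, h112, hl.xvb, hs0, hn1, hug, hl3, hy.a1, hy.c0, hy.say, hsL, hDL, hX, a2, a3]
      · linarith only [hb.u12, hb.al1, hj.A0, hj.zA, h112, h122, hl.xvb, hl.xpq, hs0, hg1, hn1, hl3, hy.c0, hy.say, hyp1, hD, hDL, hX, a1, a2, a3]
      · linarith only [hj.A0, hj.zA, hj.zMA, h112, h122, hl.xpq, hl.xA, hs0, hn1, hl3, hy.ac, hy.c0, hy.say, hyp1, hD, hDL, hX0, hX, a1, a3]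
      · linarith only [hj.A0, hj.zA, h112, h122, hl.xpq, hs0, hn1, hug, hl3, hy.a1, hy.c0, hy.say, hyp1, hD, hDL, hX, a1, a2, a3]
      · linarith only [hj.A0, hj.zA, h112, h122, hl.xvb, hl.xpq, hs0, hn1, hug, hl3, hy.a1, hy.c0, hy.say, hyp1, hD, hDL, hX, a1, a2, a3]
    · linarith only [hug, a2]
    · linarith only [hb.M0, hb.ZM, hb.uy, hb.u12, hb.ux2, hb.uax, hug, hy.a1, hy.say, hyp1, a2]
    · linarith only [hb.ZM, hb.v2y, hb.be1, hl.xA, hg1, a2]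
    · linarith only [hb.ZM, hb.al0, hl.xA, hg1, a2]
    · rcases tE with a3 | a3 | a3 | a3 | a3 | a3 | a3
      · rcases t11 with a4 | a4 | a4 | a4 | a4 | a4 | a4
        · linarith only [hj.zA, hs0, hn1, hug, hl3, hy.a1, hy.c0, hy.say, hyp1, hDL, hX, a3, a4]
        · linarith only [hj.A0, hj.zA, hb.v2y, hb.vb2, h112, hn1, hl3, hy.c0, hy.say, hyp1, hD, a4]
        · linarith only [hj.zA, hl.xvb, hs0, hn1, hug, hl3, hy.a1, hy.c0, hy.say, hsL, hDL, hX, a3, a4]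
        · linarith only [hj.A0, hj.zA, h112, h122, hl.xvb, hl.xpq, hs0, hn1, hug, hl3, hy.c0, hy.say, hyp1, hD, hDL, hX, a1, a2, a4]
        · linarith only [hj.A0, hj.zA, hj.zMA, h112, h122, hl.xpq, hl.xA, hs0, hn1, hl3, hy.ac, hy.c0, hy.say, hyp1, hD, hDL, hX0, hX, a1, a4]
        · linarith only [hj.A0, hj.zA, h122, hl.xpq, hs0, hn1, hug, hl3, hy.a1, hy.c0, hy.say, hyp1, hD, hDL, hX, a1, a3, a4]
        · linarith only [hj.A0, hj.zA, h122, hl.xvb, hl.xpq, hs0, hn1, hug, hl3, hy.a1, hy.c0, hy.say, hyp1, hD, hDL, hX, a1, a3, a4]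
      · linarith only [hj.zA, hb.eZ, h110, h122, hl.xpq, hs0, hn1, hug, hl3, hy.a1, hy.c0, hy.say, hyp1, hD, hDL, hX, a1, a2, a3]
      · linarith only [hb.z0, hb.zz, hj.zA, hb.v2y, hb.vb2, h110, hl.xua, hl.xvb, hug, hl3, a3]
      · linarith only [hb.ZM, hj.A2, hb.v2y, hb.be1, h110, hl.xA, hg1, a3]
      · linarith only [hb.l2, hb.z0, hj.zA, hb.v2y, hb.be1, h110, hl.xvb, hg1, a3]
      · linarith only [hj.zA, h110, h122, hl.xpq, hs0, hn1, hug, hl3, hy.a1, hy.c0, hy.say, hyp1, hD, hDL, hX, a1, a3]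
      · linarith only [hb.z0, hb.zz, hj.zA, h110, h122, hl.xua, hl.xvb, hl.xpq, hs0, hn1, hug, hl3, hy.c0, hy.say, hD, hDL, hX, a1, a3]
    · linarith only [hb.ZM, hb.al0, hj.A0, hj.zA, h122, hl.xua, hl.xpq, hl.xA, hs0, hn1, hug, hl3, hy.c0, hy.say, hD, hDL, hX, a1, a2]

theorem r12c_j1i1_L_S {th lam y z g Y X MB u1 u2 ux ua al v2 vb be sy ay cy : ℝ}
    (hb : MB0 th lam y z MB u1 u2 ux ua al v2 vb be) (hl : L2c th y MB u1 ua al vb be)
    (hY0 : 0 ≤ Y) (hg1 : 1 ≤ g) (hug : ua ≤ g) (hy : LY sy ay cy) (hyp1 : sy < ua)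
    (hX : sy = Y + X) (tA : FT th (-g) X 0 (th + ua) al be) : False := by
  rcases tA with a1 | a1 | a1 | a1 | a1 | a1 | a1
  · linarith only [hb.M0, hb.ZM, hb.uy, hb.u12, hb.ux2, hb.uax, hY0, hg1, hyp1, hX, a1]
  · linarith only [hug, a1]
  · linarith only [hb.M0, hb.ZM, hb.uy, hb.u12, hb.ux2, hb.uax, hl.xua, hug, a1]
  · linarith only [hb.ZM, hb.v2y, hb.be1, hl.xA, hg1, a1]
  · linarith only [hb.ZM, hb.al0, hl.xA, hg1, a1]
  · linarith only [hb.ZM, hl.xA, hY0, hug, hyp1, hX, a1]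
  · linarith only [hb.M0, hb.ZM, hb.u12, hb.ux2, hb.uax, hl.xpq, hl.xA, hY0, hg1, hy.a1, hy.say, hyp1, hX, a1]

theorem r12c_j1i1_L_wQ {th lam y z g Y X MB u1 u2 ux ua al v2 vb be sy : ℝ}
    (hb : MB0 th lam y z MB u1 u2 ux ua al v2 vb be) (hl : L2c th y MB u1 ua al vb be)
    (hg1 : 1 ≤ g) (hug : ua ≤ g) (hXa : Y ≤ X + sy) (hXb : sy ≤ Y + X) (hXc0 : X < ua + 2)
    (hXc1 : X + 2 ≤ th) (tA : FT th (-g) X 0 (th + ua) al be) : False := by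
  rcases tA with a1 | a1 | a1 | a1 | a1 | a1 | a1
  · linarith only [hg1, hXc1, a1]
  · linarith only [hug, a1]
  · linarith only [hug, hXa, hXb, hXc0, hXc1, a1]
  · linarith only [hb.ZM, hb.v2y, hb.be1, hl.xA, hg1, a1]
  · linarith only [hb.ZM, hb.al0, hl.xA, hg1, a1]
  · linarith only [hb.ZM, hl.xA, hug, hXc0, a1]
  · linarith only [hb.ZM, hl.xA, hug, hXa, hXb, hXc0, hXc1, a1]

theorem r12c_j1i1_L_wP {th lam y z g X MB u1 u2 ux ua al v2 vb be : ℝ}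
    (hb : MB0 th lam y z MB u1 u2 ux ua al v2 vb be) (hl : L2c th y MB u1 ua al vb be)
    (hg1 : 1 ≤ g) (hug : ua ≤ g) (hXc0 : X < ua) (tA : FT th (-g) X 0 (th + ua) al be) : False := by
  rcases tA with a1 | a1 | a1 | a1 | a1 | a1 | a1
  · linarith only [hb.M0, hb.ZM, hb.uy, hb.u12, hb.ux2, hb.uax, hg1, hXc0, a1]
  · linarith only [hug, a1]
  · linarith only [hb.M0, hb.ZM, hb.uy, hb.u12, hb.ux2, hb.uax, hl.xua, hug, a1]
  · linarith only [hb.ZM, hb.v2y, hb.be1, hl.xA, hg1, a1]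
  · linarith only [hb.ZM, hb.al0, hl.xA, hg1, a1]
  · linarith only [hb.ZM, hl.xA, hug, hXc0, a1]
  · linarith only [hb.M0, hb.ZM, hb.u12, hb.ux2, hb.uax, hl.xua, hl.xpq, hl.xA, hug, hXc0, a1]

theorem r12c_j1i1_L_2 {th lam y z g X MB u1 u2 ux ua al v2 vb be : ℝ}
    (hb : MB0 th lam y z MB u1 u2 ux ua al v2 vb be) (hl : L2c th y MB u1 ua al vb be)
    (hg1 : 1 ≤ g) (hug : ua ≤ g) (hX : X ≤ 2) (tA : FT th (-g) X 0 (th + ua) al be) : False := by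
  rcases tA with a1 | a1 | a1 | a1 | a1 | a1 | a1
  · linarith only [hb.M0, hb.ZM, hb.uy, hb.u12, hb.ux2, hb.uax, hl.xua, hug, hX, a1]
  · linarith only [hug, a1]
  · linarith only [hb.M0, hb.ZM, hb.uy, hb.u12, hb.ux2, hb.uax, hl.xua, hug, a1]
  · linarith only [hb.ZM, hb.v2y, hb.be1, hl.xA, hg1, a1]
  · linarith only [hb.ZM, hb.al0, hl.xA, hg1, a1]
  · linarith only [hb.ZM, hl.xA, hg1, hug, hX, a1]
  · linarith only [hb.M0, hb.ZM, hb.u12, hb.ux2, hb.uax, hl.xua, hl.xpq, hl.xA, hug, hX, a1]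

end Pool.Agent.Exact
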