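import Pool.Agent.Lib_helper43.NC.MxDef

/-!
# Runs with `D + L ≤ θ - 2`
-/

set_option autoImplicit false
set_option linter.unusedVariables false

namespace Pool.Agent.Exact

theorem rl2a_RN {th lam y z nb D L MB m11 m12 u1 u2 ux ua al v2 vb be : ℝ}
    (hb : MB0 th lam y z MB u1 u2 ux ua al v2 vb be) (h112 : m11 ≤ 2) (h122 : m12 ≤ 2)
    (hl : L2a y MB u1 ua vb) (hDL : D + L + 2 ≤ th) (hn1 : 1 ≤ nb) (hD : nb + D ≤ z)
    (t11 : FT th D L m11 (vb - ua) (y - vb - be) al)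
    (t12 : FT th D L m12 (v2 - u1) (v2 + be - y) (u1 - ua - al)) : False := by
  rcases t11 with a1 | a1 | a1 | a1 | a1 | a1 | a1
  · linarith only [h112, hDL, a1]
  · linarith only [hb.l2, hb.zz, hb.v2y, hb.vb2, h112, hl.xua, hn1, hD, a1]
  · linarith only [hb.l2, hb.zM, hb.u12, hb.ux2, hb.uax, h112, hl.xvb, hl.xpq, hn1, hD, a1]
  · linarith only [hb.l2, hb.zM, hb.v2y, hb.be1, h112, hl.xvb, hn1, hD, a1]
  · linarith only [hb.l2, hb.zz, hb.uax, hb.eU, h112, hl.xua, hl.xpq, hn1, hD, a1]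
  · rcases t12 with a2 | a2 | a2 | a2 | a2 | a2 | a2
    · linarith only [h122, hDL, a2]
    · linarith only [hb.l2, hb.zz, hb.u12, hb.uax, hb.al1, hb.eU, hb.v2y, h122, hl.xua, hn1, hD, a2]
    · linarith only [hb.l2, hb.zM, hb.vb2, h122, hl.xvb, hl.xpq, hn1, hD, a2]
    · linarith only [hb.l2, hb.zM, hb.v2y, hb.eZ, h122, hl.xvb, hn1, hD, a2]
    · linarith only [hb.l2, hb.zz, hb.v2y, hb.be1, h112, h122, hl.xua, hl.xpq, hDL, hn1, hD, a1, a2]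
    · linarith only [hb.l2, hb.zz, hb.v2y, h112, h122, hl.xua, hDL, hn1, hD, a1, a2]
    · linarith only [hb.l2, hb.zz, h112, h122, hl.xua, hl.xpq, hDL, hn1, hD, a1, a2]
  · rcases t12 with a2 | a2 | a2 | a2 | a2 | a2 | a2
    · linarith only [h122, hDL, a2]
    · linarith only [hb.l2, hb.zz, hb.u12, hb.uax, hb.al1, hb.eU, hb.v2y, h122, hl.xua, hn1, hD, a2]
    · linarith only [hb.l2, hb.zM, hb.vb2, h122, hl.xvb, hl.xpq, hn1, hD, a2]
    · linarith only [hb.l2, hb.zM, hb.v2y, hb.eZ, h122, hl.xvb, hn1, hD, a2]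
    · linarith only [hb.l2, hb.zM, hb.v2y, hb.be1, h112, h122, hl.xvb, hl.xpq, hDL, hn1, hD, a1, a2]
    · linarith only [hb.l2, hb.zM, hb.v2y, h112, h122, hl.xvb, hDL, hn1, hD, a1, a2]
    · linarith only [hb.l2, hb.zM, h112, h122, hl.xvb, hl.xpq, hDL, hn1, hD, a1, a2]

theorem rl2c_RN_i0 {th lam y z nb D L MB m11 m12 u1 u2 ux ua al v2 vb be : ℝ}
    (hb : MB0 th lam y z MB u1 u2 ux ua al v2 vb be) (hi1 : vb = v2) (hi2 : y = vb + be)
    (h112 : m11 ≤ 2) (h122 : m12 ≤ 2) (hl : L2c th y MB u1 ua al vb be) (hDL : D + L + 2 ≤ th)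
    (hL0 : 0 ≤ L) (hn1 : 1 ≤ nb) (hD : nb + D ≤ z)
    (t11 : FT th D L m11 (vb - ua) (y - vb - be) al)
    (t12 : FT th D L m12 (v2 - u1) (v2 + be - y) (u1 - ua - al)) : False := by
  rcases t11 with a1 | a1 | a1 | a1 | a1 | a1 | a1
  · linarith only [h112, hDL, a1]
  · linarith only [hb.l2, hb.zz, hb.v2y, hb.be1, hi2, h112, hl.xua, hn1, hD, a1]
  · linarith only [hb.l2, hb.z0, hb.zM, hb.al0, hb.u12, hb.ux2, hb.uax, hi2, h112, hl.xpq, hl.xA, hn1, hD, a1]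
  · linarith only [hi2, h112, hDL, hL0, a1]
  · linarith only [hb.l2, hb.z0, hb.zM, hb.v2y, hb.be1, h112, hl.xA, hn1, hD, a1]
  · rcases t12 with a2 | a2 | a2 | a2 | a2 | a2 | a2
    · linarith only [h122, hDL, a2]
    · linarith only [hb.l2, hb.zz, hb.u12, hb.ux2, hb.uax, hb.v2y, h122, hl.xua, hn1, hD, a2]
    · linarith only [hb.l2, hb.zz, hi1, h122, hl.xvb, hl.xpq, hn1, hD, a2]
    · linarith only [hi1, hi2, h122, hDL, hL0, a2]
    · linarith only [hb.l2, hb.zz, hb.al0, h122, hl.xua, hl.xpq, hn1, hD, a2]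
    · linarith only [hb.l2, hb.zz, hb.v2y, h112, h122, hl.xua, hDL, hn1, hD, a1, a2]
    · linarith only [hb.l2, hb.zz, h112, h122, hl.xua, hl.xpq, hDL, hn1, hD, a1, a2]
  · linarith only [hb.l2, hb.z0, hb.zM, hb.u12, hb.ux2, hb.uax, hi2, h112, hl.xpq, hl.xA, hDL, hn1, hD, a1]

theorem rl2c_RN_i1 {th lam y z nb D L MB m11 m12 u1 u2 ux ua al v2 vb be : ℝ}
    (hb : MB0 th lam y z MB u1 u2 ux ua al v2 vb be) (h112 : m11 ≤ 2) (h122 : m12 ≤ 2)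
    (hl : L2c th y MB u1 ua al vb be) (hDL : D + L + 2 ≤ th) (hl3 : 3 ≤ lam) (hn1 : 1 ≤ nb)
    (hD : nb + D ≤ z) (t11 : FT th D L m11 (vb - ua) (y - vb - be) al)
    (t12 : FT th D L m12 (v2 - u1) (v2 + be - y) (u1 - ua - al)) : False := by
  rcases t11 with a1 | a1 | a1 | a1 | a1 | a1 | a1
  · linarith only [h112, hDL, a1]
  · linarith only [hb.l2, hb.zz, hb.v2y, hb.vb2, h112, hl.xua, hn1, hD, a1]
  · linarith only [hb.zz, hb.u12, hb.ux2, hb.uax, h112, hl.xvb, hl.xpq, hl3, hn1, hD, a1]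
  · linarith only [hb.zz, hb.v2y, hb.be1, h112, hl.xvb, hl3, hn1, hD, a1]
  · linarith only [hb.l2, hb.z0, hb.zM, hb.v2y, hb.be1, h112, hl.xA, hn1, hD, a1]
  · rcases t12 with a2 | a2 | a2 | a2 | a2 | a2 | a2
    · linarith only [h122, hDL, a2]
    · linarith only [hb.l2, hb.zz, hb.u12, hb.ux2, hb.uax, hb.v2y, h122, hl.xua, hn1, hD, a2]
    · linarith only [hb.zz, hb.vb2, h122, hl.xvb, hl.xpq, hl3, hn1, hD, a2]
    · linarith only [hb.zz, hb.v2y, hb.eZ, h122, hl.xvb, hl3, hn1, hD, a2]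
    · linarith only [hb.zz, hb.v2y, hb.be1, h112, h122, hl.xua, hl.xpq, hDL, hl3, hn1, hD, a1, a2]
    · linarith only [hb.zz, hb.v2y, h112, h122, hl.xua, hDL, hl3, hn1, hD, a1, a2]
    · linarith only [hb.zz, h112, h122, hl.xua, hl.xpq, hDL, hl3, hn1, hD, a1, a2]
  · rcases t12 with a2 | a2 | a2 | a2 | a2 | a2 | a2
    · linarith only [h122, hDL, a2]
    · linarith only [hb.l2, hb.zz, hb.u12, hb.ux2, hb.uax, hb.v2y, h122, hl.xua, hn1, hD, a2]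
    · linarith only [hb.zz, hb.vb2, h122, hl.xvb, hl.xpq, hl3, hn1, hD, a2]
    · linarith only [hb.zz, hb.v2y, hb.eZ, h122, hl.xvb, hl3, hn1, hD, a2]
    · linarith only [hb.zz, hb.v2y, hb.be1, h112, h122, hl.xvb, hl.xpq, hDL, hl3, hn1, hD, a1, a2]
    · linarith only [hb.zz, hb.v2y, h112, h122, hl.xvb, hDL, hl3, hn1, hD, a1, a2]
    · linarith only [hb.zz, h112, h122, hl.xvb, hl.xpq, hDL, hl3, hn1, hD, a1, a2]

theorem rl3c_RN {th lam y z nb D L MB m11 m12 u1 u2 ux ua al v2 vb be : ℝ}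
    (hb : MB0 th lam y z MB u1 u2 ux ua al v2 vb be) (h112 : m11 ≤ 2) (h122 : m12 ≤ 2)
    (hl : L3c th lam y MB u1 ua al vb be) (hDL : D + L + 2 ≤ th) (hua : 0 ≤ ua) (hn1 : 1 ≤ nb)
    (hD : nb + D ≤ z) (t11 : FT th D L m11 (vb - ua) (y - vb - be) al)
    (t12 : FT th D L m12 (v2 - u1) (v2 + be - y) (u1 - ua - al)) : False := by
  rcases t11 with a1 | a1 | a1 | a1 | a1 | a1 | a1
  · linarith only [h112, hDL, a1]
  · linarith only [hb.l2, hb.zz, hb.v2y, hb.vb2, h112, hua, hn1, hD, a1]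
  · linarith only [hb.l2, hb.zM, hb.uy, hb.u12, hb.ux2, hb.uax, h112, hl.xvb, hn1, hD, a1]
  · linarith only [hb.l2, hb.zM, hb.v2y, hb.be1, h112, hl.xvb, hn1, hD, a1]
  · linarith only [hb.l2, hb.zz, hb.uy, hb.uax, hb.eU, h112, hua, hn1, hD, a1]
  · rcases t12 with a2 | a2 | a2 | a2 | a2 | a2 | a2
    · linarith only [h122, hDL, a2]
    · linarith only [hb.zz, hb.v2y, h122, hl.xl3, hl.xu1, hn1, hD, a2]
    · linarith only [hb.l2, hb.zM, hb.uy, hb.vb2, h122, hl.xvb, hn1, hD, a2]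
    · linarith only [hb.l2, hb.zM, hb.v2y, h122, hl.xbe, hn1, hD, a2]
    · linarith only [hb.zz, hb.ZM, hb.uy, h122, hl.xl3, hl.xeU, hn1, hD, a2]
    · linarith only [hb.l2, hb.zz, hb.v2y, h112, h122, hDL, hua, hn1, hD, a1, a2]
    · linarith only [hb.zz, hb.uy, h112, h122, hl.xl3, hDL, hua, hn1, hD, a1, a2]
  · rcases t12 with a2 | a2 | a2 | a2 | a2 | a2 | a2
    · linarith only [h122, hDL, a2]
    · linarith only [hb.zz, hb.v2y, h122, hl.xl3, hl.xu1, hn1, hD, a2]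
    · linarith only [hb.l2, hb.zM, hb.uy, hb.vb2, h122, hl.xvb, hn1, hD, a2]
    · linarith only [hb.l2, hb.zM, hb.v2y, h122, hl.xbe, hn1, hD, a2]
    · linarith only [hb.zz, hb.ZM, hb.uy, h122, hl.xl3, hl.xeU, hn1, hD, a2]
    · linarith only [hb.l2, hb.zM, hb.v2y, h112, h122, hl.xvb, hDL, hn1, hD, a1, a2]
    · linarith only [hb.zM, hb.uy, h112, h122, hl.xvb, hl.xl3, hDL, hn1, hD, a1, a2]

theorem rl2a_RL {th lam y z nb D L MB m11 m12 u1 u2 ux ua al v2 vb be sy ay cy : ℝ}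
    (hb : MB0 th lam y z MB u1 u2 ux ua al v2 vb be) (h112 : m11 ≤ 2) (h122 : m12 ≤ 2)
    (hl : L2a y MB u1 ua vb) (hDL : D + L + 2 ≤ th) (hy : LY sy ay cy) (hyp1 : sy < ua)
    (hn1 : 1 ≤ nb) (hD : nb + D + cy ≤ z)
    (t12 : FT th (D + ay) (L - sy) m12 (v2 - u1) (v2 + be - y) (u1 - ua - al))
    (a11 : FT th D L m11 (ua - vb - sy) (y - vb - be) al) : False := by
  rcases a11 with a1 | a1 | a1 | a1 | a1 | a1 | a1
  · linarith only [h112, hDL, a1]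
  · linarith only [hb.l2, hb.zM, hb.u12, hb.ux2, hb.uax, h112, hl.xvb, hl.xpq, hy.a1, hy.c0, hy.say, hn1, hD, a1]
  · linarith only [hb.l2, hb.zz, hb.v2y, hb.vb2, h112, hy.c0, hyp1, hn1, hD, a1]
  · linarith only [hb.l2, hb.zM, hb.v2y, hb.be1, h112, hl.xvb, hy.c0, hn1, hD, a1]
  · linarith only [hb.l2, hb.zz, hb.uax, hb.eU, h112, hl.xpq, hy.a1, hy.c0, hy.say, hyp1, hn1, hD, a1]
  · rcases t12 with a2 | a2 | a2 | a2 | a2 | a2 | a2
    · linarith only [h122, hDL, hy.say, a2]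
    · linarith only [hb.l2, hb.zz, hb.u12, hb.ux2, hb.uax, hb.v2y, h122, hy.c0, hy.say, hyp1, hn1, hD, a2]
    · linarith only [hb.l2, hb.zM, hb.vb2, h122, hl.xvb, hl.xpq, hy.ac, hn1, hD, a2]
    · linarith only [hb.l2, hb.zM, hb.uax, hb.eU, hb.v2y, h112, h122, hl.xvb, hl.xpq, hDL, hy.c0, hy.say, hn1, hD, a1, a2]
    · linarith only [hb.l2, hb.zz, hb.al0, h122, hl.xpq, hy.c0, hy.say, hyp1, hn1, hD, a2]
    · linarith only [hb.l2, hb.zM, hb.v2y, h112, h122, hl.xvb, hDL, hy.c0, hy.say, hn1, hD, a1, a2]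
    · linarith only [hb.l2, hb.zM, h112, h122, hl.xvb, hl.xpq, hDL, hy.c0, hy.say, hn1, hD, a1, a2]
  · rcases t12 with a2 | a2 | a2 | a2 | a2 | a2 | a2
    · linarith only [h122, hDL, hy.say, a2]
    · linarith only [hb.l2, hb.zz, hb.u12, hb.ux2, hb.uax, hb.v2y, h122, hy.c0, hy.say, hyp1, hn1, hD, a2]
    · linarith only [hb.l2, hb.zM, hb.vb2, h122, hl.xvb, hl.xpq, hy.ac, hn1, hD, a2]
    · linarith only [hb.l2, hb.zz, hb.uax, hb.eU, hb.v2y, h112, h122, hl.xpq, hDL, hy.c0, hy.say, hyp1, hn1, hD, a1, a2]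
    · linarith only [hb.l2, hb.zz, hb.al0, h122, hl.xpq, hy.c0, hy.say, hyp1, hn1, hD, a2]
    · linarith only [hb.l2, hb.zz, hb.v2y, h112, h122, hDL, hy.c0, hy.say, hyp1, hn1, hD, a1, a2]
    · linarith only [hb.l2, hb.zz, h112, h122, hl.xua, hl.xpq, hDL, hy.ac, hn1, hD, a1, a2]

theorem rl2c_RL_i0 {th lam y z nb D L MB m11 m12 u1 u2 ux ua al v2 vb be sy ay cy : ℝ}
    (hb : MB0 th lam y z MB u1 u2 ux ua al v2 vb be) (hi1 : vb = v2) (hi2 : y = vb + be)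
    (h112 : m11 ≤ 2) (h122 : m12 ≤ 2) (hl : L2c th y MB u1 ua al vb be) (hDL : D + L + 2 ≤ th)
    (hy : LY sy ay cy) (hyp1 : sy < ua) (hsL : sy ≤ L) (hn1 : 1 ≤ nb) (hD : nb + D + cy ≤ z)
    (t11 : FT th (D + ay) (L - sy) m11 (vb - ua) (y - vb - be) al)
    (t12 : FT th (D + ay) (L - sy) m12 (v2 - u1) (v2 + be - y) (u1 - ua - al)) : False := by
  rcases t11 with a1 | a1 | a1 | a1 | a1 | a1 | a1
  · linarith only [h112, hDL, hy.say, a1]
  · linarith only [hb.l2, hb.zz, hb.v2y, hi1, h112, hy.c0, hy.say, hyp1, hn1, hD, a1]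
  · linarith only [hb.l2, hb.z0, hb.zM, hb.al0, hb.u12, hb.ux2, hb.uax, hi2, h112, hl.xpq, hl.xA, hy.ac, hn1, hD, a1]
  · linarith only [hi2, h112, hDL, hy.say, hsL, a1]
  · linarith only [hb.l2, hb.zz, hb.uax, hb.eU, h112, hl.xpq, hy.c0, hy.say, hyp1, hn1, hD, a1]
  · rcases t12 with a2 | a2 | a2 | a2 | a2 | a2 | a2
    · linarith only [h122, hDL, hy.say, a2]
    · linarith only [hb.l2, hb.zz, hb.uax, hb.eU, hb.v2y, hi1, hi2, h112, h122, hDL, hy.c0, hy.say, hyp1, hn1, hD, a1, a2]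
    · linarith only [hb.l2, hb.z0, hb.zz, hb.zM, hi1, hi2, h112, h122, hl.xpq, hl.xA, hDL, hy.ac, hy.c0, hy.say, hyp1, hsL, hn1, hD, a1, a2]
    · linarith only [hb.eZ, hi1, h122, hDL, hy.say, hsL, a2]
    · linarith only [hb.l2, hb.zz, hb.al0, h122, hl.xua, hl.xpq, hy.ac, hn1, hD, a2]
    · linarith only [hb.l2, hb.zz, hb.v2y, h112, h122, hDL, hy.c0, hy.say, hyp1, hn1, hD, a1, a2]
    · linarith only [hb.l2, hb.zz, h112, h122, hl.xpq, hDL, hy.c0, hy.say, hyp1, hn1, hD, a1, a2]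
  · linarith only [hb.l2, hb.zz, hb.uax, hb.eU, hi2, h112, hl.xvb, hl.xpq, hDL, hy.ac, hy.say, hn1, hD, a1]

theorem rl2c_RL_i1 {th lam y z nb D L MB m11 m12 u1 u2 ux ua al v2 vb be sy ay cy : ℝ}
    (hb : MB0 th lam y z MB u1 u2 ux ua al v2 vb be) (h112 : m11 ≤ 2) (h122 : m12 ≤ 2)
    (hl : L2c th y MB u1 ua al vb be) (hDL : D + L + 2 ≤ th) (hl3 : 3 ≤ lam) (hy : LY sy ay cy)
    (hyp1 : sy < ua) (hsL : sy ≤ L) (hn1 : 1 ≤ nb) (hD : nb + D + cy ≤ z)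
    (t11 : FT th (D + ay) (L - sy) m11 (vb - ua) (y - vb - be) al)
    (t12 : FT th (D + ay) (L - sy) m12 (v2 - u1) (v2 + be - y) (u1 - ua - al)) : False := by
  rcases t12 with a1 | a1 | a1 | a1 | a1 | a1 | a1
  · linarith only [h122, hDL, hy.say, a1]
  · linarith only [hb.l2, hb.zz, hb.u12, hb.ux2, hb.uax, hb.v2y, h122, hy.c0, hy.say, hyp1, hn1, hD, a1]
  · linarith only [hb.zz, hb.vb2, h122, hl.xvb, hl.xpq, hl3, hy.ac, hn1, hD, a1]
  · linarith only [hb.l2, hb.z0, hb.zM, hb.al0, hb.v2y, h122, hl.xA, hy.ac, hn1, hD, a1]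
  · linarith only [hb.l2, hb.zz, hb.al0, h122, hl.xpq, hy.c0, hy.say, hyp1, hn1, hD, a1]
  · rcases t11 with a2 | a2 | a2 | a2 | a2 | a2 | a2
    · linarith only [h112, hDL, hy.say, a2]
    · linarith only [hb.l2, hb.zz, hb.v2y, hb.vb2, h112, hy.c0, hy.say, hyp1, hn1, hD, a2]
    · linarith only [hb.zz, hb.u12, hb.ux2, hb.uax, h112, hl.xvb, hl.xpq, hl3, hy.ac, hn1, hD, a2]
    · linarith only [hb.zz, hb.al0, hb.v2y, h112, h122, hl.xvb, hDL, hl3, hy.ac, hy.c0, hy.say, hyp1, hn1, hD, a1, a2]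
    · linarith only [hb.l2, hb.z0, hb.zM, hb.v2y, hb.be1, h112, hl.xA, hy.ac, hn1, hD, a2]
    · linarith only [hb.zz, hb.v2y, h112, h122, hDL, hl3, hy.c0, hy.say, hyp1, hn1, hD, a1, a2]
    · linarith only [hb.zz, hb.v2y, h112, h122, hl.xvb, hDL, hl3, hy.ac, hy.say, hn1, hD, a1, a2]
  · rcases t11 with a2 | a2 | a2 | a2 | a2 | a2 | a2
    · linarith only [h112, hDL, hy.say, a2]
    · linarith only [hb.l2, hb.zz, hb.v2y, hb.vb2, h112, hy.c0, hy.say, hyp1, hn1, hD, a2]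
    · linarith only [hb.l2, hb.z0, hb.zz, hb.zM, hb.al0, h112, h122, hl.xvb, hl.xpq, hl.xA, hDL, hy.ac, hy.say, hn1, hD, a1, a2]
    · linarith only [hb.zz, hb.al0, h112, h122, hl.xua, hl.xvb, hl.xpq, hDL, hl3, hy.ac, hy.say, hn1, hD, a1, a2]
    · linarith only [hb.l2, hb.z0, hb.zz, hb.zM, h112, h122, hl.xpq, hl.xA, hDL, hy.ac, hy.c0, hy.say, hyp1, hsL, hn1, hD, a1, a2]
    · linarith only [hb.zz, h112, h122, hl.xpq, hDL, hl3, hy.c0, hy.say, hyp1, hn1, hD, a1, a2]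
    · linarith only [hb.zz, h112, h122, hl.xvb, hl.xpq, hDL, hl3, hy.ac, hy.say, hn1, hD, a1, a2]

theorem rl3c_RL {th lam y z nb D L MB m11 m12 u1 u2 ux ua al v2 vb be sy ay cy : ℝ}
    (hb : MB0 th lam y z MB u1 u2 ux ua al v2 vb be) (h112 : m11 ≤ 2) (h122 : m12 ≤ 2)
    (hl : L3c th lam y MB u1 ua al vb be) (hDL : D + L + 2 ≤ th) (hua : 0 ≤ ua) (hy : LY sy ay cy)
    (hyp1 : sy < MB + vb + 2) (hn1 : 1 ≤ nb) (hD : nb + D + cy ≤ z)
    (t11 : FT th (D + ay) (L - sy) m11 (vb - ua) (y - vb - be) al)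
    (t12 : FT th (D + ay) (L - sy) m12 (v2 - u1) (v2 + be - y) (u1 - ua - al)) : False := by
  rcases t11 with a1 | a1 | a1 | a1 | a1 | a1 | a1
  · linarith only [h112, hDL, hy.say, a1]
  · linarith only [hb.l2, hb.zz, hb.v2y, hb.vb2, h112, hua, hy.ac, hn1, hD, a1]
  · linarith only [hb.zM, hb.uy, hb.u12, hb.ux2, hb.uax, h112, hl.xl3, hy.c0, hy.say, hyp1, hn1, hD, a1]
  · linarith only [hb.zM, hb.v2y, hb.be1, h112, hl.xl3, hy.c0, hy.say, hyp1, hn1, hD, a1]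
  · linarith only [hb.l2, hb.zz, hb.uy, hb.uax, hb.eU, h112, hua, hy.ac, hn1, hD, a1]
  · rcases t12 with a2 | a2 | a2 | a2 | a2 | a2 | a2
    · linarith only [h122, hDL, hy.say, a2]
    · linarith only [hb.zz, hb.v2y, h122, hl.xl3, hl.xu1, hy.ac, hn1, hD, a2]
    · linarith only [hb.zM, hb.uy, hb.vb2, h122, hl.xl3, hy.c0, hy.say, hyp1, hn1, hD, a2]
    · linarith only [hb.zM, hb.v2y, h122, hl.xl3, hl.xbe, hy.ac, hn1, hD, a2]
    · linarith only [hb.zz, hb.uy, hb.al0, h122, hl.xl3, hua, hy.ac, hn1, hD, a2]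
    · linarith only [hb.zz, hb.v2y, h112, h122, hl.xl3, hDL, hua, hy.ac, hy.say, hn1, hD, a1, a2]
    · linarith only [hb.zz, hb.uy, h112, h122, hl.xl3, hDL, hua, hy.ac, hy.say, hn1, hD, a1, a2]
  · rcases t12 with a2 | a2 | a2 | a2 | a2 | a2 | a2
    · linarith only [h122, hDL, hy.say, a2]
    · linarith only [hb.zz, hb.v2y, h122, hl.xl3, hl.xu1, hy.ac, hn1, hD, a2]
    · linarith only [hb.zM, hb.uy, hb.vb2, h122, hl.xl3, hy.c0, hy.say, hyp1, hn1, hD, a2]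
    · linarith only [hb.zM, hb.v2y, h122, hl.xl3, hl.xbe, hy.ac, hn1, hD, a2]
    · linarith only [hb.zz, hb.uy, hb.al0, h122, hl.xl3, hua, hy.ac, hn1, hD, a2]
    · linarith only [hb.zM, hb.v2y, h112, h122, hl.xl3, hDL, hy.c0, hy.say, hyp1, hn1, hD, a1, a2]
    · linarith only [hb.zM, hb.uy, h112, h122, hl.xl3, hDL, hy.c0, hy.say, hyp1, hn1, hD, a1, a2]

theorem rl2a_EN_g {th lam y z D L MB m11 m12 u1 u2 ux ua al v2 vb be : ℝ}
    (hb : MB0 th lam y z MB u1 u2 ux ua al v2 vb be) (h112 : m11 ≤ 2) (h122 : m12 ≤ 2)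
    (hl : L2a y MB u1 ua vb) (hDL : D + L + 2 ≤ th) (hlam : 3 ≤ lam) (hD : D ≤ 1) (hDz : D ≤ z)
    (t11 : FT th D L m11 (vb - ua) (y - vb - be) al)
    (t12 : FT th D L m12 (v2 - u1) (v2 + be - y) (u1 - ua - al)) : False := by
  rcases t11 with a1 | a1 | a1 | a1 | a1 | a1 | a1
  · linarith only [h112, hDL, a1]
  · linarith only [hb.zM, hb.M0, hb.v2y, hb.vb2, h112, hl.xua, hlam, hDz, a1]
  · linarith only [hb.ZM, hb.u12, hb.ux2, hb.uax, h112, hl.xvb, hl.xpq, hD, a1]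
  · linarith only [hb.zM, hb.v2y, hb.be1, h112, hl.xvb, hlam, hDz, a1]
  · linarith only [hb.zM, hb.M0, hb.uax, hb.eU, h112, hl.xua, hl.xpq, hlam, hDz, a1]
  · rcases t12 with a2 | a2 | a2 | a2 | a2 | a2 | a2
    · linarith only [h122, hDL, a2]
    · linarith only [hb.l2, hb.zz, hb.u12, hb.ux2, hb.uax, hb.v2y, h122, hl.xua, hDz, a2]
    · linarith only [hb.ZM, hb.vb2, h122, hl.xvb, hl.xpq, hD, a2]
    · linarith only [hb.zM, hb.v2y, hb.eZ, h122, hl.xvb, hlam, hDz, a2]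
    · linarith only [hb.M0, hb.ZM, hb.al0, h122, hl.xua, hl.xpq, hD, a2]
    · linarith only [hb.zz, hb.v2y, h112, h122, hl.xua, hDL, hlam, hDz, a1, a2]
    · linarith only [hb.M0, hb.ZM, h112, h122, hl.xua, hl.xpq, hDL, hD, a1, a2]
  · rcases t12 with a2 | a2 | a2 | a2 | a2 | a2 | a2
    · linarith only [h122, hDL, a2]
    · linarith only [hb.l2, hb.zz, hb.u12, hb.ux2, hb.uax, hb.v2y, h122, hl.xua, hDz, a2]
    · linarith only [hb.ZM, hb.vb2, h122, hl.xvb, hl.xpq, hD, a2]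
    · linarith only [hb.zM, hb.v2y, hb.eZ, h122, hl.xvb, hlam, hDz, a2]
    · linarith only [hb.M0, hb.ZM, hb.al0, h122, hl.xua, hl.xpq, hD, a2]
    · linarith only [hb.zM, hb.v2y, h112, h122, hl.xvb, hDL, hlam, hDz, a1, a2]
    · linarith only [hb.ZM, h112, h122, hl.xvb, hl.xpq, hDL, hD, a1, a2]

theorem rl2a_EN_o {th lam y z D L MB m11 m12 u1 u2 ux ua al v2 vb be : ℝ}
    (hb : MB0 th lam y z MB u1 u2 ux ua al v2 vb be) (h112 : m11 ≤ 2) (h122 : m12 ≤ 2)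
    (hl : L2a y MB u1 ua vb) (hDL : D + L + 2 ≤ th) (o1 : 3 * lam + y + 3 * u1 ≤ th)
    (o2 : 4 * lam + y + 4 * u1 + vb ≤ th) (hD : D ≤ 1) (hDz : D ≤ z)
    (t11 : FT th D L m11 (vb - ua) (y - vb - be) al)
    (t12 : FT th D L m12 (v2 - u1) (v2 + be - y) (u1 - ua - al)) : False := by
  rcases t11 with a1 | a1 | a1 | a1 | a1 | a1 | a1
  · linarith only [h112, hDL, a1]
  · linarith only [hb.l2, hb.zz, hb.v2y, hb.vb2, h112, hl.xua, hDz, a1]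
  · linarith only [hb.ZM, hb.u12, hb.ux2, hb.uax, h112, hl.xvb, hl.xpq, hD, a1]
  · linarith only [hb.l2, hb.M2, hb.u12, hb.ux2, hb.uax, hb.v2y, hb.be1, h112, hl.xua, hl.xvb, o2, hD, a1]
  · linarith only [hb.l2, hb.zz, hb.uy, hb.uax, hb.eU, h112, hl.xua, hDz, a1]
  · linarith only [hb.l2, hb.u12, hb.uax, hb.al1, hb.eU, hb.v2y, hb.be1, h112, hl.xua, hDL, o1, hD, a1]
  · rcases t12 with a2 | a2 | a2 | a2 | a2 | a2 | a2
    · linarith only [h122, hDL, a2]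
    · linarith only [hb.l2, hb.zz, hb.u12, hb.ux2, hb.uax, hb.v2y, h122, hl.xua, hDz, a2]
    · linarith only [hb.ZM, hb.vb2, h122, hl.xvb, hl.xpq, hD, a2]
    · linarith only [hb.l2, hb.M2, hb.u12, hb.ux2, hb.uax, hb.v2y, hb.eZ, h122, hl.xua, hl.xvb, o2, hD, a2]
    · linarith only [hb.l2, hb.zz, hb.uy, hb.al0, h122, hl.xua, hDz, a2]
    · linarith only [hb.l2, hb.M2, hb.u12, hb.ux2, hb.uax, hb.v2y, h112, h122, hl.xua, hl.xvb, hDL, o2, hD, a1, a2]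
    · linarith only [hb.ZM, h112, h122, hl.xvb, hl.xpq, hDL, hD, a1, a2]

theorem rl2a_EN_i {th lam y z D L MB m11 u1 u2 ux ua al v2 vb be : ℝ}
    (hb : MB0 th lam y z MB u1 u2 ux ua al v2 vb be) (h112 : m11 ≤ 2) (hl : L2a y MB u1 ua vb)
    (hDL : D + L + 2 ≤ th) (in3 : lam + y + 3 ≤ th) (in1 : 3 * lam + 3 * y + u1 ≤ th)
    (hL0 : 0 ≤ L) (hD : D ≤ 1) (hDz : D ≤ z) (t11 : FT th D L m11 (vb - ua) (y - vb - be) al)
    : False := by
  rcases t11 with a1 | a1 | a1 | a1 | a1 | a1 | a1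
  · linarith only [h112, hDL, a1]
  · linarith only [hb.l2, hb.zz, hb.v2y, hb.vb2, h112, hl.xua, hDz, a1]
  · linarith only [hb.ZM, hb.u12, hb.ux2, hb.uax, h112, hl.xvb, hl.xpq, hD, a1]
  · linarith only [hb.l2, hb.M2, hb.v2y, hb.be1, h112, hl.xvb, in3, hD, a1]
  · linarith only [hb.M0, hb.ZM, hb.uax, hb.eU, h112, hl.xua, hl.xpq, hD, a1]
  · linarith only [hb.l2, hb.uax, hb.eU, hb.v2y, hb.be1, h112, hl.xua, hl.xpq, hDL, in1, hL0, hD, a1]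
  · linarith only [hb.l2, hb.M2, hb.u12, hb.uax, hb.al1, hb.eU, hb.v2y, hb.be1, h112, hl.xua, hl.xvb, hl.xpq, hDL, in1, hD, a1]

theorem rl2c_EN_i0 {th lam y z D L MB m11 m12 u1 u2 ux ua al v2 vb be : ℝ}
    (hb : MB0 th lam y z MB u1 u2 ux ua al v2 vb be) (hi1 : vb = v2) (hi2 : y = vb + be)
    (h112 : m11 ≤ 2) (h122 : m12 ≤ 2) (hl : L2c th y MB u1 ua al vb be) (hDL : D + L + 2 ≤ th)
    (hL0 : 0 ≤ L) (hD : D ≤ 1) (hDz : D ≤ z) (t11 : FT th D L m11 (vb - ua) (y - vb - be) al)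
    (t12 : FT th D L m12 (v2 - u1) (v2 + be - y) (u1 - ua - al)) : False := by
  rcases t11 with a1 | a1 | a1 | a1 | a1 | a1 | a1
  · linarith only [h112, hDL, a1]
  · linarith only [hb.l2, hb.zz, hb.v2y, hb.be1, hi2, h112, hl.xua, hDz, a1]
  · linarith only [hb.ZM, hb.al0, hb.u12, hb.ux2, hb.uax, hi2, h112, hl.xpq, hl.xA, hD, a1]
  · linarith only [hi2, h112, hDL, hL0, a1]
  · linarith only [hb.ZM, hb.v2y, hb.be1, h112, hl.xA, hD, a1]
  · rcases t12 with a2 | a2 | a2 | a2 | a2 | a2 | a2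
    · linarith only [h122, hDL, a2]
    · linarith only [hb.l2, hb.zz, hb.u12, hb.ux2, hb.uax, hb.v2y, h122, hl.xua, hDz, a2]
    · linarith only [hb.ZM, hb.uy, hb.al0, hi1, hi2, h122, hl.xA, hD, a2]
    · linarith only [hi1, hi2, h122, hDL, hL0, a2]
    · linarith only [hb.M0, hb.ZM, hb.al0, h122, hl.xua, hl.xpq, hD, a2]
    · linarith only [hb.l2, hb.zz, hb.v2y, h112, h122, hl.xua, hDL, hDz, a1, a2]
    · linarith only [hb.M0, hb.ZM, h112, h122, hl.xua, hl.xpq, hDL, hD, a1, a2]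
  · linarith only [hb.ZM, hb.u12, hb.ux2, hb.uax, hi2, h112, hl.xpq, hl.xA, hDL, hD, a1]

theorem rl2c_EN_i1_g {th lam y z D L MB m11 m12 u1 u2 ux ua al v2 vb be : ℝ}
    (hb : MB0 th lam y z MB u1 u2 ux ua al v2 vb be) (h112 : m11 ≤ 2) (h122 : m12 ≤ 2)
    (hl : L2c th y MB u1 ua al vb be) (hDL : D + L + 2 ≤ th) (hl3 : 3 ≤ lam) (hlam : 4 ≤ lam)
    (hD : D ≤ 1) (hDz : D ≤ z) (t11 : FT th D L m11 (vb - ua) (y - vb - be) al)
    (t12 : FT th D L m12 (v2 - u1) (v2 + be - y) (u1 - ua - al)) : False := by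
  rcases t11 with a1 | a1 | a1 | a1 | a1 | a1 | a1
  · linarith only [h112, hDL, a1]
  · linarith only [hb.zz, hb.v2y, hb.vb2, h112, hl.xua, hlam, hDz, a1]
  · linarith only [hb.zz, hb.u12, hb.ux2, hb.uax, h112, hl.xvb, hl.xpq, hlam, hDz, a1]
  · linarith only [hb.zz, hb.v2y, hb.be1, h112, hl.xvb, hlam, hDz, a1]
  · linarith only [hb.ZM, hb.v2y, hb.be1, h112, hl.xA, hD, a1]
  · rcases t12 with a2 | a2 | a2 | a2 | a2 | a2 | a2
    · linarith only [h122, hDL, a2]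
    · linarith only [hb.zz, hb.u12, hb.ux2, hb.uax, hb.v2y, h122, hl.xua, hlam, hDz, a2]
    · linarith only [hb.zz, hb.vb2, h122, hl.xvb, hl.xpq, hlam, hDz, a2]
    · linarith only [hb.M0, hb.ZM, hb.v2y, hb.be1, h112, h122, hl.xua, hl.xA, hDL, hD, a1, a2]
    · linarith only [hb.M0, hb.ZM, hb.al0, h122, hl.xua, hl.xpq, hD, a2]
    · linarith only [hb.zz, hb.v2y, h112, h122, hl.xua, hDL, hl3, hDz, a1, a2]
    · linarith only [hb.M0, hb.ZM, h112, h122, hl.xua, hl.xpq, hDL, hD, a1, a2]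
  · rcases t12 with a2 | a2 | a2 | a2 | a2 | a2 | a2
    · linarith only [h122, hDL, a2]
    · linarith only [hb.zz, hb.u12, hb.ux2, hb.uax, hb.v2y, h122, hl.xua, hlam, hDz, a2]
    · linarith only [hb.zz, hb.vb2, h122, hl.xvb, hl.xpq, hlam, hDz, a2]
    · linarith only [hb.ZM, hb.al0, hb.v2y, h122, hl.xA, hD, a2]
    · linarith only [hb.M0, hb.ZM, hb.al0, h122, hl.xua, hl.xpq, hD, a2]
    · linarith only [hb.zz, hb.v2y, h112, h122, hl.xvb, hDL, hlam, hDz, a1, a2]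
    · linarith only [hb.zz, h112, h122, hl.xvb, hl.xpq, hDL, hl3, hDz, a1, a2]

theorem rl2c_EN_i1_o {th lam y z D L MB m11 u1 u2 ux ua al v2 vb1 vb be : ℝ}
    (hb : MB0 th lam y z MB u1 u2 ux ua al v2 vb be) (h112 : m11 ≤ 2)
    (hl : L2c th y MB u1 ua al vb be) (hDL : D + L + 2 ≤ th) (hl3 : 3 ≤ lam)
    (o1 : 4 * lam + y + 4 * u1 ≤ 2 * th) (o3 : lam + u1 + 3 ≤ th) (vb1a : vb1 ≤ v2)
    (vb1b : vb ≤ vb1) (vb1c : y + vb1 ≤ v2 + vb + be)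
    (o4 : 7 * lam + y + 7 * u1 + v2 + vb1 + vb ≤ 2 * th) (hL0 : 0 ≤ L) (hD : D ≤ 1)
    (t11 : FT th D L m11 (vb - ua) (y - vb - be) al) : False := by
  rcases t11 with a1 | a1 | a1 | a1 | a1 | a1 | a1
  · linarith only [h112, hDL, a1]
  · linarith only [hb.u12, hb.ux2, hb.uax, h112, hl.xua, hl.xpq, hl3, o3, vb1a, vb1b, o4, hD, a1]
  · linarith only [hb.u12, hb.ux2, hb.uax, h112, hl.xua, hl.xvb, hl.xpq, hl3, o1, hD, a1]
  · linarith only [hb.u12, hb.uax, hb.al1, hb.eU, hb.v2y, h112, hl.xua, hl.xvb, hl3, vb1b, vb1c, o4, hD, a1]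
  · linarith only [hb.uax, hb.eU, h112, hl.xua, hl.xpq, hDL, hl3, o1, hL0, hD, a1]
  · linarith only [hb.u12, hb.uax, hb.al1, hb.eU, hb.v2y, h112, hl.xua, hl.xvb, hDL, hl3, vb1b, vb1c, o4, hD, a1]
  · linarith only [hb.u12, hb.uax, hb.al1, hb.eU, hb.v2y, h112, hl.xua, hl.xvb, hDL, hl3, vb1b, vb1c, o4, hD, a1]

theorem rl2c_EN_i1_i {th lam y z MB u1 u2 ux ua al v2 vb be : ℝ}
    (hb : MB0 th lam y z MB u1 u2 ux ua al v2 vb be) (hl : L2c th y MB u1 ua al vb be)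
    (hl3 : 3 ≤ lam) (in1 : 4 * lam + 4 * y + u1 ≤ 2 * th) : False := by
  linarith only [hb.M2, hb.al0, hb.u12, hb.ux2, hb.uax, hb.v2y, hb.be1, hl.xua, hl.xA, hl3, in1]

theorem rl3c_EN {th lam y z D L MB m11 m12 u1 u2 ux ua al v2 vb be : ℝ}
    (hb : MB0 th lam y z MB u1 u2 ux ua al v2 vb be) (h112 : m11 ≤ 2) (h122 : m12 ≤ 2)
    (hl : L3c th lam y MB u1 ua al vb be) (hDL : D + L + 2 ≤ th) (hua : 0 ≤ ua) (hD : D ≤ 1)
    (hDz : D ≤ z) (t11 : FT th D L m11 (vb - ua) (y - vb - be) al)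
    (t12 : FT th D L m12 (v2 - u1) (v2 + be - y) (u1 - ua - al)) : False := by
  rcases t11 with a1 | a1 | a1 | a1 | a1 | a1 | a1
  · linarith only [h112, hDL, a1]
  · linarith only [hb.l2, hb.zz, hb.v2y, hb.vb2, h112, hua, hDz, a1]
  · linarith only [hb.zM, hb.uy, hb.u12, hb.ux2, hb.uax, h112, hl.xvb, hl.xl3, hDz, a1]
  · linarith only [hb.zM, hb.v2y, hb.be1, h112, hl.xvb, hl.xl3, hDz, a1]
  · linarith only [hb.l2, hb.zz, hb.uy, hb.uax, hb.eU, h112, hua, hDz, a1]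
  · rcases t12 with a2 | a2 | a2 | a2 | a2 | a2 | a2
    · linarith only [h122, hDL, a2]
    · linarith only [hb.M0, hb.v2y, h122, hl.xyM, hl.xuz, hD, a2]
    · linarith only [hb.zM, hb.uy, hb.vb2, h122, hl.xvb, hl.xl3, hDz, a2]
    · linarith only [hb.zM, hb.v2y, h122, hl.xl3, hl.xbe, hDz, a2]
    · linarith only [hb.M0, hb.ZM, hb.uy, h122, hl.xeU, hD, a2]
    · linarith only [hb.l2, hb.zz, hb.v2y, h112, h122, hDL, hua, hDz, a1, a2]
    · linarith only [hb.zz, hb.uy, h112, h122, hl.xl3, hDL, hua, hDz, a1, a2]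
  · rcases t12 with a2 | a2 | a2 | a2 | a2 | a2 | a2
    · linarith only [h122, hDL, a2]
    · linarith only [hb.M0, hb.v2y, h122, hl.xyM, hl.xuz, hD, a2]
    · linarith only [hb.zM, hb.uy, hb.vb2, h122, hl.xvb, hl.xl3, hDz, a2]
    · linarith only [hb.zM, hb.v2y, h122, hl.xl3, hl.xbe, hDz, a2]
    · linarith only [hb.M0, hb.ZM, hb.uy, h122, hl.xeU, hD, a2]
    · linarith only [hb.zM, hb.v2y, h112, h122, hl.xvb, hl.xl3, hDL, hDz, a1, a2]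
    · linarith only [hb.zM, hb.uy, h112, h122, hl.xvb, hl.xl3, hDL, hDz, a1, a2]

theorem rl2a_EL {th lam y z D L MB m11 m12 u1 u2 ux ua al v2 vb be sy ay cy : ℝ}
    (hb : MB0 th lam y z MB u1 u2 ux ua al v2 vb be) (h112 : m11 ≤ 2) (h122 : m12 ≤ 2)
    (hl : L2a y MB u1 ua vb) (hDL : D + L + 2 ≤ th) (hy : LY sy ay cy) (hyp1 : sy < ua)
    (hD : D ≤ 0) (t12 : FT th (D + ay) (L - sy) m12 (v2 - u1) (v2 + be - y) (u1 - ua - al))
    (a11 : FT th D L m11 (ua - vb - sy) (y - vb - be) al) : False := by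
  rcases a11 with a1 | a1 | a1 | a1 | a1 | a1 | a1
  · linarith only [h112, hDL, a1]
  · linarith only [hb.ZM, hb.uy, hb.u12, hb.ux2, hb.uax, h112, hl.xvb, hy.a1, hy.say, hD, a1]
  · linarith only [hb.M0, hb.ZM, hb.v2y, hb.vb2, h112, hyp1, hD, a1]
  · linarith only [hb.ZM, hb.v2y, hb.be1, h112, hl.xvb, hD, a1]
  · linarith only [hb.M0, hb.ZM, hb.uy, hb.uax, hb.eU, h112, hl.xua, hD, a1]
  · rcases t12 with a2 | a2 | a2 | a2 | a2 | a2 | a2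
    · linarith only [h122, hDL, hy.say, a2]
    · linarith only [hb.M0, hb.ZM, hb.u12, hb.ux2, hb.uax, hb.v2y, h122, hy.say, hyp1, hD, a2]
    · linarith only [hb.ZM, hb.uax, hb.eU, hb.be1, h112, h122, hl.xvb, hl.xpq, hDL, hy.say, hD, a1, a2]
    · linarith only [hb.ZM, hb.uax, hb.eU, hb.v2y, h112, h122, hl.xvb, hl.xpq, hDL, hy.say, hD, a1, a2]
    · linarith only [hb.M0, hb.ZM, hb.uy, hb.al0, h122, hy.say, hyp1, hD, a2]
    · linarith only [hb.ZM, hb.v2y, h112, h122, hl.xvb, hDL, hy.say, hD, a1, a2]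
    · linarith only [hb.ZM, h112, h122, hl.xvb, hl.xpq, hDL, hy.say, hD, a1, a2]
  · rcases t12 with a2 | a2 | a2 | a2 | a2 | a2 | a2
    · linarith only [h122, hDL, hy.say, a2]
    · linarith only [hb.M0, hb.ZM, hb.u12, hb.ux2, hb.uax, hb.v2y, h122, hy.say, hyp1, hD, a2]
    · linarith only [hb.M0, hb.ZM, hb.uax, hb.eU, hb.be1, h112, h122, hl.xpq, hDL, hy.say, hyp1, hD, a1, a2]
    · linarith only [hb.M0, hb.ZM, hb.uax, hb.eU, hb.v2y, h112, h122, hl.xpq, hDL, hy.say, hyp1, hD, a1, a2]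
    · linarith only [hb.M0, hb.ZM, hb.uy, hb.al0, h122, hy.say, hyp1, hD, a2]
    · linarith only [hb.M0, hb.ZM, hb.v2y, h112, h122, hDL, hy.say, hyp1, hD, a1, a2]
    · linarith only [hb.M0, hb.ZM, hb.uy, h112, h122, hDL, hy.say, hyp1, hD, a1, a2]

theorem rl2c_EL_i0 {th lam y z D L MB m11 m12 u1 u2 ux ua al v2 vb be sy ay cy : ℝ}
    (hb : MB0 th lam y z MB u1 u2 ux ua al v2 vb be) (hi1 : vb = v2) (hi2 : y = vb + be)
    (h112 : m11 ≤ 2) (h122 : m12 ≤ 2) (hl : L2c th y MB u1 ua al vb be) (hDL : D + L + 2 ≤ th)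
    (hy : LY sy ay cy) (hyp1 : sy < ua) (hsL : sy ≤ L) (hD : D ≤ 0)
    (t11 : FT th (D + ay) (L - sy) m11 (vb - ua) (y - vb - be) al)
    (t12 : FT th (D + ay) (L - sy) m12 (v2 - u1) (v2 + be - y) (u1 - ua - al)) : False := by
  rcases t11 with a1 | a1 | a1 | a1 | a1 | a1 | a1
  · linarith only [h112, hDL, hy.say, a1]
  · linarith only [hb.l2, hb.z0, hb.zz, hb.v2y, hi1, h112, hy.say, hyp1, hD, a1]
  · linarith only [hb.ZM, hb.u12, hb.ux2, hb.uax, hb.al1, hi2, h112, hl.xpq, hl.xA, hy.a2, hD, a1]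
  · linarith only [hi2, h112, hDL, hy.say, hsL, a1]
  · linarith only [hb.ZM, hb.v2y, hi1, hi2, h112, hl.xA, hy.a2, hD, a1]
  · rcases t12 with a2 | a2 | a2 | a2 | a2 | a2 | a2
    · linarith only [h122, hDL, hy.say, a2]
    · linarith only [hb.l2, hb.z0, hb.zz, hb.uax, hb.eU, hb.v2y, hi1, hi2, h112, h122, hDL, hy.say, hyp1, hD, a1, a2]
    · linarith only [hb.ZM, hb.uy, hb.al0, hb.be1, h122, hl.xA, hy.a2, hD, a2]
    · linarith only [hb.eZ, hi1, h122, hDL, hy.say, hsL, a2]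
    · linarith only [hb.M0, hb.ZM, hb.uy, hb.al0, h122, hy.say, hyp1, hD, a2]
    · linarith only [hb.l2, hb.z0, hb.zz, hb.v2y, h112, h122, hDL, hy.say, hyp1, hD, a1, a2]
    · linarith only [hb.l2, hb.z0, hb.zz, h112, h122, hl.xpq, hDL, hy.say, hyp1, hD, a1, a2]
  · linarith only [hb.ZM, hb.u12, hb.ux2, hb.uax, hi2, h112, hl.xpq, hl.xA, hDL, hy.a2, hy.say, hD, a1]

theorem rl2c_EL_i1 {th lam y z D L MB m11 m12 u1 u2 ux ua al v2 vb be sy ay cy : ℝ}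
    (hb : MB0 th lam y z MB u1 u2 ux ua al v2 vb be) (h112 : m11 ≤ 2) (h122 : m12 ≤ 2)
    (hl : L2c th y MB u1 ua al vb be) (hDL : D + L + 2 ≤ th) (hl3 : 3 ≤ lam) (hy : LY sy ay cy)
    (hyp1 : sy < ua) (hsL : sy ≤ L) (hD : D ≤ 0)
    (t12 : FT th (D + ay) (L - sy) m12 (v2 - u1) (v2 + be - y) (u1 - ua - al))
    (a11 : FT th D L m11 (ua - vb - sy) (y - vb - be) al) : False := by
  rcases t12 with a1 | a1 | a1 | a1 | a1 | a1 | a1
  · linarith only [h122, hDL, hy.say, a1]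
  · linarith only [hb.M0, hb.ZM, hb.u12, hb.ux2, hb.uax, hb.v2y, h122, hy.say, hyp1, hD, a1]
  · linarith only [hb.ZM, hb.al0, hb.be1, h122, hl.xpq, hl.xA, hy.a2, hD, a1]
  · linarith only [hb.ZM, hb.al0, hb.v2y, h122, hl.xA, hy.a2, hD, a1]
  · linarith only [hb.M0, hb.ZM, hb.uy, hb.al0, h122, hy.say, hyp1, hD, a1]
  · rcases a11 with a2 | a2 | a2 | a2 | a2 | a2 | a2
    · linarith only [h112, hDL, a2]
    · linarith only [hb.M0, hb.ZM, hb.uy, hb.u12, hb.ux2, hb.uax, h112, hl.xvb, hy.a1, hy.say, hD, a2]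
    · linarith only [hb.M0, hb.ZM, hb.v2y, hb.vb2, h112, hyp1, hD, a2]
    · linarith only [hb.M0, hb.ZM, hb.al0, hb.v2y, h112, h122, hl.xvb, hDL, hy.say, hyp1, hD, a1, a2]
    · linarith only [hb.ZM, hb.v2y, hb.be1, h112, hl.xA, hD, a2]
    · linarith only [hb.z0, hb.zz, hb.v2y, h112, h122, hl.xvb, hDL, hl3, hy.say, hD, a1, a2]
    · linarith only [hb.M0, hb.ZM, hb.v2y, h112, h122, hDL, hy.say, hyp1, hD, a1, a2]
  · rcases a11 with a2 | a2 | a2 | a2 | a2 | a2 | a2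
    · linarith only [h112, hDL, a2]
    · linarith only [hb.M0, hb.ZM, hb.al0, h112, h122, hl.xvb, hl.xpq, hl.xA, hDL, hy.say, hD, a1, a2]
    · linarith only [hb.M0, hb.ZM, hb.v2y, hb.vb2, h112, hyp1, hD, a2]
    · linarith only [hb.M0, hb.ZM, hb.al0, h112, h122, hl.xvb, hl.xpq, hDL, hy.say, hyp1, hD, a1, a2]
    · linarith only [hb.M0, hb.ZM, hb.uy, h112, h122, hl.xua, hl.xA, hDL, hy.say, hsL, hD, a1, a2]
    · linarith only [hb.M0, hb.ZM, h112, h122, hl.xvb, hl.xpq, hDL, hy.say, hD, a1, a2]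
    · linarith only [hb.M0, hb.ZM, hb.uy, h112, h122, hDL, hy.say, hyp1, hD, a1, a2]

theorem rl3c_EL_g {th lam y z D L MB m11 m12 u1 u2 ux ua al v2 vb be sy ay cy : ℝ}
    (hb : MB0 th lam y z MB u1 u2 ux ua al v2 vb be) (h112 : m11 ≤ 2) (h122 : m12 ≤ 2)
    (hl : L3c th lam y MB u1 ua al vb be) (hDL : D + L + 2 ≤ th) (hua : 0 ≤ ua) (hlam : 4 ≤ lam)
    (hy : LY sy ay cy) (hyp1 : sy < MB + vb + 2) (hD : D ≤ 0)
    (t11 : FT th (D + ay) (L - sy) m11 (vb - ua) (y - vb - be) al)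
    (t12 : FT th (D + ay) (L - sy) m12 (v2 - u1) (v2 + be - y) (u1 - ua - al)) : False := by
  rcases t11 with a1 | a1 | a1 | a1 | a1 | a1 | a1
  · linarith only [h112, hDL, hy.say, a1]
  · linarith only [hb.z0, hb.zz, hb.v2y, hb.vb2, h112, hua, hlam, hy.a2, hD, a1]
  · linarith only [hb.z0, hb.zM, hb.uy, hb.u12, hb.ux2, hb.uax, h112, hlam, hy.say, hyp1, hD, a1]
  · linarith only [hb.z0, hb.zM, hb.v2y, hb.be1, h112, hlam, hy.say, hyp1, hD, a1]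
  · linarith only [hb.z0, hb.zz, hb.uy, hb.uax, hb.eU, h112, hua, hlam, hy.a2, hD, a1]
  · rcases t12 with a2 | a2 | a2 | a2 | a2 | a2 | a2
    · linarith only [h122, hDL, hy.say, a2]
    · linarith only [hb.M0, hb.v2y, h122, hl.xyM, hl.xuz, hy.a2, hD, a2]
    · linarith only [hb.z0, hb.zM, hb.uy, hb.vb2, h122, hlam, hy.say, hyp1, hD, a2]
    · linarith only [hb.z0, hb.zM, hb.v2y, hb.eZ, h122, hlam, hy.say, hyp1, hD, a2]
    · linarith only [hb.z0, hb.zz, hb.uy, hb.al0, h122, hua, hlam, hy.a2, hD, a2]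
    · linarith only [hb.z0, hb.zz, hb.v2y, h112, h122, hDL, hua, hlam, hy.a2, hy.say, hD, a1, a2]
    · linarith only [hb.z0, hb.zz, hb.uy, h112, h122, hDL, hua, hlam, hy.a2, hy.say, hD, a1, a2]
  · rcases t12 with a2 | a2 | a2 | a2 | a2 | a2 | a2
    · linarith only [h122, hDL, hy.say, a2]
    · linarith only [hb.M0, hb.v2y, h122, hl.xyM, hl.xuz, hy.a2, hD, a2]
    · linarith only [hb.z0, hb.zM, hb.uy, hb.vb2, h122, hlam, hy.say, hyp1, hD, a2]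
    · linarith only [hb.z0, hb.zM, hb.v2y, hb.eZ, h122, hlam, hy.say, hyp1, hD, a2]
    · linarith only [hb.z0, hb.zz, hb.uy, hb.al0, h122, hua, hlam, hy.a2, hD, a2]
    · linarith only [hb.v2y, h112, h122, hl.xyM, hDL, hy.say, hyp1, hD, a1, a2]
    · linarith only [hb.ZM, hb.uy, h112, h122, hDL, hy.say, hyp1, hD, a1, a2]

theorem rl3c_EL_o {th lam y z D L MB m11 m12 u1 u2 ux ua al v2 vb be sy ay cy : ℝ}
    (hb : MB0 th lam y z MB u1 u2 ux ua al v2 vb be) (h112 : m11 ≤ 2) (h122 : m12 ≤ 2)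
    (hl : L3c th lam y MB u1 ua al vb be) (hDL : D + L + 2 ≤ th) (hua : 0 ≤ ua)
    (o1 : 4 * lam + y + 4 * u1 ≤ 2 * th) (o2 : 5 * lam + y + 5 * u1 + vb ≤ 2 * th)
    (o3 : lam + u1 + 3 ≤ th) (hy : LY sy ay cy) (hyp1 : sy < MB + vb + 2) (hsL : sy ≤ L)
    (hD : D ≤ 0) (t11 : FT th (D + ay) (L - sy) m11 (vb - ua) (y - vb - be) al)
    (t12 : FT th (D + ay) (L - sy) m12 (v2 - u1) (v2 + be - y) (u1 - ua - al)) : False := by
  rcases t12 with a1 | a1 | a1 | a1 | a1 | a1 | a1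
  · linarith only [h122, hDL, hy.say, a1]
  · linarith only [hb.M0, hb.v2y, h122, hl.xyM, hl.xuz, hy.a2, hD, a1]
  · linarith only [hb.l2, hb.M2, hb.vb2, h122, o3, hy.say, hyp1, hD, a1]
  · rcases t11 with a2 | a2 | a2 | a2 | a2 | a2 | a2
    · linarith only [h112, hDL, hy.say, a2]
    · linarith only [hb.v2y, hb.eZ, h112, h122, hl.xl3, hl.xu1, hua, o2, o3, hy.a2, hD, a1, a2]
    · linarith only [hb.l2, hb.M2, hb.u12, hb.ux2, hb.uax, h112, o3, hy.say, hyp1, hD, a2]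
    · linarith only [hb.v2y, h112, h122, hl.xyM, hDL, hy.say, hyp1, hsL, hD, a1, a2]
    · linarith only [hb.uax, hb.eU, h112, hl.xl3, hua, o3, hy.a2, hD, a2]
    · linarith only [hb.uax, hb.eU, hb.v2y, h112, h122, hl.xl3, hl.xyM, hl.xeU, hDL, hua, o1, hy.a2, hy.say, hD, a1, a2]
    · linarith only [hb.M2, hb.ZM, hb.uax, hb.eU, hb.v2y, h112, h122, hl.xvb, hl.xl3, hDL, o2, hy.say, hyp1, hsL, hD, a1, a2]
  · linarith only [h122, hl.xl3, hl.xyM, hl.xeU, o3, hy.a2, hD, a1]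
  · rcases t11 with a2 | a2 | a2 | a2 | a2 | a2 | a2
    · linarith only [h112, hDL, hy.say, a2]
    · linarith only [hb.v2y, hb.vb2, h112, hl.xl3, hl.xu1, hua, o2, hy.a2, hD, a2]
    · linarith only [hb.l2, hb.M2, hb.u12, hb.ux2, hb.uax, h112, o3, hy.say, hyp1, hD, a2]
    · linarith only [hb.M0, hb.v2y, h112, h122, hl.xyM, hl.xeU, hDL, hy.a2, hy.say, hyp1, hD, a1, a2]
    · linarith only [hb.uax, hb.eU, h112, hl.xl3, hua, o3, hy.a2, hD, a2]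
    · linarith only [hb.z0, hb.zz, hb.v2y, h112, h122, hl.xl3, hDL, hua, hy.a2, hy.say, hD, a1, a2]
    · linarith only [hb.v2y, h112, h122, hl.xyM, hDL, hy.say, hyp1, hD, a1, a2]
  · linarith only [hb.M2, hb.ZM, h122, hl.xl3, hl.xuz, hl.xbe, hl.xeU, hDL, o2, hy.say, hyp1, hD, a1]

theorem rl3c_EL_i {th lam y z MB u1 u2 ux ua al v2 vb be : ℝ}
    (hb : MB0 th lam y z MB u1 u2 ux ua al v2 vb be) (hl : L3c th lam y MB u1 ua al vb be)
    (in1 : 4 * lam + 4 * y + u1 ≤ 2 * th) : False := by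
  linarith only [hb.M2, hb.uy, hl.xl3, hl.xyM, hl.xuz, in1]

theorem lam3_2c_o {th lam y z MB u1 u2 ux ua al v2 vb1 vb be : ℝ}
    (hb : MB0 th lam y z MB u1 u2 ux ua al v2 vb be) (hl : L2c th y MB u1 ua al vb be)
    (vb1b : vb ≤ vb1) (vb1c : y + vb1 ≤ v2 + vb + be)
    (o4 : 6 * lam + y + 6 * u1 + v2 + vb1 + vb ≤ th) : False := by
  linarith only [hb.l2, hb.M2, hb.al0, hb.u12, hb.ux2, hb.uax, hl.xua, hl.xvb, hl.xA, vb1b, vb1c, o4]

theorem lam3_2c_i {th lam y z MB u1 u2 ux ua al v2 vb be : ℝ}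
    (hb : MB0 th lam y z MB u1 u2 ux ua al v2 vb be) (hl : L2c th y MB u1 ua al vb be)
    (in3 : lam + y + 3 ≤ th) (in1 : 3 * lam + 3 * y + u1 ≤ th) : False := by
  linarith only [hb.l2, hb.M2, hb.u12, hb.uax, hb.al1, hb.eU, hb.v2y, hb.be1, hl.xua, hl.xA, in3, in1]

end Pool.Agent.Exact
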