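import Pool.Agent.Lib_helper43.NC.MxRL
import Pool.Agent.Lib_helper43.NC.MxE
import Pool.Agent.Lib_helper43.NC.MxR2a
import Pool.Agent.Lib_helper43.NC.MxR2c
import Pool.Agent.Lib_helper43.NC.MxR3c

/-!
# The regions for all leaves with hubs of both types
-/

set_option autoImplicit false
set_option linter.unusedVariables false

namespace Pool.Agent.Exact

/-- facts if `2θ - n + 1 ≤ Λ` -/
def HL (i : ℕ) (th lam y u1 v2 vb1 vb Λ : ℝ) : Prop :=
  Λ ≤ lam ∨ (lam ≤ Λ ∧ 2 * th + y ≤ Λ * (th - lam - u1) ∧
    3 * th + y + vb ≤ (Λ + 1) * (th - lam - u1) ∧ 3 ≤ th - lam - u1 ∧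
    (1 ≤ i → 5 * th + y + v2 + vb1 + vb ≤ (Λ + 3) * (th - lam - u1))) ∨
  (lam ≤ Λ ∧ 3 ≤ th - lam - y ∧ 2 * th + u1 ≤ Λ * (th - lam - y))

/-- all data of a leaf -/
structure MXD (i j : ℕ) (th lam y z MB MA Qc Pc m11 m12 u1 u2 ux ua al v2 vb1 vb be : ℝ) :
    Prop where
  hb : MB0 th lam y z MB u1 u2 ux ua al v2 vb be
  hj0 : j = 0 → ua = u1 ∧ al = 0 ∧ MA = MB
  hj : 1 ≤ j → MJ th lam y z MB MA
  h1 : 1 ≤ i → vb1 ≤ v2 ∧ vb ≤ vb1 ∧ y - v2 + (vb1 - vb) ≤ be
  i0 : i = 0 → vb = v2 ∧ y = vb + be
  m110 : 0 ≤ m11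
  m112 : m11 ≤ 2
  m120 : 0 ≤ m12
  m122 : m12 ≤ 2
  m11i : m11 = 0 ∨ 1 ≤ m11
  mm : i = 0 → j = 0 → m12 = m11
  leaf : (L2a y MB u1 ua vb ∧ Qc < vb + MB ∧ Pc < ua) ∨
    (L2c th y MB u1 ua al vb be ∧ (1 ≤ i → 3 ≤ lam) ∧ Qc < ua + 2 ∧ Qc ≤ th - 2 ∧ Pc < ua) ∨
    (L3c th lam y MB u1 ua al vb be ∧ Qc < vb + MB ∧ Pc < vb + MB + 2 ∧ Pc ≤ th - MB - 2)
  H3 : HL i th lam y u1 v2 vb1 vb 3
  H4 : HL i th lam y u1 v2 vb1 vb 4

theorem MXD.rlRN {i j : ℕ} {th lam y z MB MA Qc Pc m11 m12 u1 u2 ux ua al v2 vb1 vb be nb D L : ℝ}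
    (d : MXD i j th lam y z MB MA Qc Pc m11 m12 u1 u2 ux ua al v2 vb1 vb be)
    (hua : 0 ≤ ua) (hDL : D + L + 2 ≤ th) (hL0 : 0 ≤ L) (hn1 : 1 ≤ nb)
    (hD : nb + D ≤ z)
    (t11 : FT th D L m11 (vb - ua) (y - vb - be) al)
    (t12 : FT th D L m12 (v2 - u1) (v2 + be - y) (u1 - ua - al)) : False := by
  rcases d.leaf with ⟨hl, hQ, hP⟩ | ⟨hl, hi3, hQ, hQ', hP⟩ | ⟨hl, hQ, hP, hP'⟩
  · exact rl2a_RN (th := th) (lam := lam) (y := y) (z := z) (nb := nb) (D := D) (L := L)
      (MB := MB) (m11 := m11) (m12 := m12) (u1 := u1) (u2 := u2) (ux := ux) (ua := ua) (al := al)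
      (v2 := v2) (vb := vb) (be := be) (hb := d.hb) (h112 := d.m112) (h122 := d.m122) (hl := hl)
      (hDL := hDL) (hn1 := hn1) (hD := hD) (t11 := t11) (t12 := t12)
  · rcases Nat.eq_zero_or_pos i with h0 | h0
    · obtain ⟨hi1, hi2⟩ := d.i0 h0
      exact rl2c_RN_i0 (th := th) (lam := lam) (y := y) (z := z) (nb := nb) (D := D) (L := L)
        (MB := MB) (m11 := m11) (m12 := m12) (u1 := u1) (u2 := u2) (ux := ux) (ua := ua)
        (al := al) (v2 := v2) (vb := vb) (be := be) (hb := d.hb) (hi1 := by linarith)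
        (hi2 := by linarith) (h112 := d.m112) (h122 := d.m122) (hl := hl) (hDL := hDL)
        (hL0 := hL0) (hn1 := hn1) (hD := hD) (t11 := t11) (t12 := t12)
    · have hl3 := hi3 h0
      exact rl2c_RN_i1 (th := th) (lam := lam) (y := y) (z := z) (nb := nb) (D := D) (L := L)
        (MB := MB) (m11 := m11) (m12 := m12) (u1 := u1) (u2 := u2) (ux := ux) (ua := ua)
        (al := al) (v2 := v2) (vb := vb) (be := be) (hb := d.hb) (h112 := d.m112) (h122 := d.m122)
        (hl := hl) (hDL := hDL) (hl3 := by linarith) (hn1 := hn1) (hD := hD) (t11 := t11)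
        (t12 := t12)
  · exact rl3c_RN (th := th) (lam := lam) (y := y) (z := z) (nb := nb) (D := D) (L := L)
      (MB := MB) (m11 := m11) (m12 := m12) (u1 := u1) (u2 := u2) (ux := ux) (ua := ua) (al := al)
      (v2 := v2) (vb := vb) (be := be) (hb := d.hb) (h112 := d.m112) (h122 := d.m122) (hl := hl)
      (hDL := hDL) (hua := hua) (hn1 := hn1) (hD := hD) (t11 := t11) (t12 := t12)

theorem MXD.rlRL {i j : ℕ} {th lam y z MB MA Qc Pc m11 m12 u1 u2 ux ua al v2 vb1 vb be nb D L sy ay cy : ℝ}
    (d : MXD i j th lam y z MB MA Qc Pc m11 m12 u1 u2 ux ua al v2 vb1 vb be)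
    (hua : 0 ≤ ua) (hDL : D + L + 2 ≤ th) (hn1 : 1 ≤ nb) (hD : D + nb + cy ≤ z)
    (hy : LY sy ay cy) (hs : sy ≤ Pc) (hsL : sy ≤ L)
    (t11 : FT th (D + ay) (L - sy) m11 (vb - ua) (y - vb - be) al)
    (t12 : FT th (D + ay) (L - sy) m12 (v2 - u1) (v2 + be - y) (u1 - ua - al))
    (a11 : FT th D L m11 (ua - vb - sy) (y - vb - be) al) : False := by
  rcases d.leaf with ⟨hl, hQ, hP⟩ | ⟨hl, hi3, hQ, hQ', hP⟩ | ⟨hl, hQ, hP, hP'⟩
  · exact rl2a_RL (th := th) (lam := lam) (y := y) (z := z) (nb := nb) (D := D) (L := L)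
      (MB := MB) (m11 := m11) (m12 := m12) (u1 := u1) (u2 := u2) (ux := ux) (ua := ua) (al := al)
      (v2 := v2) (vb := vb) (be := be) (sy := sy) (ay := ay) (cy := cy) (hb := d.hb)
      (h112 := d.m112) (h122 := d.m122) (hl := hl) (hDL := hDL) (hy := hy) (hyp1 := by linarith)
      (hn1 := hn1) (hD := by linarith) (t12 := t12) (a11 := a11)
  · rcases Nat.eq_zero_or_pos i with h0 | h0
    · obtain ⟨hi1, hi2⟩ := d.i0 h0
      exact rl2c_RL_i0 (th := th) (lam := lam) (y := y) (z := z) (nb := nb) (D := D) (L := L)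
        (MB := MB) (m11 := m11) (m12 := m12) (u1 := u1) (u2 := u2) (ux := ux) (ua := ua)
        (al := al) (v2 := v2) (vb := vb) (be := be) (sy := sy) (ay := ay) (cy := cy) (hb := d.hb)
        (hi1 := by linarith) (hi2 := by linarith) (h112 := d.m112) (h122 := d.m122) (hl := hl)
        (hDL := hDL) (hy := hy) (hyp1 := by linarith) (hsL := hsL) (hn1 := hn1)
        (hD := by linarith) (t11 := t11) (t12 := t12)
    · have hl3 := hi3 h0
      exact rl2c_RL_i1 (th := th) (lam := lam) (y := y) (z := z) (nb := nb) (D := D) (L := L)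
        (MB := MB) (m11 := m11) (m12 := m12) (u1 := u1) (u2 := u2) (ux := ux) (ua := ua)
        (al := al) (v2 := v2) (vb := vb) (be := be) (sy := sy) (ay := ay) (cy := cy) (hb := d.hb)
        (h112 := d.m112) (h122 := d.m122) (hl := hl) (hDL := hDL) (hl3 := by linarith) (hy := hy)
        (hyp1 := by linarith) (hsL := hsL) (hn1 := hn1) (hD := by linarith) (t11 := t11)
        (t12 := t12)
  · exact rl3c_RL (th := th) (lam := lam) (y := y) (z := z) (nb := nb) (D := D) (L := L)
      (MB := MB) (m11 := m11) (m12 := m12) (u1 := u1) (u2 := u2) (ux := ux) (ua := ua) (al := al)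
      (v2 := v2) (vb := vb) (be := be) (sy := sy) (ay := ay) (cy := cy) (hb := d.hb)
      (h112 := d.m112) (h122 := d.m122) (hl := hl) (hDL := hDL) (hua := hua) (hy := hy)
      (hyp1 := by linarith) (hn1 := hn1) (hD := by linarith) (t11 := t11) (t12 := t12)

theorem MXD.rlEN {i j : ℕ} {th lam y z MB MA Qc Pc m11 m12 u1 u2 ux ua al v2 vb1 vb be D L : ℝ}
    (d : MXD i j th lam y z MB MA Qc Pc m11 m12 u1 u2 ux ua al v2 vb1 vb be)
    (hua : 0 ≤ ua) (hDL : D + L + 2 ≤ th) (hL0 : 0 ≤ L) (hD : D ≤ 1) (hDz : D ≤ z)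
    (t11 : FT th D L m11 (vb - ua) (y - vb - be) al)
    (t12 : FT th D L m12 (v2 - u1) (v2 + be - y) (u1 - ua - al)) : False := by
  rcases d.leaf with ⟨hl, hQ, hP⟩ | ⟨hl, hi3, hQ, hQ', hP⟩ | ⟨hl, hQ, hP, hP'⟩
  · rcases d.H3 with hH | ⟨hH, o1, o2, o3, o4⟩ | ⟨hH, i1, i2⟩
    · exact rl2a_EN_g (th := th) (lam := lam) (y := y) (z := z) (D := D) (L := L) (MB := MB)
        (m11 := m11) (m12 := m12) (u1 := u1) (u2 := u2) (ux := ux) (ua := ua) (al := al)
        (v2 := v2) (vb := vb) (be := be) (hb := d.hb) (h112 := d.m112) (h122 := d.m122) (hl := hl)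
        (hDL := hDL) (hlam := by linarith) (hD := hD) (hDz := hDz) (t11 := t11) (t12 := t12)
    · exact rl2a_EN_o (th := th) (lam := lam) (y := y) (z := z) (D := D) (L := L) (MB := MB)
        (m11 := m11) (m12 := m12) (u1 := u1) (u2 := u2) (ux := ux) (ua := ua) (al := al)
        (v2 := v2) (vb := vb) (be := be) (hb := d.hb) (h112 := d.m112) (h122 := d.m122) (hl := hl)
        (hDL := hDL) (o1 := by linarith) (o2 := by linarith) (hD := hD) (hDz := hDz) (t11 := t11)
        (t12 := t12)
    · exact rl2a_EN_i (th := th) (lam := lam) (y := y) (z := z) (D := D) (L := L) (MB := MB)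
        (m11 := m11) (u1 := u1) (u2 := u2) (ux := ux) (ua := ua) (al := al) (v2 := v2) (vb := vb)
        (be := be) (hb := d.hb) (h112 := d.m112) (hl := hl) (hDL := hDL) (in3 := by linarith)
        (in1 := by linarith) (hL0 := hL0) (hD := hD) (hDz := hDz) (t11 := t11)
  · rcases Nat.eq_zero_or_pos i with h0 | h0
    · obtain ⟨hi1, hi2⟩ := d.i0 h0
      exact rl2c_EN_i0 (th := th) (lam := lam) (y := y) (z := z) (D := D) (L := L) (MB := MB)
        (m11 := m11) (m12 := m12) (u1 := u1) (u2 := u2) (ux := ux) (ua := ua) (al := al)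
        (v2 := v2) (vb := vb) (be := be) (hb := d.hb) (hi1 := by linarith) (hi2 := by linarith)
        (h112 := d.m112) (h122 := d.m122) (hl := hl) (hDL := hDL) (hL0 := hL0) (hD := hD)
        (hDz := hDz) (t11 := t11) (t12 := t12)
    · have hl3 := hi3 h0
      obtain ⟨w1, w2, w3⟩ := d.h1 h0
      rcases d.H4 with hH | ⟨hH, o1, o2, o3, o4⟩ | ⟨hH, i1, i2⟩
      · exact rl2c_EN_i1_g (th := th) (lam := lam) (y := y) (z := z) (D := D) (L := L) (MB := MB)
          (m11 := m11) (m12 := m12) (u1 := u1) (u2 := u2) (ux := ux) (ua := ua) (al := al)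
          (v2 := v2) (vb := vb) (be := be) (hb := d.hb) (h112 := d.m112) (h122 := d.m122)
          (hl := hl) (hDL := hDL) (hl3 := by linarith) (hlam := by linarith) (hD := hD)
          (hDz := hDz) (t11 := t11) (t12 := t12)
      · have o5 := o4 h0
        exact rl2c_EN_i1_o (th := th) (lam := lam) (y := y) (z := z) (D := D) (L := L) (MB := MB)
          (m11 := m11) (u1 := u1) (u2 := u2) (ux := ux) (ua := ua) (al := al) (v2 := v2)
          (vb1 := vb1) (vb := vb) (be := be) (hb := d.hb) (h112 := d.m112) (hl := hl) (hDL := hDL)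
          (hl3 := by linarith) (o1 := by linarith) (o3 := by linarith) (vb1a := by linarith)
          (vb1b := by linarith) (vb1c := by linarith) (o4 := by linarith) (hL0 := hL0) (hD := hD)
          (t11 := t11)
      · exact rl2c_EN_i1_i (th := th) (lam := lam) (y := y) (z := z) (MB := MB) (u1 := u1)
          (u2 := u2) (ux := ux) (ua := ua) (al := al) (v2 := v2) (vb := vb) (be := be)
          (hb := d.hb) (hl := hl) (hl3 := by linarith) (in1 := by linarith)
  · exact rl3c_EN (th := th) (lam := lam) (y := y) (z := z) (D := D) (L := L) (MB := MB)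
      (m11 := m11) (m12 := m12) (u1 := u1) (u2 := u2) (ux := ux) (ua := ua) (al := al) (v2 := v2)
      (vb := vb) (be := be) (hb := d.hb) (h112 := d.m112) (h122 := d.m122) (hl := hl) (hDL := hDL)
      (hua := hua) (hD := hD) (hDz := hDz) (t11 := t11) (t12 := t12)

theorem MXD.rlEL {i j : ℕ} {th lam y z MB MA Qc Pc m11 m12 u1 u2 ux ua al v2 vb1 vb be D L sy ay cy : ℝ}
    (d : MXD i j th lam y z MB MA Qc Pc m11 m12 u1 u2 ux ua al v2 vb1 vb be)
    (hua : 0 ≤ ua) (hDL : D + L + 2 ≤ th) (hD : D ≤ 0)
    (hy : LY sy ay cy) (hs : sy ≤ Pc) (hsL : sy ≤ L)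
    (t11 : FT th (D + ay) (L - sy) m11 (vb - ua) (y - vb - be) al)
    (t12 : FT th (D + ay) (L - sy) m12 (v2 - u1) (v2 + be - y) (u1 - ua - al))
    (a11 : FT th D L m11 (ua - vb - sy) (y - vb - be) al) : False := by
  rcases d.leaf with ⟨hl, hQ, hP⟩ | ⟨hl, hi3, hQ, hQ', hP⟩ | ⟨hl, hQ, hP, hP'⟩
  · exact rl2a_EL (th := th) (lam := lam) (y := y) (z := z) (D := D) (L := L) (MB := MB)
      (m11 := m11) (m12 := m12) (u1 := u1) (u2 := u2) (ux := ux) (ua := ua) (al := al) (v2 := v2)
      (vb := vb) (be := be) (sy := sy) (ay := ay) (cy := cy) (hb := d.hb) (h112 := d.m112)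
      (h122 := d.m122) (hl := hl) (hDL := hDL) (hy := hy) (hyp1 := by linarith) (hD := hD)
      (t12 := t12) (a11 := a11)
  · rcases Nat.eq_zero_or_pos i with h0 | h0
    · obtain ⟨hi1, hi2⟩ := d.i0 h0
      exact rl2c_EL_i0 (th := th) (lam := lam) (y := y) (z := z) (D := D) (L := L) (MB := MB)
        (m11 := m11) (m12 := m12) (u1 := u1) (u2 := u2) (ux := ux) (ua := ua) (al := al)
        (v2 := v2) (vb := vb) (be := be) (sy := sy) (ay := ay) (cy := cy) (hb := d.hb)
        (hi1 := by linarith) (hi2 := by linarith) (h112 := d.m112) (h122 := d.m122) (hl := hl)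
        (hDL := hDL) (hy := hy) (hyp1 := by linarith) (hsL := hsL) (hD := hD) (t11 := t11)
        (t12 := t12)
    · have hl3 := hi3 h0
      exact rl2c_EL_i1 (th := th) (lam := lam) (y := y) (z := z) (D := D) (L := L) (MB := MB)
        (m11 := m11) (m12 := m12) (u1 := u1) (u2 := u2) (ux := ux) (ua := ua) (al := al)
        (v2 := v2) (vb := vb) (be := be) (sy := sy) (ay := ay) (cy := cy) (hb := d.hb)
        (h112 := d.m112) (h122 := d.m122) (hl := hl) (hDL := hDL) (hl3 := by linarith) (hy := hy)
        (hyp1 := by linarith) (hsL := hsL) (hD := hD) (t12 := t12) (a11 := a11)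
  · rcases d.H4 with hH | ⟨hH, o1, o2, o3, o4⟩ | ⟨hH, i1, i2⟩
    · exact rl3c_EL_g (th := th) (lam := lam) (y := y) (z := z) (D := D) (L := L) (MB := MB)
        (m11 := m11) (m12 := m12) (u1 := u1) (u2 := u2) (ux := ux) (ua := ua) (al := al)
        (v2 := v2) (vb := vb) (be := be) (sy := sy) (ay := ay) (cy := cy) (hb := d.hb)
        (h112 := d.m112) (h122 := d.m122) (hl := hl) (hDL := hDL) (hua := hua)
        (hlam := by linarith) (hy := hy) (hyp1 := by linarith) (hD := hD) (t11 := t11)
        (t12 := t12)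
    · exact rl3c_EL_o (th := th) (lam := lam) (y := y) (z := z) (D := D) (L := L) (MB := MB)
        (m11 := m11) (m12 := m12) (u1 := u1) (u2 := u2) (ux := ux) (ua := ua) (al := al)
        (v2 := v2) (vb := vb) (be := be) (sy := sy) (ay := ay) (cy := cy) (hb := d.hb)
        (h112 := d.m112) (h122 := d.m122) (hl := hl) (hDL := hDL) (hua := hua) (o1 := by linarith)
        (o2 := by linarith) (o3 := by linarith) (hy := hy) (hyp1 := by linarith) (hsL := hsL)
        (hD := hD) (t11 := t11) (t12 := t12)
    · exact rl3c_EL_i (th := th) (lam := lam) (y := y) (z := z) (MB := MB) (u1 := u1) (u2 := u2)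
        (ux := ux) (ua := ua) (al := al) (v2 := v2) (vb := vb) (be := be) (hb := d.hb) (hl := hl)
        (in1 := by linarith)

theorem MXD.xl {i j : ℕ} {th lam y z MB MA Qc Pc m11 m12 u1 u2 ux ua al v2 vb1 vb be D L sy ay cy : ℝ}
    (d : MXD i j th lam y z MB MA Qc Pc m11 m12 u1 u2 ux ua al v2 vb1 vb be)
    (hD : D ≤ 0) (hL1 : 1 ≤ L) (hLs : L ≤ sy) (hy : LY sy ay cy) (hs : sy ≤ Pc)
    (t11 : FT th (D + ay) (sy - L) m11 (vb - ua) (y - vb - be) al)
    (t12 : FT th (D + ay) (sy - L) m12 (v2 - u1) (v2 + be - y) (u1 - ua - al))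
    (a11 : FT th D L m11 (ua - vb - sy) (y - vb - be) al)
    (r12 : FR th D L m12 (v2 - u1) (v2 + be - y) (u1 - ua - al) sy) : False := by
  rcases d.leaf with ⟨hl, hQ, hP⟩ | ⟨hl, hi3, hQ, hQ', hP⟩ | ⟨hl, hQ, hP, hP'⟩
  · exact xl2a (th := th) (lam := lam) (y := y) (z := z) (D := D) (L := L) (MB := MB) (m11 := m11)
      (u1 := u1) (u2 := u2) (ux := ux) (ua := ua) (al := al) (v2 := v2) (vb := vb) (be := be)
      (sy := sy) (hb := d.hb) (h112 := d.m112) (hl := hl) (hyp1 := by linarith) (hD := hD)
      (hL1 := hL1) (hLs := hLs) (a11 := a11)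
  · rcases Nat.eq_zero_or_pos i with h0 | h0
    · obtain ⟨hi1, hi2⟩ := d.i0 h0
      exact xl2c_i0 (th := th) (lam := lam) (y := y) (z := z) (D := D) (L := L) (MB := MB)
        (m11 := m11) (u1 := u1) (u2 := u2) (ux := ux) (ua := ua) (al := al) (v2 := v2) (vb := vb)
        (be := be) (sy := sy) (ay := ay) (cy := cy) (hb := d.hb) (hi1 := by linarith)
        (hi2 := by linarith) (h112 := d.m112) (hl := hl) (hy := hy) (hyp1 := by linarith)
        (hD := hD) (hL1 := hL1) (t11 := t11)
    · have hl3 := hi3 h0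
      exact xl2c_i1 (th := th) (lam := lam) (y := y) (z := z) (D := D) (L := L) (MB := MB)
        (m12 := m12) (u1 := u1) (u2 := u2) (ux := ux) (ua := ua) (al := al) (v2 := v2) (vb := vb)
        (be := be) (sy := sy) (ay := ay) (cy := cy) (hb := d.hb) (h122 := d.m122) (hl := hl)
        (hl3 := by linarith) (hy := hy) (hyp1 := by linarith) (hD := hD) (hL1 := hL1) (t12 := t12)
  · rcases d.H4 with hH | ⟨hH, o1, o2, o3, o4⟩ | ⟨hH, i1, i2⟩
    · exact xl3c_g (th := th) (lam := lam) (y := y) (z := z) (D := D) (L := L) (MB := MB)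
        (m12 := m12) (u1 := u1) (u2 := u2) (ux := ux) (ua := ua) (al := al) (v2 := v2) (vb := vb)
        (be := be) (sy := sy) (ay := ay) (cy := cy) (hb := d.hb) (h122 := d.m122) (hl := hl)
        (hy := hy) (hyp1 := by linarith) (hyp2 := by linarith) (hlam := by linarith) (hD := hD)
        (hL1 := hL1) (hLs := hLs) (t12 := t12) (r12 := r12)
    · exact xl3c_o (th := th) (lam := lam) (y := y) (z := z) (D := D) (L := L) (MB := MB)
        (m11 := m11) (m12 := m12) (u1 := u1) (u2 := u2) (ux := ux) (ua := ua) (al := al)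
        (v2 := v2) (vb := vb) (be := be) (sy := sy) (ay := ay) (cy := cy) (hb := d.hb)
        (h112 := d.m112) (h122 := d.m122) (hl := hl) (hy := hy) (hyp1 := by linarith)
        (hyp2 := by linarith) (o1 := by linarith) (o2 := by linarith) (o3 := by linarith)
        (hD := hD) (hL1 := hL1) (hLs := hLs) (t11 := t11) (t12 := t12)
    · exact xl3c_i (th := th) (lam := lam) (y := y) (z := z) (MB := MB) (u1 := u1) (u2 := u2)
        (ux := ux) (ua := ua) (al := al) (v2 := v2) (vb := vb) (be := be) (hb := d.hb) (hl := hl)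
        (in3 := by linarith) (in1 := by linarith)

theorem MXD.r1N {i j : ℕ} {th lam y z MB MA Qc Pc m11 m12 u1 u2 ux ua al v2 vb1 vb be g nb Y sg D L X : ℝ}
    (d : MXD i j th lam y z MB MA Qc Pc m11 m12 u1 u2 ux ua al v2 vb1 vb be)
    (hug : ua ≤ g) (hg1 : 1 ≤ g) (hn1 : 1 ≤ nb) (hY0 : 0 ≤ Y) (hs0 : 0 ≤ sg) (hX0 : 0 ≤ X)
    (hL0 : 0 ≤ L) (hD : D + nb ≤ z) (hDL : D + L + nb + Y + sg ≤ z + th + y)
    (hXY : Y ≤ X) (hX : X = Y ∨ X ≤ 2 ∨ (X ≤ sg ∧ (X ≤ Qc ∨ X ≤ Pc)))
    (t11 : FT th D L m11 (vb - ua) (y - vb - be) al)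
    (t12 : FT th D L m12 (v2 - u1) (v2 + be - y) (u1 - ua - al))
    (tA : FT th (-g) X 0 (th + ua) al be)
    (tE : FT th (-g) X (MA - m11) (th + ua + vb - y) al (y - vb - be))
    (tO : 1 ≤ j → FT th (-g) X 2 (th + ux + ua - u1) (u1 - ux - al) be) : False := by
  rcases Nat.eq_zero_or_pos j with j0 | j0
  · obtain ⟨hj1, hj2, hj3⟩ := d.hj0 j0
    rcases d.leaf with ⟨hl, hQ, hP⟩ | ⟨hl, hi3, hQ, hQ', hP⟩ | ⟨hl, hQ, hP, hP'⟩
    · rcases hX with hX | hX | ⟨hXs, hXc | hXc⟩
      · exact r12a_j0_N_Y (th := th) (lam := lam) (y := y) (z := z) (g := g) (nb := nb) (Y := Y)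
          (sg := sg) (D := D) (L := L) (X := X) (MB := MB) (MA := MA) (m11 := m11) (u1 := u1)
          (u2 := u2) (ux := ux) (ua := ua) (al := al) (v2 := v2) (vb := vb) (be := be)
          (hb := d.hb) (hj1 := by linarith) (hj2 := by linarith) (hj3 := by linarith)
          (h110 := d.m110) (h112 := d.m112) (hl := hl) (hs0 := hs0) (hY0 := by linarith)
          (hg1 := hg1) (hn1 := hn1) (hug := hug) (hL0 := by linarith) (hD := by linarith)
          (hDL := by linarith) (hX0 := hX0) (hX := by linarith) (t11 := t11) (tA := tA) (tE := tE)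
      · exact r12a_j0_N_2 (th := th) (lam := lam) (y := y) (z := z) (g := g) (X := X) (MB := MB)
          (u1 := u1) (u2 := u2) (ux := ux) (ua := ua) (al := al) (v2 := v2) (vb := vb) (be := be)
          (hb := d.hb) (hj2 := by linarith) (hl := hl) (hg1 := hg1) (hug := hug)
          (hX := by linarith) (tA := tA)
      · exact r12a_j0_N_wQ (th := th) (lam := lam) (y := y) (z := z) (g := g) (Y := Y) (X := X)
          (MB := MB) (u1 := u1) (u2 := u2) (ux := ux) (ua := ua) (al := al) (v2 := v2) (vb := vb)
          (be := be) (hb := d.hb) (hj2 := by linarith) (hl := hl) (hY0 := by linarith)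
          (hg1 := hg1) (hug := hug) (hX0 := hX0) (hXY := by linarith) (hXc0 := by linarith)
          (tA := tA)
      · exact r12a_j0_N_wP (th := th) (lam := lam) (y := y) (z := z) (g := g) (X := X) (MB := MB)
          (u1 := u1) (u2 := u2) (ux := ux) (ua := ua) (al := al) (v2 := v2) (vb := vb) (be := be)
          (hb := d.hb) (hj1 := by linarith) (hj2 := by linarith) (hl := hl) (hg1 := hg1)
          (hug := hug) (hX0 := hX0) (hXc0 := by linarith) (tA := tA)
    · rcases Nat.eq_zero_or_pos i with h0 | h0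
      · obtain ⟨hi1, hi2⟩ := d.i0 h0
        have hmm := d.mm h0 j0
        rcases hX with hX | hX | ⟨hXs, hXc | hXc⟩
        · exact r12c_j0i0_N_Y (th := th) (lam := lam) (y := y) (z := z) (g := g) (nb := nb)
            (Y := Y) (sg := sg) (D := D) (L := L) (X := X) (MB := MB) (MA := MA) (m11 := m11)
            (u1 := u1) (u2 := u2) (ux := ux) (ua := ua) (al := al) (v2 := v2) (vb := vb)
            (be := be) (hb := d.hb) (hj1 := by linarith) (hj2 := by linarith) (hj3 := by linarith)
            (hi1 := by linarith) (hi2 := by linarith) (h110 := d.m110) (h112 := d.m112) (hl := hl)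
            (hs0 := hs0) (hg1 := hg1) (hn1 := hn1) (hug := hug) (hL0 := by linarith)
            (hD := by linarith) (hDL := by linarith) (hX0 := hX0) (hX := by linarith) (t11 := t11)
            (tA := tA) (tE := tE)
        · exact r12c_j0i0_N_2 (th := th) (lam := lam) (y := y) (z := z) (g := g) (X := X)
            (MB := MB) (u1 := u1) (u2 := u2) (ux := ux) (ua := ua) (al := al) (v2 := v2)
            (vb := vb) (be := be) (hb := d.hb) (hl := hl) (hg1 := hg1) (hug := hug)
            (hX := by linarith) (tA := tA)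
        · exact r12c_j0i0_N_wQ (th := th) (lam := lam) (y := y) (z := z) (g := g) (X := X)
            (MB := MB) (u1 := u1) (u2 := u2) (ux := ux) (ua := ua) (al := al) (v2 := v2)
            (vb := vb) (be := be) (hb := d.hb) (hj2 := by linarith) (hl := hl) (hg1 := hg1)
            (hug := hug) (hX0 := hX0) (hXc0 := by linarith) (hXc1 := by linarith) (tA := tA)
        · exact r12c_j0i0_N_wP (th := th) (lam := lam) (y := y) (z := z) (g := g) (X := X)
            (MB := MB) (u1 := u1) (u2 := u2) (ux := ux) (ua := ua) (al := al) (v2 := v2)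
            (vb := vb) (be := be) (hb := d.hb) (hj1 := by linarith) (hj2 := by linarith)
            (hl := hl) (hg1 := hg1) (hug := hug) (hX0 := hX0) (hXc0 := by linarith) (tA := tA)
      · have hl3 := hi3 h0
        rcases hX with hX | hX | ⟨hXs, hXc | hXc⟩
        · exact r12c_j0i1_N_Y (th := th) (lam := lam) (y := y) (z := z) (g := g) (nb := nb)
            (Y := Y) (sg := sg) (D := D) (L := L) (X := X) (MB := MB) (MA := MA) (m11 := m11)
            (u1 := u1) (u2 := u2) (ux := ux) (ua := ua) (al := al) (v2 := v2) (vb := vb)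
            (be := be) (hb := d.hb) (hj1 := by linarith) (hj2 := by linarith) (hj3 := by linarith)
            (h110 := d.m110) (h112 := d.m112) (hl := hl) (hs0 := hs0) (hg1 := hg1) (hn1 := hn1)
            (hug := hug) (hl3 := by linarith) (hD := by linarith) (hDL := by linarith)
            (hX0 := hX0) (hX := by linarith) (t11 := t11) (tA := tA) (tE := tE)
        · exact r12c_j0i1_N_2 (th := th) (lam := lam) (y := y) (z := z) (g := g) (X := X)
            (MB := MB) (u1 := u1) (u2 := u2) (ux := ux) (ua := ua) (al := al) (v2 := v2)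
            (vb := vb) (be := be) (hb := d.hb) (hl := hl) (hg1 := hg1) (hug := hug)
            (hX := by linarith) (tA := tA)
        · exact r12c_j0i1_N_wQ (th := th) (lam := lam) (y := y) (z := z) (g := g) (Y := Y)
            (X := X) (MB := MB) (u1 := u1) (u2 := u2) (ux := ux) (ua := ua) (al := al) (v2 := v2)
            (vb := vb) (be := be) (hb := d.hb) (hj2 := by linarith) (hl := hl)
            (hY0 := by linarith) (hg1 := hg1) (hug := hug) (hX0 := hX0) (hXY := by linarith)
            (hXc0 := by linarith) (hXc1 := by linarith) (tA := tA)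
        · exact r12c_j0i1_N_wP (th := th) (lam := lam) (y := y) (z := z) (g := g) (X := X)
            (MB := MB) (u1 := u1) (u2 := u2) (ux := ux) (ua := ua) (al := al) (v2 := v2)
            (vb := vb) (be := be) (hb := d.hb) (hj1 := by linarith) (hj2 := by linarith)
            (hl := hl) (hg1 := hg1) (hug := hug) (hX0 := hX0) (hXc0 := by linarith) (tA := tA)
    · rcases hX with hX | hX | ⟨hXs, hXc | hXc⟩
      · exact r13c_j0_N_Y (th := th) (lam := lam) (y := y) (z := z) (g := g) (nb := nb) (Y := Y)
          (sg := sg) (D := D) (L := L) (X := X) (MB := MB) (MA := MA) (m11 := m11) (u1 := u1)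
          (u2 := u2) (ux := ux) (ua := ua) (al := al) (v2 := v2) (vb := vb) (be := be)
          (hb := d.hb) (hj1 := by linarith) (hj2 := by linarith) (hj3 := by linarith)
          (h110 := d.m110) (h112 := d.m112) (hl := hl) (hs0 := hs0) (hY0 := by linarith)
          (hg1 := hg1) (hn1 := hn1) (hug := hug) (hL0 := by linarith) (hD := by linarith)
          (hDL := by linarith) (hX0 := hX0) (hX := by linarith) (t11 := t11) (tA := tA) (tE := tE)
      · exact r13c_j0_N_2 (th := th) (lam := lam) (y := y) (z := z) (g := g) (X := X) (MB := MB)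
          (u1 := u1) (u2 := u2) (ux := ux) (ua := ua) (al := al) (v2 := v2) (vb := vb) (be := be)
          (hb := d.hb) (hj2 := by linarith) (hl := hl) (hg1 := hg1) (hug := hug)
          (hX := by linarith) (tA := tA)
      · exact r13c_j0_N_wQ (th := th) (lam := lam) (y := y) (z := z) (g := g) (X := X) (MB := MB)
          (u1 := u1) (u2 := u2) (ux := ux) (ua := ua) (al := al) (v2 := v2) (vb := vb) (be := be)
          (hb := d.hb) (hj2 := by linarith) (hl := hl) (hg1 := hg1) (hug := hug)
          (hXc0 := by linarith) (tA := tA)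
      · exact r13c_j0_N_wP (th := th) (lam := lam) (y := y) (z := z) (g := g) (Y := Y) (X := X)
          (MB := MB) (u1 := u1) (u2 := u2) (ux := ux) (ua := ua) (al := al) (v2 := v2) (vb := vb)
          (be := be) (hb := d.hb) (hj2 := by linarith) (hl := hl) (hY0 := by linarith)
          (hg1 := hg1) (hug := hug) (hX0 := hX0) (hXY := by linarith) (hXc0 := by linarith)
          (hXc1 := by linarith) (tA := tA)
  · have hj := d.hj j0
    have tO1 := tO j0
    rcases d.leaf with ⟨hl, hQ, hP⟩ | ⟨hl, hi3, hQ, hQ', hP⟩ | ⟨hl, hQ, hP, hP'⟩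
    · rcases hX with hX | hX | ⟨hXs, hXc | hXc⟩
      · rcases d.m11i with hm | hm
        · exact r12a_j1_N_Y_a (th := th) (lam := lam) (y := y) (z := z) (g := g) (nb := nb)
            (Y := Y) (sg := sg) (D := D) (L := L) (X := X) (MB := MB) (MA := MA) (m11 := m11)
            (m12 := m12) (u1 := u1) (u2 := u2) (ux := ux) (ua := ua) (al := al) (v2 := v2)
            (vb := vb) (be := be) (hb := d.hb) (hj := hj) (h110 := d.m110) (h122 := d.m122)
            (hl := hl) (hs0 := hs0) (hY0 := by linarith) (hg1 := hg1) (hn1 := hn1) (hug := hug)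
            (hD := by linarith) (hDL := by linarith) (hX := by linarith) (hm11 := by linarith)
            (t11 := t11) (t12 := t12) (tA := tA) (tE := tE) (tO := tO1)
        · exact r12a_j1_N_Y_b (th := th) (lam := lam) (y := y) (z := z) (g := g) (nb := nb)
            (Y := Y) (sg := sg) (D := D) (L := L) (X := X) (MB := MB) (MA := MA) (m11 := m11)
            (m12 := m12) (u1 := u1) (u2 := u2) (ux := ux) (ua := ua) (al := al) (v2 := v2)
            (vb := vb) (be := be) (hb := d.hb) (hj := hj) (h110 := d.m110) (h112 := d.m112)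
            (h122 := d.m122) (hl := hl) (hs0 := hs0) (hg1 := hg1) (hn1 := hn1) (hug := hug)
            (hD := by linarith) (hDL := by linarith) (hX0 := hX0) (hX := by linarith)
            (hm11 := by linarith) (t11 := t11) (t12 := t12) (tA := tA) (tE := tE) (tO := tO1)
      · exact r12a_j1_N_2 (th := th) (lam := lam) (y := y) (z := z) (g := g) (X := X) (MB := MB)
          (MA := MA) (m11 := m11) (u1 := u1) (u2 := u2) (ux := ux) (ua := ua) (al := al)
          (v2 := v2) (vb := vb) (be := be) (hb := d.hb) (hj := hj) (h110 := d.m110) (hl := hl)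
          (hg1 := hg1) (hug := hug) (hX := by linarith) (tA := tA) (tE := tE)
      · exact r12a_j1_N_wQ (th := th) (lam := lam) (y := y) (z := z) (g := g) (Y := Y) (X := X)
          (MB := MB) (MA := MA) (u1 := u1) (u2 := u2) (ux := ux) (ua := ua) (al := al) (v2 := v2)
          (vb := vb) (be := be) (hb := d.hb) (hj := hj) (hl := hl) (hY0 := by linarith)
          (hg1 := hg1) (hug := hug) (hXY := by linarith) (hXc0 := by linarith) (tA := tA)
          (tO := tO1)
      · exact r12a_j1_N_wP (th := th) (lam := lam) (y := y) (z := z) (g := g) (X := X) (MB := MB)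
          (MA := MA) (m11 := m11) (u1 := u1) (u2 := u2) (ux := ux) (ua := ua) (al := al)
          (v2 := v2) (vb := vb) (be := be) (hb := d.hb) (hj := hj) (h110 := d.m110) (hl := hl)
          (hg1 := hg1) (hug := hug) (hX0 := hX0) (hXc0 := by linarith) (tA := tA) (tE := tE)
    · rcases Nat.eq_zero_or_pos i with h0 | h0
      · obtain ⟨hi1, hi2⟩ := d.i0 h0
        rcases hX with hX | hX | ⟨hXs, hXc | hXc⟩
        · exact r12c_j1i0_N_Y (th := th) (lam := lam) (y := y) (z := z) (g := g) (nb := nb)
            (Y := Y) (sg := sg) (D := D) (L := L) (X := X) (MB := MB) (MA := MA) (m11 := m11)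
            (m12 := m12) (u1 := u1) (u2 := u2) (ux := ux) (ua := ua) (al := al) (v2 := v2)
            (vb := vb) (be := be) (hb := d.hb) (hj := hj) (hi1 := by linarith)
            (hi2 := by linarith) (h110 := d.m110) (h112 := d.m112) (h122 := d.m122) (hl := hl)
            (hs0 := hs0) (hY0 := by linarith) (hg1 := hg1) (hn1 := hn1) (hug := hug)
            (hL0 := by linarith) (hD := by linarith) (hDL := by linarith) (hX := by linarith)
            (t11 := t11) (t12 := t12) (tA := tA) (tE := tE) (tO := tO1)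
        · exact r12c_j1i0_N_2 (th := th) (lam := lam) (y := y) (z := z) (g := g) (X := X)
            (MB := MB) (u1 := u1) (u2 := u2) (ux := ux) (ua := ua) (al := al) (v2 := v2)
            (vb := vb) (be := be) (hb := d.hb) (hl := hl) (hg1 := hg1) (hug := hug)
            (hX := by linarith) (tA := tA)
        · exact r12c_j1i0_N_wQ (th := th) (lam := lam) (y := y) (z := z) (g := g) (X := X)
            (MB := MB) (u1 := u1) (u2 := u2) (ux := ux) (ua := ua) (al := al) (v2 := v2)
            (vb := vb) (be := be) (hb := d.hb) (hl := hl) (hg1 := hg1) (hug := hug) (hX0 := hX0)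
            (hXc0 := by linarith) (hXc1 := by linarith) (tA := tA)
        · exact r12c_j1i0_N_wP (th := th) (lam := lam) (y := y) (z := z) (g := g) (X := X)
            (MB := MB) (u1 := u1) (u2 := u2) (ux := ux) (ua := ua) (al := al) (v2 := v2)
            (vb := vb) (be := be) (hb := d.hb) (hl := hl) (hg1 := hg1) (hug := hug) (hX0 := hX0)
            (hXc0 := by linarith) (tA := tA)
      · have hl3 := hi3 h0
        rcases hX with hX | hX | ⟨hXs, hXc | hXc⟩
        · exact r12c_j1i1_N_Y (th := th) (lam := lam) (y := y) (z := z) (g := g) (nb := nb)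
            (Y := Y) (sg := sg) (D := D) (L := L) (X := X) (MB := MB) (MA := MA) (m11 := m11)
            (m12 := m12) (u1 := u1) (u2 := u2) (ux := ux) (ua := ua) (al := al) (v2 := v2)
            (vb := vb) (be := be) (hb := d.hb) (hj := hj) (h110 := d.m110) (h112 := d.m112)
            (h122 := d.m122) (hl := hl) (hs0 := hs0) (hY0 := by linarith) (hg1 := hg1)
            (hn1 := hn1) (hug := hug) (hl3 := by linarith) (hD := by linarith)
            (hDL := by linarith) (hX0 := hX0) (hX := by linarith) (t11 := t11) (t12 := t12)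
            (tA := tA) (tE := tE) (tO := tO1)
        · exact r12c_j1i1_N_2 (th := th) (lam := lam) (y := y) (z := z) (g := g) (X := X)
            (MB := MB) (u1 := u1) (u2 := u2) (ux := ux) (ua := ua) (al := al) (v2 := v2)
            (vb := vb) (be := be) (hb := d.hb) (hl := hl) (hg1 := hg1) (hug := hug)
            (hX := by linarith) (tA := tA)
        · exact r12c_j1i1_N_wQ (th := th) (lam := lam) (y := y) (z := z) (g := g) (X := X)
            (MB := MB) (u1 := u1) (u2 := u2) (ux := ux) (ua := ua) (al := al) (v2 := v2)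
            (vb := vb) (be := be) (hb := d.hb) (hl := hl) (hg1 := hg1) (hug := hug) (hX0 := hX0)
            (hXc0 := by linarith) (hXc1 := by linarith) (tA := tA)
        · exact r12c_j1i1_N_wP (th := th) (lam := lam) (y := y) (z := z) (g := g) (X := X)
            (MB := MB) (u1 := u1) (u2 := u2) (ux := ux) (ua := ua) (al := al) (v2 := v2)
            (vb := vb) (be := be) (hb := d.hb) (hl := hl) (hg1 := hg1) (hug := hug) (hX0 := hX0)
            (hXc0 := by linarith) (tA := tA)
    · rcases hX with hX | hX | ⟨hXs, hXc | hXc⟩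
      · exact r13c_j1_N_Y (th := th) (lam := lam) (y := y) (z := z) (g := g) (nb := nb) (Y := Y)
          (sg := sg) (D := D) (L := L) (X := X) (MB := MB) (MA := MA) (m11 := m11) (m12 := m12)
          (u1 := u1) (u2 := u2) (ux := ux) (ua := ua) (al := al) (v2 := v2) (vb := vb) (be := be)
          (hb := d.hb) (hj := hj) (h110 := d.m110) (h112 := d.m112) (h122 := d.m122) (hl := hl)
          (hs0 := hs0) (hY0 := by linarith) (hg1 := hg1) (hn1 := hn1) (hug := hug)
          (hL0 := by linarith) (hD := by linarith) (hDL := by linarith) (hX := by linarith)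
          (t11 := t11) (t12 := t12) (tA := tA) (tE := tE) (tO := tO1)
      · exact r13c_j1_N_2 (th := th) (lam := lam) (y := y) (z := z) (g := g) (X := X) (MB := MB)
          (MA := MA) (m11 := m11) (u1 := u1) (u2 := u2) (ux := ux) (ua := ua) (al := al)
          (v2 := v2) (vb := vb) (be := be) (hb := d.hb) (hj := hj) (h110 := d.m110) (hl := hl)
          (hg1 := hg1) (hug := hug) (hX := by linarith) (tA := tA) (tE := tE)
      · exact r13c_j1_N_wQ (th := th) (lam := lam) (y := y) (z := z) (g := g) (X := X) (MB := MB)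
          (u1 := u1) (u2 := u2) (ux := ux) (ua := ua) (al := al) (v2 := v2) (vb := vb) (be := be)
          (hb := d.hb) (hl := hl) (hg1 := hg1) (hug := hug) (hXc0 := by linarith) (tA := tA)
          (tO := tO1)
      · exact r13c_j1_N_wP (th := th) (lam := lam) (y := y) (z := z) (g := g) (X := X) (MB := MB)
          (MA := MA) (m11 := m11) (u1 := u1) (u2 := u2) (ux := ux) (ua := ua) (al := al)
          (v2 := v2) (vb := vb) (be := be) (hb := d.hb) (hj := hj) (h110 := d.m110) (hl := hl)
          (hg1 := hg1) (hug := hug) (hX0 := hX0) (hXc0 := by linarith) (hXc1 := by linarith)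
          (tA := tA) (tE := tE) (tO := tO1)

theorem MXD.r1L {i j : ℕ} {th lam y z MB MA Qc Pc m11 m12 u1 u2 ux ua al v2 vb1 vb be g nb Y sg D L X sy ay cy : ℝ}
    (d : MXD i j th lam y z MB MA Qc Pc m11 m12 u1 u2 ux ua al v2 vb1 vb be)
    (hug : ua ≤ g) (hg1 : 1 ≤ g) (hn1 : 1 ≤ nb) (hY0 : 0 ≤ Y) (hs0 : 0 ≤ sg) (hX0 : 0 ≤ X)
    (hD : D + nb + cy ≤ z) (hDL : D + L + nb + cy + Y + sg ≤ z + th + y)
    (hy : LY sy ay cy) (hs : sy ≤ Pc) (hsL : sy ≤ L)
    (hXa : Y - sy ≤ X) (hXb : sy - Y ≤ X)
    (hX : X = Y - sy ∨ X = sy - Y ∨ X ≤ 2 ∨ (X ≤ sg ∧ (X ≤ Qc ∨ X ≤ Pc)))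
    (t11 : FT th (D + ay) (L - sy) m11 (vb - ua) (y - vb - be) al)
    (t12 : FT th (D + ay) (L - sy) m12 (v2 - u1) (v2 + be - y) (u1 - ua - al))
    (tA : FT th (-g) X 0 (th + ua) al be)
    (tE : FT th (-g) X (MA - m11) (th + ua + vb - y) al (y - vb - be))
    (tO : 1 ≤ j → FT th (-g) X 2 (th + ux + ua - u1) (u1 - ux - al) be) : False := by
  have hsy0 : 0 ≤ sy := by linarith [hy.a1, hy.say]
  rcases Nat.eq_zero_or_pos j with j0 | j0
  · obtain ⟨hj1, hj2, hj3⟩ := d.hj0 j0
    rcases d.leaf with ⟨hl, hQ, hP⟩ | ⟨hl, hi3, hQ, hQ', hP⟩ | ⟨hl, hQ, hP, hP'⟩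
    · rcases hX with hX | hX | hX | ⟨hXs, hXc | hXc⟩
      · exact r12a_j0_L_Y (th := th) (lam := lam) (y := y) (z := z) (g := g) (nb := nb) (Y := Y)
          (sg := sg) (D := D) (L := L) (X := X) (MB := MB) (MA := MA) (m11 := m11) (m12 := m12)
          (u1 := u1) (u2 := u2) (ux := ux) (ua := ua) (al := al) (v2 := v2) (vb := vb) (be := be)
          (sy := sy) (ay := ay) (cy := cy) (hb := d.hb) (hj1 := by linarith) (hj2 := by linarith)
          (hj3 := by linarith) (h110 := d.m110) (h112 := d.m112) (h122 := d.m122) (hl := hl)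
          (hs0 := hs0) (hY0 := by linarith) (hg1 := hg1) (hn1 := hn1) (hug := hug) (hy := hy)
          (hyp1 := by linarith) (hsL := hsL) (hD := by linarith) (hDL := by linarith) (hX0 := hX0)
          (hX := by linarith) (t11 := t11) (t12 := t12) (tA := tA) (tE := tE)
      · exact r12a_j0_L_S (th := th) (lam := lam) (y := y) (z := z) (g := g) (Y := Y) (X := X)
          (MB := MB) (u1 := u1) (u2 := u2) (ux := ux) (ua := ua) (al := al) (v2 := v2) (vb := vb)
          (be := be) (sy := sy) (hb := d.hb) (hj1 := by linarith) (hj2 := by linarith) (hl := hl)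
          (hY0 := by linarith) (hg1 := hg1) (hug := hug) (hyp1 := by linarith)
          (hXa := by linarith) (hX := by linarith) (tA := tA)
      · exact r12a_j0_L_2 (th := th) (lam := lam) (y := y) (z := z) (g := g) (X := X) (MB := MB)
          (u1 := u1) (u2 := u2) (ux := ux) (ua := ua) (al := al) (v2 := v2) (vb := vb) (be := be)
          (hb := d.hb) (hj1 := by linarith) (hj2 := by linarith) (hl := hl) (hug := hug)
          (hX := by linarith) (tA := tA)
      · exact r12a_j0_L_wQ (th := th) (lam := lam) (y := y) (z := z) (g := g) (X := X) (MB := MB)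
          (u1 := u1) (u2 := u2) (ux := ux) (ua := ua) (al := al) (v2 := v2) (vb := vb) (be := be)
          (hb := d.hb) (hj1 := by linarith) (hj2 := by linarith) (hl := hl) (hg1 := hg1)
          (hug := hug) (hXc0 := by linarith) (tA := tA)
      · exact r12a_j0_L_wP (th := th) (lam := lam) (y := y) (z := z) (g := g) (X := X) (MB := MB)
          (u1 := u1) (u2 := u2) (ux := ux) (ua := ua) (al := al) (v2 := v2) (vb := vb) (be := be)
          (hb := d.hb) (hj1 := by linarith) (hj2 := by linarith) (hl := hl) (hg1 := hg1)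
          (hug := hug) (hXc0 := by linarith) (tA := tA)
    · rcases Nat.eq_zero_or_pos i with h0 | h0
      · obtain ⟨hi1, hi2⟩ := d.i0 h0
        have hmm := d.mm h0 j0
        rcases hX with hX | hX | hX | ⟨hXs, hXc | hXc⟩
        · exact r12c_j0i0_L_Y (th := th) (lam := lam) (y := y) (z := z) (g := g) (nb := nb)
            (Y := Y) (sg := sg) (D := D) (L := L) (X := X) (MB := MB) (MA := MA) (m11 := m11)
            (u1 := u1) (u2 := u2) (ux := ux) (ua := ua) (al := al) (v2 := v2) (vb := vb)
            (be := be) (sy := sy) (ay := ay) (cy := cy) (hb := d.hb) (hj1 := by linarith)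
            (hj2 := by linarith) (hj3 := by linarith) (hi2 := by linarith) (h110 := d.m110)
            (h112 := d.m112) (hl := hl) (hs0 := hs0) (hY0 := by linarith) (hg1 := hg1)
            (hn1 := hn1) (hug := hug) (hy := hy) (hyp1 := by linarith) (hsL := hsL)
            (hD := by linarith) (hDL := by linarith) (hX := by linarith) (t11 := t11) (tA := tA)
            (tE := tE)
        · exact r12c_j0i0_L_S (th := th) (lam := lam) (y := y) (z := z) (g := g) (Y := Y) (X := X)
            (MB := MB) (u1 := u1) (u2 := u2) (ux := ux) (ua := ua) (al := al) (v2 := v2)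
            (vb := vb) (be := be) (sy := sy) (ay := ay) (cy := cy) (hb := d.hb)
            (hj1 := by linarith) (hl := hl) (hY0 := by linarith) (hg1 := hg1) (hug := hug)
            (hy := hy) (hyp1 := by linarith) (hX := by linarith) (tA := tA)
        · exact r12c_j0i0_L_2 (th := th) (lam := lam) (y := y) (z := z) (g := g) (X := X)
            (MB := MB) (u1 := u1) (u2 := u2) (ux := ux) (ua := ua) (al := al) (v2 := v2)
            (vb := vb) (be := be) (hb := d.hb) (hj1 := by linarith) (hl := hl) (hg1 := hg1)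
            (hug := hug) (hX := by linarith) (tA := tA)
        · exact r12c_j0i0_L_wQ (th := th) (lam := lam) (y := y) (z := z) (g := g) (Y := Y)
            (X := X) (MB := MB) (u1 := u1) (u2 := u2) (ux := ux) (ua := ua) (al := al) (v2 := v2)
            (vb := vb) (be := be) (sy := sy) (hb := d.hb) (hj2 := by linarith) (hl := hl)
            (hg1 := hg1) (hug := hug) (hXa := by linarith) (hXb := by linarith)
            (hXc0 := by linarith) (hXc1 := by linarith) (tA := tA)
        · exact r12c_j0i0_L_wP (th := th) (lam := lam) (y := y) (z := z) (g := g) (X := X)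
            (MB := MB) (u1 := u1) (u2 := u2) (ux := ux) (ua := ua) (al := al) (v2 := v2)
            (vb := vb) (be := be) (hb := d.hb) (hj1 := by linarith) (hl := hl) (hg1 := hg1)
            (hug := hug) (hXc0 := by linarith) (tA := tA)
      · have hl3 := hi3 h0
        rcases hX with hX | hX | hX | ⟨hXs, hXc | hXc⟩
        · exact r12c_j0i1_L_Y (th := th) (lam := lam) (y := y) (z := z) (g := g) (nb := nb)
            (Y := Y) (sg := sg) (D := D) (L := L) (X := X) (MB := MB) (MA := MA) (m11 := m11)
            (m12 := m12) (u1 := u1) (u2 := u2) (ux := ux) (ua := ua) (al := al) (v2 := v2)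
            (vb := vb) (be := be) (sy := sy) (ay := ay) (cy := cy) (hb := d.hb)
            (hj1 := by linarith) (hj2 := by linarith) (hj3 := by linarith) (h110 := d.m110)
            (h112 := d.m112) (h122 := d.m122) (hl := hl) (hs0 := hs0) (hY0 := by linarith)
            (hg1 := hg1) (hn1 := hn1) (hug := hug) (hl3 := by linarith) (hy := hy)
            (hyp1 := by linarith) (hsL := hsL) (hD := by linarith) (hDL := by linarith)
            (hX := by linarith) (t11 := t11) (t12 := t12) (tA := tA) (tE := tE)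
        · exact r12c_j0i1_L_S (th := th) (lam := lam) (y := y) (z := z) (g := g) (Y := Y) (X := X)
            (MB := MB) (u1 := u1) (u2 := u2) (ux := ux) (ua := ua) (al := al) (v2 := v2)
            (vb := vb) (be := be) (sy := sy) (ay := ay) (cy := cy) (hb := d.hb)
            (hj1 := by linarith) (hl := hl) (hY0 := by linarith) (hg1 := hg1) (hug := hug)
            (hy := hy) (hyp1 := by linarith) (hXa := by linarith) (hX := by linarith) (tA := tA)
        · exact r12c_j0i1_L_2 (th := th) (lam := lam) (y := y) (z := z) (g := g) (X := X)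
            (MB := MB) (u1 := u1) (u2 := u2) (ux := ux) (ua := ua) (al := al) (v2 := v2)
            (vb := vb) (be := be) (hb := d.hb) (hj1 := by linarith) (hl := hl) (hg1 := hg1)
            (hug := hug) (hl3 := by linarith) (hX := by linarith) (tA := tA)
        · exact r12c_j0i1_L_wQ (th := th) (lam := lam) (y := y) (z := z) (g := g) (Y := Y)
            (X := X) (MB := MB) (u1 := u1) (u2 := u2) (ux := ux) (ua := ua) (al := al) (v2 := v2)
            (vb := vb) (be := be) (sy := sy) (hb := d.hb) (hj2 := by linarith) (hl := hl)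
            (hg1 := hg1) (hug := hug) (hXa := by linarith) (hXb := by linarith)
            (hXc0 := by linarith) (hXc1 := by linarith) (tA := tA)
        · exact r12c_j0i1_L_wP (th := th) (lam := lam) (y := y) (z := z) (g := g) (Y := Y)
            (X := X) (MB := MB) (u1 := u1) (u2 := u2) (ux := ux) (ua := ua) (al := al) (v2 := v2)
            (vb := vb) (be := be) (sy := sy) (hb := d.hb) (hj1 := by linarith) (hl := hl)
            (hg1 := hg1) (hug := hug) (hXa := by linarith) (hXb := by linarith)
            (hXc0 := by linarith) (tA := tA)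
    · rcases hX with hX | hX | hX | ⟨hXs, hXc | hXc⟩
      · exact r13c_j0_L_Y (th := th) (lam := lam) (y := y) (z := z) (g := g) (nb := nb) (Y := Y)
          (sg := sg) (D := D) (L := L) (X := X) (MB := MB) (MA := MA) (m11 := m11) (u1 := u1)
          (u2 := u2) (ux := ux) (ua := ua) (al := al) (v2 := v2) (vb := vb) (be := be) (sy := sy)
          (ay := ay) (cy := cy) (hb := d.hb) (hj1 := by linarith) (hj2 := by linarith)
          (hj3 := by linarith) (h110 := d.m110) (h112 := d.m112) (hl := hl) (hs0 := hs0)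
          (hg1 := hg1) (hn1 := hn1) (hug := hug) (hy := hy) (hyp1 := by linarith)
          (hyp2 := by linarith) (hD := by linarith) (hDL := by linarith) (hXb := by linarith)
          (hX := by linarith) (t11 := t11) (tA := tA) (tE := tE)
      · exact r13c_j0_L_S (th := th) (lam := lam) (y := y) (z := z) (g := g) (Y := Y) (X := X)
          (MB := MB) (u1 := u1) (u2 := u2) (ux := ux) (ua := ua) (al := al) (v2 := v2) (vb := vb)
          (be := be) (sy := sy) (ay := ay) (cy := cy) (hb := d.hb) (hj2 := by linarith) (hl := hl)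
          (hY0 := by linarith) (hg1 := hg1) (hug := hug) (hy := hy) (hyp1 := by linarith)
          (hyp2 := by linarith) (hX := by linarith) (tA := tA)
      · exact r13c_j0_L_2 (th := th) (lam := lam) (y := y) (z := z) (g := g) (X := X) (MB := MB)
          (u1 := u1) (u2 := u2) (ux := ux) (ua := ua) (al := al) (v2 := v2) (vb := vb) (be := be)
          (hb := d.hb) (hj2 := by linarith) (hl := hl) (hg1 := hg1) (hug := hug)
          (hX := by linarith) (tA := tA)
      · exact r13c_j0_L_wQ (th := th) (lam := lam) (y := y) (z := z) (g := g) (X := X) (MB := MB)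
          (u1 := u1) (u2 := u2) (ux := ux) (ua := ua) (al := al) (v2 := v2) (vb := vb) (be := be)
          (sy := sy) (ay := ay) (cy := cy) (hb := d.hb) (hj2 := by linarith) (hl := hl)
          (hg1 := hg1) (hug := hug) (hy := hy) (hyp2 := by linarith) (hXc0 := by linarith)
          (tA := tA)
      · exact r13c_j0_L_wP (th := th) (lam := lam) (y := y) (z := z) (g := g) (Y := Y) (X := X)
          (MB := MB) (u1 := u1) (u2 := u2) (ux := ux) (ua := ua) (al := al) (v2 := v2) (vb := vb)
          (be := be) (sy := sy) (hb := d.hb) (hj2 := by linarith) (hl := hl) (hg1 := hg1)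
          (hug := hug) (hXa := by linarith) (hXb := by linarith) (hXc0 := by linarith)
          (hXc1 := by linarith) (tA := tA)
  · have hj := d.hj j0
    have tO1 := tO j0
    rcases d.leaf with ⟨hl, hQ, hP⟩ | ⟨hl, hi3, hQ, hQ', hP⟩ | ⟨hl, hQ, hP, hP'⟩
    · rcases hX with hX | hX | hX | ⟨hXs, hXc | hXc⟩
      · exact r12a_j1_L_Y (th := th) (lam := lam) (y := y) (z := z) (g := g) (nb := nb) (Y := Y)
          (sg := sg) (D := D) (L := L) (X := X) (MB := MB) (MA := MA) (m11 := m11) (m12 := m12)
          (u1 := u1) (u2 := u2) (ux := ux) (ua := ua) (al := al) (v2 := v2) (vb := vb) (be := be)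
          (sy := sy) (ay := ay) (cy := cy) (hb := d.hb) (hj := hj) (h110 := d.m110)
          (h112 := d.m112) (h122 := d.m122) (hl := hl) (hs0 := hs0) (hg1 := hg1) (hn1 := hn1)
          (hug := hug) (hy := hy) (hyp1 := by linarith) (hsL := hsL) (hD := by linarith)
          (hDL := by linarith) (hX := by linarith) (t11 := t11) (t12 := t12) (tA := tA) (tE := tE)
          (tO := tO1)
      · exact r12a_j1_L_S (th := th) (lam := lam) (y := y) (z := z) (g := g) (Y := Y) (X := X)
          (MB := MB) (MA := MA) (m11 := m11) (u1 := u1) (u2 := u2) (ux := ux) (ua := ua)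
          (al := al) (v2 := v2) (vb := vb) (be := be) (sy := sy) (hb := d.hb) (hj := hj)
          (h110 := d.m110) (hl := hl) (hY0 := by linarith) (hg1 := hg1) (hug := hug)
          (hyp1 := by linarith) (hXa := by linarith) (hX := by linarith) (tA := tA) (tE := tE)
      · exact r12a_j1_L_2 (th := th) (lam := lam) (y := y) (z := z) (g := g) (X := X) (MB := MB)
          (MA := MA) (m11 := m11) (u1 := u1) (u2 := u2) (ux := ux) (ua := ua) (al := al)
          (v2 := v2) (vb := vb) (be := be) (sy := sy) (ay := ay) (cy := cy) (hb := d.hb)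
          (hj := hj) (h110 := d.m110) (hl := hl) (hg1 := hg1) (hug := hug) (hy := hy)
          (hyp1 := by linarith) (hX := by linarith) (tA := tA) (tE := tE)
      · exact r12a_j1_L_wQ (th := th) (lam := lam) (y := y) (z := z) (g := g) (X := X) (MB := MB)
          (u1 := u1) (u2 := u2) (ux := ux) (ua := ua) (al := al) (v2 := v2) (vb := vb) (be := be)
          (sy := sy) (ay := ay) (cy := cy) (hb := d.hb) (hl := hl) (hg1 := hg1) (hug := hug)
          (hy := hy) (hyp1 := by linarith) (hXc0 := by linarith) (tA := tA) (tO := tO1)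
      · exact r12a_j1_L_wP (th := th) (lam := lam) (y := y) (z := z) (g := g) (Y := Y) (X := X)
          (MB := MB) (MA := MA) (m11 := m11) (u1 := u1) (u2 := u2) (ux := ux) (ua := ua)
          (al := al) (v2 := v2) (vb := vb) (be := be) (sy := sy) (hb := d.hb) (hj := hj)
          (h110 := d.m110) (hl := hl) (hg1 := hg1) (hug := hug) (hXa := by linarith)
          (hXb := by linarith) (hXc0 := by linarith) (tA := tA) (tE := tE)
    · rcases Nat.eq_zero_or_pos i with h0 | h0
      · obtain ⟨hi1, hi2⟩ := d.i0 h0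
        rcases hX with hX | hX | hX | ⟨hXs, hXc | hXc⟩
        · exact r12c_j1i0_L_Y (th := th) (lam := lam) (y := y) (z := z) (g := g) (nb := nb)
            (Y := Y) (sg := sg) (D := D) (L := L) (X := X) (MB := MB) (MA := MA) (m11 := m11)
            (m12 := m12) (u1 := u1) (u2 := u2) (ux := ux) (ua := ua) (al := al) (v2 := v2)
            (vb := vb) (be := be) (sy := sy) (ay := ay) (cy := cy) (hb := d.hb) (hj := hj)
            (hi1 := by linarith) (hi2 := by linarith) (h110 := d.m110) (h112 := d.m112)
            (h122 := d.m122) (hl := hl) (hs0 := hs0) (hY0 := by linarith) (hg1 := hg1)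
            (hn1 := hn1) (hug := hug) (hy := hy) (hyp1 := by linarith) (hsL := hsL)
            (hD := by linarith) (hDL := by linarith) (hX0 := hX0) (hXb := by linarith)
            (hX := by linarith) (t11 := t11) (t12 := t12) (tA := tA) (tE := tE) (tO := tO1)
        · exact r12c_j1i0_L_S (th := th) (lam := lam) (y := y) (z := z) (g := g) (Y := Y) (X := X)
            (MB := MB) (u1 := u1) (u2 := u2) (ux := ux) (ua := ua) (al := al) (v2 := v2)
            (vb := vb) (be := be) (sy := sy) (hb := d.hb) (hl := hl) (hY0 := by linarith)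
            (hg1 := hg1) (hug := hug) (hyp1 := by linarith) (hXa := by linarith)
            (hX := by linarith) (tA := tA)
        · exact r12c_j1i0_L_2 (th := th) (lam := lam) (y := y) (z := z) (g := g) (Y := Y) (X := X)
            (MB := MB) (u1 := u1) (u2 := u2) (ux := ux) (ua := ua) (al := al) (v2 := v2)
            (vb := vb) (be := be) (sy := sy) (ay := ay) (cy := cy) (hb := d.hb) (hl := hl)
            (hY0 := by linarith) (hg1 := hg1) (hug := hug) (hy := hy) (hyp1 := by linarith)
            (hXa := by linarith) (hX := by linarith) (tA := tA)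
        · exact r12c_j1i0_L_wQ (th := th) (lam := lam) (y := y) (z := z) (g := g) (Y := Y)
            (X := X) (MB := MB) (u1 := u1) (u2 := u2) (ux := ux) (ua := ua) (al := al) (v2 := v2)
            (vb := vb) (be := be) (sy := sy) (hb := d.hb) (hl := hl) (hg1 := hg1) (hug := hug)
            (hXa := by linarith) (hXb := by linarith) (hXc0 := by linarith) (hXc1 := by linarith)
            (tA := tA)
        · exact r12c_j1i0_L_wP (th := th) (lam := lam) (y := y) (z := z) (g := g) (X := X)
            (MB := MB) (u1 := u1) (u2 := u2) (ux := ux) (ua := ua) (al := al) (v2 := v2)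
            (vb := vb) (be := be) (hb := d.hb) (hl := hl) (hg1 := hg1) (hug := hug)
            (hXc0 := by linarith) (tA := tA)
      · have hl3 := hi3 h0
        rcases hX with hX | hX | hX | ⟨hXs, hXc | hXc⟩
        · exact r12c_j1i1_L_Y (th := th) (lam := lam) (y := y) (z := z) (g := g) (nb := nb)
            (Y := Y) (sg := sg) (D := D) (L := L) (X := X) (MB := MB) (MA := MA) (m11 := m11)
            (m12 := m12) (u1 := u1) (u2 := u2) (ux := ux) (ua := ua) (al := al) (v2 := v2)
            (vb := vb) (be := be) (sy := sy) (ay := ay) (cy := cy) (hb := d.hb) (hj := hj)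
            (h110 := d.m110) (h112 := d.m112) (h122 := d.m122) (hl := hl) (hs0 := hs0)
            (hY0 := by linarith) (hg1 := hg1) (hn1 := hn1) (hug := hug) (hl3 := by linarith)
            (hy := hy) (hyp1 := by linarith) (hsL := hsL) (hD := by linarith) (hDL := by linarith)
            (hX0 := hX0) (hX := by linarith) (t11 := t11) (t12 := t12) (tA := tA) (tE := tE)
            (tO := tO1)
        · exact r12c_j1i1_L_S (th := th) (lam := lam) (y := y) (z := z) (g := g) (Y := Y) (X := X)
            (MB := MB) (u1 := u1) (u2 := u2) (ux := ux) (ua := ua) (al := al) (v2 := v2)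
            (vb := vb) (be := be) (sy := sy) (ay := ay) (cy := cy) (hb := d.hb) (hl := hl)
            (hY0 := by linarith) (hg1 := hg1) (hug := hug) (hy := hy) (hyp1 := by linarith)
            (hX := by linarith) (tA := tA)
        · exact r12c_j1i1_L_2 (th := th) (lam := lam) (y := y) (z := z) (g := g) (X := X)
            (MB := MB) (u1 := u1) (u2 := u2) (ux := ux) (ua := ua) (al := al) (v2 := v2)
            (vb := vb) (be := be) (hb := d.hb) (hl := hl) (hg1 := hg1) (hug := hug)
            (hX := by linarith) (tA := tA)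
        · exact r12c_j1i1_L_wQ (th := th) (lam := lam) (y := y) (z := z) (g := g) (Y := Y)
            (X := X) (MB := MB) (u1 := u1) (u2 := u2) (ux := ux) (ua := ua) (al := al) (v2 := v2)
            (vb := vb) (be := be) (sy := sy) (hb := d.hb) (hl := hl) (hg1 := hg1) (hug := hug)
            (hXa := by linarith) (hXb := by linarith) (hXc0 := by linarith) (hXc1 := by linarith)
            (tA := tA)
        · exact r12c_j1i1_L_wP (th := th) (lam := lam) (y := y) (z := z) (g := g) (X := X)
            (MB := MB) (u1 := u1) (u2 := u2) (ux := ux) (ua := ua) (al := al) (v2 := v2)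
            (vb := vb) (be := be) (hb := d.hb) (hl := hl) (hg1 := hg1) (hug := hug)
            (hXc0 := by linarith) (tA := tA)
    · rcases hX with hX | hX | hX | ⟨hXs, hXc | hXc⟩
      · exact r13c_j1_L_Y (th := th) (lam := lam) (y := y) (z := z) (g := g) (nb := nb) (Y := Y)
          (sg := sg) (D := D) (L := L) (X := X) (MB := MB) (MA := MA) (m11 := m11) (m12 := m12)
          (u1 := u1) (u2 := u2) (ux := ux) (ua := ua) (al := al) (v2 := v2) (vb := vb) (be := be)
          (sy := sy) (ay := ay) (cy := cy) (hb := d.hb) (hj := hj) (h110 := d.m110)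
          (h112 := d.m112) (h122 := d.m122) (hl := hl) (hs0 := hs0) (hg1 := hg1) (hn1 := hn1)
          (hug := hug) (hy := hy) (hyp1 := by linarith) (hyp2 := by linarith) (hsL := hsL)
          (hD := by linarith) (hDL := by linarith) (hX := by linarith) (t11 := t11) (t12 := t12)
          (tA := tA) (tE := tE) (tO := tO1)
      · exact r13c_j1_L_S (th := th) (lam := lam) (y := y) (z := z) (g := g) (Y := Y) (X := X)
          (MB := MB) (MA := MA) (m11 := m11) (u1 := u1) (u2 := u2) (ux := ux) (ua := ua)
          (al := al) (v2 := v2) (vb := vb) (be := be) (sy := sy) (ay := ay) (cy := cy)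
          (hb := d.hb) (hj := hj) (h110 := d.m110) (hl := hl) (hY0 := by linarith) (hg1 := hg1)
          (hug := hug) (hy := hy) (hyp1 := by linarith) (hyp2 := by linarith) (hXa := by linarith)
          (hX := by linarith) (tA := tA) (tE := tE) (tO := tO1)
      · exact r13c_j1_L_2 (th := th) (lam := lam) (y := y) (z := z) (g := g) (X := X) (MB := MB)
          (MA := MA) (m11 := m11) (u1 := u1) (u2 := u2) (ux := ux) (ua := ua) (al := al)
          (v2 := v2) (vb := vb) (be := be) (sy := sy) (ay := ay) (cy := cy) (hb := d.hb)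
          (hj := hj) (h110 := d.m110) (hl := hl) (hg1 := hg1) (hug := hug) (hy := hy)
          (hyp1 := by linarith) (hyp2 := by linarith) (hX := by linarith) (tA := tA) (tE := tE)
      · exact r13c_j1_L_wQ (th := th) (lam := lam) (y := y) (z := z) (g := g) (X := X) (MB := MB)
          (u1 := u1) (u2 := u2) (ux := ux) (ua := ua) (al := al) (v2 := v2) (vb := vb) (be := be)
          (sy := sy) (ay := ay) (cy := cy) (hb := d.hb) (hl := hl) (hg1 := hg1) (hug := hug)
          (hy := hy) (hyp2 := by linarith) (hXc0 := by linarith) (tA := tA) (tO := tO1)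
      · exact r13c_j1_L_wP (th := th) (lam := lam) (y := y) (z := z) (g := g) (Y := Y) (X := X)
          (MB := MB) (MA := MA) (m11 := m11) (u1 := u1) (u2 := u2) (ux := ux) (ua := ua)
          (al := al) (v2 := v2) (vb := vb) (be := be) (sy := sy) (hb := d.hb) (hj := hj)
          (h110 := d.m110) (hl := hl) (hg1 := hg1) (hug := hug) (hX0 := hX0) (hXa := by linarith)
          (hXb := by linarith) (hXc0 := by linarith) (hXc1 := by linarith) (tA := tA) (tE := tE)
          (tO := tO1)

theorem MXD.e1N {i j : ℕ} {th lam y z MB MA Qc Pc m11 m12 u1 u2 ux ua al v2 vb1 vb be sg D L X : ℝ}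
    (d : MXD i j th lam y z MB MA Qc Pc m11 m12 u1 u2 ux ua al v2 vb1 vb be)
    (hug : ua ≤ 0) (hs0 : 0 ≤ sg) (hX0 : 0 ≤ X)
    (hL0 : 0 ≤ L) (hD : D ≤ 1) (hDz : D ≤ z) (hDL : D + L + sg ≤ th + y)
    (hX : X ≤ 2 ∨ (X ≤ sg + 1 ∧ (X ≤ Qc ∨ X ≤ Pc)))
    (t11 : FT th D L m11 (vb - ua) (y - vb - be) al)
    (t12 : FT th D L m12 (v2 - u1) (v2 + be - y) (u1 - ua - al))
    (tA : FT th (-(0 : ℝ)) X 0 (th + ua) al be)
    (tE : FT th (-(0 : ℝ)) X (MA - m11) (th + ua + vb - y) al (y - vb - be))
    (tO : 1 ≤ j → FT th (-(0 : ℝ)) X 2 (th + ux + ua - u1) (u1 - ux - al) be) : False := by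
  rcases d.leaf with ⟨hl, hQ, hP⟩ | ⟨hl, hi3, hQ, hQ', hP⟩ | ⟨hl, hQ, hP, hP'⟩
  · linarith [hl.xua]
  · linarith [hl.xua]
  · rcases Nat.eq_zero_or_pos j with j0 | j0
    · obtain ⟨hj1, hj2, hj3⟩ := d.hj0 j0
      linarith [hl.xu1]
    · have hj := d.hj j0
      have tO1 := tO j0
      rcases hX with hX | ⟨hXs, hXc | hXc⟩
      · rcases d.H4 with hH | ⟨hH, o1, o2, o3, o4⟩ | ⟨hH, i1, i2⟩
        · exact e1N_2_g (th := th) (lam := lam) (y := y) (z := z) (g := 0) (X := X) (MB := MB)
            (u1 := u1) (u2 := u2) (ux := ux) (ua := ua) (al := al) (v2 := v2) (vb := vb)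
            (be := be) (hb := d.hb) (hl := hl) (hg0 := by linarith) (hug := hug)
            (hX := by linarith) (hlam := by linarith) (tO := tO1)
        · exact e1N_2_o (th := th) (lam := lam) (y := y) (z := z) (g := 0) (X := X) (MB := MB)
            (MA := MA) (m11 := m11) (u1 := u1) (u2 := u2) (ux := ux) (ua := ua) (al := al)
            (v2 := v2) (vb := vb) (be := be) (hb := d.hb) (hj := hj) (h110 := d.m110) (hl := hl)
            (hg0 := by linarith) (hug := hug) (hX := by linarith) (o2 := by linarith)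
            (o3 := by linarith) (tE := tE)
        · exact e1N_2_i (th := th) (lam := lam) (y := y) (z := z) (MB := MB) (u1 := u1) (u2 := u2)
            (ux := ux) (ua := ua) (al := al) (v2 := v2) (vb := vb) (be := be) (hb := d.hb)
            (hl := hl) (in3 := by linarith) (in1 := by linarith)
      · rcases d.H4 with hH | ⟨hH, o1, o2, o3, o4⟩ | ⟨hH, i1, i2⟩
        · exact e1N_wQ_g (th := th) (lam := lam) (y := y) (z := z) (g := 0) (X := X) (MB := MB)
            (u1 := u1) (u2 := u2) (ux := ux) (ua := ua) (al := al) (v2 := v2) (vb := vb)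
            (be := be) (hb := d.hb) (hl := hl) (hg0 := by linarith) (hug := hug)
            (hXc0 := by linarith) (tO := tO1)
        · exact e1N_wQ_o (th := th) (lam := lam) (y := y) (z := z) (g := 0) (X := X) (MB := MB)
            (MA := MA) (m11 := m11) (u1 := u1) (u2 := u2) (ux := ux) (ua := ua) (al := al)
            (v2 := v2) (vb := vb) (be := be) (hb := d.hb) (hj := hj) (h110 := d.m110) (hl := hl)
            (hg0 := by linarith) (hug := hug) (hXc0 := by linarith) (o2 := by linarith)
            (o3 := by linarith) (tE := tE)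
        · exact e1N_wQ_i (th := th) (lam := lam) (y := y) (z := z) (MB := MB) (u1 := u1)
            (u2 := u2) (ux := ux) (ua := ua) (al := al) (v2 := v2) (vb := vb) (be := be)
            (hb := d.hb) (hl := hl) (in3 := by linarith) (in1 := by linarith)
      · rcases d.H4 with hH | ⟨hH, o1, o2, o3, o4⟩ | ⟨hH, i1, i2⟩
        · exact e1N_wP_g (th := th) (lam := lam) (y := y) (z := z) (g := 0) (X := X) (MB := MB)
            (u1 := u1) (u2 := u2) (ux := ux) (ua := ua) (al := al) (v2 := v2) (vb := vb)
            (be := be) (hb := d.hb) (hl := hl) (hg0 := by linarith) (hug := hug)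
            (hXc0 := by linarith) (hXc1 := by linarith) (hlam := by linarith) (tO := tO1)
        · exact e1N_wP_o (th := th) (lam := lam) (y := y) (z := z) (g := 0) (X := X) (MB := MB)
            (MA := MA) (m11 := m11) (u1 := u1) (u2 := u2) (ux := ux) (ua := ua) (al := al)
            (v2 := v2) (vb := vb) (be := be) (hb := d.hb) (hj := hj) (h110 := d.m110) (hl := hl)
            (hg0 := by linarith) (hug := hug) (hX0 := hX0) (hXc0 := by linarith)
            (hXc1 := by linarith) (o2 := by linarith) (o3 := by linarith) (tE := tE)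
        · exact e1N_wP_i (th := th) (lam := lam) (y := y) (z := z) (MB := MB) (u1 := u1)
            (u2 := u2) (ux := ux) (ua := ua) (al := al) (v2 := v2) (vb := vb) (be := be)
            (hb := d.hb) (hl := hl) (in3 := by linarith) (in1 := by linarith)

theorem MXD.e1L {i j : ℕ} {th lam y z MB MA Qc Pc m11 m12 u1 u2 ux ua al v2 vb1 vb be sg D L X sy ay cy : ℝ}
    (d : MXD i j th lam y z MB MA Qc Pc m11 m12 u1 u2 ux ua al v2 vb1 vb be)
    (hug : ua ≤ 0) (hs0 : 0 ≤ sg) (hX0 : 0 ≤ X)
    (hD : D ≤ 0) (hDL : D + L + sg ≤ th + y)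
    (hy : LY sy ay cy) (hs : sy ≤ Pc) (hsL : sy ≤ L)
    (hXb : sy ≤ X) (hX : X = sy ∨ X ≤ 2 ∨ (X ≤ sg ∧ (X ≤ Qc ∨ X ≤ Pc)))
    (t11 : FT th (D + ay) (L - sy) m11 (vb - ua) (y - vb - be) al)
    (t12 : FT th (D + ay) (L - sy) m12 (v2 - u1) (v2 + be - y) (u1 - ua - al))
    (tA : FT th (-(0 : ℝ)) X 0 (th + ua) al be)
    (tE : FT th (-(0 : ℝ)) X (MA - m11) (th + ua + vb - y) al (y - vb - be))
    (tO : 1 ≤ j → FT th (-(0 : ℝ)) X 2 (th + ux + ua - u1) (u1 - ux - al) be) : False := by
  have hsy0 : 0 ≤ sy := by linarith [hy.a1, hy.say]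
  rcases d.leaf with ⟨hl, hQ, hP⟩ | ⟨hl, hi3, hQ, hQ', hP⟩ | ⟨hl, hQ, hP, hP'⟩
  · linarith [hl.xua]
  · linarith [hl.xua]
  · rcases Nat.eq_zero_or_pos j with j0 | j0
    · obtain ⟨hj1, hj2, hj3⟩ := d.hj0 j0
      linarith [hl.xu1]
    · have hj := d.hj j0
      have tO1 := tO j0
      rcases hX with hX | hX | ⟨hXs, hXc | hXc⟩
      · rcases d.H4 with hH | ⟨hH, o1, o2, o3, o4⟩ | ⟨hH, i1, i2⟩
        · exact e1L_S_g (th := th) (lam := lam) (y := y) (z := z) (g := 0) (Y := 0) (X := X)
            (MB := MB) (u1 := u1) (u2 := u2) (ux := ux) (ua := ua) (al := al) (v2 := v2)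
            (vb := vb) (be := be) (sy := sy) (hb := d.hb) (hl := hl) (hg0 := by linarith)
            (hY0 := by linarith) (hug := hug) (hyp1 := by linarith) (hyp2 := by linarith)
            (hX := by linarith) (hlam := by linarith) (tO := tO1)
        · exact e1L_S_o (th := th) (lam := lam) (y := y) (z := z) (g := 0) (Y := 0) (X := X)
            (MB := MB) (MA := MA) (m11 := m11) (u1 := u1) (u2 := u2) (ux := ux) (ua := ua)
            (al := al) (v2 := v2) (vb := vb) (be := be) (sy := sy) (ay := ay) (cy := cy)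
            (hb := d.hb) (hj := hj) (h110 := d.m110) (hl := hl) (hg0 := by linarith)
            (hY0 := by linarith) (hug := hug) (hy := hy) (hyp1 := by linarith)
            (hyp2 := by linarith) (hX := by linarith) (o2 := by linarith) (o3 := by linarith)
            (tE := tE)
        · exact e1L_S_i (th := th) (lam := lam) (y := y) (z := z) (MB := MB) (u1 := u1) (u2 := u2)
            (ux := ux) (ua := ua) (al := al) (v2 := v2) (vb := vb) (be := be) (hb := d.hb)
            (hl := hl) (in3 := by linarith) (in1 := by linarith)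
      · rcases d.H4 with hH | ⟨hH, o1, o2, o3, o4⟩ | ⟨hH, i1, i2⟩
        · exact e1L_2_g (th := th) (lam := lam) (y := y) (z := z) (g := 0) (X := X) (MB := MB)
            (u1 := u1) (u2 := u2) (ux := ux) (ua := ua) (al := al) (v2 := v2) (vb := vb)
            (be := be) (sy := sy) (ay := ay) (cy := cy) (hb := d.hb) (hl := hl)
            (hg0 := by linarith) (hug := hug) (hy := hy) (hyp2 := by linarith) (hX := by linarith)
            (hlam := by linarith) (tO := tO1)
        · exact e1L_2_o (th := th) (lam := lam) (y := y) (z := z) (g := 0) (X := X) (MB := MB)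
            (MA := MA) (m11 := m11) (u1 := u1) (u2 := u2) (ux := ux) (ua := ua) (al := al)
            (v2 := v2) (vb := vb) (be := be) (sy := sy) (ay := ay) (cy := cy) (hb := d.hb)
            (hj := hj) (h110 := d.m110) (hl := hl) (hg0 := by linarith) (hug := hug) (hy := hy)
            (hyp1 := by linarith) (hyp2 := by linarith) (hX := by linarith) (o2 := by linarith)
            (o3 := by linarith) (tE := tE)
        · exact e1L_2_i (th := th) (lam := lam) (y := y) (z := z) (MB := MB) (u1 := u1) (u2 := u2)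
            (ux := ux) (ua := ua) (al := al) (v2 := v2) (vb := vb) (be := be) (hb := d.hb)
            (hl := hl) (in1 := by linarith)
      · rcases d.H4 with hH | ⟨hH, o1, o2, o3, o4⟩ | ⟨hH, i1, i2⟩
        · exact e1L_wQ_g (th := th) (lam := lam) (y := y) (z := z) (g := 0) (X := X) (MB := MB)
            (u1 := u1) (u2 := u2) (ux := ux) (ua := ua) (al := al) (v2 := v2) (vb := vb)
            (be := be) (hb := d.hb) (hl := hl) (hg0 := by linarith) (hug := hug)
            (hXc0 := by linarith) (tO := tO1)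
        · exact e1L_wQ_o (th := th) (lam := lam) (y := y) (z := z) (g := 0) (Y := 0) (X := X)
            (MB := MB) (MA := MA) (m11 := m11) (u1 := u1) (u2 := u2) (ux := ux) (ua := ua)
            (al := al) (v2 := v2) (vb := vb) (be := be) (sy := sy) (ay := ay) (cy := cy)
            (hb := d.hb) (hj := hj) (h110 := d.m110) (hl := hl) (hg0 := by linarith)
            (hY0 := by linarith) (hug := hug) (hy := hy) (hyp1 := by linarith)
            (hyp2 := by linarith) (hXb := by linarith) (hXc0 := by linarith) (o2 := by linarith)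
            (o3 := by linarith) (tE := tE)
        · exact e1L_wQ_i (th := th) (lam := lam) (y := y) (z := z) (MB := MB) (u1 := u1)
            (u2 := u2) (ux := ux) (ua := ua) (al := al) (v2 := v2) (vb := vb) (be := be)
            (hb := d.hb) (hl := hl) (in3 := by linarith) (in1 := by linarith)
      · rcases d.H4 with hH | ⟨hH, o1, o2, o3, o4⟩ | ⟨hH, i1, i2⟩
        · exact e1L_wP_g (th := th) (lam := lam) (y := y) (z := z) (g := 0) (X := X) (MB := MB)
            (u1 := u1) (u2 := u2) (ux := ux) (ua := ua) (al := al) (v2 := v2) (vb := vb)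
            (be := be) (hb := d.hb) (hl := hl) (hg0 := by linarith) (hug := hug)
            (hXc0 := by linarith) (hXc1 := by linarith) (hlam := by linarith) (tO := tO1)
        · exact e1L_wP_o (th := th) (lam := lam) (y := y) (z := z) (g := 0) (Y := 0) (X := X)
            (MB := MB) (MA := MA) (m11 := m11) (u1 := u1) (u2 := u2) (ux := ux) (ua := ua)
            (al := al) (v2 := v2) (vb := vb) (be := be) (sy := sy) (hb := d.hb) (hj := hj)
            (h110 := d.m110) (hl := hl) (hg0 := by linarith) (hug := hug) (hXa := by linarith)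
            (hXb := by linarith) (hXc0 := by linarith) (hXc1 := by linarith) (o2 := by linarith)
            (o3 := by linarith) (tE := tE)
        · exact e1L_wP_i (th := th) (lam := lam) (y := y) (z := z) (MB := MB) (u1 := u1)
            (u2 := u2) (ux := ux) (ua := ua) (al := al) (v2 := v2) (vb := vb) (be := be)
            (hb := d.hb) (hl := hl) (in3 := by linarith) (in1 := by linarith)

end Pool.Agent.Exact
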