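import Pool.Agent.Lib_helper68.Exact.Cut

/-!
# The statements T2 for a given pattern
-/

set_option autoImplicit false
set_option linter.unusedSectionVars false
set_option linter.unusedSimpArgs false
set_option linter.unnecessarySeqFocus false
set_option linter.unreachableTactic false
set_option linter.unusedTactic false
set_option linter.unusedVariables false

namespace Pool.Agent.Exact

open Finset

variable {V : Type*} [Fintype V] [DecidableEq V] {B : V → V → ℤ}

/-- greedy signs of a part of `S` -/
theorem t2all (h0 : ∀ u v, 0 ≤ B u v) {Rs S : Finset V} {g Y : ℤ} (hdS : Disjoint Rs S)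
    (hind : ∀ u ∈ S, ∀ v ∈ S, MM B u v = 0) {x : V → ℤ} (hx : ∀ v, x v = 1 ∨ x v = -1)
    (hqx : Qd B Rs x ≤ -g) (hnx : ∀ z ∈ S, ∑ u ∈ Rs, MM B u z * x u = 0)
    (hY : Y = - ∑ v ∈ Rs, im B v * x v) (hsx : ∑ v ∈ Rs, im B v * x v ≤ 0) :
    ∀ S0 ⊆ S, ∀ y0 M K t : ℝ, 0 ≤ K → 0 ≤ y0 → (∀ v ∈ S0, |((im B v : ℤ) : ℝ)| ≤ y0) →
      St B (im B) (univ \ (Rs ∪ S0)) M K t →
      Val B (-(g : ℝ) + M + max (max (max ((Y : ℝ) - ∑ v ∈ S0, |((im B v : ℤ) : ℝ)|) y0) K)
        ((max ((Y : ℝ) - ∑ v ∈ S0, |((im B v : ℤ) : ℝ)|) y0 + t) / 2)) := by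
  classical
  intro S0 hS0 y0 M K t hK hy0 hy hst
  -- signs for `S0`
  have key : ∀ T : Finset V, T ⊆ S0 → ∃ z : V → ℤ, (∀ v, z v = 1 ∨ z v = -1) ∧
      (∀ v ∈ Rs, z v = x v) ∧
      |((∑ v ∈ Rs ∪ T, im B v * z v : ℤ) : ℝ)| ≤
        max ((Y : ℝ) - ∑ v ∈ T, |((im B v : ℤ) : ℝ)|) y0 := by
    intro T
    induction T using Finset.induction_on with
    | empty =>
      intro _
      refine ⟨x, hx, fun _ _ => rfl, ?_⟩
      rw [Finset.union_empty, Finset.sum_empty, sub_zero]
      refine le_trans (le_of_eq ?_) (le_max_left _ _)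
      rw [hY]
      push_cast
      rw [abs_of_nonpos]
      have : ((∑ v ∈ Rs, im B v * x v : ℤ) : ℝ) ≤ 0 := by exact_mod_cast hsx
      push_cast at this
      exact this
    | insert v T hv ih =>
      intro hT
      obtain ⟨z, hz, hzx, hzb⟩ := ih ((Finset.subset_insert _ _).trans hT)
      have hvS0 : v ∈ S0 := hT (Finset.mem_insert_self _ _)
      have hvRs : v ∉ Rs := Finset.disjoint_right.1 hdS (hS0 hvS0)
      have hvU : v ∉ Rs ∪ T := by
        simp only [Finset.mem_union, not_or]; exact ⟨hvRs, hv⟩
      have hvy := hy v hvS0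
      set L : ℝ := ((∑ v ∈ Rs ∪ T, im B v * z v : ℤ) : ℝ) with hL
      -- choose the sign
      obtain ⟨τ, hτ, hτL⟩ := exists_sign_abs L ((im B v : ℤ) : ℝ)
      refine ⟨fun u => if u = v then τ else z u, ?_, ?_, ?_⟩
      · intro u
        dsimp only
        split_ifs
        · exact hτ
        · exact hz u
      · intro u hu'
        have : u ≠ v := fun e => hvRs (e ▸ hu')
        simp only [this, if_false]
        exact hzx u hu'
      · have e1 : Rs ∪ insert v T = insert v (Rs ∪ T) := by rw [Finset.union_insert]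
        rw [e1, Finset.sum_insert hvU]
        simp only [if_true]
        have e2 : ∑ u ∈ Rs ∪ T, im B u * (if u = v then τ else z u) =
            ∑ u ∈ Rs ∪ T, im B u * z u := by
          refine Finset.sum_congr rfl fun u hu' => ?_
          have : u ≠ v := fun e => hvU (e ▸ hu')
          simp only [this, if_false]
        rw [e2]
        have e3 : ((im B v * τ + ∑ u ∈ Rs ∪ T, im B u * z u : ℤ) : ℝ) =
            L + ((im B v : ℤ) : ℝ) * τ := by
          rw [hL]; push_cast; ring
        rw [e3, hτL, Finset.sum_insert hv]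
        have hw0 : 0 ≤ |((im B v : ℤ) : ℝ)| := abs_nonneg _
        have hL0 : 0 ≤ |L| := abs_nonneg _
        rw [abs_le]
        rcases le_max_iff.1 hzb with h3 | h3
        · have m1 := le_max_left ((Y : ℝ) - (|((im B v : ℤ) : ℝ)| +
            ∑ v ∈ T, |((im B v : ℤ) : ℝ)|)) y0
          have m2 := le_max_right ((Y : ℝ) - (|((im B v : ℤ) : ℝ)| +
            ∑ v ∈ T, |((im B v : ℤ) : ℝ)|)) y0
          constructor <;> linarith
        · have m2 := le_max_right ((Y : ℝ) - (|((im B v : ℤ) : ℝ)| +
            ∑ v ∈ T, |((im B v : ℤ) : ℝ)|)) y0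
          constructor <;> linarith
  obtain ⟨z, hz, hzx, hzb⟩ := key S0 (Finset.Subset.refl _)
  have hdS0 : Disjoint Rs S0 := Finset.disjoint_of_subset_right hS0 hdS
  rw [← Finset.compl_eq_univ_sdiff] at hst
  have h3 := extendSt (Rs ∪ S0) z hz hK hst
  have h4 : Qd B (Rs ∪ S0) z ≤ -g := by
    rw [Qd_union hdS0, Qd_congr hzx,
      Qd_indep h0 (fun l hl l' hl' => hind l (hS0 hl) l' (hS0 hl'))]
    have : Int B Rs S0 z = 0 := by
      rw [Int_sum_right]
      refine Finset.sum_eq_zero fun w hw => ?_
      unfold Int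
      simp only [Finset.sum_singleton]
      have : ∑ u ∈ Rs, MM B u w * (z u * z w) = (∑ u ∈ Rs, MM B u w * x u) * z w := by
        rw [Finset.sum_mul]
        exact Finset.sum_congr rfl fun u hu' => by rw [hzx u hu']; ring
      rw [this, hnx w (hS0 hw), zero_mul]
    rw [this]
    linarith
  have h4' : ((Qd B (Rs ∪ S0) z : ℤ) : ℝ) ≤ -(g : ℝ) := by exact_mod_cast h4
  refine h3.mono ?_
  set L : ℝ := |((∑ v ∈ Rs ∪ S0, im B v * z v : ℤ) : ℝ)| with hL
  have h5 : max (max L K) ((L + t) / 2) ≤
      max (max (max ((Y : ℝ) - ∑ v ∈ S0, |((im B v : ℤ) : ℝ)|) y0) K)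
        ((max ((Y : ℝ) - ∑ v ∈ S0, |((im B v : ℤ) : ℝ)|) y0 + t) / 2) :=
    max_le_max (max_le_max hzb le_rfl) (by linarith)
  linarith

variable {Rl : Finset V} {ℓ nQ nP : ℕ} {uq up : ℕ → V} {q p : ℕ → ℝ}

/-- T2 in terms of index sets -/
theorem Frame.t2iA (h : Frame B Rl ℓ nQ nP uq up q p) {a b : ℕ} (haQ : a ≤ nQ) (hbP : b ≤ nP)
    {Rs S : Finset V} {g Y : ℤ} (hRS : Rs ∪ S = vs uq up (rr nQ nP a b)) (hdS : Disjoint Rs S)
    (hind : ∀ u ∈ S, ∀ v ∈ S, MM B u v = 0)
    (hT2 : ∀ S0 ⊆ S, ∀ y0 M K t : ℝ, 0 ≤ K → 0 ≤ y0 → (∀ v ∈ S0, |((im B v : ℤ) : ℝ)| ≤ y0) →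
      St B (im B) (Finset.univ \ (Rs ∪ S0)) M K t →
      Val B (-(g : ℝ) + M + max (max (max ((Y : ℝ) - ∑ v ∈ S0, |((im B v : ℤ) : ℝ)|) y0) K)
        ((max ((Y : ℝ) - ∑ v ∈ S0, |((im B v : ℤ) : ℝ)|) y0 + t) / 2))) :
    T2I B uq up a b S g Y ∧ T2A B uq up a b S g Y := by
  classical
  have hQ := h.nQle
  have hP := h.nPle
  have hB0 := h.sys.B0
  have hB1 := h.sys.B1
  have hBd := h.sys.Bd
  set R := vs uq up (rr nQ nP a b) with hR
  have hRf : rr nQ nP a b ⊆ full ℓ := by unfold rr; (intro x hx; revert hx; rcases x with x | x <;>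
    simp only [Finset.mem_union, Finset.mem_insert, Finset.mem_singleton, inl_mem_full,
      inr_mem_full, inl_mem_iq, inr_mem_iq, inl_mem_ip, inr_mem_ip, Sum.inl.injEq, Sum.inr.injEq,
      reduceCtorEq, Finset.notMem_empty, or_false, false_or, false_imp_iff, imp_false,
      implies_true, not_false_eq_true, iff_false, false_iff] <;> omega)
  refine ⟨?_, ?_⟩
  · intro y0 M K t hK hy0 hy hst
    refine hT2 S (Finset.Subset.refl _) y0 M K t hK hy0 hy ?_
    have h3 := h.withDm hK hst (by unfold hb rr; (intro x hx; revert hx; rcases x with x | x <;>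
    simp only [Finset.mem_union, Finset.mem_insert, Finset.mem_singleton, inl_mem_full,
      inr_mem_full, inl_mem_iq, inr_mem_iq, inl_mem_ip, inr_mem_ip, Sum.inl.injEq, Sum.inr.injEq,
      reduceCtorEq, Finset.notMem_empty, or_false, false_or, false_imp_iff, imp_false,
      implies_true, not_false_eq_true, iff_false, false_iff] <;> omega))
    have h4 : Finset.univ \ (Rs ∪ S) = (hb a b ∪ dm ℓ nQ nP).image (vx uq up) := by
      rw [hRS, hR]
      unfold vs
      have h5 : full ℓ = rr nQ nP a b ∪ (hb a b ∪ dm ℓ nQ nP) := by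
        unfold rr hb dm; (ext x; rcases x with x | x <;>
    simp only [Finset.mem_union, Finset.mem_insert, Finset.mem_singleton, inl_mem_full,
      inr_mem_full, inl_mem_iq, inr_mem_iq, inl_mem_ip, inr_mem_ip, Sum.inl.injEq, Sum.inr.injEq,
      reduceCtorEq, Finset.notMem_empty, or_false, false_or, false_imp_iff, imp_false,
      implies_true, not_false_eq_true, iff_false, false_iff] <;> omega)
      rw [← h.univ, h5, Finset.image_union, Finset.union_sdiff_cancel_left]
      refine h.disj hRf (by unfold hb dm; (intro x hx; revert hx; rcases x with x | x <;>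
    simp only [Finset.mem_union, Finset.mem_insert, Finset.mem_singleton, inl_mem_full,
      inr_mem_full, inl_mem_iq, inr_mem_iq, inl_mem_ip, inr_mem_ip, Sum.inl.injEq, Sum.inr.injEq,
      reduceCtorEq, Finset.notMem_empty, or_false, false_or, false_imp_iff, imp_false,
      implies_true, not_false_eq_true, iff_false, false_iff] <;> omega)) ?_
      unfold rr hb dm
      (rw [Finset.disjoint_left]; intro x hx hx'; revert hx hx'; rcases x with x | x <;>
    simp only [Finset.mem_union, Finset.mem_insert, Finset.mem_singleton, inl_mem_full,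
      inr_mem_full, inl_mem_iq, inr_mem_iq, inl_mem_ip, inr_mem_ip, Sum.inl.injEq, Sum.inr.injEq,
      reduceCtorEq, Finset.notMem_empty, or_false, false_or, false_imp_iff, imp_false,
      implies_true, not_false_eq_true, iff_false, false_iff] <;> omega)
    rw [h4]
    exact h3
  · intro z hz S0 hS0 s hs y0 M K t hK hy0 hy hit hst
    have hzf : hb a b ⊆ full ℓ := by unfold hb; (intro x hx; revert hx; rcases x with x | x <;>
    simp only [Finset.mem_union, Finset.mem_insert, Finset.mem_singleton, inl_mem_full,
      inr_mem_full, inl_mem_iq, inr_mem_iq, inl_mem_ip, inr_mem_ip, Sum.inl.injEq, Sum.inr.injEq,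
      reduceCtorEq, Finset.notMem_empty, or_false, false_or, false_imp_iff, imp_false,
      implies_true, not_false_eq_true, iff_false, false_iff] <;> omega)
    set zv : V := vx uq up z with hzv
    -- the group
    have hzS : zv ∉ Rs ∪ S := by
      rw [hRS]
      have : Disjoint (rr nQ nP a b) (hb a b) := by
        unfold rr hb
        (rw [Finset.disjoint_left]; intro x hx hx'; revert hx hx'; rcases x with x | x <;>
    simp only [Finset.mem_union, Finset.mem_insert, Finset.mem_singleton, inl_mem_full,
      inr_mem_full, inl_mem_iq, inr_mem_iq, inl_mem_ip, inr_mem_ip, Sum.inl.injEq, Sum.inr.injEq,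
      reduceCtorEq, Finset.notMem_empty, or_false, false_or, false_imp_iff, imp_false,
      implies_true, not_false_eq_true, iff_false, false_iff] <;> omega)
      exact Finset.disjoint_right.1 (h.disj hRf hzf this) (Finset.mem_image_of_mem _ hz)
    have hzS' : zv ∉ S \ S0 := fun h' => hzS (by
      rw [Finset.mem_union]; right; exact (Finset.mem_sdiff.1 h').1)
    set x : V → ℤ := fun v => if v = zv then 1 else s v with hx
    have hxz : x zv = 1 := by simp [hx]
    have hxS : ∀ v ∈ S \ S0, x v = s v := by
      intro v hv'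
      have : v ≠ zv := fun e => hzS' (e ▸ hv')
      simp [hx, this]
    have hgr : St B (im B) (insert zv (S \ S0)) ((∑ v ∈ S \ S0, MM B zv v * s v : ℤ) : ℝ)
        |((im B zv + ∑ v ∈ S \ S0, im B v * s v : ℤ) : ℝ)|
        |((im B zv + ∑ v ∈ S \ S0, im B v * s v : ℤ) : ℝ)| := by
      refine St.group _ x ?_ ?_ ?_
      · intro v
        simp only [hx]
        split_ifs
        · left; rfl
        · exact hs v
      · rw [Qd_star zv (S \ S0) hzS' hB0 hBd (fun l hl l' hl' => hind l
          (Finset.mem_sdiff.1 hl).1 l' (Finset.mem_sdiff.1 hl').1)]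
        refine le_of_eq ?_
        congr 1
        refine Finset.sum_congr rfl fun v hv' => ?_
        rw [hxz, hxS v hv', one_mul]
      · rw [Finset.sum_insert hzS', hxz, mul_one, Finset.sum_congr rfl fun v hv' => by
          rw [hxS v hv']]
    have h3 := h.withDm hK hst (by
      refine (Finset.erase_subset _ _).trans ?_
      unfold hb rr; (intro x hx; revert hx; rcases x with x | x <;>
    simp only [Finset.mem_union, Finset.mem_insert, Finset.mem_singleton, inl_mem_full,
      inr_mem_full, inl_mem_iq, inr_mem_iq, inl_mem_ip, inr_mem_ip, Sum.inl.injEq, Sum.inr.injEq,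
      reduceCtorEq, Finset.notMem_empty, or_false, false_or, false_imp_iff, imp_false,
      implies_true, not_false_eq_true, iff_false, false_iff] <;> omega))
    have hdj : Disjoint (((hb a b).erase z ∪ dm ℓ nQ nP).image (vx uq up))
        (insert zv (S \ S0)) := by
      rw [Finset.disjoint_right]
      intro v hv' hv''
      rcases Finset.mem_insert.1 hv' with rfl | hv'
      · rw [Finset.mem_image] at hv''
        obtain ⟨w, hw, hw'⟩ := hv''
        have hzf' : z ∈ full ℓ := hzf hz
        have hwf : w ∈ full ℓ := by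
          rcases Finset.mem_union.1 hw with h5 | h5
          · exact hzf (Finset.mem_of_mem_erase h5)
          · revert h5
            have : dm ℓ nQ nP ⊆ full ℓ := by unfold dm; (intro x hx; revert hx; rcases x with x | x <;>
    simp only [Finset.mem_union, Finset.mem_insert, Finset.mem_singleton, inl_mem_full,
      inr_mem_full, inl_mem_iq, inr_mem_iq, inl_mem_ip, inr_mem_ip, Sum.inl.injEq, Sum.inr.injEq,
      reduceCtorEq, Finset.notMem_empty, or_false, false_or, false_imp_iff, imp_false,
      implies_true, not_false_eq_true, iff_false, false_iff] <;> omega)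
            intro h5
            exact this h5
        have hwz := h.inj hwf hzf' hw'
        rw [hwz] at hw
        rcases Finset.mem_union.1 hw with h5 | h5
        · exact Finset.notMem_erase _ _ h5
        · have : Disjoint (hb a b) (dm ℓ nQ nP) := by
            unfold hb dm
            (rw [Finset.disjoint_left]; intro x hx hx'; revert hx hx'; rcases x with x | x <;>
    simp only [Finset.mem_union, Finset.mem_insert, Finset.mem_singleton, inl_mem_full,
      inr_mem_full, inl_mem_iq, inr_mem_iq, inl_mem_ip, inr_mem_ip, Sum.inl.injEq, Sum.inr.injEq,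
      reduceCtorEq, Finset.notMem_empty, or_false, false_or, false_imp_iff, imp_false,
      implies_true, not_false_eq_true, iff_false, false_iff] <;> omega)
          exact Finset.disjoint_left.1 this hz h5
      · have h5 : v ∈ Rs ∪ S := by
          rw [Finset.mem_union]; right; exact (Finset.mem_sdiff.1 hv').1
        rw [hRS] at h5
        have : Disjoint (rr nQ nP a b) ((hb a b).erase z ∪ dm ℓ nQ nP) := by
          refine Finset.disjoint_of_subset_right (Finset.union_subset_union_left
            (Finset.erase_subset _ _)) ?_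
          unfold rr hb dm
          (rw [Finset.disjoint_left]; intro x hx hx'; revert hx hx'; rcases x with x | x <;>
    simp only [Finset.mem_union, Finset.mem_insert, Finset.mem_singleton, inl_mem_full,
      inr_mem_full, inl_mem_iq, inr_mem_iq, inl_mem_ip, inr_mem_ip, Sum.inl.injEq, Sum.inr.injEq,
      reduceCtorEq, Finset.notMem_empty, or_false, false_or, false_imp_iff, imp_false,
      implies_true, not_false_eq_true, iff_false, false_iff] <;> omega)
        refine Finset.disjoint_left.1 (h.disj hRf ?_ this) h5 hv''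
        refine Finset.union_subset ((Finset.erase_subset _ _).trans hzf) ?_
        unfold dm; (intro x hx; revert hx; rcases x with x | x <;>
    simp only [Finset.mem_union, Finset.mem_insert, Finset.mem_singleton, inl_mem_full,
      inr_mem_full, inl_mem_iq, inr_mem_iq, inl_mem_ip, inr_mem_ip, Sum.inl.injEq, Sum.inr.injEq,
      reduceCtorEq, Finset.notMem_empty, or_false, false_or, false_imp_iff, imp_false,
      implies_true, not_false_eq_true, iff_false, false_iff] <;> omega)
    have h4 := St.union h3 (hgr.mono le_rfl hit le_rfl) hdj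
    have h6 : Finset.univ \ (Rs ∪ S0) = ((hb a b).erase z ∪ dm ℓ nQ nP).image (vx uq up) ∪
        insert zv (S \ S0) := by
      have e1 : full ℓ = rr nQ nP a b ∪ insert z ((hb a b).erase z ∪ dm ℓ nQ nP) := by
        rw [← Finset.insert_union, Finset.insert_erase hz]
        unfold rr hb dm; (ext x; rcases x with x | x <;>
    simp only [Finset.mem_union, Finset.mem_insert, Finset.mem_singleton, inl_mem_full,
      inr_mem_full, inl_mem_iq, inr_mem_iq, inl_mem_ip, inr_mem_ip, Sum.inl.injEq, Sum.inr.injEq,
      reduceCtorEq, Finset.notMem_empty, or_false, false_or, false_imp_iff, imp_false,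
      implies_true, not_false_eq_true, iff_false, false_iff] <;> omega)
      have e2 : (Finset.univ : Finset V) = (Rs ∪ S) ∪ insert zv
          (((hb a b).erase z ∪ dm ℓ nQ nP).image (vx uq up)) := by
        rw [← h.univ, e1, Finset.image_union, Finset.image_insert, hRS]
        rfl
      ext v
      have hv' : v ∈ (Rs ∪ S) ∪ insert zv
          (((hb a b).erase z ∪ dm ℓ nQ nP).image (vx uq up)) := by
        rw [← e2]; exact Finset.mem_univ v
      have hd5 : v ∈ (((hb a b).erase z ∪ dm ℓ nQ nP).image (vx uq up)) → v ∉ Rs ∪ S := by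
        intro h7 h5
        rw [hRS] at h5
        have : Disjoint (rr nQ nP a b) ((hb a b).erase z ∪ dm ℓ nQ nP) := by
          refine Finset.disjoint_of_subset_right (Finset.union_subset_union_left
            (Finset.erase_subset _ _)) ?_
          unfold rr hb dm
          (rw [Finset.disjoint_left]; intro x hx hx'; revert hx hx'; rcases x with x | x <;>
    simp only [Finset.mem_union, Finset.mem_insert, Finset.mem_singleton, inl_mem_full,
      inr_mem_full, inl_mem_iq, inr_mem_iq, inl_mem_ip, inr_mem_ip, Sum.inl.injEq, Sum.inr.injEq,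
      reduceCtorEq, Finset.notMem_empty, or_false, false_or, false_imp_iff, imp_false,
      implies_true, not_false_eq_true, iff_false, false_iff] <;> omega)
        refine Finset.disjoint_left.1 (h.disj hRf ?_ this) h5 h7
        refine Finset.union_subset ((Finset.erase_subset _ _).trans hzf) ?_
        unfold dm; (intro x hx; revert hx; rcases x with x | x <;>
    simp only [Finset.mem_union, Finset.mem_insert, Finset.mem_singleton, inl_mem_full,
      inr_mem_full, inl_mem_iq, inr_mem_iq, inl_mem_ip, inr_mem_ip, Sum.inl.injEq, Sum.inr.injEq,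
      reduceCtorEq, Finset.notMem_empty, or_false, false_or, false_imp_iff, imp_false,
      implies_true, not_false_eq_true, iff_false, false_iff] <;> omega)
      have hd6 : v ∈ Rs → v ∉ S := fun h7 h8 => Finset.disjoint_left.1 hdS h7 h8
      simp only [Finset.mem_sdiff, Finset.mem_univ, true_and, Finset.mem_union,
        Finset.mem_insert, not_or] at hv' hd5 hzS ⊢
      constructor
      · rintro ⟨h7, h8⟩
        rcases hv' with (h9 | h9) | h9 | h9
        · exact absurd h9 h7
        · right; right; exact ⟨h9, h8⟩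
        · right; left; exact h9
        · left; exact h9
      · rintro (h9 | h9 | h9)
        · exact ⟨(hd5 h9).1, fun h10 => (hd5 h9).2 (hS0 h10)⟩
        · rw [h9]; exact ⟨hzS.1, fun h10 => hzS.2 (hS0 h10)⟩
        · exact ⟨fun h10 => hd6 h10 h9.1, h9.2⟩
    rw [← h6] at h4
    exact hT2 S0 hS0 y0 _ K _ hK hy0 hy h4

end Pool.Agent.Exact
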