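import Pool.Agent.Lib_helper43.NC.Plc
import Pool.Agent.Lib_helper43.NC.T2x

/-!
# The path statement with the same data for all structures
-/

set_option autoImplicit false
set_option linter.unusedSectionVars false

namespace Pool.Agent.Exact

open Finset

variable {V : Type*} [Fintype V] [DecidableEq V] {B : V → V → ℤ}

/-- the values available for structures on `C` -/
def EV (B : V → V → ℤ) (C : Finset V) (D L : ℝ) : Prop :=
  ∀ M K t : ℝ, 0 ≤ K → St B (im B) C M K t → Val B (D + M + max (max L K) ((L + t) / 2))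

lemma EV.mono {C : Finset V} {D L L' : ℝ} (h : EV B C D L) (hL : L ≤ L') : EV B C D L' := by
  intro M K t hK hst
  refine (h M K t hK hst).mono ?_
  have : max (max L K) ((L + t) / 2) ≤ max (max L' K) ((L' + t) / 2) :=
    max_le_max (max_le_max hL le_rfl) (by linarith)
  linarith

/-- flipping the signs of `Rs ∪ S0` -/
lemma flipEV (h0 : ∀ u v, 0 ≤ B u v) {Rs S S0 : Finset V} {g : ℤ}
    (hdS : Disjoint Rs S) (hind : ∀ u ∈ S, ∀ v ∈ S, MM B u v = 0) (hS0 : S0 ⊆ S)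
    {x z : V → ℤ} (hx : ∀ v, x v = 1 ∨ x v = -1) (hz : ∀ v, z v = 1 ∨ z v = -1)
    (hq : Qd B Rs x ≤ -g) (hn : ∀ z ∈ S, ∑ u ∈ Rs, MM B u z * x u = 0) {Y' : ℤ}
    (hY : |∑ v ∈ Rs, im B v * x v + ∑ v ∈ S0, im B v * z v| ≤ Y') :
    EV B (univ \ (Rs ∪ S0)) (-(g : ℝ)) (Y' : ℝ) := by
  classical
  intro M K t hK hst
  have hdS0 : Disjoint Rs S0 := Finset.disjoint_of_subset_right hS0 hdS
  rw [← Finset.compl_eq_univ_sdiff] at hst
  set y : V → ℤ := fun v => if v ∈ Rs then x v else z v with hy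
  have hyx : ∀ v ∈ Rs, y v = x v := fun v hv => by simp [hy, hv]
  have hyz : ∀ v ∈ S0, y v = z v := fun v hv => by
    have : v ∉ Rs := Finset.disjoint_right.1 hdS0 hv
    simp [hy, this]
  have h3 := extendSt (Rs ∪ S0) y (by
    intro v
    simp only [hy]
    split_ifs
    · exact hx v
    · exact hz v) hK hst
  have h4 : Qd B (Rs ∪ S0) y ≤ -g := by
    rw [Qd_union hdS0, Qd_congr hyx,
      Qd_indep h0 (fun l hl l' hl' => hind l (hS0 hl) l' (hS0 hl'))]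
    have : Int B Rs S0 y = 0 := by
      rw [Int_sum_right]
      refine Finset.sum_eq_zero fun w hw => ?_
      unfold Int
      simp only [Finset.sum_singleton]
      have : ∑ u ∈ Rs, MM B u w * (y u * y w) = (∑ u ∈ Rs, MM B u w * x u) * y w := by
        rw [Finset.sum_mul]
        exact Finset.sum_congr rfl fun u hu' => by rw [hyx u hu']; ring
      rw [this, hn w (hS0 hw), zero_mul]
    rw [this]
    linarith
  have h4' : ((Qd B (Rs ∪ S0) y : ℤ) : ℝ) ≤ -(g : ℝ) := by exact_mod_cast h4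
  have h5 : ∑ v ∈ Rs ∪ S0, im B v * y v =
      ∑ v ∈ Rs, im B v * x v + ∑ v ∈ S0, im B v * z v := by
    rw [Finset.sum_union hdS0]
    congr 1
    · exact Finset.sum_congr rfl fun v hv => by rw [hyx v hv]
    · exact Finset.sum_congr rfl fun v hv => by rw [hyz v hv]
  refine h3.mono ?_
  set L : ℝ := |((∑ v ∈ Rs ∪ S0, im B v * y v : ℤ) : ℝ)| with hL
  have h6 : L ≤ (Y' : ℝ) := by
    rw [hL, h5, ← Int.cast_abs]
    exact_mod_cast hY
  have h7 : max (max L K) ((L + t) / 2) ≤ max (max (Y' : ℝ) K) (((Y' : ℝ) + t) / 2) :=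
    max_le_max (max_le_max h6 le_rfl) (by linarith)
  linarith

/-- a run with a last vertex -/
lemma runE (hB : ∀ v, B v v = 0) (h0 : ∀ u v, 0 ≤ B u v) (h : V) (R C : Finset V)
    (hR : h ∉ R) (hC : h ∉ C) (hd : Disjoint R C) (hu : insert h (R ∪ C) = univ)
    {x : V → ℤ} (hx : ∀ v, x v = 1 ∨ x v = -1) {b : ℤ} (hb : 0 ≤ b) {y : V} (hy : y ∈ R)
    (hn : ∑ u ∈ R.erase y, MM B u y * x u = 0)
    (hP : PathB B (MM B h) x b (R.erase y)) (hq : 0 < im B h) {d β : ℤ}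
    (hD : DD B (MM B h) x (R.erase y) ≤ d)
    (hβ : DD B (MM B h) x (R.erase y) + ∑ v ∈ R.erase y, im B v * x v + im B h ≤ β) :
    Cr B R C b ∨ ∃ D L : ℤ, 1 ≤ L ∧ D ≤ d ∧ D + L ≤ β ∧ EV B (insert y C) D L ∧
      EV B C (D + MM B h y) |(L : ℝ) + im B y| := by
  classical
  set x' : V → ℤ := fun v => if v = y then 1 else x v with hx'
  have hyx : ∀ v ∈ R.erase y, x' v = x v := by
    intro v hv
    have : v ≠ y := (Finset.mem_erase.1 hv).1
    simp [hx', this]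
  have hyy : x' y = 1 := by simp [hx']
  have hP' : PathB B (MM B h) x' b (R.erase y) := hP.congr fun v hv => (hyx v hv).symm
  have e1 : DD B (MM B h) x' (R.erase y) = DD B (MM B h) x (R.erase y) := DD_congr hyx
  have e2 : ∑ v ∈ R.erase y, im B v * x' v = ∑ v ∈ R.erase y, im B v * x v :=
    Finset.sum_congr rfl fun v hv => by rw [hyx v hv]
  have e3 : DD B (MM B h) x' R = DD B (MM B h) x (R.erase y) + MM B h y := by
    have h3 := DD_place (a := MM B h) hB (Finset.notMem_erase y R) hyx hn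
    rw [Finset.insert_erase hy, hyy, mul_one] at h3
    exact h3
  have e4 : ∑ v ∈ R, im B v * x' v = im B y + ∑ v ∈ R.erase y, im B v * x v := by
    rw [← Finset.add_sum_erase _ _ hy, hyy, mul_one, e2]
  rcases run_last hB h0 h R C hR hC hd hu (x := x') (by
      intro v
      simp only [hx']
      split_ifs
      · left; rfl
      · exact hx v) hb hy hP' hq with h3 | ⟨h3, h4, h5⟩
  · exact Or.inl h3
  · right
    rw [e2] at h3
    refine ⟨DD B (MM B h) x (R.erase y), im B h + ∑ v ∈ R.erase y, im B v * x v, ?_, hD,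
      by linarith, ?_, ?_⟩
    · linarith
    · intro M K t hK hst
      have h6 := h4 M K t hK hst
      rw [e1, e2] at h6
      exact h6
    · intro M K t hK hst
      have h6 := h5 M K t hK hst
      rw [e3, e4] at h6
      have e5 : ((im B h + (im B y + ∑ v ∈ R.erase y, im B v * x v) : ℤ) : ℝ) =
          ((im B h + ∑ v ∈ R.erase y, im B v * x v : ℤ) : ℝ) + ((im B y : ℤ) : ℝ) := by
        push_cast; ring
      rw [e5] at h6
      push_cast at h6 ⊢
      exact h6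

/-- common data at the end of the path: no last vertex -/
structure EndN (B : V → V → ℤ) (h : V) (Rs S C : Finset V) (g chR Y nb w Γ D0 L0 Dw Lw : ℤ) :
    Prop where
  w0 : 0 ≤ w
  gam : Gam B h S ≤ Γ
  ws : w ≤ 2 ∨ (w ≤ Γ ∧ ((∃ v ∈ S, 0 ≤ im B v ∧ w ≤ im B v) ∨ ∃ v ∈ S, im B v < 0 ∧ w ≤ - im B v))
  l0 : 1 ≤ L0
  d0 : D0 ≤ chR - nb
  dl0 : D0 + L0 ≤ chR - nb + im B h - Y - Γ
  v0 : EV B C D0 L0
  lw : 1 ≤ Lw
  dw : Dw ≤ chR - nb
  dlw : Dw + Lw ≤ im B h - g - Γ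
  vw : EV B C Dw Lw
  t2 : EV B (univ \ (Rs ∪ S)) (-(g : ℝ)) ((max Y w : ℤ) : ℝ)

/-- common data at the end of the path: a last vertex `y` -/
structure EndL (B : V → V → ℤ) (h : V) (Rs S C : Finset V) (g chR Y nb w Γ D0 L0 Dw Lw : ℤ)
    (y : V) : Prop where
  yS : y ∈ S
  yn : im B y + MM B h y < 0
  ya : 1 ≤ MM B h y
  w0 : 0 ≤ w
  gam : Gam B h S ≤ Γ
  ws : w ≤ 2 ∨ (w ≤ Γ ∧ ((∃ v ∈ S, 0 ≤ im B v ∧ w ≤ im B v) ∨ ∃ v ∈ S, im B v < 0 ∧ w ≤ - im B v))
  l0 : 1 ≤ L0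
  d0 : D0 ≤ chR - nb
  dl0 : D0 + L0 ≤ chR - nb + im B h - Y - Γ
  v0y : EV B (insert y C) D0 L0
  v0 : EV B C (D0 + MM B h y) |(L0 : ℝ) + im B y|
  lw : 1 ≤ Lw
  dw : Dw ≤ chR - nb
  dlw : Dw + Lw ≤ im B h - g - Γ
  vwy : EV B (insert y C) Dw Lw
  vw : EV B C (Dw + MM B h y) |(Lw : ℝ) + im B y|
  t2 : EV B (univ \ (Rs ∪ S)) (-(g : ℝ)) ((max |Y + im B y| w : ℤ) : ℝ)
  t2y : EV B (univ \ (Rs ∪ S.erase y)) (-(g : ℝ)) ((max Y w : ℤ) : ℝ)

/-- common data at the end of the path: the last two vertices `y1`, `y2` -/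
structure EndP (B : V → V → ℤ) (h : V) (Rs S C : Finset V) (g chR Y nb w Γ D0 L0 Dw Lw : ℤ)
    (y1 y2 : V) : Prop where
  y1S : y1 ∈ S
  y2S : y2 ∈ S
  a1 : MM B h y1 = 1
  a2 : MM B h y2 = 2
  s1 : im B y1 + 1 < 0
  s12 : im B y2 < im B y1
  w0 : 0 ≤ w
  gam : Gam B h S ≤ Γ
  ws : w ≤ 2 ∨ (w ≤ Γ ∧ ((∃ v ∈ S, 0 ≤ im B v ∧ w ≤ im B v) ∨ ∃ v ∈ S, im B v < 0 ∧ w ≤ - im B v)) ∨
    (w ≤ Γ + 1 ∧ w + 2 ≤ - im B y2)
  l0 : 1 ≤ L0
  d0 : D0 + 2 ≤ chR - nb + 1
  dl0 : D0 + L0 + 2 + im B y2 ≤ chR - nb + im B h - Y - Γ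
  v0y : EV B (insert y2 C) D0 L0
  v0 : EV B C (D0 + 2) |(L0 : ℝ) + im B y2|
  lw : 1 ≤ Lw
  dw : Dw + 2 ≤ chR - nb + 1
  dlw : Dw + Lw + 2 + im B y2 ≤ im B h - g - Γ
  vwy : EV B (insert y2 C) Dw Lw
  vw : EV B C (Dw + 2) |(Lw : ℝ) + im B y2|
  t2 : EV B (univ \ (Rs ∪ S)) (-(g : ℝ)) ((max Y w : ℤ) : ℝ)

/-- **The path statement with joint data.** -/
theorem path3 (h0 : ∀ u v, 0 ≤ B u v) (h1 : ∀ u v, B u v ≤ 1) (hB : ∀ v, B v v = 0)
    (h : V) (hq : 0 < im B h) {Rs S C : Finset V} {g : ℤ} (hbl : BlocksN B S Rs g)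
    (hdS : Disjoint Rs S) (hind : ∀ u ∈ S, ∀ v ∈ S, MM B u v = 0)
    (hhR : h ∉ Rs ∪ S) (hC : h ∉ C) (hd : Disjoint (Rs ∪ S) C)
    (hu : insert h ((Rs ∪ S) ∪ C) = univ) {b : ℤ} (hb0 : 0 ≤ b)
    (hb : Rs.Nonempty → ch (MM B h) (Rs ∪ S) - 1 ≤ b) :
    ∃ Y nb : ℤ, 0 ≤ Y ∧ (Rs = ∅ → Y = 0) ∧ 0 ≤ nb ∧ (Rs.Nonempty → 1 ≤ nb) ∧
      (Rs.card : ℤ) ≤ g + nb ∧
      (∀ y0 : ℤ, (∀ v ∈ Rs, |im B v| ≤ y0) → Y ≤ Rs.card * y0) ∧
      (∀ S0 ⊆ S, ∀ y0 M K t : ℝ, 0 ≤ K → 0 ≤ y0 → (∀ v ∈ S0, |((im B v : ℤ) : ℝ)| ≤ y0) →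
        St B (im B) (univ \ (Rs ∪ S0)) M K t →
        Val B (-(g : ℝ) + M + max (max (max ((Y : ℝ) - ∑ v ∈ S0, |((im B v : ℤ) : ℝ)|) y0) K)
          ((max ((Y : ℝ) - ∑ v ∈ S0, |((im B v : ℤ) : ℝ)|) y0 + t) / 2))) ∧
      (Cr B (Rs ∪ S) C b ∨ ∃ w Γ D0 L0 Dw Lw : ℤ,
        EndN B h Rs S C g (ch (MM B h) Rs) Y nb w Γ D0 L0 Dw Lw ∨
        (∃ y, EndL B h Rs S C g (ch (MM B h) Rs) Y nb w Γ D0 L0 Dw Lw y) ∨
        (∃ y1 y2, EndP B h Rs S C g (ch (MM B h) Rs) Y nb w Γ D0 L0 Dw Lw y1 y2)) := by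
  classical
  have ha : ∀ v, 0 ≤ MM B h v ∧ MM B h v ≤ 2 := fun v => MM_range h0 h1 h v
  have hGamS : Gam B h S = ∑ v ∈ S.filter (Harm (MM B h) (im B)), |MM B h v + im B v| := by
    unfold Gam
    congr
  set a := MM B h with hadef
  obtain ⟨x0, nb, hx0, hq0, hg0, hg0', hneu, hcard, hnb0, hnb1, hDD, hDD'⟩ :=
    hbl.realise2 h0 hB ha
  have hchU : ch a (Rs ∪ S) = ch a Rs + ch a S := ch_union hdS
  have hchS0 : 0 ≤ ch a S := ch_nonneg _
  have hchR0 : 0 ≤ ch a Rs := ch_nonneg _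
  have hbR : ∀ P ⊆ Rs, P.Nonempty → ch a P - 1 ≤ b := by
    intro P hP hPn
    have h3 := ch_mono (a := a) hP
    have h4 := hb (hPn.mono hP)
    linarith
  have hRs0 : Rs = ∅ → ch a Rs = 0 := by
    intro h3
    rw [h3]; simp [ch]
  have hDb : ch a Rs - nb ≤ b := by
    rcases Rs.eq_empty_or_nonempty with h3 | h3
    · rw [hRs0 h3]; linarith
    · have := hb h3
      have := hnb1 h3
      linarith
  -- both signs
  have both : ∀ f : V → ℤ, ∃ x : V → ℤ, (∀ v, x v = 1 ∨ x v = -1) ∧ Qd B Rs x ≤ -g ∧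
      GoodE B a x 1 Rs ∧ (∀ z ∈ S, ∑ u ∈ Rs, MM B u z * x u = 0) ∧
      DD B a x Rs ≤ ch a Rs - nb ∧ ∑ v ∈ Rs, f v * x v ≤ 0 := by
    intro f
    rcases le_total (∑ v ∈ Rs, f v * x0 v) 0 with h3 | h3
    · exact ⟨x0, hx0, hq0, hg0, hneu, hDD, h3⟩
    · refine ⟨fun v => - x0 v, ?_, ?_, hg0', ?_, hDD', ?_⟩
      · intro v
        rcases hx0 v with h | h <;> simp [h]
      · rw [Qd_neg]; exact hq0
      · intro z hz
        have : ∑ u ∈ Rs, MM B u z * - x0 u = - ∑ u ∈ Rs, MM B u z * x0 u := by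
          rw [← Finset.sum_neg_distrib]
          exact Finset.sum_congr rfl fun v _ => by ring
        rw [this, hneu z hz, neg_zero]
      · have : ∑ v ∈ Rs, f v * - x0 v = - ∑ v ∈ Rs, f v * x0 v := by
          rw [← Finset.sum_neg_distrib]
          exact Finset.sum_congr rfl fun v _ => by ring
        rw [this]; linarith
  have toP : ∀ x : V → ℤ, GoodE B a x 1 Rs → PathB B a x b Rs := fun x hx =>
    hx.toPathB fun P hP hPn => hbR P hP hPn
  -- first sign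
  obtain ⟨x1, hx1, hq1, hg1, hn1, hD1, hs1⟩ := both fun v => a v + im B v
  have hx1e : DD B a x1 Rs + ∑ v ∈ Rs, im B v * x1 v =
      Qd B Rs x1 + ∑ v ∈ Rs, (a v + im B v) * x1 v := by
    unfold DD
    rw [add_comm (∑ v ∈ Rs, a v * x1 v), add_assoc, ← Finset.sum_add_distrib]
    congr 1
    exact Finset.sum_congr rfl fun v _ => by ring
  -- second sign
  obtain ⟨x, hx, hqx, hgx, hnx, hDx, hsx⟩ := both (im B)
  set Y : ℤ := - ∑ v ∈ Rs, im B v * x v with hY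
  have hY0 : 0 ≤ Y := by rw [hY]; linarith
  have hYe : Rs = ∅ → Y = 0 := by
    intro h3
    rw [hY, h3]
    simp
  have hYb : ∀ y0 : ℤ, (∀ v ∈ Rs, |im B v| ≤ y0) → Y ≤ Rs.card * y0 := by
    intro y0 h3
    have h4 : - ∑ v ∈ Rs, im B v * x v ≤ ∑ _v ∈ Rs, y0 := by
      rw [← Finset.sum_neg_distrib]
      refine Finset.sum_le_sum fun v hv => ?_
      have h5 := h3 v hv
      have h6 := abs_le.1 h5
      rcases hx v with h | h <;> rw [h] <;> linarith [h6.1, h6.2]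
    rw [Finset.sum_const, nsmul_eq_mul] at h4
    exact h4
  refine ⟨Y, nb, hY0, hYe, hnb0, hnb1, hcard, hYb,
    t2all h0 hdS hind hx hqx hnx hY hsx, ?_⟩
  by_cases hcr : Cr B (Rs ∪ S) C b
  · exact Or.inl hcr
  right
  have hW : DD B a x1 Rs + ∑ v ∈ Rs, im B v * x1 v ≤ -g := by linarith
  have hT : DD B a x Rs + ∑ v ∈ Rs, im B v * x v ≤ ch a Rs - nb - Y := by rw [hY]; linarith
  have hneg : ∀ c : ℤ, |-c| = |c| := fun c => abs_neg c
  rcases exists_plc (s := im B) hB ha S.card S rfl hind with ⟨w, Γ, hp⟩ |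
    ⟨y, hy, hy1, hy2, w, Γ, hp⟩ | ⟨y1, hy1, y2, hy2, hy12, ha1, ha2, hs1', hs12, w, Γ, hp⟩
  · -- no last vertex
    have go : ∀ x : V → ℤ, (∀ v, x v = 1 ∨ x v = -1) → GoodE B a x 1 Rs →
        (∀ z ∈ S, ∑ u ∈ Rs, MM B u z * x u = 0) → DD B a x Rs ≤ ch a Rs - nb → ∀ β : ℤ,
        DD B a x Rs + ∑ v ∈ Rs, im B v * x v ≤ β →
        ∃ D L : ℤ, 1 ≤ L ∧ D ≤ ch a Rs - nb ∧ D + L ≤ β + im B h - Γ ∧ EV B C D L := by
      intro x hx hg hn hD β hβ
      obtain ⟨x', b1, b2, b3, b4, b5⟩ := hp.run b Rs x hx (toP x hg) hdS (hD.trans hDb) hn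
      rcases run hB h0 h (Rs ∪ S) C hhR hC hd hu b1 hb0 b3 hq with h3 | ⟨h3, h4, h5⟩
      · exact absurd h3 hcr
      · exact ⟨_, _, by linarith, by linarith, by linarith, h5⟩
    obtain ⟨D0, L0, c1, c2, c3, c4⟩ := go x hx hgx hnx hDx _ hT
    obtain ⟨Dw, Lw, d1, d2, d3, d4⟩ := go x1 hx1 hg1 hn1 hD1 _ hW
    obtain ⟨z, hz, hz'⟩ := hp.alt (-Y)
    refine ⟨w, Γ, D0, L0, Dw, Lw, Or.inl ⟨hp.w0, by rw [hGamS]; exact hp.gam, hp.ws, c1, c2,
      by linarith, c4, d1, d2, by linarith, d4, ?_⟩⟩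
    refine flipEV h0 hdS hind (Finset.Subset.refl _) hx hz hqx hnx ?_
    have e : ∑ v ∈ Rs, im B v * x v = -Y := by rw [hY]; ring
    rw [e]
    rw [hneg, abs_of_nonneg hY0] at hz'
    exact hz'
  · -- last vertex `y`
    have hySub : S.erase y ⊆ S := Finset.erase_subset _ _
    have hyRs : y ∉ Rs := Finset.disjoint_right.1 hdS hy
    have heR : (Rs ∪ S).erase y = Rs ∪ S.erase y := by
      ext z
      simp only [Finset.mem_erase, Finset.mem_union]
      constructor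
      · rintro ⟨h3, h4 | h4⟩
        · exact Or.inl h4
        · exact Or.inr ⟨h3, h4⟩
      · rintro (h3 | ⟨h3, h4⟩)
        · exact ⟨fun e => hyRs (e ▸ h3), Or.inl h3⟩
        · exact ⟨h3, Or.inr h4⟩
    have hyn : ¬ Harm a (im B) y := by
      unfold Harm
      push Not
      constructor
      · exact hy1
      · intro h3
        linarith
    have hgam : Gam B h S ≤ Γ := by
      rw [hGamS]
      refine le_trans (le_of_eq ?_) hp.gam
      congr 1
      ext z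
      simp only [Finset.mem_filter, Finset.mem_erase]
      constructor
      · rintro ⟨h3, h4⟩
        exact ⟨⟨fun e => hyn (e ▸ h4), h3⟩, h4⟩
      · rintro ⟨⟨_, h3⟩, h4⟩
        exact ⟨h3, h4⟩
    have hws : w ≤ 2 ∨ (w ≤ Γ ∧ ((∃ v ∈ S, 0 ≤ im B v ∧ w ≤ im B v) ∨
        ∃ v ∈ S, im B v < 0 ∧ w ≤ - im B v)) := by
      rcases hp.ws with h3 | ⟨h3, ⟨v, hv, h4⟩ | ⟨v, hv, h4⟩⟩
      · exact Or.inl h3
      · exact Or.inr ⟨h3, Or.inl ⟨v, hySub hv, h4⟩⟩
      · exact Or.inr ⟨h3, Or.inr ⟨v, hySub hv, h4⟩⟩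
    have go : ∀ x : V → ℤ, (∀ v, x v = 1 ∨ x v = -1) → GoodE B a x 1 Rs →
        (∀ z ∈ S, ∑ u ∈ Rs, MM B u z * x u = 0) → DD B a x Rs ≤ ch a Rs - nb → ∀ β : ℤ,
        DD B a x Rs + ∑ v ∈ Rs, im B v * x v ≤ β →
        ∃ D L : ℤ, 1 ≤ L ∧ D ≤ ch a Rs - nb ∧ D + L ≤ β + im B h - Γ ∧
          EV B (insert y C) D L ∧ EV B C (D + a y) |(L : ℝ) + im B y| := by
      intro x hx hg hn hD β hβ
      obtain ⟨x', b1, b2, b3, b4, b5⟩ := hp.run b Rs x hx (toP x hg)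
        (Finset.disjoint_of_subset_right hySub hdS) (hD.trans hDb) (fun z hz => hn z (hySub hz))
      have h3 := runE hB h0 h (Rs ∪ S) C hhR hC hd hu b1 hb0 (y := y)
        (Finset.mem_union_right _ hy) (by
          rw [heR, Finset.sum_union (Finset.disjoint_of_subset_right hySub hdS)]
          have e1 : ∑ u ∈ Rs, MM B u y * x' u = 0 := by
            rw [← hn y hy]
            exact Finset.sum_congr rfl fun u hu' => by rw [b2 u hu']
          have e2 : ∑ u ∈ S.erase y, MM B u y * x' u = 0 :=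
            Finset.sum_eq_zero fun u hu' => by rw [hind u (hySub hu') y hy, zero_mul]
          rw [e1, e2, add_zero]) (by rw [heR]; exact b3) hq (d := ch a Rs - nb)
        (β := β + im B h - Γ) (by rw [heR]; linarith) (by rw [heR]; linarith)
      exact h3.resolve_left hcr
    obtain ⟨D0, L0, c1, c2, c3, c4, c5⟩ := go x hx hgx hnx hDx _ hT
    obtain ⟨Dw, Lw, d1, d2, d3, d4, d5⟩ := go x1 hx1 hg1 hn1 hD1 _ hW
    refine ⟨w, Γ, D0, L0, Dw, Lw, Or.inr (Or.inl ⟨y, hy, hy1, hy2, hp.w0, hgam, hws, c1, c2,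
      by linarith, c4, c5, d1, d2, by linarith, d4, d5, ?_, ?_⟩)⟩
    · obtain ⟨z, hz, hz'⟩ := hp.alt (-(Y + im B y))
      rw [hneg] at hz'
      have e : ∑ v ∈ Rs, im B v * x v = -Y := by rw [hY]; ring
      refine flipEV h0 hdS hind (Finset.Subset.refl _) hx (z := fun v => if v = y then -1 else z v)
        ?_ hqx hnx ?_
      · intro v
        split_ifs
        · right; rfl
        · exact hz v
      · rw [e, ← Finset.add_sum_erase _ _ hy, if_pos rfl,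
          Finset.sum_congr rfl fun v hv => by rw [if_neg (Finset.mem_erase.1 hv).1]]
        have e3 : -Y + (im B y * -1 + ∑ v ∈ S.erase y, im B v * z v) =
            -(Y + im B y) + ∑ v ∈ S.erase y, im B v * z v := by ring
        rw [e3]
        exact hz'
    · obtain ⟨z, hz, hz'⟩ := hp.alt (-Y)
      rw [hneg, abs_of_nonneg hY0] at hz'
      have e : ∑ v ∈ Rs, im B v * x v = -Y := by rw [hY]; ring
      refine flipEV h0 hdS hind hySub hx hz hqx hnx ?_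
      rw [e]
      exact hz'
  · -- the last two vertices
    set T : Finset V := (S.erase y2).erase y1 with hTdef
    have hTS : T ⊆ S := (Finset.erase_subset _ _).trans (Finset.erase_subset _ _)
    have hy1Rs : y1 ∉ Rs := Finset.disjoint_right.1 hdS hy1
    have hy2Rs : y2 ∉ Rs := Finset.disjoint_right.1 hdS hy2
    have hy1e : y1 ∈ S.erase y2 := Finset.mem_erase.2 ⟨hy12, hy1⟩
    have hy1T : y1 ∉ T := Finset.notMem_erase _ _
    have hdT : Disjoint Rs T := Finset.disjoint_of_subset_right hTS hdS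
    have hy1X : y1 ∉ Rs ∪ T := by
      simp only [Finset.mem_union, not_or]; exact ⟨hy1Rs, hy1T⟩
    have heR : (Rs ∪ S).erase y2 = insert y1 (Rs ∪ T) := by
      rw [← Finset.union_insert, hTdef, Finset.insert_erase hy1e]
      ext z
      simp only [Finset.mem_erase, Finset.mem_union]
      constructor
      · rintro ⟨h3, h4 | h4⟩
        · exact Or.inl h4
        · exact Or.inr ⟨h3, h4⟩
      · rintro (h3 | ⟨h3, h4⟩)
        · exact ⟨fun e => hy2Rs (e ▸ h3), Or.inl h3⟩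
        · exact ⟨h3, Or.inr h4⟩
    have hy1n : ¬ Harm a (im B) y1 := by
      unfold Harm
      push Not
      constructor
      · rw [ha1]; exact hs1'
      · intro h3
        rw [h3] at ha1
        norm_num at ha1
    have hy2n : ¬ Harm a (im B) y2 := by
      unfold Harm
      push Not
      constructor
      · rw [ha2]; linarith
      · intro h3
        rw [h3] at ha2
        norm_num at ha2
    have hgam : Gam B h S ≤ Γ := by
      rw [hGamS]
      refine le_trans (le_of_eq ?_) hp.gam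
      congr 1
      ext z
      simp only [hTdef, Finset.mem_filter, Finset.mem_erase]
      constructor
      · rintro ⟨h3, h4⟩
        exact ⟨⟨fun e => hy1n (e ▸ h4), fun e => hy2n (e ▸ h4), h3⟩, h4⟩
      · rintro ⟨⟨_, _, h3⟩, h4⟩
        exact ⟨h3, h4⟩
    have hΓ0 := hp.Γ0
    have go : ∀ x : V → ℤ, (∀ v, x v = 1 ∨ x v = -1) → GoodE B a x 1 Rs →
        (∀ z ∈ S, ∑ u ∈ Rs, MM B u z * x u = 0) → DD B a x Rs ≤ ch a Rs - nb → ∀ β : ℤ,
        DD B a x Rs + ∑ v ∈ Rs, im B v * x v ≤ β →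
        ∃ D L : ℤ, 1 ≤ L ∧ D ≤ ch a Rs - nb - 1 ∧ D + L ≤ β + im B h - Γ - (1 + im B y1) ∧
          EV B (insert y2 C) D L ∧ EV B C (D + a y2) |(L : ℝ) + im B y2| := by
      intro x hx hg hn hD β hβ
      obtain ⟨x', b1, b2, b3, b4, b5⟩ := hp.run b Rs x hx (toP x hg) hdT (hD.trans hDb)
        (fun z hz => hn z (hTS hz))
      have hneuT : ∀ z ∈ S, z ∉ T → ∑ u ∈ Rs ∪ T, MM B u z * x' u = 0 := by
        intro z hz _
        rw [Finset.sum_union hdT]
        have e1 : ∑ u ∈ Rs, MM B u z * x' u = 0 := by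
          rw [← hn z hz]
          exact Finset.sum_congr rfl fun u hu' => by rw [b2 u hu']
        have e2 : ∑ u ∈ T, MM B u z * x' u = 0 :=
          Finset.sum_eq_zero fun u hu' => by rw [hind u (hTS hu') z hz, zero_mul]
        rw [e1, e2, add_zero]
      obtain ⟨x2, c1, c2, c3, c0, c4, c5, c6, c7⟩ := plStep (s := im B) hB (Rs ∪ T) x' y1 (-1)
        b1 b3 hy1X (Or.inr rfl) (hneuT y1 hy1 hy1T)
      replace c4 := c4 (by rw [ha1]; linarith)
      have h3 := runE hB h0 h (Rs ∪ S) C hhR hC hd hu c1 hb0 (y := y2)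
        (Finset.mem_union_right _ hy2) (by
          rw [heR]
          exact c7 y2 (hind y1 hy1 y2 hy2) (hneuT y2 hy2 (by simp [hTdef])))
        (by rw [heR]; exact c4) hq (d := ch a Rs - nb - 1)
        (β := β + im B h - Γ - (1 + im B y1)) (by rw [heR, c5, ha1]; linarith)
        (by rw [heR, c5, c6, ha1]; linarith)
      exact h3.resolve_left hcr
    obtain ⟨D0, L0, c1, c2, c3, c4, c5⟩ := go x hx hgx hnx hDx _ hT
    obtain ⟨Dw, Lw, d1, d2, d3, d4, d5⟩ := go x1 hx1 hg1 hn1 hD1 _ hW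
    rw [ha2] at c5 d5
    refine ⟨max w (im B y1 - im B y2), Γ + (im B y1 - im B y2 - 1), D0, L0, Dw, Lw,
      Or.inr (Or.inr ⟨y1, y2, hy1, hy2, ha1, ha2, hs1', hs12, hp.w0.trans (le_max_left _ _),
        by linarith, ?_, c1, by linarith, by linarith, c4, by exact_mod_cast c5, d1, by linarith,
        by linarith, d4, by exact_mod_cast d5, ?_⟩)⟩
    · rcases max_choice w (im B y1 - im B y2) with e | e <;> rw [e]
      · rcases hp.ws with h3 | ⟨h3, ⟨v, hv, h4⟩ | ⟨v, hv, h4⟩⟩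
        · exact Or.inl h3
        · exact Or.inr (Or.inl ⟨by linarith, Or.inl ⟨v, hTS hv, h4⟩⟩)
        · exact Or.inr (Or.inl ⟨by linarith, Or.inr ⟨v, hTS hv, h4⟩⟩)
      · right; right
        constructor <;> linarith
    · obtain ⟨z, hz, hz'⟩ := hp.alt (-Y)
      rw [hneg, abs_of_nonneg hY0] at hz'
      obtain ⟨τ, hτ, hτ'⟩ := exists_sign_int (-Y + ∑ v ∈ T, im B v * z v) (im B y1 - im B y2)
      have e : ∑ v ∈ Rs, im B v * x v = -Y := by rw [hY]; ring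
      refine flipEV h0 hdS hind (Finset.Subset.refl _) hx
        (z := fun v => if v = y1 then τ else if v = y2 then -τ else z v) ?_ hqx hnx ?_
      · intro v
        split_ifs
        · exact hτ
        · rcases hτ with h | h <;> rw [h] <;> norm_num
        · exact hz v
      · rw [e, ← Finset.add_sum_erase _ _ hy2, ← Finset.add_sum_erase _ _ hy1e, if_pos rfl,
          if_neg (Ne.symm hy12), if_pos rfl]
        have e2 : ∑ v ∈ (S.erase y2).erase y1, im B v *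
            (if v = y1 then τ else if v = y2 then -τ else z v) =
            ∑ v ∈ T, im B v * z v := by
          refine Finset.sum_congr rfl fun v hv => ?_
          have h3 : v ≠ y1 := (Finset.mem_erase.1 hv).1
          have h4 : v ≠ y2 := (Finset.mem_erase.1 (Finset.mem_erase.1 hv).2).1
          rw [if_neg h3, if_neg h4]
        rw [e2]
        have e3 : -Y + (im B y2 * -τ + (im B y1 * τ + ∑ v ∈ T, im B v * z v)) =
            (-Y + ∑ v ∈ T, im B v * z v) + (im B y1 - im B y2) * τ := by ring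
        rw [e3]
        refine hτ'.trans ?_
        rw [abs_of_pos (show 0 < im B y1 - im B y2 by linarith)]
        exact max_le (hz'.trans (max_le_max le_rfl (le_max_left _ _)))
          ((le_max_right _ _).trans (le_max_right _ _))

end Pool.Agent.Exact
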