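import Pool.Agent.Lib_helper68.Exact.Run2

/-!
# Blocks of neutral vertices
-/

set_option autoImplicit false
set_option linter.unusedSectionVars false

namespace Pool.Agent.Exact

open Finset

section blocks

variable {V : Type*} [DecidableEq V] {B : V → V → ℤ} {a s : V → ℤ}

/-- one step of a path -/
lemma plStep (hB : ∀ v, B v v = 0) {b : ℤ} (X : Finset V) (x : V → ℤ) (v : V) (y : ℤ)
    (hx : ∀ v, x v = 1 ∨ x v = -1) (hP : PathB B a x b X) (hv : v ∉ X) (hy : y = 1 ∨ y = -1)
    (hn : ∑ u ∈ X, MM B u v * x u = 0) :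
    ∃ x1 : V → ℤ, (∀ v, x1 v = 1 ∨ x1 v = -1) ∧ (∀ u ∈ X, x1 u = x u) ∧ x1 v = y ∧
      PathB B a x1 b X ∧ (DD B a x X + a v * y ≤ b → PathB B a x1 b (insert v X)) ∧
      DD B a x1 (insert v X) = DD B a x X + a v * y ∧
      ∑ u ∈ insert v X, s u * x1 u = ∑ u ∈ X, s u * x u + s v * y ∧
      (∀ w, MM B v w = 0 → ∑ u ∈ X, MM B u w * x u = 0 →
        ∑ u ∈ insert v X, MM B u w * x1 u = 0) := by
  classical
  set x1 : V → ℤ := fun u => if u = v then y else x u with hx1
  have h1 : x1 v = y := by simp [hx1]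
  have h2 : ∀ u ∈ X, x1 u = x u := by
    intro u hu
    have : u ≠ v := fun e => hv (e ▸ hu)
    simp [hx1, this]
  have h3 : DD B a x1 (insert v X) = DD B a x X + a v * y := by
    rw [DD_place hB hv h2 hn, h1]
  have hPX : PathB B a x1 b X := hP.congr fun u hu => (h2 u hu).symm
  refine ⟨x1, ?_, h2, h1, hPX, ?_, h3, ?_, ?_⟩
  · intro u
    simp only [hx1]
    split_ifs
    · exact hy
    · exact hx u
  · intro hD
    refine PathB.step X v hPX hv ?_
    rw [h3]; exact hD
  · rw [Finset.sum_insert hv, h1, Finset.sum_congr rfl fun u hu => by rw [h2 u hu]]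
    ring
  · intro w hw hw'
    rw [Finset.sum_insert hv, hw, zero_mul, zero_add]
    rw [← hw']
    exact Finset.sum_congr rfl fun u hu => by rw [h2 u hu]

open Classical in
/-- a set of neutral vertices that can be placed with small differences -/
structure Plc (B : V → V → ℤ) (a s : V → ℤ) (T : Finset V) (w Γ : ℤ) : Prop where
  w0 : 0 ≤ w
  run : ∀ (b : ℤ) (X : Finset V) (x : V → ℤ), (∀ v, x v = 1 ∨ x v = -1) → PathB B a x b X →
    Disjoint X T → DD B a x X ≤ b → (∀ v ∈ T, ∑ u ∈ X, MM B u v * x u = 0) →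
    ∃ x' : V → ℤ, (∀ v, x' v = 1 ∨ x' v = -1) ∧ (∀ v ∈ X, x' v = x v) ∧
      PathB B a x' b (X ∪ T) ∧ DD B a x' (X ∪ T) ≤ DD B a x X ∧
      DD B a x' (X ∪ T) + ∑ v ∈ X ∪ T, s v * x' v + Γ ≤ DD B a x X + ∑ v ∈ X, s v * x v
  alt : ∀ c : ℤ, ∃ z : V → ℤ, (∀ v, z v = 1 ∨ z v = -1) ∧
    |c + ∑ v ∈ T, s v * z v| ≤ max |c| w
  gam : ∑ v ∈ T.filter (Harm a s), |a v + s v| ≤ Γ
  ws : w ≤ 2 ∨ (w ≤ Γ ∧ ((∃ v ∈ T, 0 ≤ s v ∧ w ≤ s v) ∨ ∃ v ∈ T, s v < 0 ∧ w ≤ - s v))

lemma Plc.Γ0 {T : Finset V} {w Γ : ℤ} (h : Plc B a s T w Γ) : 0 ≤ Γ := by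
  classical
  refine le_trans ?_ h.gam
  exact Finset.sum_nonneg fun v _ => abs_nonneg _

lemma Plc.empty : Plc B a s ∅ 0 0 where
  w0 := le_rfl
  run := by
    intro b X x hx hP _ _ _
    refine ⟨x, hx, fun _ _ => rfl, by simpa using hP, by simp, by simp⟩
  alt := by
    intro c
    exact ⟨fun _ => 1, fun _ => Or.inl rfl, by simp⟩
  gam := by simp
  ws := Or.inl (by norm_num)

/-- the union of two such sets -/
lemma Plc.union {T U : Finset V} {w w' Γ Γ' : ℤ} (h : Plc B a s T w Γ)
    (h' : Plc B a s U w' Γ') (hd : Disjoint T U) (hi : ∀ u ∈ T, ∀ v ∈ U, MM B u v = 0) :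
    Plc B a s (T ∪ U) (max w w') (Γ + Γ') where
  w0 := h.w0.trans (le_max_left _ _)
  run := by
    intro b X x hx hP hdX hD hn
    rw [Finset.disjoint_union_right] at hdX
    obtain ⟨x1, a1, a2, a3, a4, a5⟩ := h.run b X x hx hP hdX.1 hD
      (fun v hv => hn v (Finset.mem_union_left _ hv))
    obtain ⟨x2, b1, b2, b3, b4, b5⟩ := h'.run b (X ∪ T) x1 a1 a3
      (Finset.disjoint_union_left.2 ⟨hdX.2, hd⟩) (a4.trans hD) (by
        intro v hv
        rw [Finset.sum_union hdX.1]
        have e1 : ∑ u ∈ X, MM B u v * x1 u = 0 := by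
          rw [← hn v (Finset.mem_union_right _ hv)]
          exact Finset.sum_congr rfl fun u hu => by rw [a2 u hu]
        have e2 : ∑ u ∈ T, MM B u v * x1 u = 0 :=
          Finset.sum_eq_zero fun u hu => by rw [hi u hu v hv, zero_mul]
        rw [e1, e2, add_zero])
    rw [Finset.union_assoc] at b3 b4 b5
    refine ⟨x2, b1, fun v hv => ?_, b3, b4.trans a4, by linarith⟩
    rw [b2 v (Finset.mem_union_left _ hv), a2 v hv]
  alt := by
    classical
    intro c
    obtain ⟨z, hz, hz'⟩ := h.alt c
    obtain ⟨z', hy, hy'⟩ := h'.alt (c + ∑ v ∈ T, s v * z v)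
    refine ⟨fun v => if v ∈ T then z v else z' v, ?_, ?_⟩
    · intro v
      dsimp only
      split_ifs
      · exact hz v
      · exact hy v
    · rw [Finset.sum_union hd, ← add_assoc]
      have e1 : ∑ v ∈ T, s v * (if v ∈ T then z v else z' v) = ∑ v ∈ T, s v * z v :=
        Finset.sum_congr rfl fun v hv => by rw [if_pos hv]
      have e2 : ∑ v ∈ U, s v * (if v ∈ T then z v else z' v) = ∑ v ∈ U, s v * z' v :=
        Finset.sum_congr rfl fun v hv => by rw [if_neg (Finset.disjoint_right.1 hd hv)]
      rw [e1, e2]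
      refine hy'.trans (max_le (hz'.trans ?_) ?_)
      · exact max_le_max le_rfl (le_max_left _ _)
      · exact (le_max_right _ _).trans (le_max_right _ _)
  gam := by
    classical
    rw [Finset.filter_union, Finset.sum_union (Finset.disjoint_filter_filter hd)]
    have := h.gam
    have := h'.gam
    linarith
  ws := by
    have hΓ := h.Γ0
    have hΓ' := h'.Γ0
    rcases max_choice w w' with e | e <;> rw [e]
    · rcases h.ws with h1 | ⟨h1, h2⟩
      · exact Or.inl h1
      · right
        refine ⟨by linarith, ?_⟩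
        rcases h2 with ⟨v, hv, h3⟩ | ⟨v, hv, h3⟩
        · exact Or.inl ⟨v, Finset.mem_union_left _ hv, h3⟩
        · exact Or.inr ⟨v, Finset.mem_union_left _ hv, h3⟩
    · rcases h'.ws with h1 | ⟨h1, h2⟩
      · exact Or.inl h1
      · right
        refine ⟨by linarith, ?_⟩
        rcases h2 with ⟨v, hv, h3⟩ | ⟨v, hv, h3⟩
        · exact Or.inl ⟨v, Finset.mem_union_right _ hv, h3⟩
        · exact Or.inr ⟨v, Finset.mem_union_right _ hv, h3⟩

/-- a sign that does not increase the absolute value too much -/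
lemma exists_sign_int (c d : ℤ) : ∃ τ : ℤ, (τ = 1 ∨ τ = -1) ∧ |c + d * τ| ≤ max |c| |d| := by
  rcases le_total 0 c with h1 | h1 <;> rcases le_total 0 d with h2 | h2
  · refine ⟨-1, Or.inr rfl, ?_⟩
    rw [abs_of_nonneg h1, abs_of_nonneg h2, abs_le]
    have := le_max_left c d
    have := le_max_right c d
    constructor <;> linarith
  · refine ⟨1, Or.inl rfl, ?_⟩
    rw [abs_of_nonneg h1, abs_of_nonpos h2, abs_le]
    have := le_max_left c (-d)
    have := le_max_right c (-d)
    constructor <;> linarith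
  · refine ⟨1, Or.inl rfl, ?_⟩
    rw [abs_of_nonpos h1, abs_of_nonneg h2, abs_le]
    have := le_max_left (-c) d
    have := le_max_right (-c) d
    constructor <;> linarith
  · refine ⟨-1, Or.inr rfl, ?_⟩
    rw [abs_of_nonpos h1, abs_of_nonpos h2, abs_le]
    have := le_max_left (-c) (-d)
    have := le_max_right (-c) (-d)
    constructor <;> linarith

/-- a harmless vertex -/
lemma Plc.one (hB : ∀ v, B v v = 0) (ha : ∀ v, 0 ≤ a v ∧ a v ≤ 2) {v : V} (hv : Harm a s v) :
    Plc B a s {v} |s v| |a v + s v| where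
  w0 := abs_nonneg _
  run := by
    intro b X x hx hP hd hD hn
    have hvX : v ∉ X := by
      rw [Finset.disjoint_singleton_right] at hd
      exact hd
    obtain ⟨y, hy, hy1, hy2⟩ := harm_sign ha hv
    obtain ⟨x1, a1, a2, a3, a0, a4, a5, a6, a7⟩ := plStep (s := s) hB X x v y hx hP hvX hy
      (hn v (Finset.mem_singleton_self v))
    have e : X ∪ {v} = insert v X := by
      ext z; simp only [Finset.mem_insert, Finset.mem_union, Finset.mem_singleton]; tauto
    rw [e]
    refine ⟨x1, a1, a2, a4 (by linarith), by rw [a5]; linarith, ?_⟩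
    rw [a5, a6]
    have e3 : (a v + s v) * y = a v * y + s v * y := by ring
    rw [e3] at hy2
    linarith
  alt := by
    intro c
    obtain ⟨τ, hτ, hc⟩ := exists_sign_int c (s v)
    exact ⟨fun _ => τ, fun _ => hτ, by simpa using hc⟩
  gam := by
    classical
    rw [Finset.filter_singleton, if_pos hv, Finset.sum_singleton]
  ws := by
    have h1 := ha v
    rcases le_or_gt 0 (s v) with h2 | h2
    · right
      refine ⟨?_, Or.inl ⟨v, Finset.mem_singleton_self v, h2, by rw [abs_of_nonneg h2]⟩⟩
      rw [abs_of_nonneg h2, abs_of_nonneg (by linarith)]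
      linarith
    · rcases hv with hv | hv
      · left
        rw [abs_of_neg h2]
        linarith
      · right
        refine ⟨?_, Or.inr ⟨v, Finset.mem_singleton_self v, h2, by rw [abs_of_neg h2]⟩⟩
        rw [hv, zero_add]

/-- a pair of vertices with opposite signs, `v` is placed first with sign `-` -/
lemma Plc.pair (hB : ∀ v, B v v = 0) (ha : ∀ v, 0 ≤ a v ∧ a v ≤ 2) {u v : V} (huv : u ≠ v)
    (hu : ¬ Harm a s u) (hv : ¬ Harm a s v) (hm : MM B v u = 0) (hauv : a u ≤ a v)
    (hs : s u ≤ s v) :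
    Plc B a s {u, v} (s v - s u) (s v - s u + (a v - a u)) where
  w0 := by linarith
  run := by
    intro b X x hx hP hd hD hn
    have hvX : v ∉ X := fun h => Finset.disjoint_left.1 hd h (by simp)
    have huX : u ∉ insert v X := by
      simp only [Finset.mem_insert, not_or]
      exact ⟨huv, fun h => Finset.disjoint_left.1 hd h (by simp)⟩
    have hav := ha v
    obtain ⟨x1, a1, a2, a3, a0, a4, a5, a6, a7⟩ := plStep (s := s) hB X x v (-1) hx hP hvX
      (Or.inr rfl) (hn v (by simp))
    replace a4 := a4 (by linarith)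
    obtain ⟨x2, c1, c2, c3, c0, c4, c5, c6, c7⟩ := plStep (s := s) hB (insert v X) x1 u 1 a1 a4
      huX (Or.inl rfl) (a7 u hm (hn u (by simp)))
    replace c4 := c4 (by rw [a5]; linarith)
    have e : X ∪ {u, v} = insert u (insert v X) := by
      ext z; simp only [Finset.mem_insert, Finset.mem_union, Finset.mem_singleton]; tauto
    rw [e]
    refine ⟨x2, c1, ?_, c4, by rw [c5, a5]; linarith, ?_⟩
    · intro z hz
      rw [c2 z (Finset.mem_insert_of_mem hz), a2 z hz]
    · rw [c5, c6, a5, a6]
      linarith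
  alt := by
    classical
    intro c
    obtain ⟨τ, hτ, hc⟩ := exists_sign_int c (s v - s u)
    refine ⟨fun w => if w = v then τ else -τ, ?_, ?_⟩
    · intro w
      dsimp only
      split_ifs
      · exact hτ
      · rcases hτ with h | h <;> rw [h] <;> norm_num
    · rw [Finset.sum_pair huv]
      dsimp only
      rw [if_neg huv, if_pos rfl]
      have e : c + (s u * -τ + s v * τ) = c + (s v - s u) * τ := by ring
      rw [e]
      refine hc.trans ?_
      rw [abs_of_nonneg (show 0 ≤ s v - s u by linarith)]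
  gam := by
    classical
    have : ({u, v} : Finset V).filter (Harm a s) = ∅ := by
      rw [Finset.filter_eq_empty_iff]
      intro w hw
      simp only [Finset.mem_insert, Finset.mem_singleton] at hw
      rcases hw with rfl | rfl
      · exact hu
      · exact hv
    rw [this, Finset.sum_empty]
    linarith
  ws := by
    right
    have h1 := ha u
    have h2 := ha v
    unfold Harm at hu hv
    push Not at hu hv
    exact ⟨by linarith, Or.inr ⟨u, by simp, by linarith, by linarith⟩⟩

open Classical in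
/-- **Decomposition of a set of neutral vertices.** -/
theorem exists_plc (hB : ∀ v, B v v = 0) (ha : ∀ v, 0 ≤ a v ∧ a v ≤ 2) :
    ∀ (n : ℕ) (S : Finset V), S.card = n → (∀ u ∈ S, ∀ v ∈ S, MM B u v = 0) →
      (∃ w Γ, Plc B a s S w Γ) ∨
      (∃ y ∈ S, s y + a y < 0 ∧ 1 ≤ a y ∧ ∃ w Γ, Plc B a s (S.erase y) w Γ) ∨
      (∃ y1 ∈ S, ∃ y2 ∈ S, y1 ≠ y2 ∧ a y1 = 1 ∧ a y2 = 2 ∧ s y1 + 1 < 0 ∧ s y2 < s y1 ∧
        ∃ w Γ, Plc B a s ((S.erase y2).erase y1) w Γ) := by
  intro n
  induction n using Nat.strong_induction_on with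
  | _ n ih =>
    intro S hSn hind
    -- removing a block
    have rem : ∀ (T : Finset V) (w Γ : ℤ), T ⊆ S → T.Nonempty → Plc B a s T w Γ →
        (∃ w Γ, Plc B a s S w Γ) ∨
        (∃ y ∈ S, s y + a y < 0 ∧ 1 ≤ a y ∧ ∃ w Γ, Plc B a s (S.erase y) w Γ) ∨
        (∃ y1 ∈ S, ∃ y2 ∈ S, y1 ≠ y2 ∧ a y1 = 1 ∧ a y2 = 2 ∧ s y1 + 1 < 0 ∧ s y2 < s y1 ∧
          ∃ w Γ, Plc B a s ((S.erase y2).erase y1) w Γ) := by
      intro T w Γ hTS hT hp
      have hlt : (S \ T).card < n := by
        rw [← hSn]
        exact Finset.card_lt_card (Finset.sdiff_ssubset hTS hT)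
      have hsub : S \ T ⊆ S := Finset.sdiff_subset
      rcases ih _ hlt (S \ T) rfl (fun u hu v hv => hind u (hsub hu) v (hsub hv)) with
        ⟨w', Γ', h1⟩ | ⟨y, hy, h1, h2, w', Γ', h3⟩ | ⟨y1, hy1, y2, hy2, h1, h2, h3, h4, h5, w', Γ', h6⟩
      · left
        have h2 := hp.union h1 Finset.disjoint_sdiff
          (fun u hu v hv => hind u (hTS hu) v (hsub hv))
        rw [Finset.union_sdiff_of_subset hTS] at h2
        exact ⟨_, _, h2⟩
      · right; left
        refine ⟨y, hsub hy, h1, h2, ?_⟩
        have hyT : y ∉ T := (Finset.mem_sdiff.1 hy).2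
        have h4 := hp.union h3 (Finset.disjoint_of_subset_right (Finset.erase_subset _ _)
          Finset.disjoint_sdiff) (fun u hu v hv => hind u (hTS hu) v
            (hsub (Finset.mem_of_mem_erase hv)))
        have e : T ∪ (S \ T).erase y = S.erase y := by
          ext z
          simp only [Finset.mem_union, Finset.mem_erase, Finset.mem_sdiff]
          constructor
          · rintro (h | ⟨h, h', _⟩)
            · exact ⟨fun e => hyT (e ▸ h), hTS h⟩
            · exact ⟨h, h'⟩
          · rintro ⟨h, h'⟩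
            by_cases hz : z ∈ T
            · exact Or.inl hz
            · exact Or.inr ⟨h, h', hz⟩
        rw [e] at h4
        exact ⟨_, _, h4⟩
      · right; right
        refine ⟨y1, hsub hy1, y2, hsub hy2, h1, h2, h3, h4, h5, ?_⟩
        have hyT1 : y1 ∉ T := (Finset.mem_sdiff.1 hy1).2
        have hyT2 : y2 ∉ T := (Finset.mem_sdiff.1 hy2).2
        have h7 := hp.union h6 (Finset.disjoint_of_subset_right
          ((Finset.erase_subset _ _).trans (Finset.erase_subset _ _))
          Finset.disjoint_sdiff) (fun u hu v hv => hind u (hTS hu) v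
            (hsub (Finset.mem_of_mem_erase (Finset.mem_of_mem_erase hv))))
        have e : T ∪ ((S \ T).erase y2).erase y1 = (S.erase y2).erase y1 := by
          ext z
          simp only [Finset.mem_union, Finset.mem_erase, Finset.mem_sdiff]
          constructor
          · rintro (h | ⟨h, h', h'', _⟩)
            · exact ⟨fun e => hyT1 (e ▸ h), fun e => hyT2 (e ▸ h), hTS h⟩
            · exact ⟨h, h', h''⟩
          · rintro ⟨h, h', h''⟩
            by_cases hz : z ∈ T
            · exact Or.inl hz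
            · exact Or.inr ⟨h, h', h'', hz⟩
        rw [e] at h7
        exact ⟨_, _, h7⟩
    by_cases hH : ∃ v ∈ S, Harm a s v
    · obtain ⟨v, hvS, hvH⟩ := hH
      exact rem {v} _ _ (by simpa using hvS) ⟨v, by simp⟩ (Plc.one hB ha hvH)
    · push Not at hH
      have hprop : ∀ v ∈ S, s v + a v < 0 ∧ (a v = 1 ∨ a v = 2) := by
        intro v hv
        have h1 := hH v hv
        unfold Harm at h1
        push Not at h1
        have := ha v
        exact ⟨h1.1, by omega⟩
      by_cases hpair : ∃ u ∈ S, ∃ v ∈ S, u ≠ v ∧ a u ≤ a v ∧ s u ≤ s v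
      · obtain ⟨u, hu, v, hv, huv, hauv, hsuv⟩ := hpair
        refine rem {u, v} _ _ ?_ ⟨u, by simp⟩ (Plc.pair hB ha huv (hH u hu) (hH v hv)
          (hind v hv u hu) hauv hsuv)
        intro z hz
        simp only [Finset.mem_insert, Finset.mem_singleton] at hz
        rcases hz with rfl | rfl
        · exact hu
        · exact hv
      · push Not at hpair
        have huniq : ∀ u ∈ S, ∀ v ∈ S, a u = a v → u = v := by
          intro u hu v hv hauv
          by_contra huv
          have h1 := hpair u hu v hv huv hauv.le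
          have h2 := hpair v hv u hu (Ne.symm huv) hauv.symm.le
          linarith
        rcases S.eq_empty_or_nonempty with rfl | ⟨v, hv⟩
        · exact Or.inl ⟨_, _, Plc.empty⟩
        · by_cases hone : S = {v}
          · right; left
            subst hone
            refine ⟨v, hv, (hprop v hv).1, ?_, ?_⟩
            · rcases (hprop v hv).2 with h | h
              · rw [h]
              · rw [h]; norm_num
            · rw [Finset.erase_singleton]
              exact ⟨_, _, Plc.empty⟩
          · right; right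
            obtain ⟨w, hw, hwv⟩ : ∃ w ∈ S, w ≠ v := by
              by_contra hcon
              push Not at hcon
              exact hone (Finset.eq_singleton_iff_unique_mem.2 ⟨hv, hcon⟩)
            obtain ⟨y1, hy1, y2, hy2, ha1, ha2, hy12⟩ : ∃ y1 ∈ S, ∃ y2 ∈ S, a y1 = 1 ∧ a y2 = 2 ∧
                y1 ≠ y2 := by
              rcases (hprop v hv).2 with h | h <;> rcases (hprop w hw).2 with h' | h'
              · exact absurd (huniq w hw v hv (by rw [h, h'])) hwv
              · exact ⟨v, hv, w, hw, h, h', hwv.symm⟩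
              · exact ⟨w, hw, v, hv, h', h, hwv⟩
              · exact absurd (huniq w hw v hv (by rw [h, h'])) hwv
            have h3 := hpair y1 hy1 y2 hy2 hy12 (by rw [ha1, ha2]; norm_num)
            refine ⟨y1, hy1, y2, hy2, hy12, ha1, ha2, ?_, h3, ?_⟩
            · have := (hprop y1 hy1).1
              rw [ha1] at this
              exact this
            · have : (S.erase y2).erase y1 = ∅ := by
                rw [Finset.eq_empty_iff_forall_notMem]
                intro z hz
                simp only [Finset.mem_erase] at hz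
                rcases (hprop z hz.2.2).2 with h | h
                · exact hz.1 (huniq z hz.2.2 y1 hy1 (by rw [h, ha1]))
                · exact hz.2.1 (huniq z hz.2.2 y2 hy2 (by rw [h, ha2]))
              rw [this]
              exact ⟨_, _, Plc.empty⟩

end blocks

end Pool.Agent.Exact
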